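import Pool.Agent.TN.Defs
import Pool.Agent.H19T.FDefs

/-!
# TN DirG: the condition (G) on the lattice implies `Dir v` for all `v ≠ 0`

(G): for every proper complex subspace `U` the real span of `Λ ∩ U` contains no complex line.

Let `H` be the closure of `ℂ v + Λ` (a closed subgroup) and `W = {e | ∀ t : ℝ, t e ∈ H} = {e | Reach v e}`, a real subspace with `v, i v ∈ W ⊆ H`.

(i) There is `ε > 0` with `H ∩ ball 0 ε ⊆ W`: otherwise take a real complement `W'` of `W`; there are `h n ∈ H`, not in `W`, `h n → 0`; their components `w n ∈ W'` are in `H` (`W ⊆ H`), not `0`, and tend to `0`; let `w n / ‖w n‖`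
tend to `e ∈ W'`, `‖e‖ = 1` (subsequence or ultrafilter); for real `t`: `⌊t / ‖w n‖⌋ • w n → t e`, so `t e ∈ H`, `e ∈ W ∩ W' = 0`, contradiction.
(ii) `W` is the real span of `Λ ∩ W`: let `w ∈ W`; for `m : ℕ` take `l m ∈ Λ` with `‖m w - l m‖ ≤ C` (`S.cpt`).  The components of the `l m` in `W'` are bounded and in `H ∩ W'`, which is discrete by (i), so they take finitely many
values; so there is an `m₀` such that `l m - l m₀ ∈ Λ ∩ W` for infinitely many `m`, and `(l m - l m₀) / (m - m₀) → w`.  The real span of `Λ ∩ W` is closed (finite dimension), so it contains `w`.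
(iii) Let `U` be the complex span of `W`.  If `U ≠ ⊤` then `v` and `i v` are in `W`, in the real span of `Λ ∩ W ⊆ Λ ∩ U`, so `v = 0` by (G), contradiction.  So `W` spans over `ℂ`, and there is a basis `v, e 0, ..., e (k - 1)` with
`e j ∈ W` (extend the independent family `v` inside the spanning set `W`: `exists_linearIndepOn_extension`, `Module.finrank`).

`G_of_nonell` (`k = 1`): a proper complex subspace `U` which contains `w ≠ 0` is `ℂ w`; if `w` and `i w` are in the real span of `Λ ∩ U` then `Λ ∩ U` contains two `ℝ`-independent vectors `ω₁ w`, `ω₂ w`.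
-/

set_option autoImplicit false

open Topology Filter Metric

namespace Pool.Agent.TN

open Pool.Agent.H36.BP (EN fs wd Sub)
open Pool.Agent.AD (Vd Chart Charts TorusMapV DiscreteSub)
open Pool.Agent.H19T (SpecialDir)

/-- condition (G): for every proper complex subspace `U` the real span of `Λ ∩ U` contains no complex line -/
def CondG {n : ℕ} (Λ : AddSubgroup (Vd n)) : Prop :=
  ∀ U : Submodule ℂ (Vd n), U ≠ ⊤ → ∀ w : Vd n, w ∈ Submodule.span ℝ {l : Vd n | l ∈ Λ ∧ l ∈ U} → Complex.I • w ∈ Submodule.span ℝ {l : Vd n | l ∈ Λ ∧ l ∈ U} → w = 0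

variable {N k : ℕ} {X : Set (EN N)}

/-- a real projection with a given kernel -/
lemma exists_proj {n : ℕ} (W : Submodule ℝ (Vd n)) :
    ∃ P : Vd n →L[ℝ] Vd n, (∀ x, x - P x ∈ W) ∧ (∀ x ∈ W, P x = 0) := by
  obtain ⟨W', hW'⟩ := Submodule.exists_isCompl W
  let f : Vd n →ₗ[ℝ] Vd n := W'.subtype ∘ₗ (Submodule.projectionOnto W' W hW'.symm)
  refine ⟨LinearMap.toContinuousLinearMap f, fun x => ?_, fun x hx => ?_⟩
  · have h1 : Submodule.projectionOnto W' W hW'.symm (x - f x) = 0 := by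
      rw [map_sub]
      have : Submodule.projectionOnto W' W hW'.symm (f x) = Submodule.projectionOnto W' W hW'.symm x :=
        Submodule.projectionOnto_apply_left hW'.symm _
      rw [this, sub_self]
    have h2 := (Submodule.projectionOnto_apply_eq_zero_iff hW'.symm).1 h1
    simpa using h2
  · have h1 : Submodule.projectionOnto W' W hW'.symm x = 0 :=
      (Submodule.projectionOnto_apply_eq_zero_iff hW'.symm).2 hx
    show (Submodule.projectionOnto W' W hW'.symm x : Vd n) = 0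
    rw [h1]; rfl

/-- a closed subgroup `H` and the set `W` of the real lines in `H`: near `0` the subgroup is in `W` -/
lemma near {n : ℕ} (H : AddSubgroup (Vd n)) (hc : IsClosed (H : Set (Vd n))) (W : Submodule ℝ (Vd n))
    (hW : ∀ e, e ∈ W ↔ ∀ t : ℝ, t • e ∈ H) : ∃ ε : ℝ, 0 < ε ∧ ∀ h ∈ H, ‖h‖ < ε → h ∈ W := by
  by_contra hcon
  push Not at hcon
  obtain ⟨P, hP1, hP2⟩ := exists_proj W
  have hWH : ∀ x ∈ W, x ∈ H := fun x hx => by simpa using (hW x).1 hx 1
  choose h hH hn hnW using fun m : ℕ => hcon (1 / ((m : ℝ) + 1)) (by positivity)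
  have hPP : ∀ x, P (P x) = P x := fun x => by
    have := hP2 _ (hP1 x)
    rw [map_sub, sub_eq_zero] at this
    exact this.symm
  set w : ℕ → Vd n := fun m => P (h m) with hw
  have hwH : ∀ m, w m ∈ H := fun m => by
    have := H.sub_mem (hH m) (hWH _ (hP1 (h m)))
    simpa using this
  have hw0 : ∀ m, w m ≠ 0 := fun m h0 => hnW m (by
    have := hP1 (h m)
    rw [show P (h m) = 0 from h0, sub_zero] at this
    exact this)
  have hh : Tendsto h atTop (𝓝 0) := by
    rw [tendsto_zero_iff_norm_tendsto_zero]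
    exact squeeze_zero (fun m => norm_nonneg _) (fun m => (hn m).le) tendsto_one_div_add_atTop_nhds_zero_nat
  have hwt : Tendsto w atTop (𝓝 0) := by
    have := (P.continuous.tendsto 0).comp hh
    rw [map_zero] at this
    exact this
  set s : ℕ → ℝ := fun m => ‖w m‖ with hs
  have hs0 : ∀ m, 0 < s m := fun m => norm_pos_iff.2 (hw0 m)
  have hst : Tendsto s atTop (𝓝 0) := by
    have := hwt.norm
    simpa using this
  set e : ℕ → Vd n := fun m => (s m)⁻¹ • w m with he
  have he1 : ∀ m, e m ∈ sphere (0 : Vd n) 1 := fun m => by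
    rw [mem_sphere_zero_iff_norm, he]
    simp only
    rw [norm_smul, norm_inv, Real.norm_of_nonneg (hs0 m).le]
    exact inv_mul_cancel₀ (hs0 m).ne'
  obtain ⟨a, ha, φ, hφ, hlim⟩ := (isCompact_sphere (0 : Vd n) 1).tendsto_subseq he1
  have hPa : P a = a := by
    have h1 : Tendsto (fun m => P (e (φ m))) atTop (𝓝 (P a)) := (P.continuous.tendsto a).comp hlim
    have h2 : (fun m => P (e (φ m))) = fun m => e (φ m) := by
      funext m
      rw [he]
      simp only [map_smul]
      rw [hw]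
      simp only [hPP]
    rw [h2] at h1
    exact tendsto_nhds_unique h1 hlim
  have haW : a ∈ W := by
    rw [hW]
    intro t
    have hsφ : Tendsto (fun m => s (φ m)) atTop (𝓝 0) := hst.comp hφ.tendsto_atTop
    have hfl : Tendsto (fun m => (⌊t / s (φ m)⌋ : ℝ) * s (φ m)) atTop (𝓝 t) := by
      have hb : ∀ m, |(⌊t / s (φ m)⌋ : ℝ) * s (φ m) - t| ≤ s (φ m) := fun m => by
        have hp := hs0 (φ m)
        have h1 := Int.floor_le (t / s (φ m))
        have h2 := Int.lt_floor_add_one (t / s (φ m))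
        rw [le_div_iff₀ hp] at h1
        rw [div_lt_iff₀ hp] at h2
        rw [abs_le]
        constructor <;> nlinarith
      rw [tendsto_iff_norm_sub_tendsto_zero]
      exact squeeze_zero (fun m => norm_nonneg _) hb hsφ
    have hl2 := hfl.smul hlim
    refine hc.mem_of_tendsto hl2 (Eventually.of_forall fun m => ?_)
    have : ((⌊t / s (φ m)⌋ : ℝ) * s (φ m)) • (e ∘ φ) m = ⌊t / s (φ m)⌋ • w (φ m) := by
      simp only [Function.comp, he]
      rw [smul_smul, mul_assoc, mul_inv_cancel₀ (hs0 _).ne', mul_one, Int.cast_smul_eq_zsmul]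
    show ((⌊t / s (φ m)⌋ : ℝ) * s (φ m)) • (e ∘ φ) m ∈ H
    rw [this]
    exact H.zsmul_mem (hwH _) _
  have h0 : a = 0 := by rw [← hPa]; exact hP2 a haW
  rw [mem_sphere_zero_iff_norm, h0, norm_zero] at ha
  exact zero_ne_one ha

/-- the subspace `W` is spanned by the lattice vectors in it -/
lemma span_lattice {n : ℕ} (Λ H : AddSubgroup (Vd n)) (hc : IsClosed (H : Set (Vd n))) (W : Submodule ℝ (Vd n))
    (hW : ∀ e, e ∈ W ↔ ∀ t : ℝ, t • e ∈ H) (hΛ : Λ ≤ H) {C : ℝ} (hC : ∀ b : Vd n, ∃ l ∈ Λ, ‖b - l‖ ≤ C) :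
    W ≤ Submodule.span ℝ {l : Vd n | l ∈ Λ ∧ l ∈ W} := by
  obtain ⟨ε, hε, hnear⟩ := near H hc W hW
  obtain ⟨P, hP1, hP2⟩ := exists_proj W
  have hWH : ∀ x ∈ W, x ∈ H := fun x hx => by simpa using (hW x).1 hx 1
  intro w hw
  choose l hl hlC using fun m : ℕ => hC ((m : ℝ) • w)
  have hC0 : 0 ≤ C := (norm_nonneg _).trans (hlC 0)
  have hPb : ∀ m, P (l m) ∈ closedBall (0 : Vd n) (‖P‖ * C) := fun m => by
    rw [mem_closedBall_zero_iff]
    have h1 : P (l m) = -P ((m : ℝ) • w - l m) := by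
      rw [map_sub, map_smul, hP2 w hw, smul_zero, zero_sub, neg_neg]
    rw [h1, norm_neg]
    exact (P.le_opNorm _).trans (by gcongr; exact hlC m)
  obtain ⟨a, -, φ, hφ, hlim⟩ := (isCompact_closedBall (0 : Vd n) (‖P‖ * C)).tendsto_subseq hPb
  have hcau := hlim.cauchySeq
  rw [Metric.cauchySeq_iff'] at hcau
  obtain ⟨M, hM⟩ := hcau ε hε
  have hdiff : ∀ m ≥ M, l (φ m) - l (φ M) ∈ W := fun m hm => by
    have h1 := hM m hm
    rw [dist_eq_norm] at h1
    have h2 : P (l (φ m)) - P (l (φ M)) = P (l (φ m) - l (φ M)) := (map_sub _ _ _).symm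
    have h3 : ‖P (l (φ m) - l (φ M))‖ < ε := by rw [← h2]; exact h1
    have h4 : P (l (φ m) - l (φ M)) ∈ H := by
      have := H.sub_mem (hΛ (Λ.sub_mem (hl (φ m)) (hl (φ M)))) (hWH _ (hP1 (l (φ m) - l (φ M))))
      simpa using this
    have h5 := hnear _ h4 h3
    have h6 := W.add_mem (hP1 (l (φ m) - l (φ M))) h5
    simpa using h6
  have hcl : IsClosed ((Submodule.span ℝ {l : Vd n | l ∈ Λ ∧ l ∈ W} : Submodule ℝ (Vd n)) : Set (Vd n)) :=
    Submodule.closed_of_finiteDimensional _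
  have hph : Tendsto (fun m => ((φ m : ℝ) - (φ M : ℝ))) atTop atTop := by
    have := (tendsto_natCast_atTop_atTop (R := ℝ)).comp hφ.tendsto_atTop
    exact tendsto_atTop_add_const_right _ (-(φ M : ℝ)) this
  have hlim2 : Tendsto (fun m => ((φ m : ℝ) - (φ M : ℝ))⁻¹ • (l (φ m) - l (φ M))) atTop (𝓝 w) := by
    rw [tendsto_iff_norm_sub_tendsto_zero]
    have hb : ∀ᶠ m in atTop, ‖((φ m : ℝ) - (φ M : ℝ))⁻¹ • (l (φ m) - l (φ M)) - w‖ ≤ ((φ m : ℝ) - (φ M : ℝ))⁻¹ * (2 * C) := by
      filter_upwards [hph.eventually_gt_atTop 0] with m hm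
      have h1 : ((φ m : ℝ) - (φ M : ℝ))⁻¹ • (l (φ m) - l (φ M)) - w
          = ((φ m : ℝ) - (φ M : ℝ))⁻¹ • (((φ M : ℝ) • w - l (φ M)) - ((φ m : ℝ) • w - l (φ m))) := by
        have h2 : w = ((φ m : ℝ) - (φ M : ℝ))⁻¹ • (((φ m : ℝ) - (φ M : ℝ)) • w) := by
          rw [smul_smul, inv_mul_cancel₀ hm.ne', one_smul]
        conv_lhs => rw [h2]
        rw [← smul_sub]
        congr 1
        rw [sub_smul]
        abel
      rw [h1, norm_smul, norm_inv, Real.norm_of_nonneg hm.le]
      gcongr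
      refine (norm_sub_le _ _).trans ?_
      have := hlC (φ m)
      have := hlC (φ M)
      linarith
    refine squeeze_zero' (Eventually.of_forall fun m => norm_nonneg _) hb ?_
    have := (tendsto_inv_atTop_zero.comp hph).mul_const (2 * C)
    simpa using this
  refine hcl.mem_of_tendsto hlim2 ?_
  filter_upwards [eventually_ge_atTop M] with m hm
  exact Submodule.smul_mem _ _ (Submodule.subset_span ⟨Λ.sub_mem (hl _) (hl _), hdiff m hm⟩)

/-- a basis inside a spanning set, with given first vector -/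
lemma exists_basis_cons {k : ℕ} {W : Set (Vd (k + 1))} (hW : Submodule.span ℂ W = ⊤) {v : Vd (k + 1)} (hv : v ≠ 0) (hvW : v ∈ W) :
    ∃ e : Fin k → Vd (k + 1), LinearIndependent ℂ (Fin.cons v e : Fin (k + 1) → Vd (k + 1)) ∧ ∀ j, e j ∈ W := by
  have h1 : LinearIndepOn ℂ id ({v} : Set (Vd (k + 1))) := LinearIndepOn.singleton hv
  obtain ⟨b, hbW, hvb, hWb, hli⟩ := exists_linearIndepOn_id_extension h1 (Set.singleton_subset_iff.2 hvW)
  have hbtop : Submodule.span ℂ b = ⊤ := by
    rw [eq_top_iff, ← hW]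
    exact Submodule.span_le.2 hWb
  have hfin : b.Finite := hli.setFinite
  have hcard : Nat.card b = k + 1 := by
    have := hfin.fintype
    have h2 := finrank_span_set_eq_card hli
    rw [hbtop, finrank_top, Module.finrank_fin_fun] at h2
    rw [Nat.card_eq_fintype_card, ← Set.toFinset_card, ← h2]
  have hvb' : v ∈ b := hvb rfl
  have hcard2 : (b \ {v}).ncard = k := by
    have h3 := Set.ncard_sdiff_singleton_of_mem hvb'
    rw [h3, ← Nat.card_coe_set_eq, hcard]
    rfl
  have : Finite (b \ {v} : Set (Vd (k + 1))) := (hfin.subset Set.sdiff_subset)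
  have hcard3 : Nat.card (b \ {v} : Set (Vd (k + 1))) = k := by rw [Nat.card_coe_set_eq]; exact hcard2
  let eq := (Finite.equivFinOfCardEq hcard3).symm
  refine ⟨fun j => (eq j : Vd (k + 1)), ?_, fun j => hbW (eq j).2.1⟩
  apply linearIndependent_of_top_le_span_of_card_eq_finrank
  · rw [← hbtop, Submodule.span_le]
    intro x hx
    by_cases hxv : x = v
    · rw [hxv]
      exact Submodule.subset_span ⟨0, by simp⟩
    · refine Submodule.subset_span ⟨(eq.symm ⟨x, hx, hxv⟩).succ, ?_⟩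
      simp
  · simp

theorem Setting.dir_of_not_special (S : Setting k X) {v : Vd (k + 1)} (hv : v ≠ 0) (hG : ¬ SpecialDir S.Λ v) : S.Dir v := by
  classical
  set D : AddSubgroup (Vd (k + 1)) := (Submodule.span ℂ {v}).toAddSubgroup ⊔ S.Λ with hD
  set H : AddSubgroup (Vd (k + 1)) := D.topologicalClosure with hH
  have hc : IsClosed (H : Set (Vd (k + 1))) := D.isClosed_topologicalClosure
  have hmem : ∀ x : Vd (k + 1), x ∈ H ↔ ∀ ε : ℝ, 0 < ε → ∃ z : ℂ, ∃ l ∈ S.Λ, ‖z • v + l - x‖ < ε := by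
    intro x
    have h1 : x ∈ H ↔ x ∈ closure (D : Set (Vd (k + 1))) := Iff.rfl
    rw [h1, Metric.mem_closure_iff]
    constructor
    · intro h ε hε
      obtain ⟨y, hy, hxy⟩ := h ε hε
      obtain ⟨a, ha, l, hl, hal⟩ := AddSubgroup.mem_sup.1 hy
      obtain ⟨z, hz⟩ := Submodule.mem_span_singleton.1 ha
      refine ⟨z, l, hl, ?_⟩
      rw [hz, hal, ← dist_eq_norm, dist_comm]
      exact hxy
    · intro h ε hε
      obtain ⟨z, l, hl, hzl⟩ := h ε hε
      refine ⟨z • v + l, AddSubgroup.mem_sup.2 ⟨z • v, Submodule.mem_span_singleton.2 ⟨z, rfl⟩, l, hl, rfl⟩, ?_⟩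
      rw [dist_comm, dist_eq_norm]
      exact hzl
  have hsm : ∀ (t : ℝ) (e : Vd (k + 1)), (t : ℂ) • e = t • e := fun t e => by
    funext i; simp
  have hreach : ∀ e, S.Reach v e ↔ ∀ t : ℝ, t • e ∈ H := by
    intro e
    constructor
    · intro h t
      rw [hmem]
      intro ε hε
      rw [← hsm]
      exact h t ε hε
    · intro h t ε hε
      have := (hmem _).1 (h t) ε hε
      rwa [← hsm] at this
  let W : Submodule ℝ (Vd (k + 1)) :=
    { carrier := {e | S.Reach v e}
      add_mem' := fun {a b} ha hb => by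
        have ha' := (hreach a).1 ha
        have hb' := (hreach b).1 hb
        refine (hreach _).2 fun t => ?_
        rw [smul_add]
        exact H.add_mem (ha' t) (hb' t)
      zero_mem' := (hreach _).2 fun t => by rw [smul_zero]; exact H.zero_mem
      smul_mem' := fun c {a} ha => by
        have ha' := (hreach a).1 ha
        refine (hreach _).2 fun t => ?_
        rw [smul_smul]
        exact ha' _ }
  have hW : ∀ e, e ∈ W ↔ ∀ t : ℝ, t • e ∈ H := hreach
  have hvW : v ∈ W := by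
    rw [hW]
    intro t
    rw [hmem]
    intro ε hε
    refine ⟨(t : ℂ), 0, S.Λ.zero_mem, ?_⟩
    rw [hsm, add_zero, sub_self, norm_zero]
    exact hε
  have hivW : Complex.I • v ∈ W := by
    rw [hW]
    intro t
    rw [hmem]
    intro ε hε
    refine ⟨(t : ℂ) * Complex.I, 0, S.Λ.zero_mem, ?_⟩
    rw [mul_smul, hsm, add_zero, sub_self, norm_zero]
    exact hε
  have hΛ : S.Λ ≤ H := fun l hl => D.le_topologicalClosure (AddSubgroup.mem_sup_right hl)
  obtain ⟨C, hC⟩ := S.cpt
  have hspan := span_lattice S.Λ H hc W hW hΛ hC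
  have htop : Submodule.span ℂ (W : Set (Vd (k + 1))) = ⊤ := by
    by_contra hne
    have hle : W ≤ Submodule.span ℝ {l : Vd (k + 1) | l ∈ S.Λ ∧ l ∈ Submodule.span ℂ (W : Set (Vd (k + 1)))} :=
      hspan.trans (Submodule.span_mono fun l hl => ⟨hl.1, Submodule.subset_span hl.2⟩)
    exact hG ⟨_, hne, hle hvW, hle hivW⟩
  obtain ⟨e, he, heW⟩ := exists_basis_cons htop hv hvW
  exact ⟨hv, e, he, heW⟩

theorem Setting.dir_of_G (S : Setting k X) (hG : CondG S.Λ) {v : Vd (k + 1)} (hv : v ≠ 0) : S.Dir v :=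
  S.dir_of_not_special hv fun ⟨U, hU, h1, h2⟩ => hv (hG U hU v h1 h2)

theorem G_of_nonell {Λ : AddSubgroup (Vd 2)} (hne : ∀ v : Vd 2, v ≠ 0 → ∀ ω₁ ω₂ : ℂ, LinearIndependent ℝ ![ω₁, ω₂] → ω₁ • v ∈ Λ → ω₂ • v ∉ Λ) : CondG Λ := by
  intro U hU w hw hiw
  by_contra hw0
  have hspU : Submodule.span ℝ {l : Vd 2 | l ∈ Λ ∧ l ∈ U} ≤ U.restrictScalars ℝ :=
    Submodule.span_le.2 fun l hl => hl.2
  have hwU : w ∈ U := hspU hw
  have hfr : Module.finrank ℂ U < 2 := by
    have h1 := Submodule.finrank_lt hU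
    rwa [Module.finrank_fin_fun] at h1
  have hmul : ∀ x ∈ U, ∃ c : ℂ, x = c • w := by
    intro x hx
    by_contra hcon
    have hli : LinearIndependent ℂ ![(⟨w, hwU⟩ : U), ⟨x, hx⟩] := by
      rw [LinearIndependent.pair_iff' (by simpa [Subtype.ext_iff] using hw0)]
      intro a ha
      apply hcon
      exact ⟨a, (congrArg Subtype.val ha).symm⟩
    have := hli.fintype_card_le_finrank
    simp at this
    omega
  let f : ℂ →ₗ[ℝ] Vd 2 := (LinearMap.toSpanSingleton ℂ (Vd 2) w).restrictScalars ℝ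
  have hf : ∀ z, f z = z • w := fun z => rfl
  have hinj : Function.Injective f := by
    intro a b hab
    rw [hf, hf] at hab
    exact smul_left_injective ℂ hw0 hab
  set Γ : Set ℂ := {z | z • w ∈ Λ} with hΓ
  have himg : Submodule.span ℝ {l : Vd 2 | l ∈ Λ ∧ l ∈ U} ≤ (Submodule.span ℝ Γ).map f := by
    rw [Submodule.map_span]
    apply Submodule.span_mono
    rintro l ⟨hl, hlU⟩
    obtain ⟨c, rfl⟩ := hmul l hlU
    exact ⟨c, hl, rfl⟩
  have h1 : (1 : ℂ) ∈ Submodule.span ℝ Γ := by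
    obtain ⟨z, hz, hzw⟩ := himg hw
    have : z = 1 := hinj (by rw [hzw, hf, one_smul])
    rwa [this] at hz
  have hI : Complex.I ∈ Submodule.span ℝ Γ := by
    obtain ⟨z, hz, hzw⟩ := himg hiw
    have : z = Complex.I := hinj (by rw [hzw, hf])
    rwa [this] at hz
  have htop : Submodule.span ℝ Γ = ⊤ := by
    rw [eq_top_iff]
    intro z _
    have : z = z.re • (1 : ℂ) + z.im • Complex.I := by
      apply Complex.ext <;> simp
    rw [this]
    exact Submodule.add_mem _ (Submodule.smul_mem _ _ h1) (Submodule.smul_mem _ _ hI)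
  obtain ⟨g, hgΓ, -, hgl⟩ := Submodule.exists_fun_fin_finrank_span_eq ℝ Γ
  have h2 : Module.finrank ℝ (Submodule.span ℝ Γ) = 2 := by
    rw [htop, finrank_top, Complex.finrank_real_complex]
  have key : ∀ m : ℕ, m = 2 → ∀ g : Fin m → ℂ, (∀ i, g i ∈ Γ) → LinearIndependent ℝ g → False := by
    rintro m rfl g hg hl
    have h3 : ![g 0, g 1] = g := by
      funext i; fin_cases i <;> rfl
    exact hne w hw0 (g 0) (g 1) (by rw [h3]; exact hl) (hg 0) (hg 1)
  exact key _ h2 g hgΓ hgl

end Pool.Agent.TN
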