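import Pool.Agent.TN.Pair

/-!
# TN Sep: separation of two curves over the same line

Port of `TH/Sep.lean`; the proofs do not use the dimensions.
-/

set_option autoImplicit false

open Topology Filter Metric

namespace Pool.Agent.TN

open Pool.Agent.H36.BP (EN fs wd Sub)
open Pool.Agent.H14.PP (IsCone CurveAt Tan)
open Pool.Agent.H62.EF (MN pr)
open Pool.Agent.H5.BD (BC evp)
open Pool.Agent.AD (Vd Chart Charts TorusMapV DiscreteSub)
open Pool.Agent.AD.BD (Atlas LC Good qc)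

variable {N k : ℕ} {X : Set (EN N)}

namespace Setting

variable (S : Setting k X)

theorem decay {v : Vd (k + 1)} (hD : S.Dir v) : ∃ ρ ε₁ C κ : ℝ, 0 < ρ ∧ 0 < ε₁ ∧ 0 < κ ∧ ∀ b, ∀ F ∈ S.G v b, ∀ G ∈ S.G v b, ∀ (z₀ : ℂ) (R : ℝ), 4 * ρ ≤ R →
    (∀ z ∈ ball z₀ R, pd F G z ≤ ε₁) → ∀ z, ‖z - z₀‖ ≤ R - 4 * ρ → pd F G z ≤ C * Real.exp (-κ * R) := by
  obtain ⟨κ, ρ, ε₁, ε₂, hκ, hρ, hε₁, hε₂, hpair⟩ := S.pair_max hD
  obtain ⟨C, δ, hC, hδ, hdsp⟩ := S.dsp_pd
  have hC0 : 0 < C := lt_of_lt_of_le one_pos hC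
  obtain ⟨ε, hε0, hεε₁, hεδ⟩ : ∃ ε : ℝ, 0 < ε ∧ ε ≤ ε₁ ∧ ε ≤ δ := ⟨min ε₁ δ, lt_min hε₁ hδ, min_le_left _ _, min_le_right _ _⟩
  refine ⟨ρ, ε, C * (2 * (C * ε) * Real.exp (16 * κ * ρ ^ 2)), 6 * κ * ρ, hρ, hε0, by positivity, ?_⟩
  intro b F hF G hG z₀ R hR hpd z hz
  have hRρ : 0 < R - ρ := by linarith
  -- the bound of the displacement
  have hD0 : ∀ w ∈ ball z₀ R, ‖S.dsp F G w‖ ≤ C * ε := fun w hw =>
    (hdsp F G hF.2.1 hG.2.1 w ((hpd w hw).trans hεδ)).1.trans (mul_le_mul_of_nonneg_left (hpd w hw) hC0.le)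
  set ω : ℂ → ℝ := fun w => Real.exp (κ * (R ^ 2 - ‖w - z₀‖ ^ 2)) with hω
  have hωpos : ∀ w, 0 < ω w := fun w => Real.exp_pos _
  set B : ℝ := Real.exp (2 * κ * R * ρ) * (C * ε) with hB
  have hB0 : 0 < B := by positivity
  -- the claim
  have key : ∀ w ∈ ball z₀ (R - ρ), ω w * ‖S.dsp F G w‖ ≤ 2 * B := by
    by_contra hcon
    push_neg at hcon
    obtain ⟨w₀, hw₀, hw₀'⟩ := hcon
    set A : Set ℝ := (fun w => ω w * ‖S.dsp F G w‖) '' ball z₀ (R - ρ) with hA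
    have hAne : A.Nonempty := ⟨_, w₀, hw₀, rfl⟩
    have hAbd : BddAbove A := by
      refine ⟨Real.exp (κ * R ^ 2) * (C * ε), ?_⟩
      rintro _ ⟨w, hw, rfl⟩
      refine mul_le_mul ?_ (hD0 w (ball_subset_ball (by linarith) hw)) (norm_nonneg _) (Real.exp_pos _).le
      refine Real.exp_le_exp.mpr (mul_le_mul_of_nonneg_left ?_ hκ.le)
      nlinarith [norm_nonneg (w - z₀)]
    set s : ℝ := sSup A with hs
    have hle : ∀ w ∈ ball z₀ (R - ρ), ω w * ‖S.dsp F G w‖ ≤ s := fun w hw => le_csSup hAbd ⟨w, hw, rfl⟩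
    have hs0 : 2 * B < s := lt_of_lt_of_le hw₀' (hle w₀ hw₀)
    obtain ⟨_, ⟨z₁, hz₁, rfl⟩, hlt⟩ := exists_lt_of_lt_csSup hAne (show s / 2 < s by linarith)
    have hlt' : s / 2 < ω z₁ * ‖S.dsp F G z₁‖ := hlt
    have hz₁' : ‖z₁ - z₀‖ < R - ρ := by
      rw [← dist_eq_norm]
      exact mem_ball.mp hz₁
    have hsub : ∀ w ∈ ball z₁ ρ, w ∈ ball z₀ R := by
      intro w hw
      rw [mem_ball, dist_eq_norm] at hw ⊢
      calc ‖w - z₀‖ = ‖(w - z₁) + (z₁ - z₀)‖ := by congr 1; ring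
        _ ≤ ‖w - z₁‖ + ‖z₁ - z₀‖ := norm_add_le _ _
        _ < R := by linarith
    have h2 : ∀ w ∈ ball z₁ ρ, ω w * ‖S.dsp F G w‖ ≤ 2 * (ω z₁ * ‖S.dsp F G z₁‖) := by
      intro w hw
      by_cases hw' : w ∈ ball z₀ (R - ρ)
      · have := hle w hw'
        linarith
      · rw [mem_ball, dist_eq_norm, not_lt] at hw'
        have h3 : ω w * ‖S.dsp F G w‖ ≤ B := by
          refine mul_le_mul ?_ (hD0 w (hsub w hw)) (norm_nonneg _) (Real.exp_pos _).le
          refine Real.exp_le_exp.mpr ?_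
          have h4 : (R - ρ) ^ 2 ≤ ‖w - z₀‖ ^ 2 := pow_le_pow_left₀ hRρ.le hw' 2
          have h5 : R ^ 2 - ‖w - z₀‖ ^ 2 ≤ 2 * R * ρ := by nlinarith
          calc κ * (R ^ 2 - ‖w - z₀‖ ^ 2) ≤ κ * (2 * R * ρ) := mul_le_mul_of_nonneg_left h5 hκ.le
            _ = 2 * κ * R * ρ := by ring
        linarith
    have h0 : S.dsp F G z₁ = 0 := by
      refine hpair b b F hF G hG z₁ (((-2 * κ : ℝ) : ℂ) * (starRingEnd ℂ) (z₁ - z₀)) 0 S.Λ.zero_mem (fun w hw => (hpd w (hsub w hw)).trans hεε₁) ?_ ?_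
      · intro w hw
        rw [Complex.norm_exp]
        have h6 : ((((-2 * κ : ℝ) : ℂ) * (starRingEnd ℂ) (z₁ - z₀)) * (w - z₁)).re = κ * ‖w - z₁‖ ^ 2 + (κ * ‖z₁ - z₀‖ ^ 2 - κ * ‖w - z₀‖ ^ 2) := by
          have e1 : ‖w - z₁‖ ^ 2 = (w - z₁).re ^ 2 + (w - z₁).im ^ 2 := by
            rw [← Complex.normSq_eq_norm_sq, Complex.normSq_apply]; ring
          have e2 : ‖z₁ - z₀‖ ^ 2 = (z₁ - z₀).re ^ 2 + (z₁ - z₀).im ^ 2 := by
            rw [← Complex.normSq_eq_norm_sq, Complex.normSq_apply]; ring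
          have e3 : ‖w - z₀‖ ^ 2 = (w - z₀).re ^ 2 + (w - z₀).im ^ 2 := by
            rw [← Complex.normSq_eq_norm_sq, Complex.normSq_apply]; ring
          rw [e1, e2, e3]
          simp only [Complex.mul_re, Complex.mul_im, Complex.ofReal_re, Complex.ofReal_im, Complex.conj_re, Complex.conj_im, Complex.sub_re, Complex.sub_im]
          ring
        rw [h6, Real.exp_add]
        have h7 : Real.exp (κ * ‖z₁ - z₀‖ ^ 2 - κ * ‖w - z₀‖ ^ 2) * ω z₁ = ω w := by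
          rw [hω]
          simp only
          rw [← Real.exp_add]
          congr 1
          ring
        have h8 := h2 w hw
        have h9 := hωpos z₁
        have h10 : 0 < Real.exp (κ * ‖w - z₁‖ ^ 2) := Real.exp_pos _
        have h11 : ‖S.dsp F G w‖ * Real.exp (κ * ‖z₁ - z₀‖ ^ 2 - κ * ‖w - z₀‖ ^ 2) ≤ 2 * ‖S.dsp F G z₁‖ := by
          rw [← h7] at h8
          have h12 : ω z₁ * (‖S.dsp F G w‖ * Real.exp (κ * ‖z₁ - z₀‖ ^ 2 - κ * ‖w - z₀‖ ^ 2)) ≤ ω z₁ * (2 * ‖S.dsp F G z₁‖) := by linarith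
          exact le_of_mul_le_mul_left h12 h9
        calc ‖S.dsp F G w‖ * (Real.exp (κ * ‖w - z₁‖ ^ 2) * Real.exp (κ * ‖z₁ - z₀‖ ^ 2 - κ * ‖w - z₀‖ ^ 2))
            = (‖S.dsp F G w‖ * Real.exp (κ * ‖z₁ - z₀‖ ^ 2 - κ * ‖w - z₀‖ ^ 2)) * Real.exp (κ * ‖w - z₁‖ ^ 2) := by ring
          _ ≤ (2 * ‖S.dsp F G z₁‖) * Real.exp (κ * ‖w - z₁‖ ^ 2) := mul_le_mul_of_nonneg_right h11 h10.le
      · intro w _
        simp only [sub_self, norm_zero, zero_mul]
        positivity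
    rw [h0, norm_zero, mul_zero] at hlt'
    linarith
  -- conclusion
  have hzb : z ∈ ball z₀ (R - ρ) := by
    rw [mem_ball, dist_eq_norm]
    linarith
  have hzR : z ∈ ball z₀ R := ball_subset_ball (by linarith) hzb
  have h1 := key z hzb
  have h2 : Real.exp (κ * (8 * R * ρ - 16 * ρ ^ 2)) ≤ ω z := by
    refine Real.exp_le_exp.mpr (mul_le_mul_of_nonneg_left ?_ hκ.le)
    have h3 : ‖z - z₀‖ ^ 2 ≤ (R - 4 * ρ) ^ 2 := pow_le_pow_left₀ (norm_nonneg _) hz 2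
    nlinarith
  have h3 : Real.exp (κ * (8 * R * ρ - 16 * ρ ^ 2)) * ‖S.dsp F G z‖ ≤ 2 * B := (mul_le_mul_of_nonneg_right h2 (norm_nonneg _)).trans h1
  have h4 : ‖S.dsp F G z‖ ≤ 2 * (C * ε) * Real.exp (16 * κ * ρ ^ 2) * Real.exp (-(6 * κ * ρ) * R) := by
    have h5 : Real.exp (κ * (8 * R * ρ - 16 * ρ ^ 2)) * (2 * (C * ε) * Real.exp (16 * κ * ρ ^ 2) * Real.exp (-(6 * κ * ρ) * R)) = 2 * B := by
      rw [hB]
      have h6 : Real.exp (κ * (8 * R * ρ - 16 * ρ ^ 2)) * Real.exp (16 * κ * ρ ^ 2) * Real.exp (-(6 * κ * ρ) * R) = Real.exp (2 * κ * R * ρ) := by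
        rw [← Real.exp_add, ← Real.exp_add]
        congr 1
        ring
      rw [← h6]
      ring
    rw [← h5] at h3
    exact le_of_mul_le_mul_left h3 (Real.exp_pos _)
  have h5 := (hdsp F G hF.2.1 hG.2.1 z ((hpd z hzR).trans hεδ)).2
  calc pd F G z ≤ C * ‖S.dsp F G z‖ := h5
    _ ≤ C * (2 * (C * ε) * Real.exp (16 * κ * ρ ^ 2) * Real.exp (-(6 * κ * ρ) * R)) := mul_le_mul_of_nonneg_left h4 hC0.le
    _ = C * (2 * (C * ε) * Real.exp (16 * κ * ρ ^ 2)) * Real.exp (-(6 * κ * ρ) * R) := by ring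

/-- two entire curves which agree on a ball agree -/
private theorem pr_eq_of_ball {F G : ℂ → EN N} (hF : Differentiable ℂ F) (hG : Differentiable ℂ G) (hF0 : ∀ z, F z ≠ 0) (hG0 : ∀ z, G z ≠ 0) {c : ℂ} {r : ℝ} (hr : 0 < r)
    (h : ∀ z ∈ ball c r, pr (F z) = pr (G z)) (z : ℂ) : pr (F z) = pr (G z) := by
  have hcoord : ∀ {H : ℂ → EN N}, Differentiable ℂ H → ∀ i, Differentiable ℂ (fun w => H w i) := by
    intro H hH i
    exact (EuclideanSpace.proj (𝕜 := ℂ) i).differentiable.comp hH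
  have hminor : ∀ i j, F z i * G z j = F z j * G z i := by
    intro i j
    have h1 : Differentiable ℂ (fun w => F w i * G w j) := (hcoord hF i).mul (hcoord hG j)
    have h2 : Differentiable ℂ (fun w => F w j * G w i) := (hcoord hF j).mul (hcoord hG i)
    have h3 : (fun w => F w i * G w j) = fun w => F w j * G w i := by
      refine AnalyticOnNhd.eq_of_eventuallyEq (𝕜 := ℂ) (z₀ := c) (fun x _ => h1.analyticAt x) (fun x _ => h2.analyticAt x) ?_
      filter_upwards [ball_mem_nhds c hr] with w hw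
      obtain ⟨a, _, ha⟩ := (Pool.Agent.H62.EF.pr_eq_iff (hF0 w) (hG0 w)).mp (h w hw)
      simp only [ha, PiLp.smul_apply, smul_eq_mul]
      ring
    exact congrFun h3 z
  obtain ⟨j, hj⟩ : ∃ j, G z j ≠ 0 := by
    by_contra hcon
    push_neg at hcon
    exact hG0 z (by ext j; simpa using hcon j)
  have h4 : F z = (F z j / G z j) • G z := by
    ext i
    rw [PiLp.smul_apply, smul_eq_mul, div_mul_eq_mul_div, eq_div_iff hj]
    exact hminor i j
  refine (Pool.Agent.H62.EF.pr_eq_iff (hF0 z) (hG0 z)).mpr ⟨F z j / G z j, ?_, h4⟩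
  intro h0
  rw [h0, zero_smul] at h4
  exact hF0 z h4

theorem sep {v : Vd (k + 1)} (hD : S.Dir v) : ∃ ε₁ R₁ : ℝ, 0 < ε₁ ∧ 0 < R₁ ∧ ∀ b, ∀ F ∈ S.G v b, ∀ G ∈ S.G v b, ∀ z₀, (∀ z ∈ ball z₀ R₁, pd F G z ≤ ε₁) →
    ∀ z, pr (F z) = pr (G z) := by
  obtain ⟨ρ, ε₁, C, κ, hρ, hε₁, hκ, hdec⟩ := S.decay hD
  by_contra hcon
  push_neg at hcon
  -- a bad pair for every radius, with the largest radius
  have hbad : ∀ n : ℕ, ∃ (b : Vd (k + 1)) (F G : ℂ → EN N) (z₀ y : ℂ) (R : ℝ), F ∈ S.G v b ∧ G ∈ S.G v b ∧ (n : ℝ) + 8 * ρ ≤ R ∧ (∀ z ∈ ball z₀ R, pd F G z ≤ ε₁) ∧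
      R ≤ ‖y - z₀‖ ∧ ‖y - z₀‖ < R + ρ ∧ ε₁ < pd F G y := by
    intro n
    obtain ⟨b, F, hF, G, hG, z₀, hpd, z, hz⟩ := hcon ε₁ ((n : ℝ) + 8 * ρ) hε₁ (by positivity)
    by_contra hno
    push_neg at hno
    have hstep : ∀ j : ℕ, ∀ w ∈ ball z₀ ((n : ℝ) + 8 * ρ + j * ρ), pd F G w ≤ ε₁ := by
      intro j
      induction j with
      | zero => simpa using hpd
      | succ j ih =>
        intro w hw
        by_contra hw2
        rw [not_le] at hw2
        have hkρ : (0 : ℝ) ≤ j * ρ := by positivity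
        have h1 : (n : ℝ) + 8 * ρ + j * ρ ≤ ‖w - z₀‖ := by
          by_contra h1
          rw [not_le] at h1
          exact absurd (ih w (by rwa [mem_ball, dist_eq_norm])) (not_le.mpr hw2)
        have h2 : ‖w - z₀‖ < (n : ℝ) + 8 * ρ + j * ρ + ρ := by
          rw [mem_ball, dist_eq_norm] at hw
          push_cast at hw
          linarith
        exact absurd (hno b F G z₀ w ((n : ℝ) + 8 * ρ + j * ρ) hF hG (by linarith) ih h1 h2) (not_le.mpr hw2)
    -- so the curves are equal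
    apply hz
    have h0 : ∀ᶠ j : ℕ in atTop, pd F G z ≤ C * Real.exp (-κ * ((n : ℝ) + 8 * ρ + j * ρ)) := by
      obtain ⟨j₀, hj₀⟩ := exists_nat_ge (‖z - z₀‖ / ρ)
      filter_upwards [eventually_ge_atTop j₀] with j hk
      refine hdec b F hF G hG z₀ _ (by have : (0 : ℝ) ≤ j * ρ := by positivity
                                       have : (0 : ℝ) ≤ (n : ℝ) := by positivity
                                       linarith) (hstep j) z ?_
      have h1 : ‖z - z₀‖ ≤ j * ρ := by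
        have : ‖z - z₀‖ / ρ ≤ j := hj₀.trans (by exact_mod_cast hk)
        rwa [div_le_iff₀ hρ] at this
      have : (0 : ℝ) ≤ (n : ℝ) := by positivity
      linarith
    have h1 : Tendsto (fun j : ℕ => C * Real.exp (-κ * ((n : ℝ) + 8 * ρ + j * ρ))) atTop (𝓝 (C * 0)) := by
      refine Tendsto.const_mul C (Real.tendsto_exp_atBot.comp ?_)
      refine Tendsto.const_mul_atTop_of_neg (by linarith) ?_
      refine tendsto_atTop_add_const_left _ _ ?_
      exact Tendsto.atTop_mul_const hρ tendsto_natCast_atTop_atTop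
    have h2 : pd F G z ≤ C * 0 := ge_of_tendsto h1 h0
    rw [mul_zero] at h2
    exact dist_le_zero.mp h2
  choose b F G z₀ y R hF hG hR hpd hy1 hy2 hy3 using hbad
  set 𝒰 : Ultrafilter ℕ := Filter.hyperfilter ℕ with h𝒰
  have h𝒰le : (𝒰 : Filter ℕ) ≤ atTop := by
    rw [h𝒰, ← Nat.cofinite_eq_atTop]
    exact Filter.hyperfilter_le_cofinite
  -- the translated curves
  have hF' : ∀ n, (fun z => F n (z + y n)) ∈ S.G v (b n + y n • v) := fun n => S.G_trans (hF n) (y n)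
  have hG' : ∀ n, (fun z => G n (z + y n)) ∈ S.G v (b n + y n • v) := fun n => S.G_trans (hG n) (y n)
  obtain ⟨b₀, l, H, hl, hb, hH, hHc⟩ := S.exists_limit hD.ne 𝒰 (fun n => b n + y n • v) (fun n z => F n (z + y n)) (Eventually.of_forall hF')
  have hG'' : ∀ n, (fun z => G n (z + y n)) ∈ S.G v (b n + y n • v - l n) := by
    intro n
    rw [← S.G_lat v (b n + y n • v - l n) (hl n), sub_add_cancel]
    exact hG' n
  obtain ⟨K, hK, hKc⟩ := S.exists_limit_of hD.ne 𝒰 (fun n => b n + y n • v - l n) b₀ hb (fun n z => G n (z + y n)) (Eventually.of_forall hG'')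
  -- the directions
  set e : ℕ → ℂ := fun n => (((‖z₀ n - y n‖ : ℝ) : ℂ))⁻¹ * (z₀ n - y n) with he
  have hRpos : ∀ n, 0 < R n := fun n => lt_of_lt_of_le (by positivity) (hR n)
  have hnorm : ∀ n, ‖z₀ n - y n‖ = ‖y n - z₀ n‖ := fun n => norm_sub_rev _ _
  have hpos : ∀ n, 0 < ‖z₀ n - y n‖ := fun n => by
    rw [hnorm]
    exact lt_of_lt_of_le (hRpos n) (hy1 n)
  have he1 : ∀ n, e n ∈ closedBall (0 : ℂ) 1 := by
    intro n
    rw [mem_closedBall, dist_zero_right, he]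
    simp only
    rw [norm_mul, norm_inv, Complex.norm_real, norm_norm, inv_mul_cancel₀ (hpos n).ne']
  have he2 : ∀ n, z₀ n - y n = ((‖z₀ n - y n‖ : ℝ) : ℂ) * e n := by
    intro n
    have h1 : ((‖z₀ n - y n‖ : ℝ) : ℂ) ≠ 0 := by exact_mod_cast (hpos n).ne'
    rw [he]
    simp only
    rw [← mul_assoc, mul_inv_cancel₀ h1, one_mul]
  obtain ⟨e₀, _, hlim⟩ := (isCompact_closedBall (0 : ℂ) 1).ultrafilter_le_nhds (𝒰.map e) (by
    rw [Ultrafilter.coe_map, le_principal_iff]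
    exact Filter.mem_map.mpr (Filter.univ_mem' he1))
  have hlim' : Tendsto e 𝒰 (𝓝 e₀) := hlim
  -- the limits agree near 8 ρ e₀
  have hagree : ∀ z ∈ ball (8 * ρ * e₀ : ℂ) (ρ / 2), pr (H z) = pr (K z) := by
    intro z hz
    rw [mem_ball, dist_eq_norm] at hz
    have h1 : ∀ᶠ n in (𝒰 : Filter ℕ), ‖e n - e₀‖ < 1 / 16 := by
      have := (Metric.tendsto_nhds.mp hlim') (1 / 16) (by norm_num)
      simpa only [dist_eq_norm] using this
    have h2 : ∀ᶠ n in (𝒰 : Filter ℕ), pd (F n) (G n) (z + y n) ≤ C * Real.exp (-κ * R n) := by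
      filter_upwards [h1] with n hn
      refine hdec (b n) (F n) (hF n) (G n) (hG n) (z₀ n) (R n) ?_ (hpd n) _ ?_
      · have := hR n
        have h4 : (0 : ℝ) ≤ (n : ℝ) := by positivity
        linarith
      · have h3 : z + y n - z₀ n = (z - 8 * ρ * e₀) - 8 * ρ * (e n - e₀) - ((‖z₀ n - y n‖ - 8 * ρ : ℝ) : ℂ) * e n := by
          have := he2 n
          push_cast
          linear_combination -this
        have h4 : ‖((‖z₀ n - y n‖ - 8 * ρ : ℝ) : ℂ) * e n‖ ≤ ‖z₀ n - y n‖ - 8 * ρ := by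
          have h5 : 0 ≤ ‖z₀ n - y n‖ - 8 * ρ := by
            have h6 := hR n
            have h7 := hy1 n
            have h8 : (0 : ℝ) ≤ (n : ℝ) := by positivity
            rw [hnorm]
            linarith
          rw [norm_mul, Complex.norm_real, Real.norm_of_nonneg h5]
          have h6 : ‖e n‖ ≤ 1 := by simpa using he1 n
          nlinarith
        have h5 : ‖8 * (ρ : ℂ) * (e n - e₀)‖ ≤ ρ / 2 := by
          rw [norm_mul, norm_mul, Complex.norm_real, Real.norm_of_nonneg hρ.le]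
          have : ‖(8 : ℂ)‖ = 8 := by simp
          rw [this]
          nlinarith
        rw [h3]
        calc ‖(z - 8 * ρ * e₀) - 8 * ρ * (e n - e₀) - ((‖z₀ n - y n‖ - 8 * ρ : ℝ) : ℂ) * e n‖
            ≤ ‖(z - 8 * ρ * e₀) - 8 * ρ * (e n - e₀)‖ + ‖((‖z₀ n - y n‖ - 8 * ρ : ℝ) : ℂ) * e n‖ := norm_sub_le _ _
          _ ≤ ‖z - 8 * ρ * e₀‖ + ‖8 * (ρ : ℂ) * (e n - e₀)‖ + ‖((‖z₀ n - y n‖ - 8 * ρ : ℝ) : ℂ) * e n‖ := by gcongr; exact norm_sub_le _ _
          _ ≤ R n - 4 * ρ := by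
            have h6 := hy2 n
            rw [← hnorm] at h6
            linarith
    have h3 : Tendsto (fun n : ℕ => C * Real.exp (-κ * R n)) 𝒰 (𝓝 (C * 0)) := by
      refine Tendsto.const_mul C (Real.tendsto_exp_atBot.comp ?_)
      refine Tendsto.const_mul_atTop_of_neg (by linarith) ?_
      refine Tendsto.mono_left ?_ h𝒰le
      refine tendsto_atTop_mono (fun n => ?_) tendsto_natCast_atTop_atTop
      have := hR n
      linarith
    rw [mul_zero] at h3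
    have h4 : ∀ ε : ℝ, 0 < ε → pd H K z ≤ 0 + 3 * ε := by
      intro ε hε
      have h5 := hHc.unif ‖z‖ ε hε
      have h6 := hKc.unif ‖z‖ ε hε
      have h7 : ∀ᶠ n in (𝒰 : Filter ℕ), C * Real.exp (-κ * R n) < ε := h3.eventually (gt_mem_nhds hε)
      obtain ⟨n, hn1, hn2, hn3, hn4⟩ := (h5.and (h6.and (h7.and h2))).exists
      have hn1' := hn1 z le_rfl
      have hn2' := hn2 z le_rfl
      have t1 : pd H K z ≤ dist (pr (H z)) (pr (F n (z + y n))) + dist (pr (F n (z + y n))) (pr (G n (z + y n))) + dist (pr (G n (z + y n))) (pr (K z)) :=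
        dist_triangle4 _ _ _ _
      have t2 : dist (pr (H z)) (pr (F n (z + y n))) ≤ ε := by
        rw [dist_comm]
        exact hn1'
      have t3 : dist (pr (F n (z + y n))) (pr (G n (z + y n))) ≤ C * Real.exp (-κ * R n) := hn4
      have t4 : dist (pr (G n (z + y n))) (pr (K z)) ≤ ε := hn2'
      linarith
    have h5 : pd H K z ≤ 0 := by
      by_contra hne
      rw [not_le] at hne
      have := h4 (pd H K z / 6) (by linarith)
      linarith
    exact dist_le_zero.mp h5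
  have hXne : ∀ {x : EN N}, x ∈ X → x ≠ 0 := fun hx h0 => S.cone.zero_notMem (h0 ▸ hx)
  have hall := pr_eq_of_ball hH.1 hK.1 (fun z => hXne (hH.2.1 z)) (fun z => hXne (hK.2.1 z)) (by linarith : 0 < ρ / 2) hagree
  -- contradiction at 0
  obtain ⟨n, hn1, hn2⟩ := ((hHc.unif 0 (ε₁ / 4) (by linarith)).and (hKc.unif 0 (ε₁ / 4) (by linarith))).exists
  have h1 := hn1 0 (by simp)
  have h2 := hn2 0 (by simp)
  have h3 := hy3 n
  have h1' : dist (pr (F n (y n))) (pr (H 0)) ≤ ε₁ / 4 := by simpa [pd] using h1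
  have h2' : dist (pr (G n (y n))) (pr (K 0)) ≤ ε₁ / 4 := by simpa [pd] using h2
  have h3' : ε₁ < dist (pr (F n (y n))) (pr (G n (y n))) := h3
  have h4 : dist (pr (F n (y n))) (pr (G n (y n))) ≤ dist (pr (F n (y n))) (pr (H 0)) + dist (pr (G n (y n))) (pr (K 0)) := by
    have h5 := dist_triangle_right (pr (F n (y n))) (pr (G n (y n))) (pr (H 0))
    rw [hall 0] at h5 ⊢
    exact h5
  linarith

end Setting

end Pool.Agent.TN
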