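import Pool.Agent.TN.NoX
import Pool.Agent.TN.FFin
import Pool.Agent.TN.Ext

/-!
# TN Sheets: the finite family of sheets; the hypersurface `D`

Port of `TH/Sheets.lean`.
-/

set_option autoImplicit false

open Topology Filter Metric

namespace Pool.Agent.TN

open Pool.Agent.H36.BP (EN fs wd Sub)
open Pool.Agent.H14.PP (IsCone CurveAt Tan)
open Pool.Agent.H62.EF (MN pr)
open Pool.Agent.H5.BD (BC evp)
open Pool.Agent.AD (Vd Chart Charts TorusMapV DiscreteSub)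
open Pool.Agent.AD.BD (Atlas LC Good qc)

variable {N k : ℕ} {X : Set (EN N)}

open Pool.Agent.H19T (EtaleIn)

/-- a vector from a vector and a number -/
private noncomputable def Sheets_mk (a : Vd (k + 1)) (b : ℂ) : Vd (k + 2) := Fin.snoc (α := fun _ : Fin (k + 1 + 1) => ℂ) a b

/-- the first coordinates -/
private noncomputable def Sheets_b (t : Vd (k + 2)) : Vd (k + 1) := fun j => t (Fin.castSucc j)

private theorem Sheets_mk_castSucc (a : Vd (k + 1)) (b : ℂ) (j : Fin (k + 1)) : Sheets_mk a b (Fin.castSucc j) = a j :=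
  Fin.snoc_castSucc (α := fun _ : Fin (k + 1 + 1) => ℂ) b a j

private theorem Sheets_mk_last (a : Vd (k + 1)) (b : ℂ) : Sheets_mk a b (Fin.last (k + 1)) = b :=
  Fin.snoc_last (α := fun _ : Fin (k + 1 + 1) => ℂ) b a

private theorem Sheets_b_mk (c : ℂ) (a : Vd (k + 1)) (b : ℂ) : Sheets_b (c • Sheets_mk a b) = c • a := by
  funext j
  show c * Sheets_mk a b (Fin.castSucc j) = c * a j
  rw [Sheets_mk_castSucc]

private theorem Sheets_l_mk (c : ℂ) (a : Vd (k + 1)) (b : ℂ) : (c • Sheets_mk a b) (Fin.last (k + 1)) = c * b := by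
  show c * Sheets_mk a b (Fin.last (k + 1)) = c * b
  rw [Sheets_mk_last]

private theorem Sheets_mk_b (t : Vd (k + 2)) : Sheets_mk (Sheets_b t) (t (Fin.last (k + 1))) = t := by
  funext j
  refine Fin.lastCases (motive := fun j => Sheets_mk (Sheets_b t) (t (Fin.last (k + 1))) j = t j) ?_ (fun j => ?_) j
  · exact Sheets_mk_last _ _
  · exact Sheets_mk_castSucc _ _ _

private theorem Sheets_smul_mk (c : ℂ) (a : Vd (k + 1)) (b : ℂ) : c • Sheets_mk a b = Sheets_mk (c • a) (c * b) := by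
  funext j
  refine Fin.lastCases (motive := fun j => (c • Sheets_mk a b) j = Sheets_mk (c • a) (c * b) j) ?_ (fun j => ?_) j
  · rw [Sheets_l_mk, Sheets_mk_last]
  · show c * Sheets_mk a b (Fin.castSucc j) = _
    rw [Sheets_mk_castSucc, Sheets_mk_castSucc]
    rfl

private theorem Sheets_mk_zero : Sheets_mk (0 : Vd (k + 1)) 0 = 0 := by
  have h1 := Sheets_smul_mk (k := k) 0 0 0
  rw [zero_smul, zero_smul, zero_mul] at h1
  exact h1.symm

private theorem Sheets_norm_b (t : Vd (k + 2)) : ‖Sheets_b t‖ ≤ ‖t‖ :=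
  (pi_norm_le_iff_of_nonneg (norm_nonneg t)).2 fun j => norm_le_pi_norm t (Fin.castSucc j)

private theorem Sheets_an_mk {E : Type*} [NormedAddCommGroup E] [NormedSpace ℂ E] {a : E → Vd (k + 1)} {b : E → ℂ} {x : E} (ha : AnalyticAt ℂ a x) (hb : AnalyticAt ℂ b x) :
    AnalyticAt ℂ (fun y => Sheets_mk (a y) (b y)) x := by
  rw [analyticAt_pi_iff] at ha ⊢
  intro j
  refine Fin.lastCases (motive := fun j => AnalyticAt ℂ (fun y => Sheets_mk (a y) (b y) j) x) ?_ (fun j => ?_) j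
  · simp only [Sheets_mk_last]
    exact hb
  · simp only [Sheets_mk_castSucc]
    exact ha j

private theorem Sheets_an_b (t : Vd (k + 2)) : AnalyticAt ℂ Sheets_b t := by
  rw [analyticAt_pi_iff]
  intro j
  exact (ContinuousLinearMap.proj (R := ℂ) (φ := fun _ : Fin (k + 2) => ℂ) (Fin.castSucc j)).analyticAt t

/-- a fibred chart of the map `β` at the point `p₀` -/
private structure Sheets_Fch (β : Vd (k + 2) → Vd (k + 1)) (p₀ : Vd (k + 2)) (r B : ℝ) (l : Fin (k + 2)) (E : Vd (k + 1) × ℂ → Vd (k + 2)) : Prop where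
  an : ∀ y ∈ ball (0 : Vd (k + 1) × ℂ) r, AnalyticAt ℂ E y
  near : ∀ y ∈ ball (0 : Vd (k + 1) × ℂ) r, ‖E y - p₀‖ ≤ B * ‖y‖
  beta : ∀ y ∈ ball (0 : Vd (k + 1) × ℂ) r, β (E y) = β p₀ + y.1
  co : ∀ y ∈ ball (0 : Vd (k + 1) × ℂ) r, E y l = p₀ l + y.2
  inv : ∀ p, ‖p - p₀‖ < r / B → (β p - β p₀, p l - p₀ l) ∈ ball (0 : Vd (k + 1) × ℂ) r ∧ E (β p - β p₀, p l - p₀ l) = p

private theorem Sheets_coord {L : Vd (k + 2) →L[ℂ] Vd (k + 1)} (hs : Function.Surjective L) : ∃ l : Fin (k + 2), ∀ w, L w = 0 → w l = 0 → w = 0 := by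
  have h1 : Module.finrank ℂ (LinearMap.range L.toLinearMap) = k + 1 := by
    rw [LinearMap.range_eq_top.2 hs, finrank_top]
    simp
  have h2 : Module.finrank ℂ (LinearMap.ker L.toLinearMap) = 1 := by
    have h3 := LinearMap.finrank_range_add_finrank_ker L.toLinearMap
    have h4 : Module.finrank ℂ (Vd (k + 2)) = k + 2 := by simp
    rw [h1, h4] at h3
    omega
  obtain ⟨⟨v, hv⟩, hv0, hvc⟩ := finrank_eq_one_iff'.1 h2
  have hv1 : v ≠ 0 := fun h => hv0 (Subtype.ext h)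
  obtain ⟨l, hl⟩ := Function.ne_iff.1 hv1
  refine ⟨l, fun w hw hwl => ?_⟩
  obtain ⟨c, hc⟩ := hvc ⟨w, hw⟩
  have hc' : c • v = w := congrArg Subtype.val hc
  rw [← hc'] at hwl ⊢
  have h5 : c * v l = 0 := hwl
  rcases mul_eq_zero.1 h5 with h | h
  · rw [h, zero_smul]
  · exact absurd h hl

private theorem Sheets_local {β : Vd (k + 2) → Vd (k + 1)} {p₀ : Vd (k + 2)} (hβ : AnalyticAt ℂ β p₀) (hs : Function.Surjective (fderiv ℂ β p₀)) :
    ∃ (l : Fin (k + 2)) (r B : ℝ), 0 < r ∧ 1 ≤ B ∧ ∀ r', 0 < r' → r' ≤ r → ∃ E, Sheets_Fch β p₀ r' B l E := by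
  obtain ⟨l, hl⟩ := Sheets_coord hs
  set Θ : Vd (k + 2) → Vd (k + 1) × ℂ := fun p => (β p, p l) with hΘ
  set D : Vd (k + 2) →L[ℂ] Vd (k + 1) × ℂ := (fderiv ℂ β p₀).prod (ContinuousLinearMap.proj l) with hD
  have hinj : Function.Injective D.toLinearMap := by
    rw [← LinearMap.ker_eq_bot, LinearMap.ker_eq_bot']
    intro w hw
    have h1 : (fderiv ℂ β p₀ w, w l) = (0 : Vd (k + 1) × ℂ) := hw
    exact hl w (congrArg Prod.fst h1) (congrArg Prod.snd h1)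
  have hdim : Module.finrank ℂ (Vd (k + 2)) = Module.finrank ℂ (Vd (k + 1) × ℂ) := by simp
  set e : Vd (k + 2) ≃L[ℂ] Vd (k + 1) × ℂ := (D.toLinearMap.linearEquivOfInjective hinj hdim).toContinuousLinearEquiv with he
  have heD : (e : Vd (k + 2) →L[ℂ] Vd (k + 1) × ℂ) = D := by
    ext1 w
    rfl
  have hΘan : AnalyticAt ℂ Θ p₀ := hβ.prod ((ContinuousLinearMap.proj (R := ℂ) (φ := fun _ : Fin (k + 2) => ℂ) l).analyticAt p₀)
  have hΘd : HasFDerivAt Θ D p₀ := hβ.differentiableAt.hasFDerivAt.prodMk (ContinuousLinearMap.proj (R := ℂ) (φ := fun _ : Fin (k + 2) => ℂ) l).hasFDerivAt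
  have hst : HasStrictFDerivAt Θ (e : Vd (k + 2) →L[ℂ] Vd (k + 1) × ℂ) p₀ := by
    have h1 := hΘan.hasStrictFDerivAt
    rw [hΘd.fderiv] at h1
    rw [heD]
    exact h1
  set f := hst.toOpenPartialHomeomorph Θ with hf
  have hfc : ∀ p, f p = Θ p := fun p => congrFun (hst.toOpenPartialHomeomorph_coe) p
  have hsrc : p₀ ∈ f.source := hst.mem_toOpenPartialHomeomorph_source
  have hgan : AnalyticAt ℂ f.symm (Θ p₀) := by
    have h1 := f.analyticAt_symm' (i := e) hsrc (by rw [hst.toOpenPartialHomeomorph_coe]; exact hΘan)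
      (by rw [hst.toOpenPartialHomeomorph_coe, hΘd.fderiv, heD])
    rwa [hfc] at h1
  have htgt : Θ p₀ ∈ f.target := by
    have h1 := f.map_source hsrc
    rwa [hfc] at h1
  obtain ⟨K₁, s₁, hs₁, hK₁⟩ := hst.exists_lipschitzOnWith
  obtain ⟨K₂, s₂, hs₂, hK₂⟩ := hgan.hasStrictFDerivAt.exists_lipschitzOnWith
  obtain ⟨δ, hδ, hδs⟩ := Metric.mem_nhds_iff.1 (inter_mem (f.open_source.mem_nhds hsrc) hs₁)
  obtain ⟨ρ, hρ, hρs⟩ := Metric.mem_nhds_iff.1 (inter_mem (inter_mem (f.open_target.mem_nhds htgt) hs₂) hgan.eventually_analyticAt)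
  set B : ℝ := max 1 (max (K₁ : ℝ) (K₂ : ℝ)) with hB
  have hB1 : 1 ≤ B := le_max_left _ _
  have hBK₁ : (K₁ : ℝ) ≤ B := (le_max_left _ _).trans (le_max_right _ _)
  have hBK₂ : (K₂ : ℝ) ≤ B := (le_max_right _ _).trans (le_max_right _ _)
  refine ⟨l, min ρ δ, B, lt_min hρ hδ, hB1, ?_⟩
  intro r' hr' hr'r
  have hr1 : r' ≤ ρ := hr'r.trans (min_le_left _ _)
  have hr2 : r' ≤ δ := hr'r.trans (min_le_right _ _)
  have hmem : ∀ y ∈ ball (0 : Vd (k + 1) × ℂ) r', Θ p₀ + y ∈ ball (Θ p₀) ρ := by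
    intro y hy
    rw [mem_ball_zero_iff] at hy
    rw [mem_ball, dist_eq_norm, add_sub_cancel_left]
    exact hy.trans_le hr1
  have hgf : ∀ p ∈ ball p₀ δ, f.symm (Θ p) = p := by
    intro p hp
    have h1 := f.left_inv (hδs hp).1
    rwa [hfc] at h1
  have hfg : ∀ y ∈ ball (Θ p₀) ρ, Θ (f.symm y) = y := by
    intro y hy
    have h1 := f.right_inv (hρs hy).1.1
    rwa [hfc] at h1
  refine ⟨fun y => f.symm (Θ p₀ + y), ?_, ?_, ?_, ?_, ?_⟩
  · intro y hy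
    have h1 : AnalyticAt ℂ f.symm (Θ p₀ + y) := (hρs (hmem y hy)).2
    exact h1.comp (f := fun y => Θ p₀ + y) (analyticAt_const.add analyticAt_id)
  · intro y hy
    have h1 := hK₂.dist_le_mul _ (hρs (hmem y hy)).1.2 _ (hρs (mem_ball_self hρ)).1.2
    rw [hgf p₀ (mem_ball_self hδ), dist_eq_norm, dist_eq_norm, add_sub_cancel_left] at h1
    exact h1.trans (mul_le_mul_of_nonneg_right hBK₂ (norm_nonneg y))
  · intro y hy
    exact congrArg Prod.fst (hfg _ (hmem y hy))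
  · intro y hy
    exact congrArg Prod.snd (hfg _ (hmem y hy))
  · intro p hp
    have h0 : ‖p - p₀‖ < r' := hp.trans_le (div_le_self hr'.le hB1)
    have hpδ : p ∈ ball p₀ δ := by
      rw [mem_ball, dist_eq_norm]
      exact h0.trans_le hr2
    have h2 := hK₁.dist_le_mul _ (hδs hpδ).2 _ (hδs (mem_ball_self hδ)).2
    rw [dist_eq_norm, dist_eq_norm] at h2
    have h3 : (β p - β p₀, p l - p₀ l) = Θ p - Θ p₀ := rfl
    rw [h3]
    refine ⟨?_, ?_⟩
    · rw [mem_ball_zero_iff]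
      rw [lt_div_iff₀ (by linarith)] at hp
      calc ‖Θ p - Θ p₀‖ ≤ K₁ * ‖p - p₀‖ := h2
        _ ≤ B * ‖p - p₀‖ := mul_le_mul_of_nonneg_right hBK₁ (norm_nonneg _)
        _ < r' := by rw [mul_comm]; exact hp
    · show f.symm (Θ p₀ + (Θ p - Θ p₀)) = p
      rw [add_sub_cancel, hgf p hpδ]

/-- the chart in which the graph of `g` is flat -/
private theorem Sheets_chart (χ : Chart (k + 2) X) {β : Vd (k + 2) → Vd (k + 1)} {p₀ : Vd (k + 2)} (hp₀ : ‖p₀‖ ≤ 1 / 2) (hβ : ∀ p ∈ ball (0 : Vd (k + 2)) 2, AnalyticAt ℂ β p) {r B : ℝ} {l : Fin (k + 2)}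
    {E : Vd (k + 1) × ℂ → Vd (k + 2)} (hr : 0 < r) (hB : 1 ≤ B) (hE : Sheets_Fch β p₀ r B l E) {g : Vd (k + 1) → ℂ} (hg : ∀ a ∈ ball (0 : Vd (k + 1)) r, AnalyticAt ℂ g a) (hg0 : g 0 = 0)
    {ρ η : ℝ} (hρ : 0 < ρ) (hρ1 : ρ ≤ 1) (hρr : ρ ≤ r / B) (hη : 0 < η) :
    ∃ s : ℝ, 0 < s ∧ ∃ χ' : Chart (k + 2) X, (∀ x ∈ χ'.U, x ∈ χ.U ∧ ‖χ.q x - p₀‖ < ρ ∧ ‖β (χ.q x) - β p₀‖ < η) ∧
      (∀ x ∈ χ.U, χ.q x = p₀ → x ∈ χ'.U) ∧ ∀ x, χ'.q x = (s : ℂ)⁻¹ • Sheets_mk (β (χ.q x) - β p₀) (χ.q x l - p₀ l - g (β (χ.q x) - β p₀)) := by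
  have hB0 : 0 < B := lt_of_lt_of_le one_pos hB
  have hgc : ContinuousAt g 0 := (hg 0 (mem_ball_self hr)).continuousAt
  obtain ⟨η₁, hη₁, hgη⟩ := Metric.continuousAt_iff.1 hgc (ρ / (2 * B)) (by positivity)
  rw [hg0] at hgη
  set s : ℝ := min (η / 2) (min (η₁ / 4) (ρ / (8 * B))) with hs
  have hs0 : 0 < s := by
    rw [hs]
    refine lt_min (by positivity) (lt_min (by positivity) (by positivity))
  have hsη : 2 * s ≤ η := by
    have : s ≤ η / 2 := min_le_left _ _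
    linarith
  have hsη₁ : 2 * s < η₁ := by
    have : s ≤ η₁ / 4 := (min_le_right _ _).trans (min_le_left _ _)
    linarith
  have hsρ : 2 * s < ρ / (2 * B) := by
    have h1 : s ≤ ρ / (8 * B) := (min_le_right _ _).trans (min_le_right _ _)
    have h2 : ρ / (8 * B) = (ρ / (2 * B)) / 4 := by
      field_simp
      norm_num
    have h3 : 0 < ρ / (2 * B) := by positivity
    rw [h2] at h1
    linarith
  have hsC : (s : ℂ) ≠ 0 := by exact_mod_cast hs0.ne'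
  have hns : ‖(s : ℂ)‖ = s := by
    rw [Complex.norm_real, Real.norm_eq_abs, abs_of_pos hs0]
  set Q : Vd (k + 2) → Vd (k + 2) := fun p => (s : ℂ)⁻¹ • Sheets_mk (β p - β p₀) (p l - p₀ l - g (β p - β p₀)) with hQ
  set Y : Vd (k + 2) → Vd (k + 1) × ℂ := fun t => ((s : ℂ) • Sheets_b t, (s : ℂ) * t (Fin.last (k + 1)) + g ((s : ℂ) • Sheets_b t)) with hY
  -- the ball around `p₀`
  have hb2 : ∀ p ∈ ball p₀ ρ, p ∈ ball (0 : Vd (k + 2)) 2 := by
    intro p hp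
    rw [mem_ball_zero_iff]
    rw [mem_ball, dist_eq_norm] at hp
    have : ‖p‖ ≤ ‖p - p₀‖ + ‖p₀‖ := by
      have h1 := norm_add_le (p - p₀) p₀
      rwa [sub_add_cancel] at h1
    linarith
  have hinv : ∀ p ∈ ball p₀ ρ, (β p - β p₀, p l - p₀ l) ∈ ball (0 : Vd (k + 1) × ℂ) r ∧ E (β p - β p₀, p l - p₀ l) = p := by
    intro p hp
    refine hE.inv p ?_
    rw [mem_ball, dist_eq_norm] at hp
    exact hp.trans_le hρr
  have hβr : ∀ p ∈ ball p₀ ρ, β p - β p₀ ∈ ball (0 : Vd (k + 1)) r := by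
    intro p hp
    have h1 := (hinv p hp).1
    rw [mem_ball_zero_iff] at h1 ⊢
    exact (norm_fst_le (β p - β p₀, p l - p₀ l)).trans_lt h1
  have hQan : ∀ p ∈ ball p₀ ρ, AnalyticAt ℂ Q p := by
    intro p hp
    have h1 : AnalyticAt ℂ (fun p => β p - β p₀) p := (hβ p (hb2 p hp)).sub analyticAt_const
    have h2 : AnalyticAt ℂ (fun p : Vd (k + 2) => p l - p₀ l) p :=
      ((ContinuousLinearMap.proj (R := ℂ) (φ := fun _ : Fin (k + 2) => ℂ) l).analyticAt p).sub analyticAt_const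
    have h3 : AnalyticAt ℂ (fun p => g (β p - β p₀)) p := AnalyticAt.fun_comp (g := g) (f := fun p => β p - β p₀) (hg _ (hβr p hp)) h1
    have h4 : AnalyticAt ℂ (fun _ : Vd (k + 2) => (s : ℂ)⁻¹) p := analyticAt_const
    exact h4.smul (Sheets_an_mk h1 (h2.sub h3))
  have hQb : ∀ p, Sheets_b (Q p) = (s : ℂ)⁻¹ • (β p - β p₀) := fun p => Sheets_b_mk _ _ _
  have hQl : ∀ p, (Q p) (Fin.last (k + 1)) = (s : ℂ)⁻¹ * (p l - p₀ l - g (β p - β p₀)) := fun p => Sheets_l_mk _ _ _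
  have hYQ : ∀ p ∈ ball p₀ ρ, E (Y (Q p)) = p := by
    intro p hp
    have h1 : Y (Q p) = (β p - β p₀, p l - p₀ l) := by
      show ((s : ℂ) • Sheets_b (Q p), (s : ℂ) * (Q p) (Fin.last (k + 1)) + g ((s : ℂ) • Sheets_b (Q p))) = _
      rw [hQb, hQl, smul_smul, mul_inv_cancel₀ hsC, one_smul, ← mul_assoc, mul_inv_cancel₀ hsC, one_mul, sub_add_cancel]
    rw [h1]
    exact (hinv p hp).2
  -- the ball of radius `2`
  have hYb : ∀ t ∈ ball (0 : Vd (k + 2)) 2, ‖(s : ℂ) • Sheets_b t‖ < 2 * s ∧ ‖Y t‖ < ρ / B := by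
    intro t ht
    rw [mem_ball_zero_iff] at ht
    have h1 : ‖(s : ℂ) • Sheets_b t‖ < 2 * s := by
      rw [norm_smul, hns]
      have := Sheets_norm_b t
      nlinarith
    have h2 : ‖(s : ℂ) * t (Fin.last (k + 1))‖ < 2 * s := by
      rw [norm_mul, hns]
      have := norm_le_pi_norm t (Fin.last (k + 1))
      nlinarith
    have h3 : ‖g ((s : ℂ) • Sheets_b t)‖ < ρ / (2 * B) := by
      have h4 := hgη (x := (s : ℂ) • Sheets_b t) (by rw [dist_zero_right]; exact h1.trans hsη₁)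
      rwa [dist_zero_right] at h4
    have h4 : ρ / (2 * B) + ρ / (2 * B) = ρ / B := by
      field_simp
      norm_num
    have h5 : 0 < ρ / (2 * B) := by positivity
    refine ⟨h1, ?_⟩
    show ‖((s : ℂ) • Sheets_b t, (s : ℂ) * t (Fin.last (k + 1)) + g ((s : ℂ) • Sheets_b t))‖ < ρ / B
    rw [Prod.norm_mk, max_lt_iff]
    refine ⟨by linarith, ?_⟩
    have h6 := norm_add_le ((s : ℂ) * t (Fin.last (k + 1))) (g ((s : ℂ) • Sheets_b t))
    linarith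
  have hρB : ρ / B ≤ r := by
    have h1 : ρ / B ≤ ρ := div_le_self hρ.le hB
    have h2 : r / B ≤ r := div_le_self hr.le hB
    linarith
  have hYr : ∀ t ∈ ball (0 : Vd (k + 2)) 2, Y t ∈ ball (0 : Vd (k + 1) × ℂ) r := by
    intro t ht
    rw [mem_ball_zero_iff]
    exact (hYb t ht).2.trans_le hρB
  have hEb : ∀ t ∈ ball (0 : Vd (k + 2)) 2, E (Y t) ∈ ball p₀ ρ := by
    intro t ht
    rw [mem_ball, dist_eq_norm]
    have h1 := hE.near _ (hYr t ht)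
    have h2 := (hYb t ht).2
    rw [lt_div_iff₀ hB0] at h2
    linarith [mul_comm B ‖Y t‖]
  have hQE : ∀ t ∈ ball (0 : Vd (k + 2)) 2, Q (E (Y t)) = t := by
    intro t ht
    have h1 := hE.beta _ (hYr t ht)
    have h2 := hE.co _ (hYr t ht)
    show (s : ℂ)⁻¹ • Sheets_mk (β (E (Y t)) - β p₀) (E (Y t) l - p₀ l - g (β (E (Y t)) - β p₀)) = t
    rw [h1, h2, add_sub_cancel_left, add_sub_cancel_left]
    show (s : ℂ)⁻¹ • Sheets_mk ((s : ℂ) • Sheets_b t) ((s : ℂ) * t (Fin.last (k + 1)) + g ((s : ℂ) • Sheets_b t) - g ((s : ℂ) • Sheets_b t)) = t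
    rw [add_sub_cancel_right, Sheets_smul_mk, smul_smul, inv_mul_cancel₀ hsC, one_smul, ← mul_assoc, inv_mul_cancel₀ hsC, one_mul, Sheets_mk_b]
  have hYan : ∀ t ∈ ball (0 : Vd (k + 2)) 2, AnalyticAt ℂ Y t := by
    intro t ht
    have h1 : AnalyticAt ℂ (fun t => (s : ℂ) • Sheets_b t) t := by
      have h0 : AnalyticAt ℂ (fun _ : Vd (k + 2) => (s : ℂ)) t := analyticAt_const
      exact h0.smul (Sheets_an_b t)
    have h2 : AnalyticAt ℂ (fun t : Vd (k + 2) => (s : ℂ) * t (Fin.last (k + 1))) t :=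
      analyticAt_const.mul ((ContinuousLinearMap.proj (R := ℂ) (φ := fun _ : Fin (k + 2) => ℂ) (Fin.last (k + 1))).analyticAt t)
    have h3 : AnalyticAt ℂ (fun t => g ((s : ℂ) • Sheets_b t)) t := by
      refine AnalyticAt.fun_comp (g := g) (f := fun t => (s : ℂ) • Sheets_b t) (hg _ ?_) h1
      have h4 := hYr t ht
      rw [mem_ball_zero_iff] at h4 ⊢
      exact (norm_fst_le (Y t)).trans_lt h4
    exact h1.prod (h2.add h3)
  -- the domain
  have hVo : IsOpen (ball p₀ ρ ∩ Q ⁻¹' ball (0 : Vd (k + 2)) 2) :=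
    ContinuousOn.isOpen_inter_preimage (fun p hp => (hQan p hp).continuousAt.continuousWithinAt) isOpen_ball isOpen_ball
  have hqc : ContinuousOn χ.q χ.U := fun x hx => (χ.q_an x hx).continuousAt.continuousWithinAt
  refine ⟨s, hs0, {
    σ := fun t => χ.σ (E (Y t))
    U := χ.U ∩ χ.q ⁻¹' (ball p₀ ρ ∩ Q ⁻¹' ball (0 : Vd (k + 2)) 2)
    q := fun x => Q (χ.q x)
    isOpen_U := hqc.isOpen_inter_preimage χ.isOpen_U hVo
    smul_U := ?_
    σ_an := ?_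
    q_an := ?_
    q_smul := ?_
    σ_mem := ?_
    surj := ?_ }, ?_, ?_, ?_⟩
  · rintro x ⟨hx, hx'⟩ c hc
    refine ⟨χ.smul_U x hx c hc, ?_⟩
    show χ.q (c • x) ∈ ball p₀ ρ ∩ Q ⁻¹' ball (0 : Vd (k + 2)) 2
    rw [χ.q_smul x hx c hc]
    exact hx'
  · intro t ht
    have h1 : AnalyticAt ℂ (fun t => E (Y t)) t := AnalyticAt.fun_comp (g := E) (f := Y) (hE.an _ (hYr t ht)) (hYan t ht)
    exact AnalyticAt.fun_comp (g := χ.σ) (f := fun t => E (Y t)) (χ.σ_an _ (hb2 _ (hEb t ht))) h1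
  · rintro x ⟨hx, hx'⟩
    exact AnalyticAt.fun_comp (g := Q) (f := χ.q) (hQan _ hx'.1) (χ.q_an x hx)
  · rintro x ⟨hx, hx'⟩ c hc
    show Q (χ.q (c • x)) = Q (χ.q x)
    rw [χ.q_smul x hx c hc]
  · intro t ht
    obtain ⟨h1, h2, h3⟩ := χ.σ_mem _ (hb2 _ (hEb t ht))
    have h4 : Q (χ.q (χ.σ (E (Y t)))) = t := by
      rw [h3]
      exact hQE t ht
    refine ⟨h1, ⟨h2, ?_, ?_⟩, h4⟩
    · show χ.q (χ.σ (E (Y t))) ∈ ball p₀ ρ
      rw [h3]
      exact hEb t ht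
    · show Q (χ.q (χ.σ (E (Y t)))) ∈ ball (0 : Vd (k + 2)) 2
      rw [h4]
      exact ht
  · rintro x hx ⟨hxU, hxb, hxQ⟩
    obtain ⟨-, c, hc, h1⟩ := χ.surj x hx hxU
    refine ⟨hxQ, c, hc, ?_⟩
    show x = c • χ.σ (E (Y (Q (χ.q x))))
    rw [hYQ _ hxb]
    exact h1
  · rintro x ⟨hxU, hxb, hxQ⟩
    have h1 : ‖χ.q x - p₀‖ < ρ := by
      have h2 : χ.q x ∈ ball p₀ ρ := hxb
      rwa [mem_ball, dist_eq_norm] at h2
    refine ⟨hxU, h1, ?_⟩
    have h2 : ‖Q (χ.q x)‖ < 2 := by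
      have h3 : Q (χ.q x) ∈ ball (0 : Vd (k + 2)) 2 := hxQ
      rwa [mem_ball_zero_iff] at h3
    have h3 := (Sheets_norm_b (Q (χ.q x))).trans_lt h2
    rw [hQb, norm_smul, norm_inv, hns, inv_mul_lt_iff₀ hs0] at h3
    linarith
  · intro x hxU hx
    have hQ0 : Q p₀ = 0 := by
      show (s : ℂ)⁻¹ • Sheets_mk (β p₀ - β p₀) (p₀ l - p₀ l - g (β p₀ - β p₀)) = 0
      rw [sub_self, sub_self, hg0, sub_zero]
      rw [Sheets_mk_zero, smul_zero]
    refine ⟨hxU, ?_, ?_⟩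
    · show χ.q x ∈ ball p₀ ρ
      rw [hx]
      exact mem_ball_self hρ
    · show Q (χ.q x) ∈ ball (0 : Vd (k + 2)) 2
      rw [hx, hQ0]
      exact mem_ball_self two_pos
  · intro x
    rfl

namespace Setting

variable (S : Setting k X)

/-- the point `P` is in the domain of the chart `i` -/
private def SheetsIn (i : Fin S.A.n) (P : MN N) : Prop := ∃ x ∈ X, pr x = P ∧ x ∈ (S.A.χ i).U

private theorem Sheets_cont {b : Vd (k + 1)} {Ψ : Vd (k + 1) → MN N} (h : Ψ ∈ S.FF b) : Continuous Ψ := by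
  obtain ⟨L, hL, hl⟩ := S.FF_lip
  have h1 : LipschitzWith ⟨L, hL.le⟩ Ψ := LipschitzWith.of_dist_le_mul fun w w' => by
    rw [dist_eq_norm w w']
    exact hl b Ψ h w w'
  exact h1.continuous

/-- two lifts of the same point -/
private theorem Sheets_lift {x y : EN N} (hx : x ∈ X) (hy : y ∈ X) (h : pr x = pr y) {i : Fin S.A.n} (hi : y ∈ (S.A.χ i).U) : x ∈ (S.A.χ i).U := by
  have hx0 : x ≠ 0 := fun h0 => S.cone.zero_notMem (h0 ▸ hx)
  have hy0 : y ≠ 0 := fun h0 => S.cone.zero_notMem (h0 ▸ hy)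
  obtain ⟨c, hc, hxy⟩ := (Pool.Agent.H62.EF.pr_eq_iff hx0 hy0).1 h
  rw [hxy]
  exact (S.A.χ i).smul_U y hi c hc

private theorem Sheets_inj {i : Fin S.A.n} {P Q : MN N} (hP : S.SheetsIn i P) (hQ : S.SheetsIn i Q) (h : S.qm i P = S.qm i Q) : P = Q := by
  obtain ⟨x, hx, hxP, hxU⟩ := hP
  obtain ⟨y, hy, hyQ, hyU⟩ := hQ
  rw [← hxP, ← hyQ, S.qm_pr hx hxU, S.qm_pr hy hyU] at h
  obtain ⟨-, c, hc, h1⟩ := (S.A.χ i).surj x hx hxU
  obtain ⟨-, c', hc', h2⟩ := (S.A.χ i).surj y hy hyU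
  have h' : (S.A.χ i).q x = (S.A.χ i).q y := h
  rw [← hxP, ← hyQ, h1, h2, h', Pool.Agent.H62.EF.pr_smul _ hc, Pool.Agent.H62.EF.pr_smul _ hc']

private theorem Sheets_inM {b : Vd (k + 1)} {Ψ : Vd (k + 1) → MN N} (h : Ψ ∈ S.FF b) {w : Vd (k + 1)} {i : Fin S.A.n} (hi : S.GoodM i (Ψ w)) :
    ∀ᶠ y in 𝓝 w, S.SheetsIn i (Ψ y) := by
  obtain ⟨φ, hφ, hev⟩ := h w
  obtain ⟨x, hx, hxP, hxG⟩ := hi
  have h1 := hev.self_of_nhds
  have hφU : φ w ∈ (S.A.χ i).U := S.Sheets_lift h1.1 hx (h1.2.1.symm.trans hxP.symm) hxG.2.1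
  have hUev : ∀ᶠ y in 𝓝 w, φ y ∈ (S.A.χ i).U := hφ.continuousAt.eventually ((S.A.χ i).isOpen_U.mem_nhds hφU)
  filter_upwards [hUev, hev] with y hy hy'
  exact ⟨φ y, hy'.1, hy'.2.1.symm, hy⟩

/-- the points of a sheet have parameters in a fixed ball -/
private theorem Sheets_red {J : ℕ} {Ψ : Fin J → Vd (k + 1) → MN N} (h : S.Sheets J Ψ) : ∃ R : ℝ, ∀ j w, ∃ w', ‖w'‖ ≤ R ∧ Ψ j w' = Ψ j w := by
  obtain ⟨M, hM, hper⟩ := h.per
  obtain ⟨C, hC⟩ := S.cpt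
  refine ⟨M * C, fun j w => ?_⟩
  have hM0 : (M : ℂ) ≠ 0 := by
    have : M ≠ 0 := by omega
    exact_mod_cast this
  obtain ⟨l, hl, hlC⟩ := hC ((M : ℂ)⁻¹ • w)
  refine ⟨w - M • l, ?_, ?_⟩
  · have h1 : w - M • l = (M : ℂ) • ((M : ℂ)⁻¹ • w - l) := by
      rw [smul_sub, smul_smul, mul_inv_cancel₀ hM0, one_smul, Nat.cast_smul_eq_nsmul]
    rw [h1, norm_smul, Complex.norm_natCast]
    exact mul_le_mul_of_nonneg_left hlC (Nat.cast_nonneg M)
  · have h1 := hper j l hl (w - M • l)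
    rw [sub_add_cancel] at h1
    exact h1.symm

/-- a point of a sheet near a given point of a sheet -/
private theorem Sheets_near {J : ℕ} {Ψ : Fin J → Vd (k + 1) → MN N} (h : S.Sheets J Ψ) (j : Fin J) (w₀ : Vd (k + 1)) {η : ℝ} (hη : 0 < η) :
    ∃ ε : ℝ, 0 < ε ∧ ∀ m w, dist (Ψ m w) (Ψ j w₀) < ε → ∃ a : Vd (k + 1), ‖a‖ < η ∧ Ψ m w = Ψ j (w₀ + a) := by
  obtain ⟨R, hR⟩ := S.Sheets_red h
  have hm : ∀ m, ∃ ε : ℝ, 0 < ε ∧ ∀ w, ‖w‖ ≤ R → dist (Ψ m w) (Ψ j w₀) < ε → ∃ a : Vd (k + 1), ‖a‖ < η ∧ Ψ m w = Ψ j (w₀ + a) := by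
    intro m
    have hcont : Continuous (fun w => dist (Ψ m w) (Ψ j w₀)) := (S.Sheets_cont (h.mem m)).dist continuous_const
    set Z : Set (Vd (k + 1)) := closedBall 0 R ∩ {w | ∀ w', Ψ m w' = Ψ j w₀ → η ≤ dist w w'} with hZ
    have hZc : IsCompact Z := by
      refine (isCompact_closedBall _ _).inter_right ?_
      simp only [Set.ofPred_forall]
      exact isClosed_iInter fun w' => isClosed_iInter fun _ => isClosed_le continuous_const (continuous_id.dist continuous_const)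
    obtain ⟨ε, hε, hεZ⟩ := hZc.exists_forall_le' (f := fun w => dist (Ψ m w) (Ψ j w₀)) hcont.continuousOn (a := 0) (fun w hw => by
      refine dist_pos.2 fun h0 => ?_
      have := hw.2 w h0
      rw [dist_self] at this
      linarith)
    refine ⟨ε, hε, fun w hw hd => ?_⟩
    have hex : ∃ w', Ψ m w' = Ψ j w₀ ∧ dist w w' < η := by
      by_contra hcon
      push Not at hcon
      have := hεZ w ⟨by simpa using hw, hcon⟩
      linarith
    obtain ⟨w', hw', hd'⟩ := hex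
    refine ⟨w - w', by rwa [← dist_eq_norm], ?_⟩
    have h1 := (h.disj m j w' w₀ hw').2 (w - w')
    rw [← h1]
    congr 1
    abel
  choose ε hε hε' using hm
  refine ⟨Finset.univ.inf' ⟨j, Finset.mem_univ j⟩ ε, (Finset.lt_inf'_iff _).2 fun m _ => hε m, fun m w hd => ?_⟩
  obtain ⟨w', hw', hw⟩ := hR m w
  rw [← hw] at hd ⊢
  exact hε' m w' hw' (hd.trans_le (Finset.inf'_le _ (Finset.mem_univ m)))

/-- the sheets form a closed set -/
private theorem Sheets_closed {J : ℕ} {Ψ : Fin J → Vd (k + 1) → MN N} (h : S.Sheets J Ψ) : IsClosed {P : MN N | ∃ j w, P = Ψ j w} := by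
  obtain ⟨R, hR⟩ := S.Sheets_red h
  have h1 : {P : MN N | ∃ j w, P = Ψ j w} = ⋃ j, Ψ j '' closedBall 0 R := by
    ext P
    simp only [Set.mem_ofPred_eq, Set.mem_iUnion, Set.mem_image]
    constructor
    · rintro ⟨j, w, rfl⟩
      obtain ⟨w', hw', hw⟩ := hR j w
      exact ⟨j, w', by simpa using hw', hw⟩
    · rintro ⟨j, w, -, rfl⟩
      exact ⟨j, w, rfl⟩
  rw [h1]
  exact isClosed_iUnion_of_finite fun j => ((isCompact_closedBall _ _).image (S.Sheets_cont (h.mem j))).isClosed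

private theorem Sheets_closedD {J : ℕ} {Ψ : Fin J → Vd (k + 1) → MN N} (h : S.Sheets J Ψ) : IsClosed (insert 0 {x : EN N | x ∈ X ∧ ∃ j w, pr x = Ψ j w}) := by
  have hK := S.Sheets_closed h
  rw [← isOpen_compl_iff, isOpen_iff_mem_nhds]
  intro x hx
  rw [Set.mem_compl_iff, Set.mem_insert_iff, not_or] at hx
  obtain ⟨hx0, hxD⟩ := hx
  by_cases hxX : x ∈ X
  · have h1 : pr x ∈ {P : MN N | ∃ j w, P = Ψ j w}ᶜ := fun h2 => hxD ⟨hxX, h2⟩
    have h2 : ∀ᶠ y in 𝓝 x, pr y ∈ {P : MN N | ∃ j w, P = Ψ j w}ᶜ := (Pool.Agent.H62.EF.continuousAt_pr hx0).eventually (hK.isOpen_compl.mem_nhds h1)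
    have h3 : ∀ᶠ y in 𝓝 x, y ≠ 0 := isOpen_ne.mem_nhds hx0
    filter_upwards [h2, h3] with y hy hy0
    rw [Set.mem_compl_iff, Set.mem_insert_iff, not_or]
    exact ⟨hy0, fun h4 => hy h4.2⟩
  · have h1 : x ∈ (insert 0 X)ᶜ := by
      rw [Set.mem_compl_iff, Set.mem_insert_iff, not_or]
      exact ⟨hx0, hxX⟩
    filter_upwards [S.cone.closed.isOpen_compl.mem_nhds h1] with y hy
    rw [Set.mem_compl_iff, Set.mem_insert_iff, not_or] at hy ⊢
    exact ⟨hy.1, fun h4 => hy.2 h4.1⟩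

end Setting

theorem Setting.exists_sheets (S : Setting k X) (hk : 1 ≤ k) {v : Vd (k + 1)} (hD : S.Dir v) : ∃ (J : ℕ) (Ψ : Fin J → Vd (k + 1) → MN N), S.Sheets J Ψ := by
  have hfin := S.FF_finite hD 0
  have := hfin.to_subtype
  obtain ⟨J, ⟨e⟩⟩ := Finite.exists_equiv_fin ↥(S.FF 0)
  have hall : ∀ Φ ∈ S.FF 0, ∃ j, Φ = (e.symm j).1 := fun Φ hΦ => ⟨e ⟨Φ, hΦ⟩, by rw [e.symm_apply_apply]⟩
  refine ⟨J, fun j => (e.symm j).1, ⟨fun j => (e.symm j).2, hall, ?_, ?_, ?_, ?_, ?_⟩⟩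
  · intro j j' hjk
    exact e.symm.injective (Subtype.ext hjk)
  · obtain ⟨M, hM, hper⟩ := S.FF_per hD
    exact ⟨M, hM, fun j l hl w => hper 0 _ (e.symm j).2 l hl w⟩
  · intro j j' w w' hww
    obtain ⟨φ, -, hφ⟩ := (e.symm j).2 w
    obtain ⟨ψ, -, hψ⟩ := (e.symm j').2 w'
    obtain ⟨h1, h2, h3⟩ := hφ.self_of_nhds
    obtain ⟨h1', h2', h3'⟩ := hψ.self_of_nhds
    have hp : pr (φ w) = pr (ψ w') := by
      rw [← h2, ← h2']
      exact hww
    have hne : ∀ x ∈ X, x ≠ 0 := fun x hx h0 => S.cone.zero_notMem (h0 ▸ hx)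
    obtain ⟨c, hc, h4⟩ := (Pool.Agent.H62.EF.pr_eq_iff (hne _ h1) (hne _ h1')).1 hp
    have h5 := S.torus.smul _ h1' c hc
    rw [← h4] at h5
    have h6 : w - w' ∈ S.Λ := by
      have h7 := S.Λ.add_mem (S.Λ.sub_mem h5 h3) h3'
      have h8 : S.u (φ w) - S.u (ψ w') - (S.u (φ w) - (0 + w)) + (S.u (ψ w') - (0 + w')) = w - w' := by
        rw [zero_add, zero_add]
        abel
      rwa [h8] at h7
    refine ⟨h6, fun y => ?_⟩
    have h7 := S.FF_trans (e.symm j).2 w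
    have h8 := S.FF_trans (e.symm j').2 w'
    have h9 : S.FF (0 + w) = S.FF (0 + w') := by
      have h10 := S.FF_lat (0 + w') h6
      have h11 : (0 : Vd (k + 1)) + w' + (w - w') = 0 + w := by abel
      rwa [h11] at h10
    rw [h9] at h7
    have h10 := S.no_cross hk h7 h8 (w := 0) (by
      show (e.symm j).1 (w + 0) = (e.symm j').1 (w' + 0)
      rw [add_zero, add_zero]
      exact hww)
    exact congrFun h10 y
  · obtain ⟨L, -, hL⟩ := S.FF_lip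
    exact ⟨L, fun j w w' => hL 0 _ (e.symm j).2 w w'⟩
  · intro v' hD' b F hF
    obtain ⟨Φ, hΦ, hΦF⟩ := S.extend hD' hF
    have h1 := S.FF_trans hΦ (-b)
    rw [add_neg_cancel] at h1
    obtain ⟨j, hj⟩ := hall _ h1
    refine ⟨j, fun z => ?_⟩
    show pr (F z) = (e.symm j).1 (b + z • v')
    rw [← hj, hΦF z]
    show Φ (z • v') = Φ (-b + (b + z • v'))
    rw [neg_add_cancel_left]

theorem Setting.exists_etale (S : Setting k X) {J : ℕ} {Ψ : Fin J → Vd (k + 1) → MN N} (h : S.Sheets J Ψ) :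
    EtaleIn 1 {x | x ∈ X ∧ ∃ j w, pr x = Ψ j w} X S.Λ S.u := by
  refine ⟨fun x hx => hx.1, S.Sheets_closedD h, ?_, ?_⟩
  · rintro x ⟨hx, j, w, hw⟩ c hc
    exact ⟨S.cone.smul_mem x hx c hc, j, w, by rw [Pool.Agent.H62.EF.pr_smul _ hc]; exact hw⟩
  rintro x ⟨hx, j, w₀, hw₀⟩
  set i := S.ix x with hi
  have hG : Good (S.A.χ i) x := S.good_ix hx
  have hGM : S.GoodM i (Ψ j w₀) := ⟨x, hx, hw₀, hG⟩
  obtain ⟨han, hβe⟩ := S.FF_an (h.mem j) hGM
  have hIn := S.Sheets_inM (h.mem j) hGM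
  set p₀ : Vd (k + 2) := S.q i x with hp₀
  have hqp : S.qm i (Ψ j w₀) = p₀ := by rw [← hw₀, S.qm_pr hx hG.2.1]
  rw [hqp] at hβe
  have hp₀n : ‖p₀‖ ≤ 1 / 2 := hG.2.2
  have hp₀b : p₀ ∈ ball (0 : Vd (k + 2)) 2 := by
    rw [mem_ball_zero_iff]
    linarith
  have hβan : AnalyticAt ℂ (S.β i) p₀ := S.β_an i p₀ hp₀b
  -- the sheet in the chart
  set f : Vd (k + 1) → Vd (k + 2) := fun a => S.qm i (Ψ j (w₀ + a)) with hf
  have hf0 : f 0 = p₀ := by
    show S.qm i (Ψ j (w₀ + 0)) = p₀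
    rw [add_zero, hqp]
  have ht : Tendsto (fun a : Vd (k + 1) => w₀ + a) (𝓝 0) (𝓝 w₀) := by
    have h1 : Continuous fun a : Vd (k + 1) => w₀ + a := by fun_prop
    have h2 := h1.tendsto 0
    rwa [add_zero] at h2
  have hfan : AnalyticAt ℂ f 0 := by
    refine AnalyticAt.fun_comp (g := fun y => S.qm i (Ψ j y)) (f := fun a : Vd (k + 1) => w₀ + a) ?_ (by fun_prop)
    rw [add_zero]
    exact han
  have hev : ∀ᶠ a in 𝓝 (0 : Vd (k + 1)), AnalyticAt ℂ f a ∧ S.β i (f a) = S.β i p₀ + a ∧ S.SheetsIn i (Ψ j (w₀ + a)) := by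
    filter_upwards [hfan.eventually_analyticAt, ht.eventually hβe, ht.eventually hIn] with a h1 h2 h3
    refine ⟨h1, ?_, h3⟩
    have h4 : w₀ + a - w₀ = a := add_sub_cancel_left _ _
    rw [h4] at h2
    exact h2
  obtain ⟨η₀, hη₀, hη₀'⟩ := Metric.eventually_nhds_iff_ball.1 hev
  -- the derivative of `β` is onto
  have hsurj : Function.Surjective (fderiv ℂ (S.β i) p₀) := by
    intro y
    refine ⟨fderiv ℂ f 0 y, ?_⟩
    have h1 : HasFDerivAt (fun a => S.β i (f a)) ((fderiv ℂ (S.β i) p₀).comp (fderiv ℂ f 0)) 0 := by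
      refine HasFDerivAt.comp (g := S.β i) (f := f) 0 ?_ hfan.differentiableAt.hasFDerivAt
      rw [hf0]
      exact hβan.differentiableAt.hasFDerivAt
    have h2 : HasFDerivAt (fun a => S.β i (f a)) (ContinuousLinearMap.id ℂ (Vd (k + 1))) 0 := by
      have h3 : HasFDerivAt (fun a : Vd (k + 1) => S.β i p₀ + a) (ContinuousLinearMap.id ℂ (Vd (k + 1))) 0 := (hasFDerivAt_id 0).const_add _
      refine h3.congr_of_eventuallyEq ?_
      filter_upwards [hev] with a ha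
      exact ha.2.1
    exact congrArg (fun L : Vd (k + 1) →L[ℂ] Vd (k + 1) => L y) (h1.unique h2)
  obtain ⟨l, r₁, B, hr₁, hB, hloc⟩ := Sheets_local hβan hsurj
  have hB0 : 0 < B := lt_of_lt_of_le one_pos hB
  have hr : 0 < min r₁ η₀ := lt_min hr₁ hη₀
  obtain ⟨E, hE⟩ := hloc _ hr (min_le_left _ _)
  set r : ℝ := min r₁ η₀ with hrdef
  set g : Vd (k + 1) → ℂ := fun a => f a l - p₀ l with hg
  have hg0 : g 0 = 0 := by
    show f 0 l - p₀ l = 0
    rw [hf0, sub_self]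
  have hgan : ∀ a ∈ ball (0 : Vd (k + 1)) r, AnalyticAt ℂ g a := by
    intro a ha
    have h1 : AnalyticAt ℂ f a := (hη₀' a (ball_subset_ball (min_le_right _ _) ha)).1
    have h2 : AnalyticAt ℂ (fun a => f a l) a := (analyticAt_pi_iff.1 h1) l
    exact h2.sub analyticAt_const
  obtain ⟨η₁, hη₁, hη₁'⟩ := Metric.continuousAt_iff.1 hfan.continuousAt (r / B) (by positivity)
  rw [hf0] at hη₁'
  have hη : 0 < min η₀ η₁ := lt_min hη₀ hη₁
  obtain ⟨ε, hε, hεn⟩ := S.Sheets_near h j w₀ hη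
  -- the projection of the chart
  have hne : ∀ y ∈ X, y ≠ 0 := fun y hy h0 => S.cone.zero_notMem (h0 ▸ hy)
  have hσc : ContinuousAt (fun p => pr ((S.A.χ i).σ p)) p₀ :=
    ContinuousAt.comp (g := pr) (f := (S.A.χ i).σ) (Pool.Agent.H62.EF.continuousAt_pr (hne _ ((S.A.χ i).σ_mem p₀ hp₀b).1)) ((S.A.χ i).σ_an p₀ hp₀b).continuousAt
  have hprσ : ∀ y ∈ X, y ∈ (S.A.χ i).U → pr ((S.A.χ i).σ (S.q i y)) = pr y := by
    intro y hy hyU
    obtain ⟨-, c, hc, h1⟩ := (S.A.χ i).surj y hy hyU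
    conv_rhs => rw [h1, Pool.Agent.H62.EF.pr_smul _ hc]
    rfl
  obtain ⟨ρ₀, hρ₀, hρ₀'⟩ := Metric.continuousAt_iff.1 hσc ε hε
  have hρ : 0 < min ρ₀ (min 1 (r / B)) := lt_min hρ₀ (lt_min one_pos (by positivity))
  obtain ⟨s, hs, χ', h1, h2, h3⟩ := Sheets_chart (S.A.χ i) hp₀n (S.β_an i) hr hB hE hgan hg0 hρ ((min_le_right _ _).trans (min_le_left _ _))
    ((min_le_right _ _).trans (min_le_right _ _)) hη
  have hsC : (s : ℂ) ≠ 0 := by exact_mod_cast hs.ne'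
  -- the coordinates
  have hbb : ∀ y, (s : ℂ) • Pool.Agent.H19T.bb (n := k + 1) (p := 1) (χ'.q y) = S.β i (S.q i y) - S.β i p₀ := by
    intro y
    have h4 : Pool.Agent.H19T.bb (n := k + 1) (p := 1) (χ'.q y) = Sheets_b (χ'.q y) := by
      funext a
      rfl
    rw [h4, h3 y, Sheets_b_mk, smul_smul, mul_inv_cancel₀ hsC, one_smul]
    rfl
  have hll : ∀ y, Pool.Agent.H19T.ll (n := k + 1) (p := 1) (χ'.q y) = 0 ↔ S.q i y l - p₀ l = g (S.β i (S.q i y) - S.β i p₀) := by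
    intro y
    have h4 : Pool.Agent.H19T.ll (n := k + 1) (p := 1) (χ'.q y) = fun _ => (χ'.q y) (Fin.last (k + 1)) := by
      funext a
      fin_cases a
      rfl
    have h5 : (χ'.q y) (Fin.last (k + 1)) = (s : ℂ)⁻¹ * (S.q i y l - p₀ l - g (S.β i (S.q i y) - S.β i p₀)) := by
      rw [h3 y]
      exact Sheets_l_mk _ _ _
    rw [h4, h5]
    constructor
    · intro h6
      have h7 : (s : ℂ)⁻¹ * (S.q i y l - p₀ l - g (S.β i (S.q i y) - S.β i p₀)) = 0 := congrFun h6 0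
      rcases mul_eq_zero.1 h7 with h8 | h8
      · exact absurd h8 (inv_ne_zero hsC)
      · exact sub_eq_zero.1 h8
    · intro h6
      rw [h6, sub_self, mul_zero]
      rfl
  refine ⟨s, hs, χ', ⟨h2 x hG.2.1 rfl, ?_, ?_, ?_⟩⟩
  · have h4 := h3 x
    have h5 : (S.A.χ i).q x = p₀ := rfl
    rw [h5, sub_self, sub_self, hg0, sub_zero] at h4
    rw [h4]
    rw [Sheets_mk_zero, smul_zero]
  · intro y hy hyU
    have h4 := S.β_eq i y hy (h1 y hyU).1
    have h5 := S.β_eq i x hx hG.2.1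
    rw [hbb y]
    have h6 := S.Λ.sub_mem h4 h5
    have h7 : S.u y - S.β i ((S.A.χ i).q y) - (S.u x - S.β i ((S.A.χ i).q x)) = S.u y - S.u x - (S.β i (S.q i y) - S.β i p₀) := by
      show S.u y - S.β i (S.q i y) - (S.u x - S.β i p₀) = S.u y - S.u x - (S.β i (S.q i y) - S.β i p₀)
      abel
    rwa [h7] at h6
  · intro y hy hyU
    obtain ⟨hyU', hyρ, hyη⟩ := h1 y hyU
    rw [hll y]
    have hyρ' : ‖S.q i y - p₀‖ < min ρ₀ (min 1 (r / B)) := hyρ
    have hyη' : ‖S.β i (S.q i y) - S.β i p₀‖ < min η₀ η₁ := hyη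
    constructor
    · rintro ⟨-, m, w, hw⟩
      have h4 : dist (Ψ m w) (Ψ j w₀) < ε := by
        rw [← hw, ← hw₀, ← hprσ y hy hyU', ← hprσ x hx hG.2.1]
        refine hρ₀' ?_
        rw [dist_eq_norm]
        exact hyρ'.trans_le (min_le_left _ _)
      obtain ⟨a, ha, hka⟩ := hεn m w h4
      have h5 := hη₀' a (by rw [mem_ball_zero_iff]; exact ha.trans_le (min_le_left _ _))
      have h6 : S.q i y = f a := by
        show S.q i y = S.qm i (Ψ j (w₀ + a))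
        rw [← hka, ← hw, S.qm_pr hy hyU']
      rw [h6, h5.2.1, add_sub_cancel_left]
    · intro hgr
      set a : Vd (k + 1) := S.β i (S.q i y) - S.β i p₀ with ha
      have h5 := hη₀' a (by rw [mem_ball_zero_iff]; exact hyη'.trans_le (min_le_left _ _))
      have h6 : dist (f a) p₀ < r / B := hη₁' (by rw [dist_zero_right]; exact hyη'.trans_le (min_le_right _ _))
      rw [dist_eq_norm] at h6
      have h7 := (hE.inv (f a) h6).2
      have h8 := (hE.inv (S.q i y) (hyρ'.trans_le ((min_le_right _ _).trans (min_le_right _ _)))).2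
      have h9 : S.β i (f a) - S.β i p₀ = a := by
        rw [h5.2.1, add_sub_cancel_left]
      rw [h9] at h7
      rw [← ha, hgr] at h8
      have h10 : f a = S.q i y := by
        rw [← h7, ← h8]
      have h11 : Ψ j (w₀ + a) = pr y := by
        refine S.Sheets_inj h5.2.2 ⟨y, hy, rfl, hyU'⟩ ?_
        rw [S.qm_pr hy hyU']
        exact h10
      exact ⟨hy, j, w₀ + a, h11.symm⟩

end Pool.Agent.TN
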