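import Pool.Agent.TN.Liou
import Pool.Agent.H17.Montel

/-!
# TN App: approximate vertical fields are small

Let `κ` be the constant of `liouville`.  If the statement is false for `κ`, then for `ρ = n + 1`, `ε = 1 / (n + 1)` there are `b n`, `F n`, `ξ n`, `z₁ n` with `‖ξ n (z₁ n)‖ > 1 / 4`; by
`G_trans` we may take `z₁ n = 0` (`AField` and `ix` are compatible with translations).  Let `𝒰 ≤ atTop` be an ultrafilter, `F n → H ∈ G v b₀` (`exists_limit`).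
For every `z`: `ix (F n z)` is eventually constant `= j z`, `Good (χ (j z)) (H z)` (closed condition; `q`, `Conv.chart`), `‖ξ n z‖ ≤ exp (κ ‖z‖²)` has a limit `η z`; put
`ξ z = T (j z) (ix (H z)) (H z) (η z)`.
`Field`: let `z₀` be given, `j₀ = j z₀`.  The functions `h n` of `AField.hol` at `z₀` are bounded on `ball z₀ r`, let `h` be their limit (`H17.montel_ultrafilter`), holomorphic; for
`z ∈ ball z₀ r`: `T (ix (F n z)) j₀ (F n z) (ξ n z) → T (j z) j₀ (H z) (η z)` (`T i j (F n z) → T i j (H z)`: continuity of `p ↦ fderiv (q j ∘ σ i) p` at `q i (H z)`), so it is `h z`.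
Then `T (ix (H z)) (ix (H z₀)) (H z) (ξ z) = T j₀ (ix (H z₀)) (H z) (h z)` by `T_comp`, holomorphic near `z₀` (`T_an`).
`ver`: in the limit, with `T_beta`.  Growth: `‖ξ z‖ ≤ C exp (κ ‖z‖²)` by `T_bound`.  So `ξ = 0` by `liouville`, `η 0 = 0` (`T` is invertible: `T_comp`, `T_self`), but `‖η 0‖ ≥ 1 / 4`.
-/

set_option autoImplicit false

open Topology Filter Metric

namespace Pool.Agent.TN

open Pool.Agent.H36.BP (EN fs wd Sub)
open Pool.Agent.H14.PP (IsCone CurveAt Tan)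
open Pool.Agent.H62.EF (MN pr)
open Pool.Agent.H5.BD (BC evp)
open Pool.Agent.AD (Vd Chart Charts TorusMapV DiscreteSub)
open Pool.Agent.AD.BD (Atlas LC Good qc)

variable {N k : ℕ} {X : Set (EN N)}

private theorem App_apply {α E E' : Type*} [NormedAddCommGroup E] [NormedSpace ℂ E] [NormedAddCommGroup E'] [NormedSpace ℂ E'] {f : Filter α} {A : α → E →L[ℂ] E'} {A₀ : E →L[ℂ] E'}
    {x : α → E} {x₀ : E} (hA : Tendsto A f (𝓝 A₀)) (hx : Tendsto x f (𝓝 x₀)) : Tendsto (fun a => A a (x a)) f (𝓝 (A₀ x₀)) := by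
  have h1 : Continuous fun p : (E →L[ℂ] E') × E => p.1 p.2 := isBoundedBilinearMap_apply.continuous
  exact (h1.tendsto (A₀, x₀)).comp (hA.prodMk_nhds hx)

private theorem App_q (S : Setting k X) {𝒰 : Ultrafilter ℕ} {F : ℕ → ℂ → EN N} {H : ℂ → EN N} (hconv : S.Conv 𝒰 F H) {i : Fin S.A.n} {z : ℂ}
    (hi : Good (S.A.χ i) (H z)) : Tendsto (fun n => S.q i (F n z)) 𝒰 (𝓝 (S.q i (H z))) := by
  obtain ⟨r, hr, -, -, h⟩ := hconv.chart z i hi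
  exact h.tendsto_at (mem_ball_self hr)

private theorem App_T (S : Setting k X) {𝒰 : Ultrafilter ℕ} {F : ℕ → ℂ → EN N} {H : ℂ → EN N} (hconv : S.Conv 𝒰 F H) {i j : Fin S.A.n} {z : ℂ}
    (hi : Good (S.A.χ i) (H z)) (hj : Good (S.A.χ j) (H z)) : Tendsto (fun n => S.T i j (F n z)) 𝒰 (𝓝 (S.T i j (H z))) := by
  obtain ⟨hx, hi1, -⟩ := id hi
  obtain ⟨hb, c, hc, h1⟩ := (S.A.χ i).surj (H z) hx hi1
  have h2 : (S.A.χ i).σ ((S.A.χ i).q (H z)) = c⁻¹ • (H z) := by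
    conv_rhs => rw [h1]
    rw [smul_smul, inv_mul_cancel₀ hc, one_smul]
  have h3 : (S.A.χ i).σ ((S.A.χ i).q (H z)) ∈ (S.A.χ j).U := by
    rw [h2]
    exact (S.A.χ j).smul_U _ hj.2.1 _ (inv_ne_zero hc)
  have h4 : AnalyticAt ℂ (fun y => (S.A.χ j).q ((S.A.χ i).σ y)) ((S.A.χ i).q (H z)) :=
    AnalyticAt.comp (g := (S.A.χ j).q) (f := (S.A.χ i).σ) ((S.A.χ j).q_an _ h3) ((S.A.χ i).σ_an _ hb)
  have h5 : Tendsto (fderiv ℂ (fun y => (S.A.χ j).q ((S.A.χ i).σ y))) (𝓝 ((S.A.χ i).q (H z))) (𝓝 (S.T i j (H z))) := h4.fderiv.continuousAt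
  exact h5.comp (App_q S hconv hi)

private theorem App_β (S : Setting k X) {𝒰 : Ultrafilter ℕ} {F : ℕ → ℂ → EN N} {H : ℂ → EN N} (hconv : S.Conv 𝒰 F H) {i : Fin S.A.n} {z : ℂ}
    (hi : Good (S.A.χ i) (H z)) : Tendsto (fun n => fderiv ℂ (S.β i) (S.q i (F n z))) 𝒰 (𝓝 (fderiv ℂ (S.β i) (S.q i (H z)))) := by
  have hb : S.q i (H z) ∈ ball (0 : Vd (k + 2)) 2 := ((S.A.χ i).surj (H z) hi.1 hi.2.1).1
  have h5 : Tendsto (fderiv ℂ (S.β i)) (𝓝 (S.q i (H z))) (𝓝 (fderiv ℂ (S.β i) (S.q i (H z)))) := (S.β_an i _ hb).fderiv.continuousAt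
  exact h5.comp (App_q S hconv hi)

private theorem App_trans (S : Setting k X) {F : ℂ → EN N} {ξ : ℂ → Vd (k + 2)} {a : ℂ} {ρ r ε : ℝ} (h : S.AField F ξ (ball a ρ) r ε) :
    S.AField (fun z => F (z + a)) (fun z => ξ (z + a)) (ball 0 ρ) r ε := by
  have hm : ∀ (z₀ z : ℂ) (s : ℝ), z ∈ ball z₀ s → z + a ∈ ball (z₀ + a) s := by
    intro z₀ z s hz
    rw [mem_ball, dist_eq_norm] at hz ⊢
    rwa [add_sub_add_right_eq_sub]
  have hm0 : ∀ z ∈ ball (0 : ℂ) ρ, z + a ∈ ball a ρ := by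
    intro z hz
    have h1 := hm 0 z ρ hz
    rwa [zero_add] at h1
  refine ⟨fun z₀ hz₀ => ?_, fun z hz => h.ver (z + a) (hm0 z hz)⟩
  obtain ⟨g, hg, hg'⟩ := h.hol (z₀ + a) (hm0 z₀ hz₀)
  refine ⟨fun z => g (z + a), ?_, fun z hz => hg' (z + a) ⟨hm z₀ z r hz.1, hm0 z hz.2⟩⟩
  exact hg.comp ((differentiable_id.add_const a).differentiableOn) (fun z hz => hm z₀ z r hz)

private theorem App_limit (S : Setting k X) {v : Vd (k + 1)} (hv : v ≠ 0) {c L r₀ c₁ K : ℝ} (hd : S.Dat v c L r₀ c₁ K) {r κ : ℝ} (hr : 0 < r) (hr' : r ≤ r₀) (hκ : 0 < κ)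
    (b : ℕ → Vd (k + 1)) (F : ℕ → ℂ → EN N) (ξ : ℕ → ℂ → Vd (k + 2)) (hF : ∀ n, F n ∈ S.G v (b n))
    (hA : ∀ n : ℕ, S.AField (F n) (ξ n) (ball 0 ((n : ℝ) + 1)) r (1 / ((n : ℝ) + 1)))
    (hg : ∀ n : ℕ, ∀ z ∈ ball (0 : ℂ) ((n : ℝ) + 1), ‖ξ n z‖ ≤ Real.exp (κ * ‖z‖ ^ 2)) (h0 : ∀ n, 1 / 4 < ‖ξ n 0‖) :
    ∃ b₀, ∃ H ∈ S.G v b₀, ∃ ξ' : ℂ → Vd (k + 2), S.Field H ξ' ∧ (∃ C : ℝ, ∀ z, ‖ξ' z‖ ≤ C * Real.exp (κ * ‖z‖ ^ 2)) ∧ ξ' 0 ≠ 0 := by
  classical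
  set 𝒰 : Ultrafilter ℕ := Ultrafilter.of atTop with h𝒰
  have hle : (𝒰 : Filter ℕ) ≤ atTop := Ultrafilter.of_le atTop
  obtain ⟨b₀, l, H, -, -, hH, hconv⟩ := S.exists_limit hv 𝒰 b F (Eventually.of_forall hF)
  have hX : ∀ n z, F n z ∈ X := fun n => (hF n).2.1
  have hHX : ∀ z, H z ∈ X := hH.2.1
  have hBC : ∀ n, F n ∈ BC X c L := fun n => hd.sub _ (hF n)
  have hHBC : H ∈ BC X c L := hd.sub _ hH
  have hδ := S.A.δ_pos
  obtain ⟨C, hC1, hC⟩ := S.T_bound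
  have hball : ∀ R : ℝ, ∀ᶠ n : ℕ in (𝒰 : Filter ℕ), R < (n : ℝ) + 1 := by
    intro R
    have h1 : ∀ᶠ n : ℕ in atTop, R < (n : ℝ) + 1 := by
      filter_upwards [tendsto_natCast_atTop_atTop.eventually (eventually_gt_atTop R)] with n hn
      linarith
    exact hle h1
  have hinv : Tendsto (fun n : ℕ => (1 : ℝ) / ((n : ℝ) + 1)) 𝒰 (𝓝 0) := tendsto_one_div_add_atTop_nhds_zero_nat.mono_left hle
  have hpd : ∀ z : ℂ, ∀ ε : ℝ, 0 < ε → ∀ᶠ n in (𝒰 : Filter ℕ), dist (pr (H z)) (pr (F n z)) ≤ ε := by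
    intro z ε hε
    filter_upwards [hconv.unif ‖z‖ ε hε] with n hn
    rw [dist_comm]
    exact hn z le_rfl
  have hj : ∀ z, ∃ j, ∀ᶠ n in (𝒰 : Filter ℕ), S.ix (F n z) = j := by
    intro z
    obtain ⟨j, hj⟩ := (𝒰.map fun n => S.ix (F n z)).eq_pure_of_finite
    refine ⟨j, ?_⟩
    have h1 : ({j} : Set (Fin S.A.n)) ∈ 𝒰.map (fun n => S.ix (F n z)) := by
      rw [hj]
      exact Set.mem_singleton j
    exact h1
  choose j hj using hj
  have hjg : ∀ z w, w ∈ ball z r → Good (S.A.χ (j z)) (H w) := by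
    intro z w hw
    obtain ⟨n, hn, hn'⟩ := ((hj z).and (hpd z (S.A.δ / 2) (by linarith))).exists
    have h1 : Good (S.A.χ (S.ix (F n z))) (H w) := hd.lc.good H hHBC (F n z) (hX n z) z (by rw [dist_comm]; exact hn') w (ball_subset_ball hr' hw)
    rwa [hn] at h1
  have hjz : ∀ z, Good (S.A.χ (j z)) (H z) := fun z => hjg z z (mem_ball_self hr)
  have hix : ∀ z w, w ∈ ball z r → Good (S.A.χ (S.ix (H z))) (H w) := fun z w hw =>
    hd.lc.good H hHBC (H z) (hHX z) z (by rw [dist_self]; linarith) w (ball_subset_ball hr' hw)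
  have hη : ∀ z, ∃ η : Vd (k + 2), Tendsto (fun n => ξ n z) 𝒰 (𝓝 η) := by
    intro z
    have h3 : ∀ᶠ n in (𝒰 : Filter ℕ), ξ n z ∈ closedBall (0 : Vd (k + 2)) (Real.exp (κ * ‖z‖ ^ 2)) := by
      filter_upwards [hball ‖z‖] with n hn
      rw [mem_closedBall_zero_iff]
      exact hg n z (by rwa [mem_ball_zero_iff])
    obtain ⟨l, -, hl⟩ := (isCompact_closedBall (0 : Vd (k + 2)) (Real.exp (κ * ‖z‖ ^ 2))).ultrafilter_le_nhds
      (𝒰.map fun n => ξ n z) (by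
        rw [le_principal_iff]
        exact h3)
    exact ⟨l, hl⟩
  choose η hη using hη
  have hhol : ∀ z₀, ∃ g : ℂ → Vd (k + 2), DifferentiableOn ℂ g (ball z₀ r) ∧ ∀ z ∈ ball z₀ r, S.T (j z) (j z₀) (H z) (η z) = g z := by
    intro z₀
    have h1 : ∀ n : ℕ, ∃ h : ℂ → Vd (k + 2), ‖z₀‖ < (n : ℝ) + 1 → DifferentiableOn ℂ h (ball z₀ r) ∧
        ∀ z ∈ ball z₀ r ∩ ball 0 ((n : ℝ) + 1), ‖S.T (S.ix (F n z)) (S.ix (F n z₀)) (F n z) (ξ n z) - h z‖ ≤ 1 / ((n : ℝ) + 1) := by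
      intro n
      by_cases hn : ‖z₀‖ < (n : ℝ) + 1
      · obtain ⟨h, h2, h3⟩ := (hA n).hol z₀ (by rwa [mem_ball_zero_iff])
        exact ⟨h, fun _ => ⟨h2, h3⟩⟩
      · exact ⟨0, fun h => absurd h hn⟩
    choose h hh using h1
    have hin : ∀ z ∈ ball z₀ r, ‖z‖ < ‖z₀‖ + r := by
      intro z hz
      rw [mem_ball, dist_eq_norm] at hz
      have h2 := norm_sub_norm_le z z₀
      linarith
    have h1 : ∀ᶠ n in (𝒰 : Filter ℕ), DifferentiableOn ℂ (h n) (ball z₀ r) := by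
      filter_upwards [hball (‖z₀‖ + r)] with n hn
      exact (hh n (by linarith)).1
    have h2 : ∀ᶠ n in (𝒰 : Filter ℕ), ∀ z ∈ ball z₀ r, ‖h n z‖ ≤ 1 + C * Real.exp (κ * (‖z₀‖ + r) ^ 2) := by
      filter_upwards [hball (‖z₀‖ + r)] with n hn z hz
      have hz' := hin z hz
      have hz1 : z ∈ ball (0 : ℂ) ((n : ℝ) + 1) := by
        rw [mem_ball_zero_iff]
        linarith
      have h3 := (hh n (by linarith)).2 z ⟨hz, hz1⟩
      have h4 : Good (S.A.χ (S.ix (F n z₀))) (F n z) :=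
        hd.lc.good (F n) (hBC n) (F n z₀) (hX n z₀) z₀ (by rw [dist_self]; linarith) z (ball_subset_ball hr' hz)
      have h5 := hC (S.ix (F n z)) (S.ix (F n z₀)) (F n z) (S.good_ix (hX n z)) h4
      have h6 : ‖S.T (S.ix (F n z)) (S.ix (F n z₀)) (F n z) (ξ n z)‖ ≤ C * Real.exp (κ * (‖z₀‖ + r) ^ 2) := by
        refine (ContinuousLinearMap.le_of_opNorm_le _ h5 _).trans ?_
        refine mul_le_mul_of_nonneg_left ?_ (by linarith)
        refine (hg n z hz1).trans (Real.exp_le_exp.2 ?_)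
        exact mul_le_mul_of_nonneg_left (pow_le_pow_left₀ (norm_nonneg _) hz'.le 2) hκ.le
      have h7 := norm_sub_norm_le (h n z) (S.T (S.ix (F n z)) (S.ix (F n z₀)) (F n z) (ξ n z))
      rw [norm_sub_rev] at h7
      have h8 : (1 : ℝ) / ((n : ℝ) + 1) ≤ 1 := by
        rw [div_le_one (by positivity)]
        have h9 : (0 : ℝ) ≤ n := Nat.cast_nonneg n
        linarith
      linarith
    obtain ⟨g, hg1, hg2⟩ := Pool.Agent.H17.montel_ultrafilter 𝒰 h1 h2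
    refine ⟨g, hg1, fun z hz => ?_⟩
    have h3 : Tendsto (fun n => h n z) 𝒰 (𝓝 (g z)) := hg2.tendsto_at hz
    have h4 : Tendsto (fun n => S.T (j z) (j z₀) (F n z) (ξ n z)) 𝒰 (𝓝 (S.T (j z) (j z₀) (H z) (η z))) :=
      App_apply (App_T S hconv (hjz z) (hjg z₀ z hz)) (hη z)
    have h5 : Tendsto (fun n => S.T (j z) (j z₀) (F n z) (ξ n z) - h n z) 𝒰 (𝓝 0) := by
      refine squeeze_zero_norm' ?_ hinv
      filter_upwards [hball (‖z₀‖ + r), hj z, hj z₀] with n hn hn1 hn2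
      have h6 := (hh n (by linarith)).2 z ⟨hz, by
        rw [mem_ball_zero_iff]
        have h7 := hin z hz
        linarith⟩
      rwa [hn1, hn2] at h6
    exact sub_eq_zero.1 (tendsto_nhds_unique (h4.sub h3) h5)
  refine ⟨b₀, H, hH, fun z => S.T (j z) (S.ix (H z)) (H z) (η z), ⟨fun z₀ => ?_, fun z => ?_⟩, ⟨C, fun z => ?_⟩, fun h => ?_⟩
  · obtain ⟨g, hg1, hg2⟩ := hhol z₀
    refine ⟨r, fun z => S.T (j z₀) (S.ix (H z₀)) (H z) (g z), hr, fun z hz => ?_, fun z hz => ⟨hix z₀ z hz, ?_⟩⟩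
    · have hC : CurveAt X H z := ⟨hH.1.analyticAt z, Eventually.of_forall hHX⟩
      have h1 : DifferentiableAt ℂ (fun w => S.T (j z₀) (S.ix (H z₀)) (H w)) z := (S.T_an hC (hjg z₀ z hz).2.1 (hix z₀ z hz).2.1).differentiableAt
      have h2 : DifferentiableAt ℂ g z := hg1.differentiableAt (isOpen_ball.mem_nhds hz)
      exact (h1.clm_apply h2).differentiableWithinAt
    · have h1 := (hix z z (mem_ball_self hr)).2.1
      have h2 := (hix z₀ z hz).2.1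
      have h3 := (hjz z).2.1
      have h4 := (hjg z₀ z hz).2.1
      show S.T (S.ix (H z)) (S.ix (H z₀)) (H z) (S.T (j z) (S.ix (H z)) (H z) (η z)) = S.T (j z₀) (S.ix (H z₀)) (H z) (g z)
      rw [← hg2 z hz, S.T_comp (hHX z) h3 h1 h2, S.T_comp (hHX z) h3 h4 h2]
  · have h1 := (hix z z (mem_ball_self hr)).2.1
    show fderiv ℂ (S.β (S.ix (H z))) (S.q (S.ix (H z)) (H z)) (S.T (j z) (S.ix (H z)) (H z) (η z)) = 0
    rw [S.T_beta (hHX z) (hjz z).2.1 h1]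
    have h2 : Tendsto (fun n => fderiv ℂ (S.β (j z)) (S.q (j z) (F n z)) (ξ n z)) 𝒰 (𝓝 (fderiv ℂ (S.β (j z)) (S.q (j z) (H z)) (η z))) :=
      App_apply (App_β S hconv (hjz z)) (hη z)
    have h3 : Tendsto (fun n => fderiv ℂ (S.β (j z)) (S.q (j z) (F n z)) (ξ n z)) 𝒰 (𝓝 0) := by
      refine squeeze_zero_norm' ?_ hinv
      filter_upwards [hball ‖z‖, hj z] with n hn hn1
      have h4 := (hA n).ver z (by rwa [mem_ball_zero_iff])
      rwa [hn1] at h4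
    exact tendsto_nhds_unique h2 h3
  · have h1 := hC (j z) (S.ix (H z)) (H z) (hjz z) (hix z z (mem_ball_self hr))
    refine (ContinuousLinearMap.le_of_opNorm_le _ h1 _).trans ?_
    refine mul_le_mul_of_nonneg_left ?_ (by linarith)
    refine le_of_tendsto (hη z).norm ?_
    filter_upwards [hball ‖z‖] with n hn
    exact hg n z (by rwa [mem_ball_zero_iff])
  · have h1 := (hix 0 0 (mem_ball_self hr)).2.1
    have h2 := (hjz 0).2.1
    have h3 : S.T (j 0) (S.ix (H 0)) (H 0) (η 0) = 0 := h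
    have h4 : η 0 = 0 := by
      rw [← S.T_self (hHX 0) h2 (η 0), ← S.T_comp (hHX 0) h2 h1 h2, h3, map_zero]
    have h5 : (1 : ℝ) / 4 ≤ ‖η 0‖ := ge_of_tendsto (hη 0).norm (Eventually.of_forall fun n => (h0 n).le)
    rw [h4, norm_zero] at h5
    norm_num at h5

theorem Setting.approx (S : Setting k X) {v : Vd (k + 1)} (hD : S.Dir v) {c L r₀ c₁ K : ℝ} (hd : S.Dat v c L r₀ c₁ K) {r : ℝ} (hr : 0 < r) (hr' : r ≤ r₀) :
    ∃ κ ρ ε : ℝ, 0 < κ ∧ 0 < ρ ∧ 0 < ε ∧ ∀ b, ∀ F ∈ S.G v b, ∀ (ξ : ℂ → Vd (k + 2)) (z₁ : ℂ), S.AField F ξ (ball z₁ ρ) r ε →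
      (∀ z ∈ ball z₁ ρ, ‖ξ z‖ ≤ Real.exp (κ * ‖z - z₁‖ ^ 2)) → ‖ξ z₁‖ ≤ 1 / 4 := by
  obtain ⟨κ, hκ, hL⟩ := S.liouville hD
  by_contra hcon
  have h1 : ∀ n : ℕ, ∃ (b : Vd (k + 1)) (F : ℂ → EN N) (ξ : ℂ → Vd (k + 2)) (z₁ : ℂ), F ∈ S.G v b ∧ S.AField F ξ (ball z₁ ((n : ℝ) + 1)) r (1 / ((n : ℝ) + 1)) ∧
      (∀ z ∈ ball z₁ ((n : ℝ) + 1), ‖ξ z‖ ≤ Real.exp (κ * ‖z - z₁‖ ^ 2)) ∧ 1 / 4 < ‖ξ z₁‖ := by
    intro n
    by_contra hn
    refine hcon ⟨κ, (n : ℝ) + 1, 1 / ((n : ℝ) + 1), hκ, by positivity, by positivity, fun b F hF ξ z₁ hA hg => ?_⟩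
    by_contra h2
    exact hn ⟨b, F, ξ, z₁, hF, hA, hg, not_le.1 h2⟩
  choose b F ξ z₁ hF hA hg h0 using h1
  obtain ⟨b₀, H, hH, ξ', hξ, hgr, hne⟩ := App_limit S hD.ne hd hr hr' hκ (fun n => b n + z₁ n • v) (fun n z => F n (z + z₁ n)) (fun n z => ξ n (z + z₁ n))
    (fun n => S.G_trans (hF n) (z₁ n)) (fun n => App_trans S (hA n)) (fun n z hz => by
      have h2 := hg n (z + z₁ n) (by
        rw [mem_ball, dist_eq_norm, add_sub_cancel_right]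
        rwa [mem_ball_zero_iff] at hz)
      rwa [add_sub_cancel_right] at h2) (fun n => by
      show 1 / 4 < ‖ξ n (0 + z₁ n)‖
      rw [zero_add]
      exact h0 n)
  exact hne (hL b₀ H hH ξ' hξ hgr 0)

end Pool.Agent.TN
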