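import Pool.Agent.TN.Gv

/-!
# TN Chr: the curves and the changes of charts

Port of `TH/Chr.lean`; the proofs do not use the dimensions.
-/

set_option autoImplicit false

open Topology Filter Metric

namespace Pool.Agent.TN

open Pool.Agent.H36.BP (EN fs wd Sub)
open Pool.Agent.H14.PP (IsCone CurveAt Tan)
open Pool.Agent.H62.EF (MN pr)
open Pool.Agent.H5.BD (BC evp)
open Pool.Agent.AD (Vd Chart Charts TorusMapV DiscreteSub)
open Pool.Agent.AD.BD (Atlas LC Good qc)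

variable {N k : ℕ} {X : Set (EN N)}

private theorem Chr_const {E : Type*} [TopologicalSpace E] {g : ℕ} {Λ : AddSubgroup (Fin g → ℂ)} (hΛ : DiscreteSub Λ)
    {h : E → (Fin g → ℂ)} {z₀ : E} (hc : ContinuousAt h z₀) (hm : ∀ᶠ z in 𝓝 z₀, h z ∈ Λ) : ∀ᶠ z in 𝓝 z₀, h z = h z₀ := by
  obtain ⟨δ, hδ, hd⟩ := hΛ
  have h1 : ∀ᶠ z in 𝓝 z₀, ‖h z - h z₀‖ < δ := by
    have h2 := hc.eventually (ball_mem_nhds (h z₀) hδ)
    filter_upwards [h2] with z hz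
    rw [← dist_eq_norm]
    exact hz
  filter_upwards [h1, hm] with z hz1 hz2
  exact sub_eq_zero.1 (hd _ (Λ.sub_mem hz2 hm.self_of_nhds) hz1)

/-- the point `σ (q x)` -/
private theorem Chr_base (χ : Chart (k + 2) X) {x : EN N} (hx : x ∈ X) (hi : x ∈ χ.U) :
    χ.q x ∈ ball (0 : Vd (k + 2)) 2 ∧ ∀ χ' : Chart (k + 2) X, x ∈ χ'.U → χ.σ (χ.q x) ∈ χ'.U ∧ χ'.q (χ.σ (χ.q x)) = χ'.q x := by
  obtain ⟨hb, c, hc, h1⟩ := χ.surj x hx hi
  refine ⟨hb, fun χ' hj => ?_⟩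
  have h2 : χ.σ (χ.q x) = c⁻¹ • x := by
    conv_rhs => rw [h1]
    rw [smul_smul, inv_mul_cancel₀ hc, one_smul]
  rw [h2]
  exact ⟨χ'.smul_U x hj _ (inv_ne_zero hc), χ'.q_smul x hj _ (inv_ne_zero hc)⟩

private theorem Chr_an (χ χ' : Chart (k + 2) X) {p : Vd (k + 2)} (hp : p ∈ ball (0 : Vd (k + 2)) 2) (h : χ.σ p ∈ χ'.U) :
    AnalyticAt ℂ (fun y => χ'.q (χ.σ y)) p :=
  AnalyticAt.comp (g := χ'.q) (f := χ.σ) (χ'.q_an _ h) (χ.σ_an p hp)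

/-- near `q x` the point `σ p` is in the second chart -/
private theorem Chr_ev (χ χ' : Chart (k + 2) X) {p : Vd (k + 2)} (hp : p ∈ ball (0 : Vd (k + 2)) 2) (h : χ.σ p ∈ χ'.U) :
    ∀ᶠ y in 𝓝 p, y ∈ ball (0 : Vd (k + 2)) 2 ∧ χ.σ y ∈ χ'.U := by
  have h1 : ∀ᶠ y in 𝓝 p, y ∈ ball (0 : Vd (k + 2)) 2 := isOpen_ball.mem_nhds hp
  have h2 : ∀ᶠ y in 𝓝 p, χ.σ y ∈ χ'.U := (χ.σ_an p hp).continuousAt.eventually (χ'.isOpen_U.mem_nhds h)
  exact h1.and h2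

private theorem Chr_curve {F : ℂ → EN N} {z : ℂ} (hF : CurveAt X F z) {χ : Chart (k + 2) X} (hi : F z ∈ χ.U) :
    ∀ᶠ w in 𝓝 z, F w ∈ X ∧ F w ∈ χ.U := by
  have h2 : ∀ᶠ w in 𝓝 z, F w ∈ χ.U := hF.1.continuousAt.eventually (χ.isOpen_U.mem_nhds hi)
  exact hF.2.and h2

namespace Setting

variable (S : Setting k X)

theorem good_ix {x : EN N} (hx : x ∈ X) : Good (S.A.χ (S.ix x)) x := by
  unfold ix
  exact S.A.good x hx x hx (by rw [dist_self]; exact S.A.δ_pos.le)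

theorem q_an {F : ℂ → EN N} {z : ℂ} (hF : CurveAt X F z) {i : Fin S.A.n} (hi : F z ∈ (S.A.χ i).U) : AnalyticAt ℂ (fun w => S.q i (F w)) z :=
  ((S.A.χ i).curve S.cone hF hi).1

theorem der_beta {v b : Vd (k + 1)} {F : ℂ → EN N} (hF : F ∈ S.G v b) {z : ℂ} {i : Fin S.A.n} (hi : F z ∈ (S.A.χ i).U) :
    fderiv ℂ (S.β i) (S.q i (F z)) (deriv (fun w => S.q i (F w)) z) = v := by
  obtain ⟨hd, hX, hu⟩ := hF
  have hC : CurveAt X F z := ⟨hd.analyticAt z, Eventually.of_forall hX⟩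
  have hq := S.q_an hC hi
  have hb := (Chr_base (S.A.χ i) (hX z) hi).1
  have hβ : AnalyticAt ℂ (S.β i) (S.q i (F z)) := S.β_an i _ hb
  have hcomp : AnalyticAt ℂ (fun w => S.β i (S.q i (F w))) z :=
    AnalyticAt.comp (g := S.β i) (f := fun w => S.q i (F w)) hβ hq
  have hlin : AnalyticAt ℂ (fun w : ℂ => b + w • v) z := by fun_prop
  have hm : ∀ᶠ w in 𝓝 z, S.β i (S.q i (F w)) - (b + w • v) ∈ S.Λ := by
    filter_upwards [Chr_curve hC hi] with w hw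
    have h1 := S.β_eq i (F w) hw.1 hw.2
    have h2 := S.Λ.sub_mem (hu w) h1
    have e : S.u (F w) - (b + w • v) - (S.u (F w) - S.β i ((S.A.χ i).q (F w))) = S.β i (S.q i (F w)) - (b + w • v) := by
      unfold q
      abel
    rwa [e] at h2
  have h3 := Pool.Agent.AD.deriv_eq_of_mem S.disc hcomp hlin hm
  have h4 : deriv (fun w : ℂ => b + w • v) z = v := by
    have h5 : HasDerivAt (fun w : ℂ => b + w • v) ((1 : ℂ) • v) z := ((hasDerivAt_id z).smul_const v).const_add b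
    rw [h5.deriv, one_smul]
  have h6 : HasDerivAt (fun w => S.β i (S.q i (F w))) (fderiv ℂ (S.β i) (S.q i (F z)) (deriv (fun w => S.q i (F w)) z)) z :=
    hβ.differentiableAt.hasFDerivAt.comp_hasDerivAt z hq.differentiableAt.hasDerivAt
  rw [← h6.deriv, h3, h4]

theorem T_comp {x : EN N} (hx : x ∈ X) {i j l : Fin S.A.n} (hi : x ∈ (S.A.χ i).U) (hj : x ∈ (S.A.χ j).U) (hl : x ∈ (S.A.χ l).U) (w : Vd (k + 2)) :
    S.T j l x (S.T i j x w) = S.T i l x w := by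
  obtain ⟨hb, hB⟩ := Chr_base (S.A.χ i) hx hi
  obtain ⟨hbj, hBj⟩ := Chr_base (S.A.χ j) hx hj
  have hij := hB _ hj
  have hik := hB _ hl
  have hjk := hBj _ hl
  have h1 : HasFDerivAt (fun p => (S.A.χ j).q ((S.A.χ i).σ p)) (S.T i j x) ((S.A.χ i).q x) :=
    (Chr_an _ _ hb hij.1).differentiableAt.hasFDerivAt
  have h2 : HasFDerivAt (fun p => (S.A.χ l).q ((S.A.χ j).σ p)) (S.T j l x) ((S.A.χ j).q ((S.A.χ i).σ ((S.A.χ i).q x))) := by
    rw [hij.2]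
    exact (Chr_an _ _ hbj hjk.1).differentiableAt.hasFDerivAt
  have h3 : HasFDerivAt (fun p => (S.A.χ l).q ((S.A.χ j).σ ((S.A.χ j).q ((S.A.χ i).σ p)))) ((S.T j l x).comp (S.T i j x)) ((S.A.χ i).q x) :=
    HasFDerivAt.comp (g := fun p => (S.A.χ l).q ((S.A.χ j).σ p)) (f := fun p => (S.A.χ j).q ((S.A.χ i).σ p)) _ h2 h1
  have h4 : HasFDerivAt (fun p => (S.A.χ l).q ((S.A.χ i).σ p)) ((S.T j l x).comp (S.T i j x)) ((S.A.χ i).q x) := by
    refine h3.congr_of_eventuallyEq ?_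
    filter_upwards [Chr_ev _ _ hb hij.1, Chr_ev _ _ hb hik.1] with p hp hp'
    exact ((Chr_base (S.A.χ j) ((S.A.χ i).σ_mem p hp.1).1 hp.2).2 _ hp'.2).2.symm
  have h5 : S.T i l x = (S.T j l x).comp (S.T i j x) := h4.fderiv
  rw [h5]
  rfl

theorem T_self {x : EN N} (hx : x ∈ X) {i : Fin S.A.n} (hi : x ∈ (S.A.χ i).U) (w : Vd (k + 2)) : S.T i i x w = w := by
  obtain ⟨hb, -⟩ := Chr_base (S.A.χ i) hx hi
  have h1 : HasFDerivAt (fun p => (S.A.χ i).q ((S.A.χ i).σ p)) (ContinuousLinearMap.id ℂ (Vd (k + 2))) ((S.A.χ i).q x) := by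
    refine (hasFDerivAt_id _).congr_of_eventuallyEq ?_
    filter_upwards [isOpen_ball.mem_nhds hb] with p hp
    exact ((S.A.χ i).σ_mem p hp).2.2
  have h2 : S.T i i x = ContinuousLinearMap.id ℂ (Vd (k + 2)) := h1.fderiv
  rw [h2]
  rfl

theorem T_beta {x : EN N} (hx : x ∈ X) {i j : Fin S.A.n} (hi : x ∈ (S.A.χ i).U) (hj : x ∈ (S.A.χ j).U) (w : Vd (k + 2)) :
    fderiv ℂ (S.β j) (S.q j x) (S.T i j x w) = fderiv ℂ (S.β i) (S.q i x) w := by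
  obtain ⟨hb, hB⟩ := Chr_base (S.A.χ i) hx hi
  obtain ⟨hbj, -⟩ := Chr_base (S.A.χ j) hx hj
  have hij := hB _ hj
  have h1 : HasFDerivAt (fun p => (S.A.χ j).q ((S.A.χ i).σ p)) (S.T i j x) ((S.A.χ i).q x) :=
    (Chr_an _ _ hb hij.1).differentiableAt.hasFDerivAt
  have h2 : HasFDerivAt (S.β j) (fderiv ℂ (S.β j) (S.q j x)) ((S.A.χ j).q ((S.A.χ i).σ ((S.A.χ i).q x))) := by
    rw [hij.2]
    exact (S.β_an j _ hbj).differentiableAt.hasFDerivAt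
  have h3 : HasFDerivAt (fun p => S.β j ((S.A.χ j).q ((S.A.χ i).σ p))) ((fderiv ℂ (S.β j) (S.q j x)).comp (S.T i j x)) ((S.A.χ i).q x) :=
    HasFDerivAt.comp (g := S.β j) (f := fun p => (S.A.χ j).q ((S.A.χ i).σ p)) _ h2 h1
  have h4 : HasFDerivAt (S.β i) (fderiv ℂ (S.β i) (S.q i x)) ((S.A.χ i).q x) :=
    (S.β_an i _ hb).differentiableAt.hasFDerivAt
  have hm : ∀ᶠ p in 𝓝 ((S.A.χ i).q x), S.β j ((S.A.χ j).q ((S.A.χ i).σ p)) - S.β i p ∈ S.Λ := by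
    filter_upwards [Chr_ev _ _ hb hij.1] with p hp
    obtain ⟨hX', hU', hq'⟩ := (S.A.χ i).σ_mem p hp.1
    have h5 := S.β_eq i _ hX' hU'
    have h6 := S.β_eq j _ hX' hp.2
    rw [hq'] at h5
    have h7 := S.Λ.sub_mem h5 h6
    rwa [sub_sub_sub_cancel_left] at h7
  have hc : ContinuousAt (fun p => S.β j ((S.A.χ j).q ((S.A.χ i).σ p)) - S.β i p) ((S.A.χ i).q x) :=
    h3.continuousAt.sub h4.continuousAt
  have h8 := Chr_const S.disc hc hm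
  have h9 : HasFDerivAt (fun p => S.β j ((S.A.χ j).q ((S.A.χ i).σ p)) - S.β i p) (0 : Vd (k + 2) →L[ℂ] Vd (k + 1)) ((S.A.χ i).q x) :=
    (hasFDerivAt_const _ _).congr_of_eventuallyEq h8
  have h10 := (h3.sub h4).unique h9
  have h11 := congrArg (fun L : Vd (k + 2) →L[ℂ] Vd (k + 1) => L w) h10
  exact sub_eq_zero.1 h11

theorem T_an {F : ℂ → EN N} {z : ℂ} (hF : CurveAt X F z) {i j : Fin S.A.n} (hi : F z ∈ (S.A.χ i).U) (hj : F z ∈ (S.A.χ j).U) :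
    AnalyticAt ℂ (fun w => S.T i j (F w)) z := by
  obtain ⟨hb, hB⟩ := Chr_base (S.A.χ i) hF.2.self_of_nhds hi
  have h1 : AnalyticAt ℂ (fderiv ℂ (fun p => (S.A.χ j).q ((S.A.χ i).σ p))) ((S.A.χ i).q (F z)) :=
    (Chr_an _ _ hb (hB _ hj).1).fderiv
  exact AnalyticAt.comp (g := fderiv ℂ (fun p => (S.A.χ j).q ((S.A.χ i).σ p))) (f := fun w => (S.A.χ i).q (F w)) h1 (S.q_an hF hi)

theorem T_curve {F : ℂ → EN N} {z : ℂ} (hF : CurveAt X F z) {i j : Fin S.A.n} (hi : F z ∈ (S.A.χ i).U) (hj : F z ∈ (S.A.χ j).U) :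
    S.T i j (F z) (deriv (fun w => S.q i (F w)) z) = deriv (fun w => S.q j (F w)) z := by
  obtain ⟨hb, hB⟩ := Chr_base (S.A.χ i) hF.2.self_of_nhds hi
  have h1 : HasFDerivAt (fun p => (S.A.χ j).q ((S.A.χ i).σ p)) (S.T i j (F z)) (S.q i (F z)) :=
    (Chr_an _ _ hb (hB _ hj).1).differentiableAt.hasFDerivAt
  have h2 : HasDerivAt (fun w => S.q i (F w)) (deriv (fun w => S.q i (F w)) z) z := (S.q_an hF hi).differentiableAt.hasDerivAt
  have h3 : HasDerivAt (fun w => (S.A.χ j).q ((S.A.χ i).σ (S.q i (F w)))) (S.T i j (F z) (deriv (fun w => S.q i (F w)) z)) z :=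
    HasFDerivAt.comp_hasDerivAt (l := fun p => (S.A.χ j).q ((S.A.χ i).σ p)) (f := fun w => S.q i (F w)) z h1 h2
  have h4 : HasDerivAt (fun w => S.q j (F w)) (S.T i j (F z) (deriv (fun w => S.q i (F w)) z)) z := by
    refine h3.congr_of_eventuallyEq ?_
    filter_upwards [Chr_curve hF hi, Chr_curve hF hj] with w hw hw'
    exact ((Chr_base (S.A.χ i) hw.1 hw.2).2 _ hw'.2).2.symm
  exact h4.deriv.symm

theorem T_bound : ∃ C : ℝ, 1 ≤ C ∧ ∀ i j x, Good (S.A.χ i) x → Good (S.A.χ j) x → ‖S.T i j x‖ ≤ C :=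
  ⟨S.A.C, S.A.one_le, fun i j x hi hj => S.A.fd_le i j x hi hj⟩

end Setting

end Pool.Agent.TN
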