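import Pool.Agent.AD.BD.Atl
import Pool.Agent.H19T.Defs

/-!
# TN Defs: varieties of dimension `k + 2` over complex tori of dimension `k + 1`, definitions

`X` is the cone (without `0`) of a smooth projective variety of dimension `k + 2`, `u : X → ℂ^(k+1) / Λ` a holomorphic map, `Ω` forms with values in `m K_X - H` without common zeros.
`Setting k X` bundles these data with an atlas; in the charts `u` is given by `β i`.  (`k = 1`: the project TH.)
-/

set_option autoImplicit false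

open Topology Filter Metric

namespace Pool.Agent.TN

open Pool.Agent.H36.BP (EN fs wd Sub)
open Pool.Agent.H14.PP (IsCone CurveAt Tan)
open Pool.Agent.H62.EF (MN pr)
open Pool.Agent.H5.BD (BC evp)
open Pool.Agent.AD (Vd Chart Charts TorusMapV DiscreteSub)
open Pool.Agent.AD.BD (Atlas LC Good qc)
open Pool.Agent.H19T (TForm TNoZero)

variable {N : ℕ}

/-- the signed maximal minors of a linear map `ℂ^(n+1) → ℂ^n`; they span the kernel if the map is onto, and are `0` otherwise -/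
noncomputable def kap {n : ℕ} (L : Vd (n + 1) →L[ℂ] Vd n) : Vd (n + 1) :=
  fun l => (-1) ^ (l : ℕ) * Matrix.det (Matrix.of fun a b : Fin n => L (Pi.single (l.succAbove b) 1) a)

/-- the coordinates `(z, τ) ↦ z v + τ₀ e₀ + ... + τ_(k-1) e_(k-1)` -/
def co {k : ℕ} (v : Vd (k + 1)) (e : Fin k → Vd (k + 1)) (z : ℂ) (τ : Vd k) : Vd (k + 1) := z • v + ∑ j, τ j • e j

/-- The setting: a smooth projective variety of dimension `k + 2` with ample canonical bundle over a complex torus of dimension `k + 1`, without entire curves in the fibres,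
with an atlas. -/
structure Setting (k : ℕ) (X : Set (EN N)) where
  /-- the lattice -/
  Λ : AddSubgroup (Vd (k + 1))
  /-- the map to the torus -/
  u : EN N → Vd (k + 1)
  /-- the weight of the forms -/
  m : ℕ
  /-- the number of the forms -/
  J : ℕ
  /-- the forms -/
  Ω : Fin J → TForm (k + 2) (k + 2) X m
  /-- the atlas -/
  A : Atlas (k + 2) X
  /-- the map to the torus in the charts -/
  β : Fin A.n → Vd (k + 2) → Vd (k + 1)
  cone : IsCone X
  charts : Charts (k + 2) X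
  ne : X.Nonempty
  torus : TorusMapV X Λ u
  disc : DiscreteSub Λ
  cpt : ∃ C : ℝ, ∀ b : Vd (k + 1), ∃ l ∈ Λ, ‖b - l‖ ≤ C
  m_pos : 1 ≤ m
  noZero : TNoZero Ω
  β_an : ∀ i, ∀ p ∈ ball (0 : Vd (k + 2)) 2, AnalyticAt ℂ (β i) p
  β_eq : ∀ i, ∀ x ∈ X, x ∈ (A.χ i).U → u x - β i ((A.χ i).q x) ∈ Λ
  fibre : ∀ F : ℂ → EN N, Differentiable ℂ F → (∀ z, F z ∈ X) → (∀ z, u (F z) - u (F 0) ∈ Λ) → ∀ z, pr (F z) = pr (F 0)

namespace Setting

variable {k : ℕ} {X : Set (EN N)} (S : Setting k X)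

/-- the chosen chart at the point `x` -/
noncomputable def ix (x : EN N) : Fin S.A.n := S.A.idx (pr x)

/-- the coordinates of `x` in the chart `i` -/
noncomputable def q (i : Fin S.A.n) (x : EN N) : Vd (k + 2) := (S.A.χ i).q x

/-- the change of charts, from the chart `i` to the chart `j`, on tangent vectors at `x` -/
noncomputable def T (i j : Fin S.A.n) (x : EN N) : Vd (k + 2) →L[ℂ] Vd (k + 2) := fderiv ℂ (fun p => (S.A.χ j).q ((S.A.χ i).σ p)) ((S.A.χ i).q x)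

/-- the entire curves over the line `b + ℂ v` -/
def G (v b : Vd (k + 1)) : Set (ℂ → EN N) := {F | Differentiable ℂ F ∧ (∀ z, F z ∈ X) ∧ ∀ z, S.u (F z) - (b + z • v) ∈ S.Λ}

/-- the minors of `d β` in the chart `i` at the point `p` -/
noncomputable def kap (i : Fin S.A.n) (p : Vd (k + 2)) : Vd (k + 2) := Pool.Agent.TN.kap (fderiv ℂ (S.β i) p)

/-- the point `x` is a critical point of `u` -/
def Hit (x : EN N) : Prop := S.kap (S.ix x) (S.q (S.ix x) x) = 0

/-- the real line `ℝ e` is contained in the closure of `ℂ v + Λ` -/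
def Reach (v e : Vd (k + 1)) : Prop := ∀ (t : ℝ) (ε : ℝ), 0 < ε → ∃ z : ℂ, ∃ l ∈ S.Λ, ‖z • v + l - (t : ℂ) • e‖ < ε

/-- the real directions in the closure of `ℂ v + Λ` span the vector space over `ℂ`: `v, e 0, ..., e (k-1)` is a basis -/
structure Dir (v : Vd (k + 1)) : Prop where
  ne : v ≠ 0
  basis : ∃ e : Fin k → Vd (k + 1), LinearIndependent ℂ (Fin.cons v e : Fin (k + 1) → Vd (k + 1)) ∧ ∀ j, S.Reach v (e j)

/-- the constants of the local analysis for the curves of `G v b` -/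
structure Dat (v : Vd (k + 1)) (c L r₀ c₁ K : ℝ) : Prop where
  lc : LC S.A c L r₀ c₁ K
  c_pos : 0 < c
  sub : ∀ b, S.G v b ⊆ BC X c L

/-- the length of the forms on the unit vectors of the chart `i` at the point `p` -/
noncomputable def kk (i : Fin S.A.n) (p : Vd (k + 2)) : ℝ :=
  (∑ j, ‖(S.Ω j).toFun ((S.A.χ i).σ p) (fun l => fderiv ℂ (S.A.χ i).σ p (Pi.single l 1))‖) * ‖(S.A.χ i).σ p‖

/-- a vertical holomorphic vector field along `F`: `ξ z` is a vector in the chart `ix (F z)` -/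
structure Field (F : ℂ → EN N) (ξ : ℂ → Vd (k + 2)) : Prop where
  hol : ∀ z₀, ∃ (r : ℝ) (h : ℂ → Vd (k + 2)), 0 < r ∧ DifferentiableOn ℂ h (ball z₀ r) ∧
    ∀ z ∈ ball z₀ r, Good (S.A.χ (S.ix (F z₀))) (F z) ∧ S.T (S.ix (F z)) (S.ix (F z₀)) (F z) (ξ z) = h z
  ver : ∀ z, fderiv ℂ (S.β (S.ix (F z))) (S.q (S.ix (F z)) (F z)) (ξ z) = 0

/-- an approximate vertical holomorphic vector field along `F` on the set `U`, with error `ε`, on the scale `r` -/
structure AField (F : ℂ → EN N) (ξ : ℂ → Vd (k + 2)) (U : Set ℂ) (r ε : ℝ) : Prop where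
  hol : ∀ z₀ ∈ U, ∃ h : ℂ → Vd (k + 2), DifferentiableOn ℂ h (ball z₀ r) ∧
    ∀ z ∈ ball z₀ r ∩ U, ‖S.T (S.ix (F z)) (S.ix (F z₀)) (F z) (ξ z) - h z‖ ≤ ε
  ver : ∀ z ∈ U, ‖fderiv ℂ (S.β (S.ix (F z))) (S.q (S.ix (F z)) (F z)) (ξ z)‖ ≤ ε

/-- the difference of `G z` and `F z` in the chart at `F z` -/
noncomputable def dsp (F G : ℂ → EN N) (z : ℂ) : Vd (k + 2) := S.q (S.ix (F z)) (G z) - S.q (S.ix (F z)) (F z)

/-- the distance of the points `F z` and `G z` of the projective space -/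
noncomputable def _root_.Pool.Agent.TN.pd (F G : ℂ → EN N) (z : ℂ) : ℝ := dist (pr (F z)) (pr (G z))

/-- the entire curves over the line `b + ℂ v`, as maps to the projective space -/
def Gs (v b : Vd (k + 1)) : Set (ℂ → MN N) := {f | ∃ F ∈ S.G v b, ∀ z, f z = pr (F z)}

/-- the holomorphic maps `Ψ : ℂ^(k+1) → X` over the translation by `b` -/
def FF (b : Vd (k + 1)) : Set (Vd (k + 1) → MN N) :=
  {Ψ | ∀ w, ∃ φ : Vd (k + 1) → EN N, AnalyticAt ℂ φ w ∧ ∀ᶠ y in 𝓝 w, φ y ∈ X ∧ Ψ y = pr (φ y) ∧ S.u (φ y) - (b + y) ∈ S.Λ}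

/-- the finite family of all the sheets -/
structure Sheets (J : ℕ) (Ψ : Fin J → Vd (k + 1) → MN N) : Prop where
  mem : ∀ j, Ψ j ∈ S.FF 0
  all : ∀ Φ ∈ S.FF 0, ∃ j, Φ = Ψ j
  inj : ∀ j j', Ψ j = Ψ j' → j = j'
  per : ∃ M : ℕ, 1 ≤ M ∧ ∀ j, ∀ l ∈ S.Λ, ∀ w, Ψ j (w + M • l) = Ψ j w
  disj : ∀ j j' w w', Ψ j w = Ψ j' w' → w - w' ∈ S.Λ ∧ ∀ y, Ψ j (w + y) = Ψ j' (w' + y)
  lip : ∃ L : ℝ, ∀ j w w', dist (Ψ j w) (Ψ j w') ≤ L * ‖w - w'‖
  curves : ∀ v, S.Dir v → ∀ b, ∀ F ∈ S.G v b, ∃ j, ∀ z, pr (F z) = Ψ j (b + z • v)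

end Setting

end Pool.Agent.TN
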