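import Pool.Agent.TN.Chr
import Pool.Agent.TN.Osg
import Pool.Agent.H17.GlobalLift
import Pool.Agent.H62.EF.PrLip

/-!
# TN FFa: the maps of `ℂ^(k+1)`, basic facts

Port of `TH/FFa.lean`.
-/

set_option autoImplicit false

open Topology Filter Metric

namespace Pool.Agent.TN

open Pool.Agent.H36.BP (EN fs wd Sub)
open Pool.Agent.H14.PP (IsCone CurveAt Tan)
open Pool.Agent.H62.EF (MN pr)
open Pool.Agent.H5.BD (BC evp)
open Pool.Agent.AD (Vd Chart Charts TorusMapV DiscreteSub)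
open Pool.Agent.AD.BD (Atlas LC Good qc)

variable {N k : ℕ} {X : Set (EN N)}

private theorem FFa_const {E : Type*} [TopologicalSpace E] {g : ℕ} {Λ : AddSubgroup (Fin g → ℂ)} (hΛ : DiscreteSub Λ)
    {h : E → (Fin g → ℂ)} {z₀ : E} (hc : ContinuousAt h z₀) (hm : ∀ᶠ z in 𝓝 z₀, h z ∈ Λ) : ∀ᶠ z in 𝓝 z₀, h z = h z₀ := by
  obtain ⟨δ, hδ, hd⟩ := hΛ
  have h1 : ∀ᶠ z in 𝓝 z₀, ‖h z - h z₀‖ < δ := by
    have h2 := hc.eventually (ball_mem_nhds (h z₀) hδ)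
    filter_upwards [h2] with z hz
    rw [← dist_eq_norm]
    exact hz
  filter_upwards [h1, hm] with z hz1 hz2
  exact sub_eq_zero.1 (hd _ (Λ.sub_mem hz2 hm.self_of_nhds) hz1)

/-- the limit of elements of a discrete subgroup -/
private theorem FFa_mem_of_tendsto {g : ℕ} {Λ : AddSubgroup (Vd g)} (hΛ : DiscreteSub Λ) {ι : Type*} {l : Filter ι} [l.NeBot] {y : ι → Vd g} {y₀ : Vd g}
    (hy : Tendsto y l (𝓝 y₀)) (hm : ∀ᶠ n in l, y n ∈ Λ) : y₀ ∈ Λ := by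
  obtain ⟨δ, hδ, hd⟩ := hΛ
  have h1 : ∀ᶠ n in l, ‖y n - y₀‖ < δ / 2 := by
    have h2 := hy.eventually (ball_mem_nhds y₀ (half_pos hδ))
    filter_upwards [h2] with n hn
    rw [← dist_eq_norm]
    exact hn
  obtain ⟨n₀, hn₀, hm₀⟩ := (h1.and hm).exists
  have h3 : ∀ᶠ n in l, y n = y n₀ := by
    filter_upwards [h1, hm] with n hn hmn
    have h4 : ‖y n - y n₀‖ < δ := by
      calc ‖y n - y n₀‖ = ‖(y n - y₀) - (y n₀ - y₀)‖ := by rw [sub_sub_sub_cancel_right]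
        _ ≤ ‖y n - y₀‖ + ‖y n₀ - y₀‖ := norm_sub_le _ _
        _ < δ := by linarith
    exact sub_eq_zero.1 (hd _ (Λ.sub_mem hmn hm₀) h4)
  have h5 : Tendsto y l (𝓝 (y n₀)) := (tendsto_congr' h3).2 tendsto_const_nhds
  rw [tendsto_nhds_unique hy h5]
  exact hm₀

private theorem FFa_ne_zero {X : Set (EN N)} (hX : IsCone X) {x : EN N} (hx : x ∈ X) : x ≠ 0 := by
  rintro rfl
  exact hX.zero_notMem hx

private theorem FFa_coord_an {f : ℂ → EN N} {z : ℂ} (hf : AnalyticAt ℂ f z) (i : Fin (N + 1)) :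
    AnalyticAt ℂ (fun w => f w i) z := by
  exact ((EuclideanSpace.proj (𝕜 := ℂ) i : EN N →L[ℂ] ℂ).analyticAt _).comp hf

namespace Setting

variable (S : Setting k X)

open Classical in
/-- the coordinates in the chart `i` of a point of the projective space -/
noncomputable def qm (i : Fin S.A.n) (P : MN N) : Vd (k + 2) := if h : ∃ x ∈ X, pr x = P then S.q i h.choose else 0

/-- the point `P` is in the good part of the chart `i` -/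
def GoodM (i : Fin S.A.n) (P : MN N) : Prop := ∃ x ∈ X, pr x = P ∧ Good (S.A.χ i) x

theorem qm_pr {x : EN N} (hx : x ∈ X) {i : Fin S.A.n} (hi : x ∈ (S.A.χ i).U) : S.qm i (pr x) = S.q i x := by
  have h : ∃ y ∈ X, pr y = pr x := ⟨x, hx, rfl⟩
  unfold qm
  rw [dif_pos h]
  obtain ⟨h1, h2⟩ := h.choose_spec
  obtain ⟨c, hc, h3⟩ := (Pool.Agent.H62.EF.pr_eq_iff (FFa_ne_zero S.cone h1) (FFa_ne_zero S.cone hx)).1 h2
  rw [h3]
  exact (S.A.χ i).q_smul x hi c hc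

theorem FF_line {b : Vd (k + 1)} {Ψ : Vd (k + 1) → MN N} (h : Ψ ∈ S.FF b) (v w : Vd (k + 1)) : ∃ F ∈ S.G v (b + w), ∀ z : ℂ, pr (F z) = Ψ (w + z • v) := by
  classical
  have hX := S.cone
  have h1 : ∀ z₀ : ℂ, ∃ ψ : ℂ → EN N, AnalyticAt ℂ ψ z₀ ∧
      ∀ᶠ z in 𝓝 z₀, ψ z ∈ X ∧ Ψ (w + z • v) = pr (ψ z) ∧ S.u (ψ z) - (b + w + z • v) ∈ S.Λ := by
    intro z₀
    obtain ⟨φ, hφ, hev⟩ := h (w + z₀ • v)
    have hc : ContinuousAt (fun z : ℂ => w + z • v) z₀ := by fun_prop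
    refine ⟨fun z => φ (w + z • v), ?_, ?_⟩
    · have h2 : AnalyticAt ℂ (fun z : ℂ => w + z • v) z₀ := by fun_prop
      exact AnalyticAt.comp (g := φ) (f := fun z : ℂ => w + z • v) hφ h2
    · filter_upwards [hc.eventually hev] with z hz
      obtain ⟨h3, h4, h5⟩ := hz
      refine ⟨h3, h4, ?_⟩
      rw [add_assoc]
      exact h5
  choose ψ hψa hψ using h1
  have hψX : ∀ z, ψ z z ∈ X := fun z => (hψ z).self_of_nhds.1
  have hψp : ∀ z, Ψ (w + z • v) = pr (ψ z z) := fun z => (hψ z).self_of_nhds.2.1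
  have hψu : ∀ z, S.u (ψ z z) - (b + w + z • v) ∈ S.Λ := fun z => (hψ z).self_of_nhds.2.2
  have hofne : ∀ w : EN N, w ≠ 0 → w.ofLp ≠ 0 := by
    intro w hw h
    apply hw
    ext j
    exact congrFun h j
  have hψ0 : ∀ z, ψ z z ≠ 0 := fun z => FFa_ne_zero hX (hψX z)
  set f : ℂ → Pool.Agent.H17.PN N := fun z => Projectivization.mk ℂ (ψ z z).ofLp (hofne _ (hψ0 z)) with hf
  have hfhol : Pool.Agent.H17.HolomorphicInto f Set.univ := by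
    intro z₀ _
    refine ⟨fun w => (ψ z₀ w).ofLp, ?_, ?_⟩
    · rw [analyticAt_pi_iff]
      intro j
      exact FFa_coord_an (hψa z₀) j
    · filter_upwards [hψ z₀] with z hz
      obtain ⟨h2, h3, -⟩ := hz
      have h4 := FFa_ne_zero hX h2
      refine ⟨hofne _ h4, ?_⟩
      have h5 : pr (ψ z z) = pr (ψ z₀ z) := by rw [← hψp z, h3]
      obtain ⟨c, hc, h6⟩ := (Pool.Agent.H62.EF.pr_eq_iff (hψ0 z) h4).mp h5
      rw [hf, Projectivization.mk_eq_mk_iff']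
      exact ⟨c, by rw [h6]; rfl⟩
  obtain ⟨x, hx⟩ := Pool.Agent.H17.exists_global_lift hfhol
  set G : ℂ → EN N := fun z => WithLp.toLp 2 (fun j => (x j : ℂ → ℂ) z) with hG
  have hGd : Differentiable ℂ G := by
    have h1 : Differentiable ℂ (fun z => (fun j => (x j : ℂ → ℂ) z)) :=
      differentiable_pi.2 fun j => (x j).diff
    exact (PiLp.continuousLinearEquiv 2 ℂ (fun _ : Fin (N + 1) => ℂ)).symm.differentiable.comp h1
  have hGc : ∀ z, ∃ c : ℂ, c ≠ 0 ∧ ψ z z = c • G z := by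
    intro z
    obtain ⟨h1, h2⟩ := hx z
    obtain ⟨c, hc, h3⟩ := Pool.Agent.H17.mk_eq_mk_cross h2
    refine ⟨c, hc, ?_⟩
    ext j
    exact h3 j
  have hGX : ∀ z, G z ∈ X := by
    intro z
    obtain ⟨c, hc, h1⟩ := hGc z
    have h2 := hX.smul_mem _ (hψX z) c⁻¹ (inv_ne_zero hc)
    rwa [h1, smul_smul, inv_mul_cancel₀ hc, one_smul] at h2
  refine ⟨G, ⟨hGd, hGX, fun z => ?_⟩, fun z => ?_⟩
  · obtain ⟨c, hc, h1⟩ := hGc z
    have h2 := S.torus.smul _ (hGX z) c hc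
    rw [← h1] at h2
    have h3 := S.Λ.sub_mem (hψu z) h2
    have h4 : S.u (G z) - (b + w + z • v) = S.u (ψ z z) - (b + w + z • v) - (S.u (ψ z z) - S.u (G z)) := by abel
    rw [h4]
    exact h3
  · obtain ⟨c, hc, h1⟩ := hGc z
    rw [hψp z, h1, Pool.Agent.H62.EF.pr_smul _ hc]

theorem FF_trans {b : Vd (k + 1)} {Ψ : Vd (k + 1) → MN N} (h : Ψ ∈ S.FF b) (w : Vd (k + 1)) : (fun y => Ψ (w + y)) ∈ S.FF (b + w) := by
  intro y₀
  obtain ⟨φ, hφ, hev⟩ := h (w + y₀)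
  have hc : ContinuousAt (fun y : Vd (k + 1) => w + y) y₀ := by fun_prop
  refine ⟨fun y => φ (w + y), ?_, ?_⟩
  · have h2 : AnalyticAt ℂ (fun y : Vd (k + 1) => w + y) y₀ := by fun_prop
    exact AnalyticAt.comp (g := φ) (f := fun y : Vd (k + 1) => w + y) hφ h2
  · filter_upwards [hc.eventually hev] with y hy
    refine ⟨hy.1, hy.2.1, ?_⟩
    rw [add_assoc]
    exact hy.2.2

theorem FF_lat (b : Vd (k + 1)) {l : Vd (k + 1)} (hl : l ∈ S.Λ) : S.FF (b + l) = S.FF b := by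
  have key : ∀ (b : Vd (k + 1)) {l : Vd (k + 1)}, l ∈ S.Λ → S.FF (b + l) ⊆ S.FF b := by
    intro b l hl Ψ h w
    obtain ⟨φ, hφ, hev⟩ := h w
    refine ⟨φ, hφ, ?_⟩
    filter_upwards [hev] with y hy
    refine ⟨hy.1, hy.2.1, ?_⟩
    have h1 : S.u (φ y) - (b + y) = S.u (φ y) - (b + l + y) + l := by abel
    rw [h1]
    exact S.Λ.add_mem hy.2.2 hl
  refine Set.Subset.antisymm (key b hl) ?_
  have h1 := key (b + l) (S.Λ.neg_mem hl)
  rwa [add_neg_cancel_right] at h1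

theorem FF_lip : ∃ L : ℝ, 0 < L ∧ ∀ b, ∀ Ψ ∈ S.FF b, ∀ w w', dist (Ψ w) (Ψ w') ≤ L * ‖w - w'‖ := by
  obtain ⟨L, hL, hlip⟩ := S.exists_lip
  refine ⟨2 * L, by positivity, fun b Ψ hΨ w w' => ?_⟩
  by_cases hw : w = w'
  · rw [hw, dist_self, sub_self, norm_zero, mul_zero]
  have hn : ‖w' - w‖ ≠ 0 := norm_ne_zero_iff.2 (sub_ne_zero.2 (Ne.symm hw))
  have hnc : ((‖w' - w‖ : ℝ) : ℂ) ≠ 0 := by exact_mod_cast hn
  set v : Vd (k + 1) := ((‖w' - w‖ : ℝ) : ℂ)⁻¹ • (w' - w) with hv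
  have hv1 : ‖v‖ ≤ 1 := by
    rw [hv, norm_smul, norm_inv, Complex.norm_real, norm_norm, inv_mul_cancel₀ hn]
  obtain ⟨F, hF, hFp⟩ := S.FF_line hΨ v w
  have h1 := Pool.Agent.H62.EF.pr_lipschitz isOpen_univ convex_univ (F := F) hF.1.differentiableOn
    (fun z _ => FFa_ne_zero S.cone (hF.2.1 z)) (L := L) (fun z _ => hlip v hv1 _ F hF z)
    0 (Set.mem_univ _) ((‖w' - w‖ : ℝ) : ℂ) (Set.mem_univ _)
  rw [hFp, hFp] at h1
  have h2 : w + (0 : ℂ) • v = w := by rw [zero_smul, add_zero]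
  have h3 : w + ((‖w' - w‖ : ℝ) : ℂ) • v = w' := by
    rw [hv, smul_smul, mul_inv_cancel₀ hnc, one_smul]
    abel
  rw [h2, h3, zero_sub, norm_neg, Complex.norm_real, norm_norm, norm_sub_rev] at h1
  exact h1

/-- a point of `X` over the point `Ψ w` -/
private theorem FFa_pt {b : Vd (k + 1)} {Ψ : Vd (k + 1) → MN N} (h : Ψ ∈ S.FF b) (w : Vd (k + 1)) : ∃ x ∈ X, pr x = Ψ w ∧ S.u x - (b + w) ∈ S.Λ := by
  obtain ⟨φ, -, hev⟩ := h w
  obtain ⟨h1, h2, h3⟩ := hev.self_of_nhds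
  exact ⟨φ w, h1, h2.symm, h3⟩

/-- the values in a chart -/
private theorem FFa_beta {b : Vd (k + 1)} {Ψ : Vd (k + 1) → MN N} (h : Ψ ∈ S.FF b) {w : Vd (k + 1)} {i : Fin S.A.n} {x : EN N} (hx : x ∈ X) (hxp : pr x = Ψ w)
    (hi : x ∈ (S.A.χ i).U) : S.β i (S.qm i (Ψ w)) - (b + w) ∈ S.Λ := by
  obtain ⟨y, hy, hyp, hyu⟩ := S.FFa_pt h w
  obtain ⟨c, hc, h1⟩ := (Pool.Agent.H62.EF.pr_eq_iff (FFa_ne_zero S.cone hx) (FFa_ne_zero S.cone hy)).1 (hxp.trans hyp.symm)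
  have h2 := S.torus.smul _ hy c hc
  rw [← h1] at h2
  have h3 := S.β_eq i x hx hi
  rw [← hxp, S.qm_pr hx hi]
  have h4 : S.β i (S.q i x) - (b + w) = (S.u x - S.u y) + (S.u y - (b + w)) - (S.u x - S.β i ((S.A.χ i).q x)) := by
    unfold q
    abel
  rw [h4]
  exact S.Λ.sub_mem (S.Λ.add_mem h2 hyu) h3

/-- the general form of `FF_an` -/
private theorem FFa_an {b : Vd (k + 1)} {Ψ : Vd (k + 1) → MN N} (h : Ψ ∈ S.FF b) {w : Vd (k + 1)} {i : Fin S.A.n} {x : EN N} (hx : x ∈ X) (hxp : pr x = Ψ w)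
    (hi : x ∈ (S.A.χ i).U) : AnalyticAt ℂ (fun y => S.qm i (Ψ y)) w ∧
    ∀ᶠ y in 𝓝 w, S.β i (S.qm i (Ψ y)) = S.β i (S.qm i (Ψ w)) + (y - w) := by
  obtain ⟨φ, hφ, hev⟩ := h w
  obtain ⟨h1, h2, h3⟩ := hev.self_of_nhds
  have hφi : φ w ∈ (S.A.χ i).U := by
    obtain ⟨c, hc, h4⟩ := (Pool.Agent.H62.EF.pr_eq_iff (FFa_ne_zero S.cone h1) (FFa_ne_zero S.cone hx)).1 (h2.symm.trans hxp.symm)
    rw [h4]
    exact (S.A.χ i).smul_U _ hi c hc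
  have hU : ∀ᶠ y in 𝓝 w, φ y ∈ (S.A.χ i).U := hφ.continuousAt.eventually ((S.A.χ i).isOpen_U.mem_nhds hφi)
  have heq : ∀ᶠ y in 𝓝 w, S.qm i (Ψ y) = S.q i (φ y) := by
    filter_upwards [hev, hU] with y hy hyU
    rw [hy.2.1, S.qm_pr hy.1 hyU]
  have han : AnalyticAt ℂ (fun y => S.q i (φ y)) w := AnalyticAt.comp (g := (S.A.χ i).q) (f := φ) ((S.A.χ i).q_an _ hφi) hφ
  have han' : AnalyticAt ℂ (fun y => S.qm i (Ψ y)) w := han.congr (heq.mono fun y hy => hy.symm)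
  refine ⟨han', ?_⟩
  have hb2 : S.qm i (Ψ w) ∈ ball (0 : Vd (k + 2)) 2 := by
    rw [← hxp, S.qm_pr hx hi]
    exact ((S.A.χ i).surj x hx hi).1
  have hcont : ContinuousAt (fun y => S.β i (S.qm i (Ψ y)) - (b + y)) w := by
    have h4 : ContinuousAt (fun y => S.β i (S.qm i (Ψ y))) w :=
      ContinuousAt.comp (g := S.β i) (f := fun y => S.qm i (Ψ y)) (S.β_an i _ hb2).continuousAt han'.continuousAt
    exact h4.sub (by fun_prop)
  have hm : ∀ᶠ y in 𝓝 w, S.β i (S.qm i (Ψ y)) - (b + y) ∈ S.Λ := by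
    filter_upwards [hev, hU] with y hy hyU
    exact S.FFa_beta h hy.1 hy.2.1.symm hyU
  filter_upwards [FFa_const S.disc hcont hm] with y hy
  have h5 : S.β i (S.qm i (Ψ y)) = (S.β i (S.qm i (Ψ y)) - (b + y)) + (b + y) := by abel
  rw [h5, hy]
  abel

theorem FF_an {b : Vd (k + 1)} {Ψ : Vd (k + 1) → MN N} (h : Ψ ∈ S.FF b) {w : Vd (k + 1)} {i : Fin S.A.n} (hi : S.GoodM i (Ψ w)) : AnalyticAt ℂ (fun y => S.qm i (Ψ y)) w ∧
    ∀ᶠ y in 𝓝 w, S.β i (S.qm i (Ψ y)) = S.β i (S.qm i (Ψ w)) + (y - w) := by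
  obtain ⟨x, hx, hxp, hg⟩ := hi
  exact S.FFa_an h hx hxp hg.2.1

/-- near `pr x` the points of `X` are in the chart -/
private theorem FFa_near {x : EN N} (hx : x ∈ X) {i : Fin S.A.n} (hi : x ∈ (S.A.χ i).U) {ε : ℝ} (hε : 0 < ε) :
    ∃ δ : ℝ, 0 < δ ∧ ∀ y ∈ X, dist (pr y) (pr x) < δ → y ∈ (S.A.χ i).U ∧ ‖S.q i y - S.q i x‖ < ε := by
  have h1 : ∀ᶠ y in 𝓝 x, ‖S.q i y - S.q i x‖ < ε := by
    have h2 := ((S.A.χ i).q_an x hi).continuousAt.eventually (ball_mem_nhds _ hε)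
    filter_upwards [h2] with y hy
    rw [← dist_eq_norm]
    exact hy
  have hU : {y | y ∈ (S.A.χ i).U ∧ ‖S.q i y - S.q i x‖ < ε} ∈ 𝓝 x := Filter.inter_mem ((S.A.χ i).isOpen_U.mem_nhds hi) h1
  obtain ⟨δ, hδ, h3⟩ := Pool.Agent.H62.EF.near_of_pr (FFa_ne_zero S.cone hx) hU
  refine ⟨δ, hδ, fun y hy hd => ?_⟩
  obtain ⟨c, hc, h4, h5⟩ := h3 y (FFa_ne_zero S.cone hy) hd
  have h6 := (S.A.χ i).smul_U _ h4 c⁻¹ (inv_ne_zero hc)
  rw [smul_smul, inv_mul_cancel₀ hc, one_smul] at h6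
  have h7 : S.q i (c • y) = S.q i y := (S.A.χ i).q_smul y h6 c hc
  rw [h7] at h5
  exact ⟨h6, h5⟩

/-- uniform continuity of the coordinates -/
private theorem FFa_unif {x : EN N} {i : Fin S.A.n} {δ : ℝ} (hδ : ∀ y ∈ X, dist (pr y) (pr x) < δ → y ∈ (S.A.χ i).U) {δ' : ℝ} (hδ' : δ' < δ) {ε : ℝ} (hε : 0 < ε) :
    ∃ η : ℝ, 0 < η ∧ ∀ y ∈ X, ∀ y' ∈ X, dist (pr y) (pr x) ≤ δ' → dist (pr y') (pr x) ≤ δ' → dist (pr y) (pr y') < η → ‖S.qm i (pr y) - S.qm i (pr y')‖ < ε := by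
  have hK : IsCompact (pr '' X ∩ closedBall (pr x) δ') := (Pool.Agent.H62.EF.isCompact_pr S.cone).inter_right isClosed_closedBall
  have hc : ContinuousOn (S.qm i) (pr '' X ∩ closedBall (pr x) δ') := by
    rintro P ⟨⟨y, hy, rfl⟩, hyb⟩
    have hyU : y ∈ (S.A.χ i).U := hδ y hy (lt_of_le_of_lt (mem_closedBall.1 hyb) hδ')
    rw [Metric.continuousWithinAt_iff]
    intro ε' hε'
    obtain ⟨δ₁, hδ₁, h1⟩ := S.FFa_near hy hyU hε'
    refine ⟨δ₁, hδ₁, ?_⟩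
    rintro Q ⟨⟨z, hz, rfl⟩, -⟩ hd
    obtain ⟨h2, h3⟩ := h1 z hz hd
    rw [S.qm_pr hz h2, S.qm_pr hy hyU, dist_eq_norm]
    exact h3
  have hu := hK.uniformContinuousOn_of_continuous hc
  rw [Metric.uniformContinuousOn_iff] at hu
  obtain ⟨η, hη, h1⟩ := hu ε hε
  refine ⟨η, hη, fun y hy y' hy' hd hd' hdd => ?_⟩
  rw [← dist_eq_norm]
  exact h1 _ ⟨⟨y, hy, rfl⟩, mem_closedBall.2 hd⟩ _ ⟨⟨y', hy', rfl⟩, mem_closedBall.2 hd'⟩ hdd

/-- the local part of the limit -/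
private theorem FFa_loc {L : ℝ} (hL : 0 < L) {𝒰 : Ultrafilter ℕ} {b : ℕ → Vd (k + 1)} {Ψ : ℕ → Vd (k + 1) → MN N} (h : ∀ n, Ψ n ∈ S.FF (b n)) {Φ : Vd (k + 1) → MN N}
    (hΦX : ∀ w, Φ w ∈ pr '' X) (hΦL : ∀ w w', dist (Φ w) (Φ w') ≤ L * ‖w - w'‖)
    (hun : ∀ R ε : ℝ, 0 < ε → ∀ᶠ n in (𝒰 : Filter ℕ), ∀ w, ‖w‖ ≤ R → dist (Ψ n w) (Φ w) ≤ ε)
    {w : Vd (k + 1)} {i : Fin S.A.n} {x : EN N} (hx : x ∈ X) (hxp : pr x = Φ w) (hi : x ∈ (S.A.χ i).U) :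
    ∃ r : ℝ, 0 < r ∧ (∀ᶠ n in (𝒰 : Filter ℕ), ∀ y ∈ ball w r, ∃ x' ∈ X, pr x' = Ψ n y ∧ x' ∈ (S.A.χ i).U) ∧
      (∀ y ∈ ball w r, ∃ x' ∈ X, pr x' = Φ y ∧ x' ∈ (S.A.χ i).U ∧ ‖S.q i x' - S.q i x‖ < 1) ∧
      TendstoUniformlyOn (fun n y => S.qm i (Ψ n y)) (fun y => S.qm i (Φ y)) 𝒰 (ball w r) := by
  obtain ⟨δ, hδ, hnear⟩ := S.FFa_near hx hi one_pos
  have hr : 0 < δ / (4 * L) := by positivity
  have hΦb : ∀ y ∈ ball w (δ / (4 * L)), dist (Φ y) (pr x) ≤ δ / 4 := by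
    intro y hy
    rw [hxp]
    refine (hΦL y w).trans ?_
    rw [mem_ball, dist_eq_norm] at hy
    calc L * ‖y - w‖ ≤ L * (δ / (4 * L)) := by gcongr
      _ = δ / 4 := by field_simp
  have hΨb : ∀ᶠ n in (𝒰 : Filter ℕ), ∀ y ∈ ball w (δ / (4 * L)), dist (Ψ n y) (pr x) ≤ δ / 2 := by
    filter_upwards [hun (‖w‖ + δ / (4 * L)) (δ / 4) (by positivity)] with n hn y hy
    have h1 : ‖y‖ ≤ ‖w‖ + δ / (4 * L) := by
      have h2 := hy
      rw [mem_ball, dist_eq_norm] at h2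
      have h3 := norm_add_le w (y - w)
      rw [add_sub_cancel] at h3
      linarith
    have h2 := hn y h1
    have h3 := hΦb y hy
    have h4 := dist_triangle (Ψ n y) (Φ y) (pr x)
    linarith
  refine ⟨δ / (4 * L), hr, ?_, ?_, ?_⟩
  · filter_upwards [hΨb] with n hn y hy
    obtain ⟨x', hx', hxp', -⟩ := S.FFa_pt (h n) y
    refine ⟨x', hx', hxp', (hnear x' hx' ?_).1⟩
    rw [hxp']
    linarith [hn y hy]
  · intro y hy
    obtain ⟨x', hx', hxp'⟩ := hΦX y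
    have h1 := hnear x' hx' (by rw [hxp']; linarith [hΦb y hy])
    exact ⟨x', hx', hxp', h1.1, h1.2⟩
  · rw [Metric.tendstoUniformlyOn_iff]
    intro ε hε
    obtain ⟨η, hη, hu⟩ := S.FFa_unif (x := x) (i := i) (δ := δ) (fun y hy hd => (hnear y hy hd).1) (δ' := δ / 2) (by linarith) hε
    filter_upwards [hΨb, hun (‖w‖ + δ / (4 * L)) (η / 2) (by positivity)] with n hn hn' y hy
    have h1 : ‖y‖ ≤ ‖w‖ + δ / (4 * L) := by
      have h2 := hy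
      rw [mem_ball, dist_eq_norm] at h2
      have h3 := norm_add_le w (y - w)
      rw [add_sub_cancel] at h3
      linarith
    have h2 := hn' y h1
    obtain ⟨x₁, hx₁, hxp₁, -⟩ := S.FFa_pt (h n) y
    obtain ⟨x₂, hx₂, hxp₂⟩ := hΦX y
    rw [← hxp₁, ← hxp₂, dist_eq_norm]
    refine hu x₂ hx₂ x₁ hx₁ ?_ ?_ ?_
    · rw [hxp₂]
      linarith [hΦb y hy]
    · rw [hxp₁]
      exact hn y hy
    · rw [hxp₁, hxp₂, dist_comm]
      linarith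

/-- uniform limits of analytic functions of two variables are analytic -/
private theorem FFa_osg {ι : Type*} {l : Filter ι} [l.NeBot] {g : ι → Vd (k + 1) → Vd (k + 2)} {g₀ : Vd (k + 1) → Vd (k + 2)} {w : Vd (k + 1)} {r M : ℝ} (hr : 0 < r)
    (hM : ∀ y ∈ ball w r, ‖g₀ y‖ ≤ M) (ha : ∀ᶠ n in l, ∀ y ∈ ball w r, AnalyticAt ℂ (g n) y) (hu : TendstoUniformlyOn g g₀ l (ball w r)) :
    AnalyticAt ℂ g₀ w := by
  refine osgood_pi hr hM fun y hy c => ?_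
  obtain ⟨s, hs, hsb⟩ := Metric.isOpen_iff.1 (isOpen_ball (x := w) (ε := r)) y hy
  have hmaps : Set.MapsTo (fun t : ℂ => y + t • (Pi.single c 1 : Vd (k + 1))) (ball 0 s) (ball w r) := by
    intro t ht
    apply hsb
    rw [mem_ball, dist_eq_norm, add_sub_cancel_left, norm_smul]
    rw [mem_ball, dist_zero_right] at ht
    have h1 : ‖(Pi.single c 1 : Vd (k + 1))‖ ≤ 1 := by
      refine (pi_norm_le_iff_of_nonneg zero_le_one).2 fun j => ?_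
      by_cases hj : j = c
      · subst hj
        simp
      · simp [Pi.single_eq_of_ne hj]
    calc ‖t‖ * ‖(Pi.single c 1 : Vd (k + 1))‖ ≤ ‖t‖ * 1 := by gcongr
      _ < s := by rw [mul_one]; exact ht
  have h1 : TendstoUniformlyOn (fun n t => g n (y + t • (Pi.single c 1 : Vd (k + 1)))) (fun t : ℂ => g₀ (y + t • (Pi.single c 1 : Vd (k + 1)))) l (ball 0 s) :=
    (hu.comp _).mono hmaps
  have h2 : DifferentiableOn ℂ (fun t : ℂ => g₀ (y + t • (Pi.single c 1 : Vd (k + 1)))) (ball 0 s) := by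
    refine h1.tendstoLocallyUniformlyOn.differentiableOn ?_ isOpen_ball
    filter_upwards [ha] with n hn t ht
    have h3 := (hn _ (hmaps ht)).differentiableAt
    refine DifferentiableAt.differentiableWithinAt ?_
    have h4 : DifferentiableAt ℂ (fun t : ℂ => y + t • (Pi.single c 1 : Vd (k + 1))) t := by fun_prop
    exact DifferentiableAt.comp (g := g n) (f := fun t : ℂ => y + t • (Pi.single c 1 : Vd (k + 1))) t h3 h4
  exact h2.differentiableAt (isOpen_ball.mem_nhds (mem_ball_self hs))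

theorem FF_limit (𝒰 : Ultrafilter ℕ) (b : ℕ → Vd (k + 1)) (Ψ : ℕ → Vd (k + 1) → MN N) (h : ∀ n, Ψ n ∈ S.FF (b n)) : ∃ (b₀ : Vd (k + 1)) (l : ℕ → Vd (k + 1)) (Φ : Vd (k + 1) → MN N), (∀ n, l n ∈ S.Λ) ∧
    Tendsto (fun n => b n - l n) 𝒰 (𝓝 b₀) ∧ Φ ∈ S.FF b₀ ∧ (∀ R ε : ℝ, 0 < ε → ∀ᶠ n in (𝒰 : Filter ℕ), ∀ w, ‖w‖ ≤ R → dist (Ψ n w) (Φ w) ≤ ε) ∧
    ∀ w i, S.GoodM i (Φ w) → ∃ r : ℝ, 0 < r ∧ (∀ᶠ n in (𝒰 : Filter ℕ), ∀ y ∈ ball w r, AnalyticAt ℂ (fun y => S.qm i (Ψ n y)) y) ∧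
      TendstoUniformlyOn (fun n y => S.qm i (Ψ n y)) (fun y => S.qm i (Φ y)) 𝒰 (ball w r) := by
  classical
  obtain ⟨C, hC⟩ := S.cpt
  choose l hl hlC using fun n => hC (b n)
  obtain ⟨L, hL, hlip⟩ := S.FF_lip
  obtain ⟨b₀, -, hb₀⟩ : ∃ b₀ ∈ closedBall (0 : Vd (k + 1)) C, (𝒰.map fun n => b n - l n : Filter (Vd (k + 1))) ≤ 𝓝 b₀ := by
    refine (isCompact_closedBall (0 : Vd (k + 1)) C).ultrafilter_le_nhds (𝒰.map fun n => b n - l n) ?_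
    rw [le_principal_iff]
    refine Eventually.of_forall (f := (𝒰 : Filter ℕ)) fun n => ?_
    rw [mem_closedBall_zero_iff]
    exact hlC n
  have hb₀' : Tendsto (fun n => b n - l n) 𝒰 (𝓝 b₀) := hb₀
  have hlimp : ∀ w, ∃ P ∈ pr '' X, Tendsto (fun n => Ψ n w) 𝒰 (𝓝 P) := by
    intro w
    refine (Pool.Agent.H62.EF.isCompact_pr S.cone).ultrafilter_le_nhds (𝒰.map fun n => Ψ n w) ?_
    rw [le_principal_iff]
    refine Eventually.of_forall (f := (𝒰 : Filter ℕ)) fun n => ?_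
    obtain ⟨x, hx, hxp, -⟩ := S.FFa_pt (h n) w
    exact ⟨x, hx, hxp⟩
  choose Φ hΦX hΦ using hlimp
  have hΦL : ∀ w w', dist (Φ w) (Φ w') ≤ L * ‖w - w'‖ := by
    intro w w'
    exact le_of_tendsto ((hΦ w).dist (hΦ w')) (Eventually.of_forall fun n => hlip _ _ (h n) w w')
  have hun : ∀ R ε : ℝ, 0 < ε → ∀ᶠ n in (𝒰 : Filter ℕ), ∀ w, ‖w‖ ≤ R → dist (Ψ n w) (Φ w) ≤ ε := by
    intro R ε hε
    have hη : 0 < ε / (4 * L) := by positivity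
    obtain ⟨t, htf, ht⟩ := Metric.totallyBounded_iff.1 (isCompact_closedBall (0 : Vd (k + 1)) R).totallyBounded (ε / (4 * L)) hη
    have hev : ∀ᶠ n in (𝒰 : Filter ℕ), ∀ w ∈ t, dist (Ψ n w) (Φ w) < ε / 2 := by
      rw [eventually_all_finite htf]
      intro w _
      exact (hΦ w).eventually (ball_mem_nhds _ (half_pos hε))
    filter_upwards [hev] with n hn z hz
    have hzR : z ∈ closedBall (0 : Vd (k + 1)) R := by
      rw [mem_closedBall_zero_iff]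
      exact hz
    obtain ⟨w, hwt, hzw⟩ := Set.mem_iUnion₂.1 (ht hzR)
    have hzw' : ‖z - w‖ < ε / (4 * L) := by
      rw [← dist_eq_norm]
      exact hzw
    have h1 := hlip _ _ (h n) z w
    have h2 := hΦL w z
    have h3 := hn w hwt
    have h4 : L * ‖z - w‖ ≤ ε / 4 := by
      calc L * ‖z - w‖ ≤ L * (ε / (4 * L)) := mul_le_mul_of_nonneg_left hzw'.le (by positivity)
        _ = ε / 4 := by field_simp
    rw [norm_sub_rev w z] at h2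
    calc dist (Ψ n z) (Φ z) ≤ dist (Ψ n z) (Ψ n w) + dist (Ψ n w) (Φ w) + dist (Φ w) (Φ z) := dist_triangle4 _ _ _ _
      _ ≤ ε := by linarith
  have hloc : ∀ (w : Vd (k + 1)) (i : Fin S.A.n) (x : EN N), x ∈ X → pr x = Φ w → x ∈ (S.A.χ i).U →
      ∃ r : ℝ, 0 < r ∧ (∀ᶠ n in (𝒰 : Filter ℕ), ∀ y ∈ ball w r, ∃ x' ∈ X, pr x' = Ψ n y ∧ x' ∈ (S.A.χ i).U) ∧
      (∀ y ∈ ball w r, ∃ x' ∈ X, pr x' = Φ y ∧ x' ∈ (S.A.χ i).U ∧ ‖S.q i x' - S.q i x‖ < 1) ∧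
      TendstoUniformlyOn (fun n y => S.qm i (Ψ n y)) (fun y => S.qm i (Φ y)) 𝒰 (ball w r) :=
    fun w i x hx hxp hi => S.FFa_loc hL h hΦX hΦL hun hx hxp hi
  have hana : ∀ {w : Vd (k + 1)} {i : Fin S.A.n} {r : ℝ},
      (∀ᶠ n in (𝒰 : Filter ℕ), ∀ y ∈ ball w r, ∃ x' ∈ X, pr x' = Ψ n y ∧ x' ∈ (S.A.χ i).U) →
      ∀ᶠ n in (𝒰 : Filter ℕ), ∀ y ∈ ball w r, AnalyticAt ℂ (fun y => S.qm i (Ψ n y)) y := by
    intro w i r h1
    filter_upwards [h1] with n hn y hy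
    obtain ⟨x', hx', hxp', hxi'⟩ := hn y hy
    exact (S.FFa_an (h n) hx' hxp' hxi').1
  refine ⟨b₀, l, Φ, hl, hb₀', ?_, hun, ?_⟩
  · intro w
    obtain ⟨x, hx, hxp⟩ := hΦX w
    have hg := S.good_ix hx
    set i := S.ix x with hi_def
    obtain ⟨r, hr, h1, h2, h3⟩ := hloc w i x hx hxp hg.2.1
    have hM : ∀ y ∈ ball w r, ‖S.qm i (Φ y)‖ ≤ 3 / 2 := by
      intro y hy
      obtain ⟨x', hx', hxp', hxi', hq⟩ := h2 y hy
      rw [← hxp', S.qm_pr hx' hxi']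
      have h4 := norm_add_le (S.q i x' - S.q i x) (S.q i x)
      rw [sub_add_cancel] at h4
      have h5 : ‖S.q i x‖ ≤ 1 / 2 := hg.2.2
      linarith
    have hgan : AnalyticAt ℂ (fun y => S.qm i (Φ y)) w := FFa_osg hr hM (hana h1) h3
    have hball : ∀ y ∈ ball w r, S.qm i (Φ y) ∈ ball (0 : Vd (k + 2)) 2 := by
      intro y hy
      rw [mem_ball_zero_iff]
      exact lt_of_le_of_lt (hM y hy) (by norm_num)
    refine ⟨fun y => (S.A.χ i).σ (S.qm i (Φ y)), ?_, ?_⟩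
    · exact AnalyticAt.comp (g := (S.A.χ i).σ) (f := fun y => S.qm i (Φ y)) ((S.A.χ i).σ_an _ (hball w (mem_ball_self hr))) hgan
    · filter_upwards [isOpen_ball.mem_nhds (mem_ball_self hr)] with y hy
      obtain ⟨hσX, hσU, hσq⟩ := (S.A.χ i).σ_mem _ (hball y hy)
      refine ⟨hσX, ?_, ?_⟩
      · obtain ⟨x', hx', hxp', hxi', -⟩ := h2 y hy
        obtain ⟨-, c, hc, h4⟩ := (S.A.χ i).surj x' hx' hxi'
        have h5 : S.qm i (Φ y) = (S.A.χ i).q x' := by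
          rw [← hxp', S.qm_pr hx' hxi']
          rfl
        rw [h5, ← hxp']
        conv_lhs => rw [h4]
        exact Pool.Agent.H62.EF.pr_smul _ hc
      · have h4 : Tendsto (fun n => S.qm i (Ψ n y)) 𝒰 (𝓝 (S.qm i (Φ y))) := h3.tendsto_at hy
        have h5 : Tendsto (fun n => S.β i (S.qm i (Ψ n y))) 𝒰 (𝓝 (S.β i (S.qm i (Φ y)))) :=
          (S.β_an i _ (hball y hy)).continuousAt.tendsto.comp h4
        have h6 : Tendsto (fun n => S.β i (S.qm i (Ψ n y)) - (b n - l n + y)) 𝒰 (𝓝 (S.β i (S.qm i (Φ y)) - (b₀ + y))) :=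
          h5.sub (hb₀'.add_const _)
        have h7 : S.β i (S.qm i (Φ y)) - (b₀ + y) ∈ S.Λ := by
          refine FFa_mem_of_tendsto S.disc h6 ?_
          filter_upwards [h1] with n hn
          obtain ⟨x', hx', hxp', hxi'⟩ := hn y hy
          have h8 := S.FFa_beta (h n) hx' hxp' hxi'
          have h9 : S.β i (S.qm i (Ψ n y)) - (b n - l n + y) = (S.β i (S.qm i (Ψ n y)) - (b n + y)) + l n := by abel
          rw [h9]
          exact S.Λ.add_mem h8 (hl n)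
        have h8 := S.β_eq i _ hσX hσU
        rw [hσq] at h8
        have h9 := S.Λ.add_mem h8 h7
        rwa [sub_add_sub_cancel] at h9
  · rintro w i ⟨x, hx, hxp, hg⟩
    obtain ⟨r, hr, h1, -, h3⟩ := hloc w i x hx hxp hg.2.1
    exact ⟨r, hr, hana h1, h3⟩

end Setting

end Pool.Agent.TN
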