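import Pool.Agent.TN.Fam
import Pool.Agent.TN.Osg
import Pool.Agent.H17.GlobalLift

/-!
# TN FamK: the complex family through a curve, in all directions

`fam1_curve`: as `TH.Setting.fam_curve`.

`exists_famk`: let `ε₁` be a constant smaller than the ones of `sep` and `lip_pair`, and `r₀` of `exists_fam1` for all the `e j` and `ε = ε₁ / (8 (k + 1))`.  Let `F ∈ G v b`.

(1) For `τ ∈ ball 0 r₀ ⊆ Vd k` there is `G ∈ G v (b + ∑ τ_j e_j)` with `pd F G ≤ ε₁ / 4` everywhere: move in the directions `e 0, e 1, ...` one after the other (`exists_fam1`, `fam1_curve`).  By `sep` `pr ∘ G` is unique; `Φ τ z = pr (G z)`;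
`Φ 0 = pr ∘ F`.
(2) Let `τ ∈ ball 0 r₀`, `1 ≤ j ≤ k`.  The family `Θ` of `exists_fam1` through the curve of `Φ τ` in the direction `e j` satisfies `dist (Θ s z) (Φ τ z) ≤ ε₁ / 8`, so `dist (Θ s z) (pr (F z)) ≤ 3 ε₁ / 8`, and (for `τ + s e_j ∈ ball 0 r₀`)
`dist (Θ s z) (Φ (τ + s 1_j) z) ≤ ε₁`: by `sep` `Θ s = Φ (τ + s 1_j)`.  So `Φ (τ + s 1_j) z` has analytic local lifts in `(z, s)`.
(3) `Φ` is Lipschitz in `(z, τ)` (`lip_pair` with `l = 0`, `exists_lip`), so near `(z₀, τ₀)` all the points `Φ τ z` are in the part `‖q‖ < 1` of the chart `i`, `i` good at `Φ τ₀ z₀`; the coordinates of `Φ τ z` in this chart are bounded and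
separately holomorphic, so analytic (`osgood_prod`); the lift is `σ i` of them; `u (φ y) - ...` is in `Λ` for every `y` (`Φ τ z = pr (G z)`, `u` of a multiple).
-/

set_option autoImplicit false

open Topology Filter Metric

namespace Pool.Agent.TN

open Pool.Agent.H36.BP (EN fs wd Sub)
open Pool.Agent.H14.PP (IsCone CurveAt Tan)
open Pool.Agent.H62.EF (MN pr pr_smul pr_eq_iff continuousAt_pr)
open Pool.Agent.H5.BD (BC evp)
open Pool.Agent.AD (Vd Chart Charts TorusMapV DiscreteSub)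
open Pool.Agent.AD.BD (Atlas LC Good qc)

variable {N k : ℕ} {X : Set (EN N)}

/-- `Φ τ z`, `τ ∈ U`, is a holomorphic family of curves over the lines `b + τ₀ e₀ + ... + τ_(k-1) e_(k-1) + ℂ v` -/
def Setting.IsFam (S : Setting k X) (v : Vd (k + 1)) (e : Fin k → Vd (k + 1)) (b : Vd (k + 1)) (U : Set (Vd k)) (Φ : Vd k → ℂ → MN N) : Prop :=
  ∀ τ₀ ∈ U, ∀ z₀ : ℂ, ∃ φ : ℂ × Vd k → EN N, AnalyticAt ℂ φ (z₀, τ₀) ∧
    ∀ᶠ y in 𝓝 (z₀, τ₀), φ y ∈ X ∧ Φ y.2 y.1 = pr (φ y) ∧ S.u (φ y) - (b + co v e y.1 y.2) ∈ S.Λ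

private lemma famk_ne_zero {X : Set (EN N)} (hX : IsCone X) {x : EN N} (hx : x ∈ X) : x ≠ 0 := by
  rintro rfl
  exact hX.zero_notMem hx

private lemma famk_coord_an {f : ℂ → EN N} {z : ℂ} (hf : AnalyticAt ℂ f z) (i : Fin (N + 1)) :
    AnalyticAt ℂ (fun w => f w i) z := by
  exact ((EuclideanSpace.proj (𝕜 := ℂ) i : EN N →L[ℂ] ℂ).analyticAt _).comp hf

theorem Setting.fam1_curve (S : Setting k X) {v e b : Vd (k + 1)} {U : Set ℂ} {Φ : ℂ → ℂ → MN N} (h : S.IsFam1 v e b U Φ) {τ : ℂ} (hτ : τ ∈ U) :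
    ∃ G ∈ S.G v (b + τ • e), ∀ z, Φ τ z = pr (G z) := by
  classical
  have hX := S.cone
  have h1 : ∀ z₀ : ℂ, ∃ ψ : ℂ → EN N, AnalyticAt ℂ ψ z₀ ∧
      ∀ᶠ z in 𝓝 z₀, ψ z ∈ X ∧ Φ τ z = pr (ψ z) ∧ S.u (ψ z) - (b + τ • e + z • v) ∈ S.Λ := by
    intro z₀
    obtain ⟨φ, hφ, hev⟩ := h τ hτ z₀
    have hc : ContinuousAt (fun z : ℂ => (z, τ)) z₀ := by fun_prop
    refine ⟨fun z => φ (z, τ), ?_, ?_⟩
    · have h2 : AnalyticAt ℂ (fun z : ℂ => (z, τ)) z₀ := analyticAt_id.prod analyticAt_const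
      exact AnalyticAt.comp (g := φ) (f := fun z : ℂ => (z, τ)) hφ h2
    · filter_upwards [hc.eventually hev] with z hz
      obtain ⟨h3, h4, h5⟩ := hz
      refine ⟨h3, h4, ?_⟩
      have h6 : b + τ • e + z • v = b + z • v + τ • e := by abel
      rw [h6]
      exact h5
  choose ψ hψa hψ using h1
  have hψX : ∀ z, ψ z z ∈ X := fun z => (hψ z).self_of_nhds.1
  have hψp : ∀ z, Φ τ z = pr (ψ z z) := fun z => (hψ z).self_of_nhds.2.1
  have hψu : ∀ z, S.u (ψ z z) - (b + τ • e + z • v) ∈ S.Λ := fun z => (hψ z).self_of_nhds.2.2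
  have hofne : ∀ w : EN N, w ≠ 0 → w.ofLp ≠ 0 := by
    intro w hw h
    apply hw
    ext j
    exact congrFun h j
  have hψ0 : ∀ z, ψ z z ≠ 0 := fun z => famk_ne_zero hX (hψX z)
  set f : ℂ → Pool.Agent.H17.PN N := fun z => Projectivization.mk ℂ (ψ z z).ofLp (hofne _ (hψ0 z)) with hf
  have hfhol : Pool.Agent.H17.HolomorphicInto f Set.univ := by
    intro z₀ _
    refine ⟨fun w => (ψ z₀ w).ofLp, ?_, ?_⟩
    · rw [analyticAt_pi_iff]
      intro j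
      exact famk_coord_an (hψa z₀) j
    · filter_upwards [hψ z₀] with z hz
      obtain ⟨h2, h3, -⟩ := hz
      have h4 := famk_ne_zero hX h2
      refine ⟨hofne _ h4, ?_⟩
      have h5 : pr (ψ z z) = pr (ψ z₀ z) := by rw [← hψp z, h3]
      obtain ⟨c, hc, h6⟩ := (pr_eq_iff (hψ0 z) h4).mp h5
      rw [hf, Projectivization.mk_eq_mk_iff']
      exact ⟨c, by rw [h6]; rfl⟩
  obtain ⟨x, hx⟩ := Pool.Agent.H17.exists_global_lift hfhol
  set G : ℂ → EN N := fun z => WithLp.toLp 2 (fun j => (x j : ℂ → ℂ) z) with hG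
  have hGd : Differentiable ℂ G := by
    have h1 : Differentiable ℂ (fun z => (fun j => (x j : ℂ → ℂ) z)) :=
      differentiable_pi.2 fun j => (x j).diff
    exact (PiLp.continuousLinearEquiv 2 ℂ (fun _ : Fin (N + 1) => ℂ)).symm.differentiable.comp h1
  have hGc : ∀ z, ∃ c : ℂ, c ≠ 0 ∧ ψ z z = c • G z := by
    intro z
    obtain ⟨h1, h2⟩ := hx z
    obtain ⟨c, hc, h3⟩ := Pool.Agent.H17.mk_eq_mk_cross h2
    refine ⟨c, hc, ?_⟩
    ext j
    exact h3 j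
  have hGX : ∀ z, G z ∈ X := by
    intro z
    obtain ⟨c, hc, h1⟩ := hGc z
    have h2 := hX.smul_mem _ (hψX z) c⁻¹ (inv_ne_zero hc)
    rwa [h1, smul_smul, inv_mul_cancel₀ hc, one_smul] at h2
  refine ⟨G, ⟨hGd, hGX, fun z => ?_⟩, fun z => ?_⟩
  · obtain ⟨c, hc, h1⟩ := hGc z
    have h2 := S.torus.smul _ (hGX z) c hc
    rw [← h1] at h2
    have h3 := S.Λ.sub_mem (hψu z) h2
    have h4 : S.u (G z) - (b + τ • e + z • v) = S.u (ψ z z) - (b + τ • e + z • v) - (S.u (ψ z z) - S.u (G z)) := by abel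
    rw [h4]
    exact h3
  · obtain ⟨c, hc, h1⟩ := hGc z
    rw [hψp z, h1, pr_smul _ hc]

/-- the curve over the translated line, near the given one: move in the directions `e j`, `j ∈ s`, one after the other -/
private theorem famk_move (S : Setting k X) {v : Vd (k + 1)} {e : Fin k → Vd (k + 1)} {ε r₀ : ℝ}
    (hfam : ∀ j, ∀ b, ∀ F ∈ S.G v b, ∃ Φ : ℂ → ℂ → MN N, S.IsFam1 v (e j) b (ball 0 r₀) Φ ∧ (∀ z, Φ 0 z = pr (F z)) ∧
      ∀ τ ∈ ball (0 : ℂ) r₀, ∀ z, dist (Φ τ z) (pr (F z)) ≤ ε)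
    {b : Vd (k + 1)} {F : ℂ → EN N} (hF : F ∈ S.G v b) {τ : Vd k} (hτ : ∀ j, ‖τ j‖ < r₀) (s : Finset (Fin k)) :
    ∃ G ∈ S.G v (b + ∑ j ∈ s, τ j • e j), ∀ z, dist (pr (G z)) (pr (F z)) ≤ s.card * ε := by
  induction s using Finset.induction_on with
  | empty =>
    refine ⟨F, by simpa using hF, fun z => ?_⟩
    rw [dist_self]
    simp
  | insert j s hj ih =>
    obtain ⟨G, hG, hGF⟩ := ih
    obtain ⟨Φ, hΦ, hΦ0, hΦd⟩ := hfam j _ G hG
    have hm : τ j ∈ ball (0 : ℂ) r₀ := by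
      rw [mem_ball, dist_zero_right]
      exact hτ j
    obtain ⟨G', hG', hG'p⟩ := S.fam1_curve hΦ hm
    refine ⟨G', ?_, fun z => ?_⟩
    · have h1 : b + ∑ j ∈ insert j s, τ j • e j = b + ∑ j ∈ s, τ j • e j + τ j • e j := by
        rw [Finset.sum_insert hj]
        abel
      rw [h1]
      exact hG'
    · have h1 := hΦd _ hm z
      rw [hG'p z] at h1
      have h2 := dist_triangle (pr (G' z)) (pr (G z)) (pr (F z))
      rw [Finset.card_insert_of_notMem hj]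
      push_cast
      have h3 := hGF z
      linarith

theorem Setting.exists_famk (S : Setting k X) {v : Vd (k + 1)} (hD : S.Dir v) {e : Fin k → Vd (k + 1)} (he : ∀ j, S.Reach v (e j)) : ∃ r₀ : ℝ, 0 < r₀ ∧ ∀ b, ∀ F ∈ S.G v b,
      ∃ Φ : Vd k → ℂ → MN N, S.IsFam v e b (ball 0 r₀) Φ ∧ ∀ z, Φ 0 z = pr (F z) := by
  classical
  obtain ⟨ε₂, R₁, hε₂, hR₁, hsep⟩ := S.sep hD
  obtain ⟨ε₃, K, hε₃, hK, hlip⟩ := S.lip_pair hD
  obtain ⟨ε₁, hε₁, h12, h13⟩ : ∃ ε₁ : ℝ, 0 < ε₁ ∧ ε₁ ≤ ε₂ ∧ ε₁ ≤ ε₃ := ⟨min ε₂ ε₃, lt_min hε₂ hε₃, min_le_left _ _, min_le_right _ _⟩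
  obtain ⟨ε, hε, hεk⟩ : ∃ ε : ℝ, 0 < ε ∧ ((k : ℝ) + 1) * ε = ε₁ / 8 := by
    refine ⟨ε₁ / 8 / ((k : ℝ) + 1), by positivity, ?_⟩
    field_simp
  have hkε : 0 ≤ (k : ℝ) * ε := by positivity
  choose r hr hfr using fun j => S.exists_fam1 hD (he j) hε
  obtain ⟨r₀, hr₀, hr₀'⟩ : ∃ r₀ : ℝ, 0 < r₀ ∧ ∀ j, r₀ ≤ r j := by
    have h1 : ∀ᶠ s : ℝ in 𝓝[>] 0, ∀ j, s ≤ r j := by
      rw [Filter.eventually_all]
      intro j
      exact mem_nhdsWithin_of_mem_nhds (Iic_mem_nhds (hr j))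
    obtain ⟨s, h2, h3⟩ := (h1.and self_mem_nhdsWithin).exists
    exact ⟨s, h3, h2⟩
  have hfam : ∀ j, ∀ b, ∀ F ∈ S.G v b, ∃ Φ : ℂ → ℂ → MN N, S.IsFam1 v (e j) b (ball 0 r₀) Φ ∧ (∀ z, Φ 0 z = pr (F z)) ∧
      ∀ τ ∈ ball (0 : ℂ) r₀, ∀ z, dist (Φ τ z) (pr (F z)) ≤ ε := by
    intro j b F hF
    obtain ⟨Φ, h1, h2, h3⟩ := hfr j b F hF
    exact ⟨Φ, fun τ hτ => h1 τ (ball_subset_ball (hr₀' j) hτ), h2, fun τ hτ => h3 τ (ball_subset_ball (hr₀' j) hτ)⟩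
  refine ⟨r₀, hr₀, fun b F hF => ?_⟩
  -- the curves
  have h1 : ∀ τ : Vd k, ∃ G : ℂ → EN N, τ ∈ ball (0 : Vd k) r₀ → G ∈ S.G v (b + ∑ j, τ j • e j) ∧ ∀ z, dist (pr (G z)) (pr (F z)) ≤ ε₁ / 8 := by
    intro τ
    by_cases hτ : τ ∈ ball (0 : Vd k) r₀
    · have h2 : ∀ j, ‖τ j‖ < r₀ := by
        intro j
        rw [mem_ball, dist_zero_right] at hτ
        exact (norm_le_pi_norm τ j).trans_lt hτ
      obtain ⟨G, hG, hGF⟩ := famk_move S hfam hF h2 Finset.univ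
      refine ⟨G, fun _ => ⟨hG, fun z => (hGF z).trans ?_⟩⟩
      rw [Finset.card_univ, Fintype.card_fin]
      linarith
    · exact ⟨F, fun h => absurd h hτ⟩
  choose G hG using h1
  have hpd : ∀ τ ∈ ball (0 : Vd k) r₀, ∀ τ' ∈ ball (0 : Vd k) r₀, ∀ z, dist (pr (G τ z)) (pr (G τ' z)) ≤ ε₁ / 4 := by
    intro τ hτ τ' hτ' z
    have h2 := (hG τ hτ).2 z
    have h3 := (hG τ' hτ').2 z
    have h4 := dist_triangle_right (pr (G τ z)) (pr (G τ' z)) (pr (F z))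
    linarith
  -- the family in one direction
  have hdir : ∀ τ ∈ ball (0 : Vd k) r₀, ∀ (l : Fin k) (z : ℂ), ∃ ψ : ℂ → EN N, AnalyticAt ℂ ψ 0 ∧
      ∀ᶠ s in 𝓝 (0 : ℂ), ψ s ∈ X ∧ pr (G (τ + s • Pi.single l 1) z) = pr (ψ s) := by
    intro τ hτ l z
    obtain ⟨Θ, hΘ, hΘ0, hΘd⟩ := hfam l _ (G τ) (hG τ hτ).1
    obtain ⟨φ, hφ, hev⟩ := hΘ 0 (mem_ball_self hr₀) z
    have hc : ContinuousAt (fun s : ℂ => (z, s)) 0 := by fun_prop
    refine ⟨fun s => φ (z, s), ?_, ?_⟩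
    · have h2 : AnalyticAt ℂ (fun s : ℂ => (z, s)) 0 := analyticAt_const.prod analyticAt_id
      exact AnalyticAt.comp (g := φ) (f := fun s : ℂ => (z, s)) hφ h2
    · have hc2 : ContinuousAt (fun s : ℂ => τ + s • (Pi.single l 1 : Vd k)) 0 := by fun_prop
      have hm2 : ∀ᶠ s : ℂ in 𝓝 0, τ + s • (Pi.single l 1 : Vd k) ∈ ball (0 : Vd k) r₀ := by
        refine hc2.eventually (isOpen_ball.mem_nhds ?_)
        show τ + (0 : ℂ) • (Pi.single l 1 : Vd k) ∈ ball (0 : Vd k) r₀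
        rw [zero_smul, add_zero]
        exact hτ
      filter_upwards [hc.eventually hev, hm2, ball_mem_nhds (0 : ℂ) hr₀] with s hs hs2 hs3
      obtain ⟨h3, h4, -⟩ := hs
      refine ⟨h3, ?_⟩
      show pr (G (τ + s • Pi.single l 1) z) = pr (φ (z, s))
      have h4' : Θ s z = pr (φ (z, s)) := h4
      rw [← h4']
      obtain ⟨G', hG', hG'p⟩ := S.fam1_curve hΘ hs3
      have h5 : b + ∑ j, (τ + s • (Pi.single l 1 : Vd k)) j • e j = b + ∑ j, τ j • e j + s • e l := by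
        have h6 : ∀ j, (τ + s • (Pi.single l 1 : Vd k)) j • e j = τ j • e j + (if j = l then s • e l else 0) := by
          intro j
          rw [Pi.add_apply, Pi.smul_apply, add_smul]
          congr 1
          by_cases hj : j = l
          · subst hj
            simp
          · rw [if_neg hj, Pi.single_eq_of_ne hj]
            simp
        rw [Finset.sum_congr rfl fun j _ => h6 j, Finset.sum_add_distrib, Finset.sum_ite_eq' Finset.univ l, if_pos (Finset.mem_univ l)]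
        abel
      have h6 := (hG _ hs2).1
      rw [h5] at h6
      rw [hG'p z]
      refine hsep _ _ h6 _ hG' 0 (fun w _ => ?_) z
      have h7 := hpd _ hs2 τ hτ w
      have h8 := hΘd s hs3 w
      rw [hG'p w] at h8
      have h9 := dist_triangle_right (pr (G (τ + s • Pi.single l 1) w)) (pr (G' w)) (pr (G τ w))
      have h10 : ε ≤ ε₁ / 8 := by linarith
      show dist (pr (G (τ + s • Pi.single l 1) w)) (pr (G' w)) ≤ ε₂
      linarith
  refine ⟨fun τ z => pr (G τ z), fun τ₀ hτ₀ z₀ => ?_, fun z => ?_⟩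
  · -- the chart
    set x₀ : EN N := G τ₀ z₀ with hx₀
    have hx₀X : x₀ ∈ X := (hG τ₀ hτ₀).1.2.1 z₀
    set i : Fin S.A.n := S.A.idx (pr x₀) with hi
    have hδ := S.A.δ_pos
    have hnear : ∀ᶠ y : ℂ × Vd k in 𝓝 (z₀, τ₀), y.2 ∈ ball (0 : Vd k) r₀ ∧ Good (S.A.χ i) (G y.2 y.1) := by
      have hc1 : ContinuousAt (fun y : ℂ × Vd k => y.2) (z₀, τ₀) := by fun_prop
      have hm1 : ∀ᶠ y : ℂ × Vd k in 𝓝 (z₀, τ₀), y.2 ∈ ball (0 : Vd k) r₀ := hc1.eventually (isOpen_ball.mem_nhds hτ₀)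
      have hc2 : Continuous (fun y : ℂ × Vd k => K * ‖(b + ∑ j, y.2 j • e j) - (b + ∑ j, τ₀ j • e j) - 0‖) := by fun_prop
      have hm2 : ∀ᶠ y : ℂ × Vd k in 𝓝 (z₀, τ₀), K * ‖(b + ∑ j, y.2 j • e j) - (b + ∑ j, τ₀ j • e j) - 0‖ < S.A.δ / 2 := by
        refine hc2.continuousAt.eventually (gt_mem_nhds ?_)
        simp only [sub_self, norm_zero, mul_zero]
        linarith
      have hc3 : ContinuousAt (fun y : ℂ × Vd k => dist (pr (G τ₀ y.1)) (pr x₀)) (z₀, τ₀) := by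
        have h2 : ContinuousAt (fun z : ℂ => pr (G τ₀ z)) z₀ :=
          ContinuousAt.comp (g := pr) (f := G τ₀) (continuousAt_pr (famk_ne_zero S.cone hx₀X)) (hG τ₀ hτ₀).1.1.continuous.continuousAt
        have h3 : ContinuousAt (fun y : ℂ × Vd k => pr (G τ₀ y.1)) (z₀, τ₀) :=
          ContinuousAt.comp (g := fun z : ℂ => pr (G τ₀ z)) (f := fun y : ℂ × Vd k => y.1) (x := (z₀, τ₀)) h2 continuousAt_fst
        exact Filter.Tendsto.dist h3 tendsto_const_nhds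
      have hm3 : ∀ᶠ y : ℂ × Vd k in 𝓝 (z₀, τ₀), dist (pr (G τ₀ y.1)) (pr x₀) < S.A.δ / 2 := by
        refine hc3.eventually (gt_mem_nhds ?_)
        show dist (pr (G τ₀ z₀)) (pr (G τ₀ z₀)) < S.A.δ / 2
        rw [dist_self]
        linarith
      filter_upwards [hm1, hm2, hm3] with y hy1 hy2 hy3
      refine ⟨hy1, S.A.good x₀ hx₀X _ ((hG _ hy1).1.2.1 _) ?_⟩
      have h2 := hlip _ _ _ (hG τ₀ hτ₀).1 _ (hG _ hy1).1 0 S.Λ.zero_mem (fun w => ?_) y.1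
      · have h3 := dist_triangle (pr x₀) (pr (G τ₀ y.1)) (pr (G y.2 y.1))
        rw [dist_comm (pr x₀) (pr (G τ₀ y.1))] at h3
        have h4 : pd (G τ₀) (G y.2) y.1 = dist (pr (G τ₀ y.1)) (pr (G y.2 y.1)) := rfl
        rw [h4] at h2
        linarith
      · have h3 := hpd _ hτ₀ _ hy1 w
        show dist (pr (G τ₀ w)) (pr (G y.2 w)) ≤ ε₃
        linarith
    obtain ⟨ρ, hρ, hball⟩ := Metric.eventually_nhds_iff_ball.1 hnear
    set f : ℂ × Vd k → Vd (k + 2) := fun y => (S.A.χ i).q (G y.2 y.1) with hf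
    have hfan : AnalyticAt ℂ f (z₀, τ₀) := by
      refine osgood_prod (M := 1 / 2) hρ (fun y hy => (hball y hy).2.2.2) (fun y hy => ?_) (fun y hy l => ?_)
      · obtain ⟨h2, -, h3, -⟩ := hball y hy
        have h4 : AnalyticAt ℂ (S.A.χ i).q (G y.2 (y.1 + 0)) := by
          rw [add_zero]
          exact (S.A.χ i).q_an _ h3
        have h5 : AnalyticAt ℂ (fun t : ℂ => G y.2 (y.1 + t)) 0 := by
          have h6 : Differentiable ℂ (fun t : ℂ => G y.2 (y.1 + t)) := (hG _ h2).1.1.comp ((differentiable_const _).add differentiable_id)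
          exact h6.analyticAt 0
        exact (AnalyticAt.comp (g := (S.A.χ i).q) (f := fun t : ℂ => G y.2 (y.1 + t)) h4 h5).differentiableAt
      · obtain ⟨h2, -, h3, -⟩ := hball y hy
        obtain ⟨ψ, hψ, hψev⟩ := hdir y.2 h2 l y.1
        have key : ∀ s : ℂ, ψ s ∈ X → pr (G (y.2 + s • Pi.single l 1) y.1) = pr (ψ s) → G (y.2 + s • Pi.single l 1) y.1 ∈ (S.A.χ i).U →
            G (y.2 + s • Pi.single l 1) y.1 ≠ 0 → ψ s ∈ (S.A.χ i).U ∧ (S.A.χ i).q (G (y.2 + s • Pi.single l 1) y.1) = (S.A.χ i).q (ψ s) := by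
          intro s hs1 hs2 hs3 hs4
          obtain ⟨c, hc, h4⟩ := (pr_eq_iff (famk_ne_zero S.cone hs1) hs4).1 hs2.symm
          rw [h4]
          exact ⟨(S.A.χ i).smul_U _ hs3 c hc, ((S.A.χ i).q_smul _ hs3 c hc).symm⟩
        have hψ0 : ψ 0 ∈ (S.A.χ i).U := by
          obtain ⟨h4, h5⟩ := hψev.self_of_nhds
          refine (key 0 h4 h5 ?_ ?_).1
          · rw [zero_smul, add_zero]
            exact h3
          · rw [zero_smul, add_zero]
            exact famk_ne_zero S.cone ((hG _ h2).1.2.1 _)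
        have h4 : AnalyticAt ℂ (fun s => (S.A.χ i).q (ψ s)) 0 := AnalyticAt.comp (g := (S.A.χ i).q) (f := ψ) ((S.A.χ i).q_an _ hψ0) hψ
        refine h4.differentiableAt.congr_of_eventuallyEq ?_
        have hc2 : ContinuousAt (fun s : ℂ => ((y.1, y.2 + s • (Pi.single l 1 : Vd k)) : ℂ × Vd k)) 0 := by fun_prop
        have hm2 : ∀ᶠ s : ℂ in 𝓝 0, ((y.1, y.2 + s • (Pi.single l 1 : Vd k)) : ℂ × Vd k) ∈ ball (z₀, τ₀) ρ := by
          refine hc2.eventually (isOpen_ball.mem_nhds ?_)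
          show ((y.1, y.2 + (0 : ℂ) • (Pi.single l 1 : Vd k)) : ℂ × Vd k) ∈ ball (z₀, τ₀) ρ
          rw [zero_smul, add_zero]
          exact hy
        filter_upwards [hψev, hm2] with s hs1 hs2
        obtain ⟨h5, h6, h7, -⟩ := hball _ hs2
        exact (key s hs1.1 hs1.2 h7 (famk_ne_zero S.cone h6)).2
    have hf2 : ∀ y ∈ ball (z₀, τ₀) ρ, f y ∈ ball (0 : Vd (k + 2)) 2 := by
      intro y hy
      rw [mem_ball, dist_zero_right]
      exact ((hball y hy).2.2.2).trans_lt (by norm_num)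
    refine ⟨fun y => (S.A.χ i).σ (f y), ?_, ?_⟩
    · exact AnalyticAt.comp (g := (S.A.χ i).σ) (f := f) ((S.A.χ i).σ_an _ (hf2 _ (mem_ball_self hρ))) hfan
    · filter_upwards [isOpen_ball.mem_nhds (mem_ball_self (x := (z₀, τ₀)) hρ)] with y hy
      obtain ⟨h2, h3, h4, -⟩ := hball y hy
      obtain ⟨-, c, hc, h5⟩ := (S.A.χ i).surj _ h3 h4
      have h6 : (S.A.χ i).σ (f y) ∈ X := ((S.A.χ i).σ_mem _ (hf2 y hy)).1
      have h7 : G y.2 y.1 = c • (S.A.χ i).σ (f y) := h5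
      refine ⟨h6, ?_, ?_⟩
      · show pr (G y.2 y.1) = pr ((S.A.χ i).σ (f y))
        rw [h7, pr_smul _ hc]
      · have h8 := (hG _ h2).1.2.2 y.1
        have h9 := S.torus.smul _ h6 c hc
        rw [← h7] at h9
        have h10 := S.Λ.sub_mem h8 h9
        have h11 : S.u ((S.A.χ i).σ (f y)) - (b + co v e y.1 y.2) =
            S.u (G y.2 y.1) - (b + ∑ j, y.2 j • e j + y.1 • v) - (S.u (G y.2 y.1) - S.u ((S.A.χ i).σ (f y))) := by
          unfold co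
          abel
        rw [h11]
        exact h10
  · have h0 : (0 : Vd k) ∈ ball (0 : Vd k) r₀ := mem_ball_self hr₀
    have h2 := (hG 0 h0).1
    have h3 : b + ∑ j, (0 : Vd k) j • e j = b := by simp
    rw [h3] at h2
    refine hsep _ _ h2 _ hF 0 (fun w _ => ?_) z
    have h4 := (hG 0 h0).2 w
    show dist (pr (G 0 w)) (pr (F w)) ≤ ε₂
    linarith

end Pool.Agent.TN
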