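import Pool.Agent.TN.LipT

/-!
# TN Fch: fibred charts along the curves

Port of `TH/Fch.lean`; there `Fin 2 → ℂ`, `Fin 3 → ℂ`; here `Fin (k + 1) → ℂ`, `Fin (k + 2) → ℂ` (`fderiv (β i)` is onto by `no_hit` and `kap_ne_iff`).
-/

set_option autoImplicit false

open Topology Filter Metric

namespace Pool.Agent.TN

open Pool.Agent.H36.BP (EN fs wd Sub)
open Pool.Agent.H14.PP (IsCone CurveAt Tan)
open Pool.Agent.H62.EF (MN pr)
open Pool.Agent.H5.BD (BC evp)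
open Pool.Agent.AD (Vd Chart Charts TorusMapV DiscreteSub)
open Pool.Agent.AD.BD (Atlas LC Good qc)

variable {N k : ℕ} {X : Set (EN N)}

/-- a fibred chart at the point `x` -/
structure Setting.FCh (S : Setting k X) (x : EN N) (r B : ℝ) (l : Fin (k + 2)) (E : Vd (k + 1) × ℂ → Vd (k + 2)) : Prop where
  an : ∀ y ∈ ball (0 : Vd (k + 1) × ℂ) r, AnalyticAt ℂ E y
  near : ∀ y ∈ ball (0 : Vd (k + 1) × ℂ) r, ‖E y - S.q (S.ix x) x‖ ≤ B * ‖y‖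
  beta : ∀ y ∈ ball (0 : Vd (k + 1) × ℂ) r, S.β (S.ix x) (E y) = S.β (S.ix x) (S.q (S.ix x) x) + y.1
  co : ∀ y ∈ ball (0 : Vd (k + 1) × ℂ) r, E y l = S.q (S.ix x) x l + y.2
  inv : ∀ p, ‖p - S.q (S.ix x) x‖ < r / B → (S.β (S.ix x) p - S.β (S.ix x) (S.q (S.ix x) x), p l - S.q (S.ix x) x l) ∈ ball (0 : Vd (k + 1) × ℂ) r ∧
    E (S.β (S.ix x) p - S.β (S.ix x) (S.q (S.ix x) x), p l - S.q (S.ix x) x l) = p

/-- a fibred chart of the map `β` at the point `p₀` -/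
structure FchL (β : (Fin (k + 2) → ℂ) → (Fin (k + 1) → ℂ)) (p₀ : Fin (k + 2) → ℂ) (r B : ℝ) (l : Fin (k + 2)) (E : (Fin (k + 1) → ℂ) × ℂ → (Fin (k + 2) → ℂ)) : Prop where
  an : ∀ y ∈ ball (0 : (Fin (k + 1) → ℂ) × ℂ) r, AnalyticAt ℂ E y
  near : ∀ y ∈ ball (0 : (Fin (k + 1) → ℂ) × ℂ) r, ‖E y - p₀‖ ≤ B * ‖y‖
  beta : ∀ y ∈ ball (0 : (Fin (k + 1) → ℂ) × ℂ) r, β (E y) = β p₀ + y.1
  co : ∀ y ∈ ball (0 : (Fin (k + 1) → ℂ) × ℂ) r, E y l = p₀ l + y.2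
  inv : ∀ p, ‖p - p₀‖ < r / B → (β p - β p₀, p l - p₀ l) ∈ ball (0 : (Fin (k + 1) → ℂ) × ℂ) r ∧ E (β p - β p₀, p l - p₀ l) = p

theorem FchL.mono {β : (Fin (k + 2) → ℂ) → (Fin (k + 1) → ℂ)} {p₀ : Fin (k + 2) → ℂ} {r B B' : ℝ} {l : Fin (k + 2)} {E : (Fin (k + 1) → ℂ) × ℂ → (Fin (k + 2) → ℂ)} (h : FchL β p₀ r B l E)
    (hB : 0 < B) (hr : 0 ≤ r) (hBB : B ≤ B') : FchL β p₀ r B' l E :=
  ⟨h.an, fun y hy => (h.near y hy).trans (mul_le_mul_of_nonneg_right hBB (norm_nonneg y)), h.beta, h.co,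
    fun p hp => h.inv p (hp.trans_le (div_le_div_of_nonneg_left hr hB hBB))⟩

theorem fch_coord {L : (Fin (k + 2) → ℂ) →L[ℂ] (Fin (k + 1) → ℂ)} (hs : Function.Surjective L) :
    ∃ l : Fin (k + 2), ∀ w, L w = 0 → w l = 0 → w = 0 := by
  have h1 : Module.finrank ℂ (LinearMap.range L.toLinearMap) = k + 1 := by
    rw [LinearMap.range_eq_top.2 hs, finrank_top]
    simp
  have h2 : Module.finrank ℂ (LinearMap.ker L.toLinearMap) = 1 := by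
    have h3 := LinearMap.finrank_range_add_finrank_ker L.toLinearMap
    have h4 : Module.finrank ℂ (Fin (k + 2) → ℂ) = k + 2 := by simp
    omega
  obtain ⟨⟨κ, hκ⟩, hk0, hkc⟩ := finrank_eq_one_iff'.1 h2
  have hk1 : κ ≠ 0 := fun h => hk0 (Subtype.ext h)
  obtain ⟨l, hl⟩ := Function.ne_iff.1 hk1
  refine ⟨l, fun w hw hwl => ?_⟩
  obtain ⟨c, hc⟩ := hkc ⟨w, hw⟩
  have hc' : c • κ = w := congrArg Subtype.val hc
  rw [← hc'] at hwl ⊢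
  have h5 : c * κ l = 0 := hwl
  rcases mul_eq_zero.1 h5 with h | h
  · rw [h, zero_smul]
  · exact absurd h hl

theorem fch_local {β : (Fin (k + 2) → ℂ) → (Fin (k + 1) → ℂ)} {p₁ : Fin (k + 2) → ℂ} (hβ : AnalyticAt ℂ β p₁) (hs : Function.Surjective (fderiv ℂ β p₁)) :
    ∃ (l : Fin (k + 2)) (r B : ℝ), 0 < r ∧ 1 ≤ B ∧ ∀ᶠ p₀ in 𝓝 p₁, ∀ r', 0 < r' → r' ≤ r → ∃ E, FchL β p₀ r' B l E := by
  obtain ⟨l, hl⟩ := fch_coord hs
  set Θ : (Fin (k + 2) → ℂ) → (Fin (k + 1) → ℂ) × ℂ := fun p => (β p, p l) with hΘ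
  set D : (Fin (k + 2) → ℂ) →L[ℂ] (Fin (k + 1) → ℂ) × ℂ := (fderiv ℂ β p₁).prod (ContinuousLinearMap.proj l) with hD
  have hinj : Function.Injective D.toLinearMap := by
    rw [← LinearMap.ker_eq_bot, LinearMap.ker_eq_bot']
    intro w hw
    have h1 : (fderiv ℂ β p₁ w, w l) = (0 : (Fin (k + 1) → ℂ) × ℂ) := hw
    exact hl w (congrArg Prod.fst h1) (congrArg Prod.snd h1)
  have hdim : Module.finrank ℂ (Fin (k + 2) → ℂ) = Module.finrank ℂ ((Fin (k + 1) → ℂ) × ℂ) := by simp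
  set e : (Fin (k + 2) → ℂ) ≃L[ℂ] (Fin (k + 1) → ℂ) × ℂ := (D.toLinearMap.linearEquivOfInjective hinj hdim).toContinuousLinearEquiv with he
  have heD : (e : (Fin (k + 2) → ℂ) →L[ℂ] (Fin (k + 1) → ℂ) × ℂ) = D := by
    ext1 w
    rfl
  have hΘan : AnalyticAt ℂ Θ p₁ := hβ.prod ((ContinuousLinearMap.proj (R := ℂ) (φ := fun _ : Fin (k + 2) => ℂ) l).analyticAt p₁)
  have hΘd : HasFDerivAt Θ D p₁ := hβ.differentiableAt.hasFDerivAt.prodMk (ContinuousLinearMap.proj (R := ℂ) (φ := fun _ : Fin (k + 2) => ℂ) l).hasFDerivAt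
  have hst : HasStrictFDerivAt Θ (e : (Fin (k + 2) → ℂ) →L[ℂ] (Fin (k + 1) → ℂ) × ℂ) p₁ := by
    have h1 := hΘan.hasStrictFDerivAt
    rw [hΘd.fderiv] at h1
    rw [heD]
    exact h1
  set f := hst.toOpenPartialHomeomorph Θ with hf
  have hfc : ∀ p, f p = Θ p := fun p => congrFun (hst.toOpenPartialHomeomorph_coe) p
  have hsrc : p₁ ∈ f.source := hst.mem_toOpenPartialHomeomorph_source
  have hgan : AnalyticAt ℂ f.symm (Θ p₁) := by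
    have h1 := f.analyticAt_symm' (i := e) hsrc (by rw [hst.toOpenPartialHomeomorph_coe]; exact hΘan)
      (by rw [hst.toOpenPartialHomeomorph_coe, hΘd.fderiv, heD])
    rwa [hfc] at h1
  have htgt : Θ p₁ ∈ f.target := by
    have h1 := f.map_source hsrc
    rwa [hfc] at h1
  obtain ⟨K₁, s₁, hs₁, hK₁⟩ := hst.exists_lipschitzOnWith
  obtain ⟨K₂, s₂, hs₂, hK₂⟩ := hgan.hasStrictFDerivAt.exists_lipschitzOnWith
  obtain ⟨δ, hδ, hδs⟩ := Metric.mem_nhds_iff.1 (inter_mem (f.open_source.mem_nhds hsrc) hs₁)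
  obtain ⟨ρ, hρ, hρs⟩ := Metric.mem_nhds_iff.1 (inter_mem (inter_mem (f.open_target.mem_nhds htgt) hs₂) hgan.eventually_analyticAt)
  set B : ℝ := max 1 (max (K₁ : ℝ) (K₂ : ℝ)) with hB
  have hB1 : 1 ≤ B := le_max_left _ _
  have hBK₁ : (K₁ : ℝ) ≤ B := (le_max_left _ _).trans (le_max_right _ _)
  have hBK₂ : (K₂ : ℝ) ≤ B := (le_max_right _ _).trans (le_max_right _ _)
  refine ⟨l, min (ρ / 2) (δ / 2), B, lt_min (half_pos hρ) (half_pos hδ), hB1, ?_⟩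
  filter_upwards [Metric.ball_mem_nhds p₁ (half_pos hδ), hΘan.continuousAt (Metric.ball_mem_nhds (Θ p₁) (half_pos hρ))] with p₀ hp₀ hΘp₀
  intro r' hr' hr'r
  have hr1 : r' ≤ ρ / 2 := hr'r.trans (min_le_left _ _)
  have hr2 : r' ≤ δ / 2 := hr'r.trans (min_le_right _ _)
  have hp₀δ : p₀ ∈ ball p₁ δ := Metric.ball_subset_ball (by linarith) hp₀
  have hmem : ∀ y ∈ ball (0 : (Fin (k + 1) → ℂ) × ℂ) r', Θ p₀ + y ∈ ball (Θ p₁) ρ := by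
    intro y hy
    rw [mem_ball_zero_iff] at hy
    have h1 : dist (Θ p₀) (Θ p₁) < ρ / 2 := hΘp₀
    rw [mem_ball, dist_eq_norm]
    rw [dist_eq_norm] at h1
    calc ‖Θ p₀ + y - Θ p₁‖ = ‖(Θ p₀ - Θ p₁) + y‖ := by congr 1; abel
      _ ≤ ‖Θ p₀ - Θ p₁‖ + ‖y‖ := norm_add_le _ _
      _ < ρ := by linarith
  have hgf : ∀ p ∈ ball p₁ δ, f.symm (Θ p) = p := by
    intro p hp
    have h1 := f.left_inv (hδs hp).1
    rwa [hfc] at h1
  have hfg : ∀ y ∈ ball (Θ p₁) ρ, Θ (f.symm y) = y := by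
    intro y hy
    have h1 := f.right_inv (hρs hy).1.1
    rwa [hfc] at h1
  have hΘ0 : Θ p₀ ∈ ball (Θ p₁) ρ := by
    have h1 := hmem 0 (mem_ball_self hr')
    rwa [add_zero] at h1
  refine ⟨fun y => f.symm (Θ p₀ + y), ?_, ?_, ?_, ?_, ?_⟩
  · intro y hy
    have h1 : AnalyticAt ℂ f.symm (Θ p₀ + y) := (hρs (hmem y hy)).2
    exact h1.comp (f := fun y => Θ p₀ + y) (analyticAt_const.add analyticAt_id)
  · intro y hy
    have h1 := hK₂.dist_le_mul _ (hρs (hmem y hy)).1.2 _ (hρs hΘ0).1.2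
    rw [hgf p₀ hp₀δ, dist_eq_norm, dist_eq_norm, add_sub_cancel_left] at h1
    exact h1.trans (mul_le_mul_of_nonneg_right hBK₂ (norm_nonneg y))
  · intro y hy
    have h1 := hfg _ (hmem y hy)
    exact congrArg Prod.fst h1
  · intro y hy
    have h1 := hfg _ (hmem y hy)
    exact congrArg Prod.snd h1
  · intro p hp
    have h0 : ‖p - p₀‖ < r' := hp.trans_le (div_le_self hr'.le hB1)
    have hpδ : p ∈ ball p₁ δ := by
      have h1 : dist p₀ p₁ < δ / 2 := hp₀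
      rw [mem_ball]
      calc dist p p₁ ≤ dist p p₀ + dist p₀ p₁ := dist_triangle _ _ _
        _ < δ := by rw [dist_eq_norm p p₀]; linarith
    have h2 := hK₁.dist_le_mul _ (hδs hpδ).2 _ (hδs hp₀δ).2
    rw [dist_eq_norm, dist_eq_norm] at h2
    have h3 : (β p - β p₀, p l - p₀ l) = Θ p - Θ p₀ := rfl
    rw [h3]
    refine ⟨?_, ?_⟩
    · rw [mem_ball_zero_iff]
      rw [lt_div_iff₀ (by linarith)] at hp
      calc ‖Θ p - Θ p₀‖ ≤ K₁ * ‖p - p₀‖ := h2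
        _ ≤ B * ‖p - p₀‖ := mul_le_mul_of_nonneg_right hBK₁ (norm_nonneg _)
        _ < r' := by rw [mul_comm]; exact hp
    · show f.symm (Θ p₀ + (Θ p - Θ p₀)) = p
      rw [add_sub_cancel, hgf p hpδ]

theorem Setting.fch_key (S : Setting k X) {v : Vd (k + 1)} (hD : S.Dir v) : ∃ r B : ℝ, 0 < r ∧ 1 ≤ B ∧ ∀ b, ∀ F ∈ S.G v b, ∀ z, ∃ l : Fin (k + 2), ∀ r', 0 < r' → r' ≤ r →
    ∃ E, FchL (S.β (S.ix (F z))) (S.q (S.ix (F z)) (F z)) r' B l E := by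
  by_contra hcon
  have hc : ∀ n : ℕ, ∃ b, ∃ F ∈ S.G v b, ∃ z, ∀ l : Fin (k + 2), ∃ r', 0 < r' ∧ r' ≤ 1 / ((n : ℝ) + 1) ∧
      ∀ E, ¬ FchL (S.β (S.ix (F z))) (S.q (S.ix (F z)) (F z)) r' ((n : ℝ) + 1) l E := by
    intro n
    by_contra hn
    refine hcon ⟨1 / ((n : ℝ) + 1), (n : ℝ) + 1, by positivity, by linarith [(Nat.cast_nonneg n : (0 : ℝ) ≤ n)], fun b F hF z => ?_⟩
    by_contra hl
    refine hn ⟨b, F, hF, z, fun l => ?_⟩
    by_contra hr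
    refine hl ⟨l, fun r' hr' hr'' => ?_⟩
    by_contra hE
    exact hr ⟨r', hr', hr'', fun E hE' => hE ⟨E, hE'⟩⟩
  choose b F hF z hz using hc
  set F' : ℕ → ℂ → EN N := fun n w => F n (w + z n) with hF'd
  have hF' : ∀ n, F' n ∈ S.G v (b n + z n • v) := fun n => S.G_trans (hF n) (z n)
  obtain ⟨b₀, -, H, -, -, hH, hconv⟩ := S.exists_limit hD.ne (hyperfilter ℕ) (fun n => b n + z n • v) F' (Eventually.of_forall hF')
  obtain ⟨j, hj⟩ : ∃ j, ∀ᶠ n in ((hyperfilter ℕ : Ultrafilter ℕ) : Filter ℕ), S.ix (F' n 0) = j :=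
    Ultrafilter.eventually_exists_iff.1 (Eventually.of_forall fun n => ⟨_, rfl⟩)
  have hHX : H 0 ∈ X := hH.2.1 0
  have hgood : Good (S.A.χ j) (H 0) := by
    obtain ⟨n, hn1, hn2⟩ := (hj.and (hconv.unif 0 S.A.δ S.A.δ_pos)).exists
    have h1 := S.A.good (F' n 0) ((hF' n).2.1 0) (H 0) hHX (hn2 0 (by simp))
    rw [← hn1]
    exact h1
  obtain ⟨ρ, hρ, -, -, htl⟩ := hconv.chart 0 j hgood
  have htend := htl.tendsto_at (mem_ball_self hρ)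
  have hp₁ : S.q j (H 0) ∈ ball (0 : Vd (k + 2)) 2 := by
    rw [mem_ball_zero_iff]
    exact lt_of_le_of_lt hgood.2.2 (by norm_num)
  have hsurj : Function.Surjective (fderiv ℂ (S.β j) (S.q j (H 0))) := by
    have hs0 : Function.Surjective (fderiv ℂ (S.β (S.ix (H 0))) (S.q (S.ix (H 0)) (H 0))) := (kap_ne_iff _).1 (S.no_hit hD hH 0)
    intro y
    obtain ⟨w, hw⟩ := hs0 y
    exact ⟨_, (S.T_beta hHX (S.good_ix hHX).2.1 hgood.2.1 w).trans hw⟩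
  obtain ⟨l, r, B, hr, hB, hev⟩ := fch_local (S.β_an j _ hp₁) hsurj
  have hlarge : ∀ᶠ n : ℕ in atTop, 1 / ((n : ℝ) + 1) ≤ r ∧ B ≤ (n : ℝ) + 1 := by
    have h1 := tendsto_one_div_add_atTop_nhds_zero_nat (𝕜 := ℝ)
    have h2 : Tendsto (fun n : ℕ => (n : ℝ) + 1) atTop atTop := tendsto_atTop_add_const_right _ _ tendsto_natCast_atTop_atTop
    exact (h1.eventually (Iic_mem_nhds hr)).and (h2.eventually_ge_atTop B)
  obtain ⟨n, ⟨hn1, hn2⟩, hn3, hn4⟩ := ((hj.and (htend.eventually hev)).and (Nat.hyperfilter_le_atTop hlarge)).exists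
  obtain ⟨r', hr', hr'', hE⟩ := hz n l
  obtain ⟨E, hE'⟩ := hn2 r' hr' (hr''.trans hn3)
  rw [← hn1] at hE'
  have hE2 := hE'.mono (by linarith) hr'.le hn4
  simp only [hF'd, zero_add] at hE2
  exact hE E hE2

theorem Setting.exists_fch (S : Setting k X) {v : Vd (k + 1)} (hD : S.Dir v) {τ : ℝ} (hτ : 0 < τ) : ∃ r B : ℝ, 0 < r ∧ 1 ≤ B ∧ B * r ≤ τ ∧ ∀ b, ∀ F ∈ S.G v b, ∀ z,
    ∃ (l : Fin (k + 2)) (E : Vd (k + 1) × ℂ → Vd (k + 2)), S.FCh (F z) r B l E := by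
  obtain ⟨r, B, hr, hB, h⟩ := S.fch_key hD
  have hB0 : 0 < B := by linarith
  refine ⟨min r (τ / B), B, lt_min hr (div_pos hτ hB0), hB, ?_, fun b F hF z => ?_⟩
  · calc B * min r (τ / B) ≤ B * (τ / B) := mul_le_mul_of_nonneg_left (min_le_right _ _) hB0.le
      _ = τ := mul_div_cancel₀ τ hB0.ne'
  · obtain ⟨l, hl⟩ := h b F hF z
    obtain ⟨E, hE⟩ := hl _ (lt_min hr (div_pos hτ hB0)) (min_le_left _ _)
    exact ⟨l, E, hE.an, hE.near, hE.beta, hE.co, hE.inv⟩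

end Pool.Agent.TN
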