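import Pool.Agent.TN.Defs
import Pool.Agent.AD.BD.Loc

/-!
# TN Gv: the curves over the lines, limits

Port of `TH/Gv.lean`; the proofs do not use the dimensions.
-/

set_option autoImplicit false

open Topology Filter Metric

namespace Pool.Agent.TN

open Pool.Agent.H36.BP (EN fs wd Sub)
open Pool.Agent.H14.PP (IsCone CurveAt Tan)
open Pool.Agent.H62.EF (MN pr)
open Pool.Agent.H5.BD (BC evp)
open Pool.Agent.AD (Vd Chart Charts TorusMapV DiscreteSub)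
open Pool.Agent.AD.BD (Atlas LC Good qc)

variable {N k : ℕ} {X : Set (EN N)}

/-- locally uniform convergence of curves along an ultrafilter -/
structure Setting.Conv (S : Setting k X) (𝒰 : Ultrafilter ℕ) (F : ℕ → ℂ → EN N) (H : ℂ → EN N) : Prop where
  unif : ∀ R ε : ℝ, 0 < ε → ∀ᶠ n in (𝒰 : Filter ℕ), ∀ z, ‖z‖ ≤ R → pd (F n) H z ≤ ε
  chart : ∀ z₀ i, Good (S.A.χ i) (H z₀) → ∃ r : ℝ, 0 < r ∧ (∀ᶠ n in (𝒰 : Filter ℕ), ∀ z ∈ ball z₀ r, F n z ∈ (S.A.χ i).U) ∧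
    (∀ z ∈ ball z₀ r, H z ∈ (S.A.χ i).U) ∧ TendstoLocallyUniformlyOn (fun n z => S.q i (F n z)) (fun z => S.q i (H z)) 𝒰 (ball z₀ r)

/-- the limit of elements of a discrete subgroup -/
private theorem Gv_mem_of_tendsto {g : ℕ} {Λ : AddSubgroup (Vd g)} (hΛ : DiscreteSub Λ) {ι : Type*} {l : Filter ι} [l.NeBot] {y : ι → Vd g} {y₀ : Vd g}
    (hy : Tendsto y l (𝓝 y₀)) (hm : ∀ᶠ n in l, y n ∈ Λ) : y₀ ∈ Λ := by
  obtain ⟨δ, hδ, hd⟩ := hΛ
  have h1 : ∀ᶠ n in l, ‖y n - y₀‖ < δ / 2 := by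
    have h2 := hy.eventually (ball_mem_nhds y₀ (half_pos hδ))
    filter_upwards [h2] with n hn
    rw [← dist_eq_norm]
    exact hn
  obtain ⟨n₀, hn₀, hm₀⟩ := (h1.and hm).exists
  have h3 : ∀ᶠ n in l, y n = y n₀ := by
    filter_upwards [h1, hm] with n hn hmn
    have h4 : ‖y n - y n₀‖ < δ := by
      calc ‖y n - y n₀‖ = ‖(y n - y₀) - (y n₀ - y₀)‖ := by rw [sub_sub_sub_cancel_right]
        _ ≤ ‖y n - y₀‖ + ‖y n₀ - y₀‖ := norm_sub_le _ _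
        _ < δ := by linarith
    exact sub_eq_zero.1 (hd _ (Λ.sub_mem hmn hm₀) h4)
  have h5 : Tendsto y l (𝓝 (y n₀)) := (tendsto_congr' h3).2 tendsto_const_nhds
  rw [tendsto_nhds_unique hy h5]
  exact hm₀

namespace Setting

variable (S : Setting k X)

/-- the derivative of `u` along a curve over a line -/
private theorem Gv_du {v b : Vd (k + 1)} {F : ℂ → EN N} (hF : F ∈ S.G v b) (z₀ : ℂ) : S.torus.du (F z₀) (deriv F z₀) = v := by
  obtain ⟨hFd, hFX, hFu⟩ := hF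
  have hx := hFX z₀
  have hl := S.torus.lift_an hx
  have hc : Tendsto F (𝓝 z₀) (𝓝 (F z₀)) := hFd.continuous.tendsto z₀
  have hk : HasDerivAt (fun z : ℂ => b + z • v) v z₀ := by
    have h1 : HasDerivAt (fun z : ℂ => z • v) ((1 : ℂ) • v) z₀ := (hasDerivAt_id z₀).smul_const v
    rw [one_smul] at h1
    exact h1.const_add b
  have h1 := Pool.Agent.AD.deriv_eq_of_mem (Λ := S.Λ) S.disc (h := fun z => S.torus.lift (F z₀) (F z)) (k := fun z => b + z • v) (z₀ := z₀)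
    (AnalyticAt.comp (g := S.torus.lift (F z₀)) (f := F) hl (hFd.analyticAt z₀)) (by fun_prop) (by
      filter_upwards [hc.eventually (S.torus.lift_mem hx)] with z h2
      have h5 := S.Λ.sub_mem (hFu z) (h2 (hFX z))
      have h6 : S.torus.lift (F z₀) (F z) - (b + z • v) = (S.u (F z) - (b + z • v)) - (S.u (F z) - S.torus.lift (F z₀) (F z)) := by abel
      rw [h6]
      exact h5)
  rw [Pool.Agent.AD.deriv_comp_lift (hFd.analyticAt z₀) hl, hk.deriv] at h1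
  exact h1

/-- the pseudo-length of `u` -/
private noncomputable def Gv_len : Pool.Agent.H22.W.PseudoLength X :=
  Pool.Agent.AD.symLength S.cone S.charts (m := fun _ : Fin (k + 1) => 1) (fun _ => le_rfl) (fun j => S.torus.symDiff S.disc S.cone j)

private theorem Gv_len_eq (x w : EN N) : S.Gv_len.toFun x w = Real.sqrt (∑ i, ‖S.torus.du x w i‖ ^ 2) := by
  show Real.sqrt (∑ i, ‖S.torus.du x w i‖ ^ ((2 : ℝ) / (1 : ℕ))) = _
  congr 1
  refine Finset.sum_congr rfl fun i _ => ?_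
  rw [Nat.cast_one, div_one, Real.rpow_two]

private theorem Gv_len_le (x w : EN N) : S.Gv_len.toFun x w ≤ ((k : ℝ) + 1) * ‖S.torus.du x w‖ := by
  rw [S.Gv_len_eq]
  refine Real.sqrt_le_iff.2 ⟨by positivity, ?_⟩
  have h1 : ∀ i, ‖S.torus.du x w i‖ ^ 2 ≤ ‖S.torus.du x w‖ ^ 2 := fun i => pow_le_pow_left₀ (norm_nonneg _) (norm_le_pi_norm _ i) 2
  calc ∑ i, ‖S.torus.du x w i‖ ^ 2 ≤ ∑ _i : Fin (k + 1), ‖S.torus.du x w‖ ^ 2 := Finset.sum_le_sum fun i _ => h1 i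
    _ = ((k : ℝ) + 1) * ‖S.torus.du x w‖ ^ 2 := by simp
    _ ≤ (((k : ℝ) + 1) * ‖S.torus.du x w‖) ^ 2 := by
      rw [mul_pow]
      exact mul_le_mul_of_nonneg_right (by nlinarith [Nat.cast_nonneg (α := ℝ) k]) (sq_nonneg _)

private theorem Gv_le_len (x w : EN N) : ‖S.torus.du x w‖ ≤ S.Gv_len.toFun x w := by
  rw [S.Gv_len_eq]
  refine (pi_norm_le_iff_of_nonneg (Real.sqrt_nonneg _)).2 fun j => ?_
  refine Real.le_sqrt_of_sq_le ?_
  exact Finset.single_le_sum (f := fun i => ‖S.torus.du x w i‖ ^ 2) (fun i _ => sq_nonneg _) (Finset.mem_univ j)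

private theorem Gv_noNull : S.Gv_len.NoNullBrody := by
  intro F hF hFX _ h0 z w
  have h1 : ∀ z, S.torus.du (F z) (deriv F z) = 0 := by
    intro z
    have h2 := S.Gv_le_len (F z) (deriv F z)
    rw [h0 z] at h2
    exact norm_le_zero_iff.1 h2
  have h2 := S.fibre F hF hFX fun z => S.torus.fibre_of_du S.disc hF hFX h1 z 0
  have h3 : pr (F z) = pr (F w) := by rw [h2 z, h2 w]
  obtain ⟨c, -, h4⟩ := (Pool.Agent.H62.EF.pr_eq_iff (S.cone.ne_zero (hFX z)) (S.cone.ne_zero (hFX w))).1 h3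
  exact ⟨c, h4⟩

private theorem Gv_bound : ∃ K : ℝ, 0 < K ∧ ∀ v b : Vd (k + 1), ∀ F ∈ S.G v b, ∀ z, fs (F z) (deriv F z) ≤ K * max (((k : ℝ) + 1) * ‖v‖) 1 := by
  obtain ⟨K, hK, hb⟩ := Pool.Agent.AD.exists_bound_disc S.cone S.Gv_len S.Gv_noNull
  refine ⟨K, hK, fun v b F hF z => ?_⟩
  have h1 := hb F z 1 (((k : ℝ) + 1) * ‖v‖) one_pos hF.1.differentiableOn (fun y _ => hF.2.1 y) (fun y _ => by
    have h2 := S.Gv_len_le (F y) (deriv F y)
    rwa [S.Gv_du hF y] at h2)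
  rwa [div_one] at h1

/-- convergence in the charts from the convergence of the local lifts -/
private theorem Gv_chart_of {𝒰 : Ultrafilter ℕ} {F : ℕ → ℂ → EN N} {H : ℂ → EN N} {z₀ : ℂ} (χ : Chart (k + 2) X) (hU : H z₀ ∈ χ.U)
    {r : ℝ} {φ : ℕ → ℂ → EN N} {ψ : ℂ → EN N} (hr : 0 < r)
    (hφ : ∀ᶠ n in (𝒰 : Filter ℕ), DifferentiableOn ℂ (φ n) (ball z₀ r) ∧ ∀ z ∈ ball z₀ r, ∃ c : ℂ, c ≠ 0 ∧ φ n z = c • F n z)
    (hψ : DifferentiableOn ℂ ψ (ball z₀ r)) (hψH : ∀ z ∈ ball z₀ r, ∃ c : ℂ, c ≠ 0 ∧ ψ z = c • H z)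
    (hlim : TendstoLocallyUniformlyOn φ ψ 𝒰 (ball z₀ r)) :
    ∃ r' : ℝ, 0 < r' ∧ (∀ᶠ n in (𝒰 : Filter ℕ), ∀ z ∈ ball z₀ r', F n z ∈ χ.U) ∧ (∀ z ∈ ball z₀ r', H z ∈ χ.U) ∧
      TendstoLocallyUniformlyOn (fun n z => χ.q (F n z)) (fun z => χ.q (H z)) 𝒰 (ball z₀ r') := by
  have hback : ∀ {x y : EN N}, (∃ c : ℂ, c ≠ 0 ∧ x = c • y) → x ∈ χ.U → y ∈ χ.U ∧ χ.q y = χ.q x := by
    rintro x y ⟨c, hc, rfl⟩ hx
    have h1 := χ.smul_U _ hx c⁻¹ (inv_ne_zero hc)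
    rw [smul_smul, inv_mul_cancel₀ hc, one_smul] at h1
    exact ⟨h1, (χ.q_smul y h1 c hc).symm⟩
  have hz₀ : z₀ ∈ ball z₀ r := mem_ball_self hr
  have hψU : ψ z₀ ∈ χ.U := by
    obtain ⟨c, hc, h1⟩ := hψH z₀ hz₀
    rw [h1]
    exact χ.smul_U _ hU c hc
  obtain ⟨ε, hε, hεU⟩ := Metric.isOpen_iff.1 χ.isOpen_U _ hψU
  have hψc : ∀ z ∈ ball z₀ r, ContinuousAt ψ z := fun z hz => hψ.continuousOn.continuousAt (isOpen_ball.mem_nhds hz)
  obtain ⟨s, hs, hsψ⟩ : ∃ s : ℝ, 0 < s ∧ ∀ z ∈ closedBall z₀ s, dist (ψ z) (ψ z₀) < ε / 2 := by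
    obtain ⟨s, hs, h1⟩ := Metric.continuousAt_iff.1 (hψc z₀ hz₀) (ε / 2) (half_pos hε)
    exact ⟨s / 2, half_pos hs, fun z hz => h1 (lt_of_le_of_lt (mem_closedBall.1 hz) (half_lt_self hs))⟩
  obtain ⟨r', hr', hr's, hr'r⟩ : ∃ r' : ℝ, 0 < r' ∧ r' ≤ s ∧ r' < r :=
    ⟨min s (r / 2), lt_min hs (half_pos hr), min_le_left _ _, lt_of_le_of_lt (min_le_right _ _) (half_lt_self hr)⟩
  have hsub : closedBall z₀ r' ⊆ ball z₀ r := closedBall_subset_ball hr'r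
  have hsub' : ball z₀ r' ⊆ ball z₀ r := ball_subset_ball hr'r.le
  have hunif : TendstoUniformlyOn φ ψ 𝒰 (closedBall z₀ r') :=
    (tendstoLocallyUniformlyOn_iff_forall_isCompact isOpen_ball).1 hlim _ hsub (isCompact_closedBall _ _)
  have hev1 : ∀ᶠ n in (𝒰 : Filter ℕ), ∀ z ∈ closedBall z₀ r', φ n z ∈ χ.U := by
    have h0 := Metric.tendstoUniformlyOn_iff.1 hunif (ε / 2) (half_pos hε)
    filter_upwards [h0] with n hn z hz
    apply hεU
    have h1 := hn z hz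
    have h2 := hsψ z (closedBall_subset_closedBall hr's hz)
    rw [mem_ball]
    calc dist (φ n z) (ψ z₀) ≤ dist (φ n z) (ψ z) + dist (ψ z) (ψ z₀) := dist_triangle _ _ _
      _ < ε := by
        rw [dist_comm (φ n z)]
        linarith
  have hψU' : ∀ z ∈ ball z₀ r', ψ z ∈ χ.U := by
    intro z hz
    apply hεU
    have h2 := hsψ z (closedBall_subset_closedBall hr's (ball_subset_closedBall hz))
    rw [mem_ball]
    linarith
  have hevF : ∀ᶠ n in (𝒰 : Filter ℕ), ∀ z ∈ ball z₀ r', F n z ∈ χ.U ∧ χ.q (F n z) = χ.q (φ n z) := by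
    filter_upwards [hev1, hφ] with n h1 h2 z hz
    exact hback (h2.2 z (hsub' hz)) (h1 z (ball_subset_closedBall hz))
  have hH : ∀ z ∈ ball z₀ r', H z ∈ χ.U ∧ χ.q (H z) = χ.q (ψ z) := fun z hz => hback (hψH z (hsub' hz)) (hψU' z hz)
  refine ⟨r', hr', hevF.mono fun n hn z hz => (hn z hz).1, fun z hz => (hH z hz).1, ?_⟩
  rw [Metric.tendstoLocallyUniformlyOn_iff]
  intro η hη x hx
  have hqc : ContinuousAt χ.q (ψ x) := (χ.q_an _ (hψU' x hx)).continuousAt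
  obtain ⟨δ, hδ, hqδ⟩ := Metric.continuousAt_iff.1 hqc (η / 2) (half_pos hη)
  obtain ⟨t, ht, htn⟩ := Metric.tendstoLocallyUniformlyOn_iff.1 hlim (δ / 2) (half_pos hδ) x (hsub' hx)
  have hbx : ball z₀ r ∈ 𝓝 x := isOpen_ball.mem_nhds (hsub' hx)
  have hbx' : ball z₀ r' ∈ 𝓝 x := isOpen_ball.mem_nhds hx
  rw [nhdsWithin_eq_nhds.2 hbx] at ht
  have hψx : ∀ᶠ y in 𝓝 x, dist (ψ y) (ψ x) < δ / 2 := (hψc x (hsub' hx)).eventually (ball_mem_nhds _ (half_pos hδ))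
  refine ⟨t ∩ {y | dist (ψ y) (ψ x) < δ / 2} ∩ ball z₀ r', nhdsWithin_le_nhds (inter_mem (inter_mem ht hψx) hbx'), ?_⟩
  filter_upwards [htn, hevF] with n h1 h2 y hy
  have h3 : dist (ψ y) (φ n y) < δ / 2 := h1 y hy.1.1
  have h4 : dist (ψ y) (ψ x) < δ / 2 := hy.1.2
  rw [(h2 y hy.2).2, (hH y hy.2).2]
  have h5 : dist (φ n y) (ψ x) < δ := by
    calc dist (φ n y) (ψ x) ≤ dist (φ n y) (ψ y) + dist (ψ y) (ψ x) := dist_triangle _ _ _
      _ < δ := by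
        rw [dist_comm (φ n y)]
        linarith
  have h6 := hqδ h5
  have h7 := hqδ (h4.trans (half_lt_self hδ))
  calc dist (χ.q (ψ y)) (χ.q (φ n y)) ≤ dist (χ.q (ψ y)) (χ.q (ψ x)) + dist (χ.q (φ n y)) (χ.q (ψ x)) := dist_triangle_right _ _ _
    _ < η := by linarith

theorem G_trans {v b : Vd (k + 1)} {F : ℂ → EN N} (hF : F ∈ S.G v b) (a : ℂ) : (fun z => F (z + a)) ∈ S.G v (b + a • v) := by
  obtain ⟨h1, h2, h3⟩ := hF
  refine ⟨h1.comp (differentiable_id.add_const a), fun z => h2 _, fun z => ?_⟩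
  have h4 : S.u (F (z + a)) - (b + a • v + z • v) = S.u (F (z + a)) - (b + (z + a) • v) := by
    rw [add_smul]
    abel
  rw [h4]
  exact h3 _

theorem G_lat (v b : Vd (k + 1)) {l : Vd (k + 1)} (hl : l ∈ S.Λ) : S.G v (b + l) = S.G v b := by
  ext F
  refine and_congr_right fun _ => and_congr_right fun _ => forall_congr' fun z => ?_
  have h4 : S.u (F z) - (b + l + z • v) = (S.u (F z) - (b + z • v)) - l := by abel
  rw [h4]
  exact ⟨fun h => by simpa using S.Λ.add_mem h hl, fun h => S.Λ.sub_mem h hl⟩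

theorem G_scale {v b : Vd (k + 1)} {F : ℂ → EN N} (hF : F ∈ S.G v b) (a : ℂ) : (fun z => F (a * z)) ∈ S.G (a • v) b := by
  obtain ⟨h1, h2, h3⟩ := hF
  refine ⟨h1.comp (differentiable_id.const_mul a), fun z => h2 _, fun z => ?_⟩
  have h4 : S.u (F (a * z)) - (b + z • a • v) = S.u (F (a * z)) - (b + (a * z) • v) := by
    rw [smul_smul, mul_comm z a]
  rw [h4]
  exact h3 _

theorem exists_lip : ∃ L : ℝ, 0 < L ∧ ∀ v : Vd (k + 1), ‖v‖ ≤ 1 → ∀ b, ∀ F ∈ S.G v b, ∀ z, fs (F z) (deriv F z) ≤ L := by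
  obtain ⟨K, hK, hb⟩ := S.Gv_bound
  refine ⟨K * ((k : ℝ) + 1), by positivity, fun v hv b F hF z => (hb v b F hF z).trans ?_⟩
  refine mul_le_mul_of_nonneg_left ?_ hK.le
  have hk : (0 : ℝ) ≤ k := Nat.cast_nonneg k
  exact max_le (by nlinarith) (by linarith)

theorem exists_dat {v : Vd (k + 1)} (hv : v ≠ 0) : ∃ c L r₀ c₁ K : ℝ, S.Dat v c L r₀ c₁ K := by
  obtain ⟨K, hK, hb⟩ := S.Gv_bound
  obtain ⟨C, hC, hCb⟩ := Pool.Agent.AD.length_bound S.cone S.charts S.Gv_len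
  have hv0 : 0 < ‖v‖ := norm_pos_iff.2 hv
  have hL : 0 < K * max (((k : ℝ) + 1) * ‖v‖) 1 := mul_pos hK (lt_max_of_lt_right one_pos)
  have hc : 0 < ‖v‖ / C := div_pos hv0 hC
  obtain ⟨r₀, c₁, K', hLC⟩ := Pool.Agent.AD.BD.exists_LC S.cone S.A hc hL
  refine ⟨_, _, r₀, c₁, K', hLC, hc, fun b F hF => ⟨hF.1, hF.2.1, fun z => ⟨?_, hb v b F hF z⟩⟩⟩
  rw [div_le_iff₀ hC, mul_comm]
  have h1 := S.Gv_le_len (F z) (deriv F z)
  rw [S.Gv_du hF z] at h1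
  exact h1.trans (hCb _ _ (Pool.Agent.H22.W.tan_entire hF.1 hF.2.1 z))

theorem exists_limit {v : Vd (k + 1)} (hv : v ≠ 0) (𝒰 : Ultrafilter ℕ) (b : ℕ → Vd (k + 1)) (F : ℕ → ℂ → EN N) (hF : ∀ᶠ n in (𝒰 : Filter ℕ), F n ∈ S.G v (b n)) :
    ∃ (b₀ : Vd (k + 1)) (l : ℕ → Vd (k + 1)) (H : ℂ → EN N), (∀ n, l n ∈ S.Λ) ∧ Tendsto (fun n => b n - l n) 𝒰 (𝓝 b₀) ∧ H ∈ S.G v b₀ ∧ S.Conv 𝒰 F H := by
  classical
  obtain ⟨C, hC⟩ := S.cpt
  rcases 𝒰.le_cofinite_or_eq_pure with hle | ⟨k', rfl⟩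
  · rw [Nat.cofinite_eq_atTop] at hle
    choose l hl hlC using fun n => hC (b n)
    obtain ⟨b₀, -, hb₀⟩ : ∃ b₀ ∈ closedBall (0 : Vd (k + 1)) C, (𝒰.map fun n => b n - l n : Filter (Vd (k + 1))) ≤ 𝓝 b₀ := by
      refine (isCompact_closedBall (0 : Vd (k + 1)) C).ultrafilter_le_nhds (𝒰.map fun n => b n - l n) ?_
      rw [le_principal_iff]
      refine Eventually.of_forall (f := (𝒰 : Filter ℕ)) fun n => ?_
      rw [mem_closedBall_zero_iff]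
      exact hlC n
    have hb₀' : Tendsto (fun n => b n - l n) 𝒰 (𝓝 b₀) := hb₀
    have hF' : ∀ᶠ n in (𝒰 : Filter ℕ), F n ∈ S.G v (b n - l n) := by
      filter_upwards [hF] with n hn
      rw [sub_eq_add_neg, S.G_lat v (b n) (S.Λ.neg_mem (hl n))]
      exact hn
    obtain ⟨c, L, r₀, c₁, K, D⟩ := S.exists_dat hv
    have hL := D.lc.L_pos
    have hρ : Tendsto (fun n : ℕ => (n : ℝ)) 𝒰 atTop := tendsto_natCast_atTop_atTop.mono_left hle
    obtain ⟨H, hHd, hHX, hpr, -, hloc⟩ := Pool.Agent.H62.EF.limit_curves S.cone hL 𝒰 F (fun n => (n : ℝ)) hρ (by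
      filter_upwards [hF'] with n hn
      exact ⟨hn.1.differentiableOn, fun z _ => ⟨hn.2.1 z, ((D.sub _ hn).2.2 z).2⟩⟩)
    have hchart : ∀ z₀ i, H z₀ ∈ (S.A.χ i).U → ∃ r : ℝ, 0 < r ∧ (∀ᶠ n in (𝒰 : Filter ℕ), ∀ z ∈ ball z₀ r, F n z ∈ (S.A.χ i).U) ∧
        (∀ z ∈ ball z₀ r, H z ∈ (S.A.χ i).U) ∧ TendstoLocallyUniformlyOn (fun n z => S.q i (F n z)) (fun z => S.q i (H z)) 𝒰 (ball z₀ r) := by
      intro z₀ i hg
      obtain ⟨r, φ, ψ, hr, hφ, hψ, hψH, hlim⟩ := hloc z₀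
      exact Gv_chart_of (S.A.χ i) hg hr hφ hψ hψH hlim
    have hHG : H ∈ S.G v b₀ := by
      refine ⟨hHd, hHX, fun z => ?_⟩
      obtain ⟨i, hi⟩ : ∃ i, i = S.A.idx (pr (H z)) := ⟨_, rfl⟩
      have hg : Good (S.A.χ i) (H z) := by
        rw [hi]
        exact S.A.good _ (hHX z) _ (hHX z) (by rw [dist_self]; exact S.A.δ_pos.le)
      obtain ⟨r, hr, h1, -, h3⟩ := hchart z i hg.2.1
      have hz : z ∈ ball z r := mem_ball_self hr
      have h4 : Tendsto (fun n => S.q i (F n z)) 𝒰 (𝓝 (S.q i (H z))) := h3.tendsto_at hz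
      have hq2 : S.q i (H z) ∈ ball (0 : Vd (k + 2)) 2 := by
        rw [mem_ball_zero_iff]
        exact lt_of_le_of_lt hg.2.2 (by norm_num)
      have h5 : Tendsto (fun n => S.β i (S.q i (F n z))) 𝒰 (𝓝 (S.β i (S.q i (H z)))) :=
        (S.β_an i _ hq2).continuousAt.tendsto.comp h4
      have h6 : Tendsto (fun n => S.β i (S.q i (F n z)) - (b n - l n + z • v)) 𝒰 (𝓝 (S.β i (S.q i (H z)) - (b₀ + z • v))) :=
        h5.sub (hb₀'.add_const _)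
      have h7 : S.β i (S.q i (H z)) - (b₀ + z • v) ∈ S.Λ := by
        refine Gv_mem_of_tendsto S.disc h6 ?_
        filter_upwards [hF', h1] with n hn hU
        have h8 := S.β_eq i (F n z) (hn.2.1 z) (hU z hz)
        have h9 := S.Λ.sub_mem (hn.2.2 z) h8
        have h10 : S.β i (S.q i (F n z)) - (b n - l n + z • v) = (S.u (F n z) - (b n - l n + z • v)) - (S.u (F n z) - S.β i (S.q i (F n z))) := by abel
        rw [h10]
        exact h9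
      have h8 := S.β_eq i (H z) (hHX z) hg.2.1
      have h9 := S.Λ.add_mem h8 h7
      have h10 : S.u (H z) - (b₀ + z • v) = (S.u (H z) - S.β i (S.q i (H z))) + (S.β i (S.q i (H z)) - (b₀ + z • v)) := by abel
      rw [h10]
      exact h9
    refine ⟨b₀, l, H, hl, hb₀', hHG, ⟨fun R ε hε => ?_, fun z₀ i hg => hchart z₀ i hg.2.1⟩⟩
    have hη : 0 < ε / (8 * L) := by positivity
    obtain ⟨t, htR, htf, ht⟩ := Metric.totallyBounded_iff.1 (isCompact_closedBall (0 : ℂ) R).totallyBounded (ε / (8 * L)) hη |>.imp fun t h => (⟨Set.subset_univ t, h.1, h.2⟩ : t ⊆ Set.univ ∧ _ ∧ _)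
    have hev : ∀ᶠ n in (𝒰 : Filter ℕ), ∀ w ∈ t, dist (pr (F n w)) (pr (H w)) < ε / 2 := by
      rw [eventually_all_finite htf]
      intro w _
      exact (hpr w).eventually (ball_mem_nhds _ (half_pos hε))
    filter_upwards [hev, hF'] with n hn hFn z hz
    have hzR : z ∈ closedBall (0 : ℂ) R := by
      rw [mem_closedBall_zero_iff]
      exact hz
    obtain ⟨w, hwt, hzw⟩ := Set.mem_iUnion₂.1 (ht hzR)
    have hzw' : ‖z - w‖ < ε / (8 * L) := by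
      rw [← dist_eq_norm]
      exact hzw
    have h1 := D.lc.lip _ (D.sub _ hFn) z w
    have h2 := D.lc.lip _ (D.sub _ hHG) w z
    have h3 := hn w hwt
    have h4 : 2 * L * ‖z - w‖ ≤ ε / 4 := by
      calc 2 * L * ‖z - w‖ ≤ 2 * L * (ε / (8 * L)) := mul_le_mul_of_nonneg_left hzw'.le (by positivity)
        _ = ε / 4 := by
          field_simp
          norm_num
    rw [norm_sub_rev w z] at h2
    calc pd (F n) H z = dist (pr (F n z)) (pr (H z)) := rfl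
      _ ≤ dist (pr (F n z)) (pr (F n w)) + dist (pr (F n w)) (pr (H w)) + dist (pr (H w)) (pr (H z)) := dist_triangle4 _ _ _ _
      _ ≤ ε := by linarith
  · obtain ⟨l, hl, -⟩ := hC (b k')
    have hFk : F k' ∈ S.G v (b k') := by
      rw [Ultrafilter.coe_pure, eventually_pure] at hF
      exact hF
    refine ⟨b k' - l, fun _ => l, F k', fun _ => hl, ?_, ?_, ⟨fun R ε hε => ?_, fun z₀ i hg => ?_⟩⟩
    · rw [Ultrafilter.coe_pure]
      exact tendsto_pure_nhds (fun n => b n - l) k'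
    · rw [sub_eq_add_neg, S.G_lat v (b k') (S.Λ.neg_mem hl)]
      exact hFk
    · rw [Ultrafilter.coe_pure, eventually_pure]
      intro z _
      unfold pd
      rw [dist_self]
      exact hε.le
    · have h1 : ∀ᶠ z in 𝓝 z₀, F k' z ∈ (S.A.χ i).U := hFk.1.continuous.continuousAt.eventually ((S.A.χ i).isOpen_U.mem_nhds hg.2.1)
      obtain ⟨r, hr, h2⟩ := Metric.eventually_nhds_iff_ball.1 h1
      refine ⟨r, hr, ?_, h2, ?_⟩
      · rw [Ultrafilter.coe_pure, eventually_pure]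
        exact h2
      · rw [Metric.tendstoLocallyUniformlyOn_iff]
        intro ε hε x _
        refine ⟨Set.univ, univ_mem, ?_⟩
        rw [Ultrafilter.coe_pure, eventually_pure]
        intro y _
        rw [dist_self]
        exact hε

theorem exists_limit_of {v : Vd (k + 1)} (hv : v ≠ 0) (𝒰 : Ultrafilter ℕ) (b : ℕ → Vd (k + 1)) (b₁ : Vd (k + 1)) (hb : Tendsto b 𝒰 (𝓝 b₁)) (F : ℕ → ℂ → EN N)
    (hF : ∀ᶠ n in (𝒰 : Filter ℕ), F n ∈ S.G v (b n)) : ∃ H : ℂ → EN N, H ∈ S.G v b₁ ∧ S.Conv 𝒰 F H := by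
  obtain ⟨b₀, l, H, hl, hb₀, hH, hconv⟩ := S.exists_limit hv 𝒰 b F hF
  refine ⟨H, ?_, hconv⟩
  have h1 : Tendsto l 𝒰 (𝓝 (b₁ - b₀)) := by
    have h2 := hb.sub hb₀
    refine h2.congr fun n => ?_
    abel
  have h2 : b₁ - b₀ ∈ S.Λ := Gv_mem_of_tendsto S.disc h1 (Eventually.of_forall hl)
  have h3 : b₁ = b₀ + (b₁ - b₀) := by abel
  rw [h3, S.G_lat v b₀ h2]
  exact hH

end Setting

end Pool.Agent.TN
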