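import Pool.Agent.TN.Order

/-!
# TN HitC: the number of the hits in a small disc is bounded

* `zeros_le`: let `T` be a finite set of zeros of `f` in `closedBall z₀ (r / 4)`; `f z = ∏_{t ∈ T} (z - t) * h z` with `h` holomorphic on `ball z₀ r` (induction, `dslope`).  For `r' < r` near `r`: on the circle
  `‖z - z₀‖ = r'` we have `‖z - t‖ ≥ r' - r / 4`, so `‖h‖ ≤ B / (r' - r / 4)^n`, so by the maximum principle `c / (3 r / 8)^n ≤ ‖f a‖ / ∏ ‖a - t‖ = ‖h a‖ ≤ B / (r' - r / 4)^n`; `r' → r`.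
* `exists_count`: `exists_dat`, `exists_lower` with `s = r₀ / 8`; for `F ∈ G v b`, `z₀` there is a point `a`, `‖a - z₀‖ ≤ r₀ / 8`, with `‖kap ..‖ ≥ c₂`, so a coordinate `l` with `‖θ l a‖ ≥ c₂` (sup norm); `θ l` is
  holomorphic and bounded by a uniform `B` on `ball z₀ r₀` (`LC.good`: all the points are in the part `‖q‖ ≤ 1` of the chart `ix (F z₀)`, compactness), and the hits are zeros of `θ l` (`hit_of_kap`).
-/

set_option autoImplicit false

open Topology Filter Metric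

namespace Pool.Agent.TN

open Pool.Agent.H36.BP (EN fs wd Sub)
open Pool.Agent.H14.PP (IsCone CurveAt Tan)
open Pool.Agent.H62.EF (MN pr)
open Pool.Agent.H5.BD (BC evp)
open Pool.Agent.AD (Vd Chart Charts TorusMapV DiscreteSub)
open Pool.Agent.AD.BD (Atlas LC Good qc)

variable {N k : ℕ} {X : Set (EN N)}

/-- the factorization -/
private theorem HitC_fac {f : ℂ → ℂ} {z₀ : ℂ} {r : ℝ} (hf : DifferentiableOn ℂ f (ball z₀ r)) (T : Finset ℂ) :
    (∀ t ∈ T, t ∈ ball z₀ r ∧ f t = 0) → ∃ h : ℂ → ℂ, DifferentiableOn ℂ h (ball z₀ r) ∧ ∀ z, f z = (∏ t ∈ T, (z - t)) * h z := by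
  classical
  induction T using Finset.induction_on with
  | empty => exact fun _ => ⟨f, hf, fun z => by simp⟩
  | insert t₀ T ht₀ ih =>
    intro hT
    obtain ⟨h, hh, hfh⟩ := ih fun t ht => hT t (Finset.mem_insert_of_mem ht)
    obtain ⟨ht1, ht2⟩ := hT t₀ (Finset.mem_insert_self _ _)
    have h0 : h t₀ = 0 := by
      have h1 := hfh t₀
      rw [ht2] at h1
      rcases mul_eq_zero.1 h1.symm with h2 | h2
      · exfalso
        obtain ⟨t, ht, h3⟩ := Finset.prod_eq_zero_iff.1 h2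
        exact ht₀ ((sub_eq_zero.1 h3) ▸ ht)
      · exact h2
    refine ⟨dslope h t₀, (Complex.differentiableOn_dslope (isOpen_ball.mem_nhds ht1)).2 hh, fun z => ?_⟩
    rw [Finset.prod_insert ht₀, hfh z]
    have h3 : (z - t₀) * dslope h t₀ z = h z := by
      have h4 := sub_smul_dslope h t₀ z
      rwa [h0, sub_zero, smul_eq_mul] at h4
    rw [← h3]
    ring

theorem zeros_le {f : ℂ → ℂ} {z₀ a : ℂ} {r B c : ℝ} (hr : 0 < r) (hf : DifferentiableOn ℂ f (ball z₀ r)) (hB : ∀ z ∈ ball z₀ r, ‖f z‖ ≤ B) (ha : ‖a - z₀‖ ≤ r / 8)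
    (hc : c ≤ ‖f a‖) (T : Finset ℂ) (hT : ∀ t ∈ T, ‖t - z₀‖ ≤ r / 4 ∧ f t = 0) : c * 2 ^ T.card ≤ B := by
  obtain ⟨h, hh, hfh⟩ := HitC_fac hf T fun t ht => ⟨by
    rw [mem_ball, dist_eq_norm]
    exact lt_of_le_of_lt (hT t ht).1 (by linarith), (hT t ht).2⟩
  have hB0 : 0 ≤ B := (norm_nonneg _).trans (hB z₀ (mem_ball_self hr))
  have hmain : ∀ r' : ℝ, r / 2 < r' → r' < r → c * (r' - r / 4) ^ T.card ≤ (3 * r / 8) ^ T.card * B := by
    intro r' h1 h2
    have hpos : 0 < r' - r / 4 := by linarith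
    have hr' : 0 < r' := by linarith
    have hfr : ∀ z ∈ frontier (ball z₀ r'), ‖h z‖ ≤ B / (r' - r / 4) ^ T.card := by
      intro z hz
      rw [frontier_ball z₀ hr'.ne', mem_sphere, dist_eq_norm] at hz
      have hzb : z ∈ ball z₀ r := by
        rw [mem_ball, dist_eq_norm, hz]
        exact h2
      rw [le_div_iff₀ (pow_pos hpos _)]
      have h3 : (r' - r / 4) ^ T.card ≤ ∏ t ∈ T, ‖z - t‖ := by
        rw [← Finset.prod_const]
        refine Finset.prod_le_prod (fun _ _ => hpos.le) fun t ht => ?_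
        have h4 := norm_sub_norm_le (z - z₀) (t - z₀)
        rw [sub_sub_sub_cancel_right, hz] at h4
        linarith [(hT t ht).1]
      calc ‖h z‖ * (r' - r / 4) ^ T.card ≤ ‖h z‖ * ∏ t ∈ T, ‖z - t‖ := mul_le_mul_of_nonneg_left h3 (norm_nonneg _)
        _ = ‖f z‖ := by rw [hfh z, norm_mul, norm_prod, mul_comm]
        _ ≤ B := hB z hzb
    have hd : DiffContOnCl ℂ h (ball z₀ r') := by
      refine DifferentiableOn.diffContOnCl ?_
      rw [closure_ball z₀ hr'.ne']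
      exact hh.mono (closedBall_subset_ball h2)
    have ham : a ∈ closure (ball z₀ r') := by
      refine subset_closure ?_
      rw [mem_ball, dist_eq_norm]
      linarith
    have h5 := Complex.norm_le_of_forall_mem_frontier_norm_le isBounded_ball hd hfr ham
    have h6 : ∏ t ∈ T, ‖a - t‖ ≤ (3 * r / 8) ^ T.card := by
      rw [← Finset.prod_const]
      refine Finset.prod_le_prod (fun _ _ => norm_nonneg _) fun t ht => ?_
      calc ‖a - t‖ = ‖(a - z₀) - (t - z₀)‖ := by rw [sub_sub_sub_cancel_right]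
        _ ≤ ‖a - z₀‖ + ‖t - z₀‖ := norm_sub_le _ _
        _ ≤ 3 * r / 8 := by linarith [(hT t ht).1]
    have h7 : c ≤ (3 * r / 8) ^ T.card * (B / (r' - r / 4) ^ T.card) := by
      calc c ≤ ‖f a‖ := hc
        _ = (∏ t ∈ T, ‖a - t‖) * ‖h a‖ := by rw [hfh a, norm_mul, norm_prod]
        _ ≤ (3 * r / 8) ^ T.card * (B / (r' - r / 4) ^ T.card) := mul_le_mul h6 h5 (norm_nonneg _) (by positivity)
    rw [mul_div_assoc', le_div_iff₀ (pow_pos hpos _)] at h7
    exact h7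
  have hlim : c * (r - r / 4) ^ T.card ≤ (3 * r / 8) ^ T.card * B := by
    have h1 : Tendsto (fun r' : ℝ => c * (r' - r / 4) ^ T.card) (𝓝[<] r) (𝓝 (c * (r - r / 4) ^ T.card)) := by
      have h2 : Continuous fun r' : ℝ => c * (r' - r / 4) ^ T.card := by fun_prop
      exact (h2.tendsto r).mono_left nhdsWithin_le_nhds
    refine le_of_tendsto h1 ?_
    have h3 : ∀ᶠ r' in 𝓝[<] r, r' ∈ Set.Ioo (r / 2) r := Ioo_mem_nhdsLT (by linarith)
    filter_upwards [h3] with r' hr'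
    exact hmain r' hr'.1 hr'.2
  have h8 : (r - r / 4) ^ T.card = (3 * r / 8) ^ T.card * 2 ^ T.card := by
    rw [← mul_pow]
    congr 1
    ring
  rw [h8] at hlim
  have h9 : 0 < (3 * r / 8) ^ T.card := by positivity
  refine le_of_mul_le_mul_left ?_ h9
  calc (3 * r / 8) ^ T.card * (c * 2 ^ T.card) = c * ((3 * r / 8) ^ T.card * 2 ^ T.card) := by ring
    _ ≤ (3 * r / 8) ^ T.card * B := hlim

namespace Setting

variable (S : Setting k X)

private theorem HitC_kap_an (i : Fin S.A.n) (l : Fin (k + 2)) {p : Vd (k + 2)} (hp : p ∈ ball (0 : Vd (k + 2)) 2) :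
    AnalyticAt ℂ (fun p => S.kap i p l) p :=
  ((ContinuousLinearMap.proj (R := ℂ) (φ := fun _ : Fin (k + 2) => ℂ) l).analyticAt _).comp (S.kap_an i hp)

private theorem HitC_bound : ∃ B : ℝ, ∀ (i : Fin S.A.n) (l : Fin (k + 2)) (p : Vd (k + 2)), ‖p‖ ≤ 1 / 2 → ‖S.kap i p l‖ ≤ B := by
  have h1 : ∀ (i : Fin S.A.n) (l : Fin (k + 2)), ∃ B : ℝ, ∀ p ∈ closedBall (0 : Vd (k + 2)) (1 / 2), ‖S.kap i p l‖ ≤ B := by
    intro i l
    refine (isCompact_closedBall (0 : Vd (k + 2)) (1 / 2)).exists_bound_of_continuousOn fun p hp => ?_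
    exact (S.HitC_kap_an i l (closedBall_subset_ball (by norm_num) hp)).continuousAt.continuousWithinAt
  choose B hB using h1
  refine ⟨∑ i, ∑ l, |B i l|, fun i l p hp => ?_⟩
  refine (hB i l p (by rwa [mem_closedBall_zero_iff])).trans ((le_abs_self _).trans ?_)
  exact (Finset.single_le_sum (f := fun l => |B i l|) (fun l _ => abs_nonneg _) (Finset.mem_univ l)).trans
    (Finset.single_le_sum (f := fun i => ∑ l, |B i l|) (fun i _ => Finset.sum_nonneg fun l _ => abs_nonneg _) (Finset.mem_univ i))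

end Setting

theorem Setting.exists_count (S : Setting k X) {v : Vd (k + 1)} (hD : S.Dir v) : ∃ (s : ℝ) (n₀ : ℕ), 0 < s ∧ s ≤ 1 ∧ ∀ b, ∀ F ∈ S.G v b, ∀ z₀,
    {z | ‖z - z₀‖ ≤ s ∧ S.Hit (F z)}.Finite ∧ {z | ‖z - z₀‖ ≤ s ∧ S.Hit (F z)}.ncard ≤ n₀ := by
  obtain ⟨c, L, r₀, c₁, K, D⟩ := S.exists_dat hD.ne
  have hr₀ := D.lc.r₀_pos
  obtain ⟨c₂, hc₂, hlow⟩ := S.exists_lower hD D (s := r₀ / 8) (by positivity) (by linarith)
  obtain ⟨B, hB⟩ := S.HitC_bound
  obtain ⟨n₀, hn₀⟩ := pow_unbounded_of_one_lt (B / c₂) (one_lt_two : (1 : ℝ) < 2)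
  refine ⟨min (r₀ / 8) 1, n₀, lt_min (by positivity) one_pos, min_le_right _ _, fun b F hF z₀ => ?_⟩
  obtain ⟨s', hs', hls⟩ := hlow b F hF z₀
  have hs0 : 0 ≤ s' := by linarith [hs'.1]
  have hBC := D.sub b hF
  have hX := hF.2.1
  have hgood : ∀ z ∈ ball z₀ r₀, Good (S.A.χ (S.ix (F z₀))) (F z) := fun z hz =>
    D.lc.good F hBC (F z₀) (hX z₀) z₀ (by rw [dist_self]; exact (half_pos S.A.δ_pos).le) z hz
  obtain ⟨i, hi⟩ : ∃ i, i = S.ix (F z₀) := ⟨_, rfl⟩
  rw [← hi] at hgood hls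
  have han : ‖(z₀ + (s' : ℂ)) - z₀‖ = s' := by
    rw [add_sub_cancel_left, Complex.norm_real, Real.norm_of_nonneg hs0]
  have h1 := hls _ han
  obtain ⟨l, hl⟩ : ∃ l : Fin (k + 2), c₂ ≤ ‖S.kap i (S.q i (F (z₀ + (s' : ℂ)))) l‖ := by
    by_contra hcon
    push Not at hcon
    exact absurd h1 (not_le.2 ((pi_norm_lt_iff hc₂).2 hcon))
  have hq : ∀ z ∈ ball z₀ r₀, S.q i (F z) ∈ ball (0 : Vd (k + 2)) 2 := fun z hz => by
    rw [mem_ball_zero_iff]
    exact lt_of_le_of_lt (hgood z hz).2.2 (by norm_num)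
  have hdiff : DifferentiableOn ℂ (fun z => S.kap i (S.q i (F z)) l) (ball z₀ r₀) := by
    intro z hz
    have hC : CurveAt X F z := ⟨hF.1.analyticAt z, Eventually.of_forall hX⟩
    have h2 := S.q_an hC (hgood z hz).2.1
    have h3 := S.HitC_kap_an i l (hq z hz)
    exact (AnalyticAt.comp (g := fun p => S.kap i p l) (f := fun z => S.q i (F z)) h3 h2).differentiableAt.differentiableWithinAt
  have hbd : ∀ z ∈ ball z₀ r₀, ‖S.kap i (S.q i (F z)) l‖ ≤ B := fun z hz => hB i l _ (hgood z hz).2.2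
  have hcard : ∀ T : Finset ℂ, (∀ t ∈ T, ‖t - z₀‖ ≤ min (r₀ / 8) 1 ∧ S.Hit (F t)) → T.card < n₀ := by
    intro T hT
    have h2 : ∀ t ∈ T, ‖t - z₀‖ ≤ r₀ / 4 ∧ S.kap i (S.q i (F t)) l = 0 := by
      intro t ht
      have h3 : ‖t - z₀‖ ≤ r₀ / 8 := (hT t ht).1.trans (min_le_left _ _)
      refine ⟨by linarith, ?_⟩
      have h4 : t ∈ ball z₀ r₀ := by
        rw [mem_ball, dist_eq_norm]
        linarith
      have h5 := (S.hit_of_kap (hX t) (hgood t h4).2.1).2 (hT t ht).2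
      exact congrFun h5 l
    have h3 := zeros_le hr₀ hdiff hbd (by rw [han]; exact hs'.2) hl T h2
    by_contra hcon
    push Not at hcon
    have h4 : (2 : ℝ) ^ n₀ ≤ 2 ^ T.card := pow_le_pow_right₀ one_le_two hcon
    have h5 : B < c₂ * 2 ^ n₀ := by
      rw [div_lt_iff₀ hc₂] at hn₀
      linarith
    have h6 : c₂ * 2 ^ n₀ ≤ c₂ * 2 ^ T.card := mul_le_mul_of_nonneg_left h4 hc₂.le
    linarith
  have hfin : {z | ‖z - z₀‖ ≤ min (r₀ / 8) 1 ∧ S.Hit (F z)}.Finite := by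
    by_contra hinf
    obtain ⟨T, hT, hTc⟩ := Set.Infinite.exists_subset_card_eq hinf n₀
    have h2 := hcard T fun t ht => hT ht
    omega
  refine ⟨hfin, ?_⟩
  rw [Set.ncard_eq_toFinset_card _ hfin]
  exact (hcard hfin.toFinset fun t ht => (hfin.mem_toFinset.1 ht)).le

end Pool.Agent.TN
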