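import Pool.Agent.TN.Defs

/-!
# TN Kap: the signed maximal minors

* `kap_sum`: `∑ l, ψ l * kap L l` is the determinant of the matrix with the first row `ψ` and then the rows of `L` (expansion along the first row: `Matrix.det_succ_row_zero`).
* `kap_ker`: take for `ψ` a row of `L` (two equal rows).
* `kap_comp`: `∑ ψ l (T (kap (L T))) l = det (ψ T, L T) = det (ψ, L) det T = ∑ ψ l (det T kap L) l` for all `ψ`.
* `kap_ne_iff`: if `L` is onto choose `ψ` with `(ψ, L)` invertible; if `L` is not onto the rows of `L` are dependent, so all the determinants are `0`.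
* `exists_smul_kap`: if `L` is onto the kernel is one-dimensional.
-/

set_option autoImplicit false

open Topology Filter Metric

namespace Pool.Agent.TN

open Pool.Agent.H36.BP (EN fs wd Sub)
open Pool.Agent.H14.PP (IsCone CurveAt Tan)
open Pool.Agent.H62.EF (MN pr)
open Pool.Agent.H5.BD (BC evp)
open Pool.Agent.AD (Vd Chart Charts TorusMapV DiscreteSub)
open Pool.Agent.AD.BD (Atlas LC Good qc)

variable {N k : ℕ} {X : Set (EN N)}

theorem kap_sum {n : ℕ} (L : Vd (n + 1) →L[ℂ] Vd n) (ψ : Vd (n + 1)) :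
    ∑ l, ψ l * kap L l = Matrix.det (Matrix.of (Fin.cons ψ fun a b => L (Pi.single b 1) a : Fin (n + 1) → Fin (n + 1) → ℂ)) := by
  rw [Matrix.det_succ_row_zero]
  refine Finset.sum_congr rfl fun l _ => ?_
  have h : (Matrix.of (Fin.cons ψ fun a b => L (Pi.single b 1) a : Fin (n + 1) → Fin (n + 1) → ℂ)).submatrix Fin.succ l.succAbove =
      Matrix.of fun a b : Fin n => L (Pi.single (l.succAbove b) 1) a := by
    ext a b
    simp [Matrix.submatrix]
  rw [h]
  simp only [kap, Matrix.of_apply, Fin.cons_zero]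
  ring

theorem kap_ker {n : ℕ} (L : Vd (n + 1) →L[ℂ] Vd n) : L (kap L) = 0 := by
  ext a
  have h1 : L (kap L) a = ∑ l, L (Pi.single l 1) a * kap L l := by
    have h : kap L = ∑ l, kap L l • (Pi.single l 1 : Vd (n + 1)) := by
      ext j
      simp [Finset.sum_apply, Pi.single_apply]
    conv_lhs => rw [h]
    rw [map_sum, Finset.sum_apply]
    refine Finset.sum_congr rfl fun l _ => ?_
    rw [map_smul, Pi.smul_apply, smul_eq_mul, mul_comm]
  rw [h1, kap_sum L (fun l => L (Pi.single l 1) a)]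
  refine Matrix.det_zero_of_row_eq (Fin.succ_ne_zero a).symm ?_
  ext b
  simp

theorem kap_comp {n : ℕ} (L : Vd (n + 1) →L[ℂ] Vd n) (T : Vd (n + 1) →L[ℂ] Vd (n + 1)) :
    T (kap (L.comp T)) = LinearMap.det (T : Vd (n + 1) →ₗ[ℂ] Vd (n + 1)) • kap L := by
  have hT : ∀ (x : Vd (n + 1)) (l : Fin (n + 1)), T x l = ∑ j, T (Pi.single j 1) l * x j := by
    intro x l
    have h : x = ∑ j, x j • (Pi.single j 1 : Vd (n + 1)) := by
      ext j
      simp [Finset.sum_apply, Pi.single_apply]
    conv_lhs => rw [h]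
    rw [map_sum, Finset.sum_apply]
    refine Finset.sum_congr rfl fun j _ => ?_
    rw [map_smul, Pi.smul_apply, smul_eq_mul, mul_comm]
  have hL : ∀ (x : Vd (n + 1)) (a : Fin n), L x a = ∑ j, L (Pi.single j 1) a * x j := by
    intro x a
    have h : x = ∑ j, x j • (Pi.single j 1 : Vd (n + 1)) := by
      ext j
      simp [Finset.sum_apply, Pi.single_apply]
    conv_lhs => rw [h]
    rw [map_sum, Finset.sum_apply]
    refine Finset.sum_congr rfl fun j _ => ?_
    rw [map_smul, Pi.smul_apply, smul_eq_mul, mul_comm]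
  ext i
  have h1 := kap_sum (L.comp T) (fun j => T (Pi.single j 1) i)
  have h2 := kap_sum L (Pi.single i 1)
  have h3 : ∑ l, (Pi.single i (1 : ℂ) : Vd (n + 1)) l * kap L l = kap L i := by
    simp [Pi.single_apply]
  rw [h3] at h2
  rw [hT, h1, Pi.smul_apply, smul_eq_mul, h2, mul_comm, ← LinearMap.det_toMatrix', ← Matrix.det_mul]
  congr 1
  ext a b
  rw [Matrix.mul_apply]
  refine Fin.cases ?_ (fun a => ?_) a
  · simp [Matrix.of_apply, LinearMap.toMatrix'_apply, Pi.single_apply]
  · simp only [Matrix.of_apply, Fin.cons_succ, ContinuousLinearMap.comp_apply]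
    rw [hL]
    refine Finset.sum_congr rfl fun j _ => ?_
    rw [LinearMap.toMatrix'_apply]
    rfl

theorem kap_ne_iff {n : ℕ} (L : Vd (n + 1) →L[ℂ] Vd n) : kap L ≠ 0 ↔ Function.Surjective L := by
  constructor
  · intro h
    obtain ⟨l, hl⟩ := Function.ne_iff.mp h
    have hdet : Matrix.det (Matrix.of fun a b : Fin n => L (Pi.single (l.succAbove b) 1) a) ≠ 0 := by
      intro h0
      apply hl
      simp only [kap, h0, mul_zero, Pi.zero_apply]
    intro y
    set M : Matrix (Fin n) (Fin n) ℂ := Matrix.of fun a b : Fin n => L (Pi.single (l.succAbove b) 1) a with hM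
    have hu : IsUnit M.det := isUnit_iff_ne_zero.mpr hdet
    refine ⟨∑ b, (M⁻¹.mulVec y) b • (Pi.single (l.succAbove b) 1 : Vd (n + 1)), ?_⟩
    rw [map_sum]
    have h2 : M.mulVec (M⁻¹.mulVec y) = y := by
      rw [Matrix.mulVec_mulVec, Matrix.mul_nonsing_inv M hu, Matrix.one_mulVec]
    ext a
    conv_rhs => rw [← h2]
    rw [Finset.sum_apply, Matrix.mulVec, dotProduct]
    refine Finset.sum_congr rfl fun b _ => ?_
    rw [map_smul, Pi.smul_apply, smul_eq_mul, mul_comm]
    rfl
  · intro hs h0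
    have hk : Module.finrank ℂ (LinearMap.ker (L : Vd (n + 1) →ₗ[ℂ] Vd n)) = 1 := by
      have h1 := LinearMap.finrank_range_add_finrank_ker (L : Vd (n + 1) →ₗ[ℂ] Vd n)
      have h2 : LinearMap.range (L : Vd (n + 1) →ₗ[ℂ] Vd n) = ⊤ := LinearMap.range_eq_top.mpr hs
      rw [h2, finrank_top, Module.finrank_fin_fun, Module.finrank_fin_fun] at h1
      omega
    obtain ⟨h, hne, hall⟩ := finrank_eq_one_iff'.mp hk
    have hne' : (h : Vd (n + 1)) ≠ 0 := fun h' => hne (Subtype.ext h')
    obtain ⟨i, hi⟩ := Function.ne_iff.mp hne'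
    have h3 := kap_sum L (Pi.single i 1)
    rw [h0] at h3
    simp only [Pi.zero_apply, mul_zero, Finset.sum_const_zero] at h3
    obtain ⟨x, hx, hx0⟩ := Matrix.exists_mulVec_eq_zero_iff.mpr h3.symm
    have hLx : L x = 0 := by
      ext a
      have h4 := congrFun hx0 a.succ
      have h5 : L x a = ∑ j, L (Pi.single j 1) a * x j := by
        have h : x = ∑ j, x j • (Pi.single j 1 : Vd (n + 1)) := by
          ext j
          simp [Finset.sum_apply, Pi.single_apply]
        conv_lhs => rw [h]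
        rw [map_sum, Finset.sum_apply]
        refine Finset.sum_congr rfl fun j _ => ?_
        rw [map_smul, Pi.smul_apply, smul_eq_mul, mul_comm]
      rw [h5]
      rw [Matrix.mulVec, dotProduct] at h4
      simpa [Matrix.of_apply, Fin.cons_succ] using h4
    have hxi : x i = 0 := by
      have h4 := congrFun hx0 0
      rw [Matrix.mulVec, dotProduct] at h4
      simpa [Matrix.of_apply, Fin.cons_zero, Pi.single_apply] using h4
    obtain ⟨c, hc⟩ := hall ⟨x, hLx⟩
    have hc' : c • (h : Vd (n + 1)) = x := congrArg Subtype.val hc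
    have h6 : c * (h : Vd (n + 1)) i = 0 := by
      have := congrFun hc' i
      rw [Pi.smul_apply, smul_eq_mul, hxi] at this
      exact this
    rcases mul_eq_zero.mp h6 with h7 | h7
    · rw [h7, zero_smul] at hc'
      exact hx hc'.symm
    · exact hi h7

theorem exists_smul_kap {n : ℕ} {L : Vd (n + 1) →L[ℂ] Vd n} (h0 : kap L ≠ 0) {h : Vd (n + 1)} (hh : L h = 0) : ∃ c : ℂ, h = c • kap L := by
  have hs := (kap_ne_iff L).mp h0
  have hk : Module.finrank ℂ (LinearMap.ker (L : Vd (n + 1) →ₗ[ℂ] Vd n)) = 1 := by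
    have h1 := LinearMap.finrank_range_add_finrank_ker (L : Vd (n + 1) →ₗ[ℂ] Vd n)
    have h2 : LinearMap.range (L : Vd (n + 1) →ₗ[ℂ] Vd n) = ⊤ := LinearMap.range_eq_top.mpr hs
    rw [h2, finrank_top, Module.finrank_fin_fun, Module.finrank_fin_fun] at h1
    omega
  have hne : (⟨kap L, kap_ker L⟩ : LinearMap.ker (L : Vd (n + 1) →ₗ[ℂ] Vd n)) ≠ 0 := fun h' => h0 (congrArg Subtype.val h')
  obtain ⟨c, hc⟩ := (finrank_eq_one_iff_of_nonzero' _ hne).mp hk ⟨h, hh⟩
  exact ⟨c, (congrArg Subtype.val hc).symm⟩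

/-- the minors are a polynomial map, so analytic -/
theorem kap_analytic {n : ℕ} (L : Vd (n + 1) →L[ℂ] Vd n) : AnalyticAt ℂ (fun L : Vd (n + 1) →L[ℂ] Vd n => kap L) L := by
  rw [analyticAt_pi_iff]
  intro l
  have h1 : ∀ (x : Vd (n + 1)) (a : Fin n), AnalyticAt ℂ (fun L : Vd (n + 1) →L[ℂ] Vd n => L x a) L := fun x a =>
    ((ContinuousLinearMap.proj (R := ℂ) (φ := fun _ : Fin n => ℂ) a).comp (ContinuousLinearMap.apply ℂ (Vd n) x)).analyticAt L
  simp only [kap, Matrix.det_apply']
  refine analyticAt_const.mul ?_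
  refine Finset.analyticAt_fun_sum _ fun σ _ => ?_
  refine analyticAt_const.mul ?_
  refine Finset.analyticAt_fun_prod _ fun a _ => ?_
  exact h1 _ _

end Pool.Agent.TN
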