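import Pool.Agent.TN.HitC

/-!
# TN Rare: the hits have density zero

Let `e` be the basis of `Dir`, `K = {y | ∃ F ∈ G v y, Hit (F 0)}`.  It is `Λ`-periodic (`G_lat`) and closed (`exists_limit_of`, `hit_of_kap`).  `K' = {y | ∃ s : ℂ, ‖s‖ ≤ 1 ∧ y + s v ∈ K}` has the same properties, and for every `y` the
set `{t ∈ ℝ^k | y + ∑ t_j e_j ∈ K'}` is a null set (`null_hits`).

(1) For every `δ > 0` there is `ε > 0` with: for all `y` the volume of `{t ∈ [0,1]^k | infDist (y + ∑ t_j e_j) K' < ε}` is `< δ`.  For one `y` the volume of `{t | infDist ≤ ε}` tends to the volume of `{t | y + t e ∈ K'} = 0` (`K'` closed; if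
`K'` is empty there is nothing to do); `infDist` is `1`-Lipschitz and `Λ`-periodic, so compactness (`S.cpt`) gives one `ε` for all `y`.
(2) With `ε` and a fine grid `T ⊆ [0,1]^k` (the points with coordinates `i / M`, `0 ≤ i < M`, `k ‖e‖ / M < ε / 2`): `#{t ∈ T | infDist (y + t e) K' < ε / 2} ≤ δ #T` (the cells `t + [0, 1/M]^k` are disjoint and contained in the set of (1)).
(For `k = 0`: `T` has one point, and `K'` is empty, because `null_hits` says that a subset of a one point space has volume `0`.)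
(3) For `t ∈ T` choose `z_t`, `l_t ∈ Λ` with `‖z_t v + l_t - t e‖ < ε / 2` (`reach_sum`).  For `b` let `𝒯 = {z | b + z v ∈ K'}` (closed).  For every `z`: if `z + z_t ∈ 𝒯` then `infDist (b + z v + t e) K' < ε / 2`; so
`#{t ∈ T | z + z_t ∈ 𝒯} ≤ δ #T`, and by integration over `ball z₀ (R + M')`, `M' = max ‖z_t‖`: `area (𝒯 ∩ ball z₀ R) ≤ δ π (R + M')²`.
(4) As in `TH/Rare.lean`: every hit `z ∈ closedBall z₀ R` of `F ∈ G v b` has `closedBall z 1 ⊆ 𝒯`, and every point is in at most `n₀` of the discs `ball z s` (`exists_count`): `card H π s² ≤ n₀ area (𝒯 ∩ ball z₀ (R + 2)) ≤ n₀ δ π (R + 2 + M')²`.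
-/

set_option autoImplicit false

open Topology Filter Metric

namespace Pool.Agent.TN

open Pool.Agent.H36.BP (EN fs wd Sub)
open Pool.Agent.H14.PP (IsCone CurveAt Tan)
open Pool.Agent.H62.EF (MN pr)
open Pool.Agent.H5.BD (BC evp)
open Pool.Agent.AD (Vd Chart Charts TorusMapV DiscreteSub)
open Pool.Agent.AD.BD (Atlas LC Good qc)

variable {N k : ℕ} {X : Set (EN N)}

/-- the measures of sets which cover every point at most `m` times -/
theorem rare_mult {α ι : Type*} [MeasurableSpace α] (μ : MeasureTheory.Measure α) (s : Finset ι) (E : ι → Set α) (hE : ∀ i ∈ s, MeasurableSet (E i)) {B : Set α}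
    (hB : MeasurableSet B) (m : ENNReal) (hsub : ∀ i ∈ s, E i ⊆ B) (hm : ∀ x ∈ B, ∑ i ∈ s, (E i).indicator (fun _ => (1 : ENNReal)) x ≤ m) :
    ∑ i ∈ s, μ (E i) ≤ m * μ B := by
  calc ∑ i ∈ s, μ (E i) = ∑ i ∈ s, ∫⁻ x, (E i).indicator (fun _ => (1 : ENNReal)) x ∂μ :=
        Finset.sum_congr rfl fun i hi => by rw [MeasureTheory.lintegral_indicator (hE i hi)]; simp
    _ = ∫⁻ x, ∑ i ∈ s, (E i).indicator (fun _ => (1 : ENNReal)) x ∂μ :=
        (MeasureTheory.lintegral_finsetSum' s fun i hi => (measurable_const.indicator (hE i hi)).aemeasurable).symm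
    _ ≤ ∫⁻ x, B.indicator (fun _ => m) x ∂μ := by
        refine MeasureTheory.lintegral_mono fun x => ?_
        by_cases hx : x ∈ B
        · rw [Set.indicator_of_mem hx]; exact hm x hx
        · rw [Set.indicator_of_notMem hx]
          refine le_of_eq (Finset.sum_eq_zero fun i hi => ?_)
          rw [Set.indicator_of_notMem fun h => hx (hsub i hi h)]
    _ = m * μ B := by rw [MeasureTheory.lintegral_indicator hB, MeasureTheory.lintegral_const, MeasureTheory.Measure.restrict_apply_univ]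

/-- the parameters in the unit cube with `y + t e` close to `K` -/
def rareA {V : Type*} [NormedAddCommGroup V] [NormedSpace ℂ V] (K : Set V) (e : Fin k → V) (ε : ℝ) (y : V) : Set (Fin k → ℝ) :=
  {t | t ∈ Set.Icc (0 : Fin k → ℝ) 1 ∧ y + ∑ j, (t j : ℂ) • e j ∈ thickening ε K}

/-- the points of the grid -/
noncomputable def tg (M : ℕ) (i : Fin k → Fin M) (j : Fin k) : ℝ := ((i j : ℕ) : ℝ) / M

theorem rare_meas {V : Type*} [NormedAddCommGroup V] [NormedSpace ℂ V] (K : Set V) (e : Fin k → V) (ε : ℝ) (y : V) : MeasurableSet (rareA K e ε y) := by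
  have h1 : Continuous fun t : Fin k → ℝ => y + ∑ j, (t j : ℂ) • e j := by fun_prop
  exact measurableSet_Icc.inter (isOpen_thickening.preimage h1).measurableSet

theorem rare_unif {V : Type*} [NormedAddCommGroup V] [NormedSpace ℂ V] [ProperSpace V] {K : Set V} (hK : IsClosed K) (e : Fin k → V)
    (hn : ∀ y, MeasureTheory.volume {t : Fin k → ℝ | y + ∑ j, (t j : ℂ) • e j ∈ K} = 0) {Λ : AddSubgroup V} (hl : ∀ y, ∀ l ∈ Λ, y + l ∈ K → y ∈ K)
    {C : ℝ} (hC : ∀ b : V, ∃ l ∈ Λ, ‖b - l‖ ≤ C) {δ : ℝ} (hδ : 0 < δ) :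
    ∃ ε : ℝ, 0 < ε ∧ ∀ y, MeasureTheory.volume (rareA K e ε y) < ENNReal.ofReal δ := by
  have hmono : ∀ (ε ε' : ℝ) (y y' : V), ε + dist y y' ≤ ε' → rareA K e ε y ⊆ rareA K e ε' y' := by
    rintro ε ε' y y' h t ⟨ht, ht'⟩
    refine ⟨ht, ?_⟩
    rw [mem_thickening_iff] at ht' ⊢
    obtain ⟨x, hx, hd⟩ := ht'
    refine ⟨x, hx, ?_⟩
    have h1 := dist_triangle (y' + ∑ j, (t j : ℂ) • e j) (y + ∑ j, (t j : ℂ) • e j) x
    have h2 : dist (y' + ∑ j, (t j : ℂ) • e j) (y + ∑ j, (t j : ℂ) • e j) = dist y y' := by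
      rw [dist_add_right, dist_comm]
    linarith
  have hloc : ∀ y : V, ∃ ε : ℝ, 0 < ε ∧ ∀ y' ∈ ball y ε, MeasureTheory.volume (rareA K e ε y') < ENNReal.ofReal δ := by
    intro y
    have hB : Tendsto (MeasureTheory.volume ∘ fun n : ℕ => rareA K e (1 / ((n : ℝ) + 1)) y) atTop
        (𝓝 (MeasureTheory.volume (⋂ n : ℕ, rareA K e (1 / ((n : ℝ) + 1)) y))) := by
      refine MeasureTheory.tendsto_measure_iInter_atTop (fun n => (rare_meas K e _ y).nullMeasurableSet) ?_ ⟨0, ?_⟩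
      · intro a b hab
        refine hmono _ _ _ _ ?_
        rw [dist_self, add_zero]
        exact one_div_le_one_div_of_le (by positivity) (by exact_mod_cast Nat.succ_le_succ hab)
      · exact ((MeasureTheory.measure_mono fun t ht => ht.1).trans_lt measure_Icc_lt_top).ne
    have h0 : MeasureTheory.volume (⋂ n : ℕ, rareA K e (1 / ((n : ℝ) + 1)) y) = 0 := by
      refine MeasureTheory.measure_mono_null (fun t ht => ?_) (hn y)
      rw [Set.mem_iInter] at ht
      have h1 : y + ∑ j, (t j : ℂ) • e j ∈ closure K := by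
        rw [Metric.mem_closure_iff]
        intro ε hε
        obtain ⟨n, hn'⟩ := exists_nat_one_div_lt hε
        have h2 := (ht n).2
        rw [mem_thickening_iff] at h2
        obtain ⟨x, hx, hd⟩ := h2
        exact ⟨x, hx, hd.trans hn'⟩
      rwa [hK.closure_eq] at h1
    rw [h0] at hB
    obtain ⟨n, hn'⟩ := (hB.eventually (gt_mem_nhds (ENNReal.ofReal_pos.mpr hδ))).exists
    refine ⟨1 / ((n : ℝ) + 1) / 2, by positivity, fun y' hy' => lt_of_le_of_lt (MeasureTheory.measure_mono (hmono _ _ _ _ ?_)) hn'⟩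
    have := mem_ball.mp hy'
    linarith
  have hcpt : ∃ ε : ℝ, 0 < ε ∧ ∀ y ∈ closedBall (0 : V) C, MeasureTheory.volume (rareA K e ε y) < ENNReal.ofReal δ := by
    refine (isCompact_closedBall (0 : V) C).induction_on (p := fun s => ∃ ε : ℝ, 0 < ε ∧ ∀ y ∈ s, MeasureTheory.volume (rareA K e ε y) < ENNReal.ofReal δ) ?_ ?_ ?_ ?_
    · exact ⟨1, one_pos, by simp⟩
    · rintro s t hst ⟨ε, hε, h⟩
      exact ⟨ε, hε, fun y hy => h y (hst hy)⟩
    · rintro s t ⟨ε, hε, h⟩ ⟨ε', hε', h'⟩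
      refine ⟨min ε ε', lt_min hε hε', fun y hy => ?_⟩
      rcases hy with hy | hy
      · refine (MeasureTheory.measure_mono (hmono _ _ _ _ ?_)).trans_lt (h y hy)
        rw [dist_self, add_zero]; exact min_le_left _ _
      · refine (MeasureTheory.measure_mono (hmono _ _ _ _ ?_)).trans_lt (h' y hy)
        rw [dist_self, add_zero]; exact min_le_right _ _
    · intro y _
      obtain ⟨ε, hε, h⟩ := hloc y
      exact ⟨ball y ε, mem_nhdsWithin_of_mem_nhds (ball_mem_nhds y hε), ε, hε, h⟩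
  obtain ⟨ε, hε, h⟩ := hcpt
  refine ⟨ε, hε, fun y => ?_⟩
  obtain ⟨l, hlΛ, hlC⟩ := hC y
  refine (MeasureTheory.measure_mono ?_).trans_lt (h (y - l) (by rw [mem_closedBall_zero_iff]; exact hlC))
  rintro t ⟨ht, ht'⟩
  refine ⟨ht, ?_⟩
  rw [mem_thickening_iff] at ht' ⊢
  obtain ⟨x, hx, hd⟩ := ht'
  refine ⟨x - l, hl _ l hlΛ (by rwa [sub_add_cancel]), ?_⟩
  have h1 : y - l + ∑ j, (t j : ℂ) • e j = y + ∑ j, (t j : ℂ) • e j - l := by abel
  rw [h1, dist_sub_right]
  exact hd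

open Classical in
theorem rare_grid {V : Type*} [NormedAddCommGroup V] [NormedSpace ℂ V] (e : Fin k → V) {ε : ℝ} (hε : 0 < ε) :
    ∃ M : ℕ, 0 < M ∧ ∀ (K : Set V) (y : V) (δ : ℝ), 0 ≤ δ → MeasureTheory.volume (rareA K e ε y) < ENNReal.ofReal δ →
      (((Finset.univ.filter fun i : Fin k → Fin M => y + ∑ j, (tg M i j : ℂ) • e j ∈ thickening (ε / 2) K).card : ℕ) : ℝ) ≤ δ * M ^ k := by
  obtain ⟨M, hM⟩ := exists_nat_gt ((∑ j, ‖e j‖) / (ε / 2))
  have hs : 0 ≤ ∑ j, ‖e j‖ := Finset.sum_nonneg fun j _ => norm_nonneg _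
  have hM0 : (0 : ℝ) < M := (div_nonneg hs (by positivity)).trans_lt hM
  have hMn : 0 < M := by exact_mod_cast hM0
  have hM1 : (1 / M : ℝ) * ∑ j, ‖e j‖ < ε / 2 := by
    rw [div_lt_iff₀ (by positivity)] at hM
    rw [one_div, inv_mul_lt_iff₀ hM0]
    exact hM
  refine ⟨M, hMn, fun K y δ hδ hA => ?_⟩
  set s := Finset.univ.filter fun i : Fin k → Fin M => y + ∑ j, (tg M i j : ℂ) • e j ∈ thickening (ε / 2) K with hsdef
  let c : (Fin k → Fin M) → Set (Fin k → ℝ) := fun i => Set.univ.pi fun j => Set.Ico (tg M i j) (tg M i j + 1 / M)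
  have hc1 : ∀ i, MeasurableSet (c i) := fun i => MeasurableSet.univ_pi fun j => measurableSet_Ico
  have hc2 : ∀ i, MeasureTheory.volume (c i) = ENNReal.ofReal (1 / M) ^ k := by
    intro i
    simp only [c]
    rw [Real.volume_pi_Ico]
    simp
  have hc3 : ∀ i ∈ s, c i ⊆ rareA K e ε y := by
    intro i hi t ht
    have ht' : ∀ j, tg M i j ≤ t j ∧ t j < tg M i j + 1 / M := fun j => ht j (Set.mem_univ j)
    have htg : ∀ j, 0 ≤ tg M i j ∧ tg M i j + 1 / M ≤ 1 := by
      intro j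
      refine ⟨by unfold tg; positivity, ?_⟩
      unfold tg
      rw [← add_div, div_le_one hM0]
      exact_mod_cast (i j).isLt
    refine ⟨⟨fun j => (htg j).1.trans (ht' j).1, fun j => (ht' j).2.le.trans (htg j).2⟩, ?_⟩
    have hi' := (Finset.mem_filter.mp hi).2
    rw [mem_thickening_iff] at hi' ⊢
    obtain ⟨x, hx, hd⟩ := hi'
    refine ⟨x, hx, ?_⟩
    have h1 : dist (y + ∑ j, (t j : ℂ) • e j) (y + ∑ j, (tg M i j : ℂ) • e j) < ε / 2 := by
      rw [dist_add_left, dist_eq_norm, ← Finset.sum_sub_distrib]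
      refine (norm_sum_le _ _).trans_lt (lt_of_le_of_lt ?_ hM1)
      rw [Finset.mul_sum]
      refine Finset.sum_le_sum fun j _ => ?_
      rw [← sub_smul, norm_smul, ← Complex.ofReal_sub, Complex.norm_real, Real.norm_eq_abs]
      refine mul_le_mul_of_nonneg_right ?_ (norm_nonneg _)
      rw [abs_of_nonneg (by linarith [(ht' j).1])]
      linarith [(ht' j).2]
    have h2 := dist_triangle (y + ∑ j, (t j : ℂ) • e j) (y + ∑ j, (tg M i j : ℂ) • e j) x
    linarith
  have hdis : Set.PairwiseDisjoint (s : Set (Fin k → Fin M)) c := by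
    intro i _ i' _ hne
    rw [Function.onFun, Set.disjoint_left]
    intro t ht ht'
    apply hne
    ext j
    have h1 : tg M i j ≤ t j ∧ t j < tg M i j + 1 / M := ht j (Set.mem_univ j)
    have h2 : tg M i' j ≤ t j ∧ t j < tg M i' j + 1 / M := ht' j (Set.mem_univ j)
    unfold tg at h1 h2
    have h3 : ((i j : ℕ) : ℝ) < (i' j : ℕ) + 1 := by
      have := h1.1.trans_lt h2.2
      rw [← add_div] at this
      exact (div_lt_div_iff_of_pos_right hM0).mp this
    have h4 : ((i' j : ℕ) : ℝ) < (i j : ℕ) + 1 := by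
      have := h2.1.trans_lt h1.2
      rw [← add_div] at this
      exact (div_lt_div_iff_of_pos_right hM0).mp this
    have h5 : (i j : ℕ) < (i' j : ℕ) + 1 := by exact_mod_cast h3
    have h6 : (i' j : ℕ) < (i j : ℕ) + 1 := by exact_mod_cast h4
    omega
  have hsum : (s.card : ENNReal) * ENNReal.ofReal (1 / M) ^ k < ENNReal.ofReal δ := by
    calc (s.card : ENNReal) * ENNReal.ofReal (1 / M) ^ k = ∑ i ∈ s, MeasureTheory.volume (c i) := by
          rw [Finset.sum_congr rfl fun i _ => hc2 i, Finset.sum_const, nsmul_eq_mul]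
      _ = MeasureTheory.volume (⋃ i ∈ s, c i) := (MeasureTheory.measure_biUnion_finset hdis fun i _ => hc1 i).symm
      _ ≤ MeasureTheory.volume (rareA K e ε y) := MeasureTheory.measure_mono (Set.iUnion₂_subset hc3)
      _ < ENNReal.ofReal δ := hA
  have h3 : ENNReal.ofReal ((s.card : ℝ) * (1 / M) ^ k) < ENNReal.ofReal δ := by
    rw [ENNReal.ofReal_mul (by positivity), ENNReal.ofReal_natCast, ENNReal.ofReal_pow (by positivity)]
    exact hsum
  have h4 : (s.card : ℝ) * (1 / M) ^ k < δ := (ENNReal.ofReal_lt_ofReal_iff_of_nonneg (by positivity)).mp h3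
  rw [one_div, inv_pow, ← div_eq_mul_inv, div_lt_iff₀ (by positivity)] at h4
  exact h4.le

/-- limits of hits are hits -/
theorem Setting.rare_limit (S : Setting k X) {v : Vd (k + 1)} (hv : v ≠ 0) (𝒰 : Ultrafilter ℕ) (b : ℕ → Vd (k + 1)) (b₁ : Vd (k + 1)) (hb : Tendsto b 𝒰 (𝓝 b₁))
    (F : ℕ → ℂ → EN N) (hF : ∀ n, F n ∈ S.G v (b n)) (hh : ∀ n, S.Hit (F n 0)) : ∃ H ∈ S.G v b₁, S.Hit (H 0) := by
  obtain ⟨H, hH, hc⟩ := S.exists_limit_of hv 𝒰 b b₁ hb F (Eventually.of_forall hF)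
  refine ⟨H, hH, ?_⟩
  have hg := S.good_ix (hH.2.1 0)
  obtain ⟨r, hr, hU, -, hT⟩ := hc.chart 0 _ hg
  rw [← S.hit_of_kap (hH.2.1 0) hg.2.1]
  have h1 : Tendsto (fun n => S.q (S.ix (H 0)) (F n 0)) 𝒰 (𝓝 (S.q (S.ix (H 0)) (H 0))) := hT.tendsto_at (mem_ball_self hr)
  have h2 : S.q (S.ix (H 0)) (H 0) ∈ ball (0 : Vd (k + 2)) 2 := by
    rw [mem_ball_zero_iff]
    exact lt_of_le_of_lt hg.2.2 (by norm_num)
  have h3 := (S.kap_an (S.ix (H 0)) h2).continuousAt.tendsto.comp h1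
  have h4 : ∀ᶠ n in (𝒰 : Filter ℕ), (S.kap (S.ix (H 0)) ∘ fun n => S.q (S.ix (H 0)) (F n 0)) n = 0 := by
    filter_upwards [hU] with n hn
    exact (S.hit_of_kap ((hF n).2.1 0) (hn 0 (mem_ball_self hr))).mpr (hh n)
  exact tendsto_nhds_unique (h3.congr' h4) tendsto_const_nhds

/-- the base points with a hit nearby -/
def Setting.nearHit (S : Setting k X) (v : Vd (k + 1)) : Set (Vd (k + 1)) := {y | ∃ a : ℂ, ‖a‖ ≤ 1 ∧ ∃ F ∈ S.G v (y + a • v), S.Hit (F 0)}

theorem Setting.rare_closed (S : Setting k X) {v : Vd (k + 1)} (hv : v ≠ 0) : IsClosed (S.nearHit v) := by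
  rw [← isSeqClosed_iff_isClosed]
  intro y y₀ hy hlim
  choose a ha F hF hh using hy
  let 𝒰 : Ultrafilter ℕ := Filter.hyperfilter ℕ
  have hU : (𝒰 : Filter ℕ) ≤ atTop := by
    rw [← Nat.cofinite_eq_atTop]; exact Filter.hyperfilter_le_cofinite
  obtain ⟨a₀, ha₀, hlim'⟩ := (isCompact_closedBall (0 : ℂ) 1).ultrafilter_le_nhds' (𝒰.map a) (by
    change a ⁻¹' (closedBall (0 : ℂ) 1) ∈ (𝒰 : Filter ℕ)
    exact Filter.univ_mem' fun n => mem_closedBall_zero_iff.mpr (ha n))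
  have hta : Tendsto a 𝒰 (𝓝 a₀) := hlim'
  obtain ⟨H, hH, hhit⟩ := S.rare_limit hv 𝒰 (fun n => y n + a n • v) (y₀ + a₀ • v) ((hlim.mono_left hU).add (hta.smul_const v)) F hF hh
  exact ⟨a₀, mem_closedBall_zero_iff.mp ha₀, H, hH, hhit⟩

theorem Setting.rare (S : Setting k X) {v : Vd (k + 1)} (hD : S.Dir v) {δ : ℝ} (hδ : 0 < δ) : ∃ R₀ : ℝ, 0 < R₀ ∧ ∀ b, ∀ F ∈ S.G v b, ∀ (z₀ : ℂ) (R : ℝ), R₀ ≤ R →
    {z | ‖z - z₀‖ ≤ R ∧ S.Hit (F z)}.Finite ∧ ({z | ‖z - z₀‖ ≤ R ∧ S.Hit (F z)}.ncard : ℝ) ≤ δ * R ^ 2 := by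
  classical
  obtain ⟨e, hLI, hre⟩ := hD.basis
  obtain ⟨s, n₀, hs, hs1, hcount⟩ := S.exists_count hD
  obtain ⟨C, hC⟩ := S.cpt
  have hKc : IsClosed (S.nearHit v) := S.rare_closed hD.ne
  have hKl : ∀ y, ∀ l ∈ S.Λ, y + l ∈ S.nearHit v → y ∈ S.nearHit v := by
    rintro y l hl ⟨a, ha, F, hF, hh⟩
    refine ⟨a, ha, F, ?_, hh⟩
    rw [add_right_comm, S.G_lat v _ hl] at hF
    exact hF
  have hn : ∀ y, MeasureTheory.volume {t : Fin k → ℝ | y + ∑ j, (t j : ℂ) • e j ∈ S.nearHit v} = 0 := by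
    intro y
    refine MeasureTheory.measure_mono_null ?_ (S.null_hits hLI y)
    rintro t ⟨a, -, F, hF, hh⟩
    refine ⟨a, F, ?_, hh⟩
    have : y + co v e a (fun j => (t j : ℂ)) = y + ∑ j, (t j : ℂ) • e j + a • v := by
      unfold co; abel
    rw [this]; exact hF
  set δ' : ℝ := δ * s ^ 2 / (4 * n₀ + 1) with hδ'
  have hδ'0 : 0 < δ' := by positivity
  obtain ⟨ε, hε, hA⟩ := rare_unif hKc e hn hKl hC hδ'0
  obtain ⟨M, hM, hgrid⟩ := rare_grid e hε
  have hr : ∀ i : Fin k → Fin M, ∃ z : ℂ, ∃ l ∈ S.Λ, ‖z • v + l - ∑ j, (tg M i j : ℂ) • e j‖ < ε / 2 := by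
    intro i
    obtain ⟨z, l, hl, h⟩ := S.reach_sum hre (tg M i) 1 (ε / 2) (by positivity)
    rw [Complex.ofReal_one, one_smul] at h
    exact ⟨z, l, hl, h⟩
  choose z l hl hzl using hr
  have hM' : 0 ≤ ∑ i, ‖z i‖ := Finset.sum_nonneg fun i _ => norm_nonneg _
  set M' := ∑ i, ‖z i‖ with hM'def
  have hzM : ∀ i, ‖z i‖ ≤ M' := fun i => Finset.single_le_sum (f := fun i => ‖z i‖) (fun i _ => norm_nonneg _) (Finset.mem_univ i)
  refine ⟨M' + 2, by positivity, fun b F hF z₀ R hR => ?_⟩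
  have hfin : {z | ‖z - z₀‖ ≤ R ∧ S.Hit (F z)}.Finite := by
    obtain ⟨t, -, htf, htc⟩ := (isCompact_closedBall z₀ R).finite_cover_balls hs
    refine (htf.biUnion fun x _ => (hcount b F hF x).1).subset ?_
    rintro w ⟨hw, hw'⟩
    have h1 := htc (show w ∈ closedBall z₀ R by rw [mem_closedBall, dist_eq_norm]; exact hw)
    rw [Set.mem_iUnion₂] at h1 ⊢
    obtain ⟨x, hx, hwx⟩ := h1
    refine ⟨x, hx, ?_, hw'⟩
    rw [mem_ball, dist_eq_norm] at hwx
    exact hwx.le
  refine ⟨hfin, ?_⟩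
  rw [Set.ncard_eq_toFinset_card _ hfin]
  set H := hfin.toFinset with hHdef
  have hH : ∀ w, w ∈ H ↔ ‖w - z₀‖ ≤ R ∧ S.Hit (F w) := fun w => by rw [hHdef, Set.Finite.mem_toFinset]; rfl
  set Tc : Set ℂ := {w | b + w • v ∈ S.nearHit v} with hTc
  have hTm : MeasurableSet Tc := by
    have h1 : Continuous fun w : ℂ => b + w • v := by fun_prop
    exact (hKc.preimage h1).measurableSet
  -- the hits and the area
  have hstepA : ∑ w ∈ H, MeasureTheory.volume (ball w s) ≤ (n₀ : ENNReal) * MeasureTheory.volume (Tc ∩ ball z₀ (R + 2)) := by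
    refine rare_mult _ _ _ (fun w _ => measurableSet_ball) (hTm.inter measurableSet_ball) _ (fun w hw x hx => ?_) fun x _ => ?_
    · obtain ⟨hw1, hw2⟩ := (hH w).mp hw
      rw [mem_ball, dist_eq_norm] at hx
      refine ⟨⟨w - x, ?_, fun ζ => F (ζ + w), ?_, ?_⟩, ?_⟩
      · rw [norm_sub_rev]; linarith
      · have h1 := S.G_trans hF w
        have h2 : b + x • v + (w - x) • v = b + w • v := by rw [sub_smul]; abel
        rw [h2]; exact h1
      · simpa using hw2
      · rw [mem_ball, dist_eq_norm]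
        have h1 : x - z₀ = (x - w) + (w - z₀) := by ring
        rw [h1]
        refine (norm_add_le _ _).trans_lt ?_
        linarith
    · have h1 : ∑ w ∈ H, (ball w s).indicator (fun _ => (1 : ENNReal)) x = ((H.filter fun w => x ∈ ball w s).card : ENNReal) := by
        rw [Finset.card_filter]
        push_cast
        refine Finset.sum_congr rfl fun w _ => ?_
        by_cases hx : x ∈ ball w s
        · rw [Set.indicator_of_mem hx, if_pos hx]
        · rw [Set.indicator_of_notMem hx, if_neg hx]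
      rw [h1]
      have h2 : (H.filter fun w => x ∈ ball w s).card ≤ n₀ := by
        refine le_trans ?_ (hcount b F hF x).2
        rw [← Set.ncard_coe_finset]
        refine Set.ncard_le_ncard (fun w hw => ?_) (hcount b F hF x).1
        rw [Finset.mem_coe, Finset.mem_filter, hH] at hw
        refine ⟨?_, hw.1.2⟩
        have := hw.2
        rw [mem_ball, dist_eq_norm, norm_sub_rev] at this
        exact this.le
      exact_mod_cast h2
  -- the area
  have hstepB : ∑ i : Fin k → Fin M, MeasureTheory.volume (ball z₀ (R + 2 + M') ∩ {x | x + z i ∈ Tc}) ≤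
      ENNReal.ofReal (δ' * M ^ k) * MeasureTheory.volume (ball z₀ (R + 2 + M')) := by
    refine rare_mult _ _ _ (fun i _ => measurableSet_ball.inter ?_) measurableSet_ball _ (fun i _ => Set.inter_subset_left) fun x hx => ?_
    · exact (measurable_id.add_const (z i)) hTm
    · have h1 : ∑ i : Fin k → Fin M, (ball z₀ (R + 2 + M') ∩ {x | x + z i ∈ Tc}).indicator (fun _ => (1 : ENNReal)) x =
          ((Finset.univ.filter fun i : Fin k → Fin M => x + z i ∈ Tc).card : ENNReal) := by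
        rw [Finset.card_filter]
        push_cast
        refine Finset.sum_congr rfl fun i _ => ?_
        by_cases hxi : x + z i ∈ Tc
        · rw [Set.indicator_of_mem (show x ∈ ball z₀ (R + 2 + M') ∩ {x | x + z i ∈ Tc} from ⟨hx, hxi⟩), if_pos hxi]
        · rw [Set.indicator_of_notMem (fun h => hxi h.2), if_neg hxi]
      rw [h1]
      have h2 : ((Finset.univ.filter fun i : Fin k → Fin M => x + z i ∈ Tc).card : ℝ) ≤ δ' * M ^ k := by
        refine le_trans ?_ (hgrid (S.nearHit v) (b + x • v) δ' hδ'0.le (hA _))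
        refine Nat.cast_le.mpr (Finset.card_le_card fun i hi => ?_)
        rw [Finset.mem_filter] at hi ⊢
        refine ⟨Finset.mem_univ _, ?_⟩
        rw [mem_thickening_iff]
        refine ⟨b + (x + z i) • v + l i, hKl _ (-(l i)) (S.Λ.neg_mem (hl i)) (by rw [add_neg_cancel_right]; exact hi.2), ?_⟩
        rw [dist_comm, dist_eq_norm]
        have h3 : b + (x + z i) • v + l i - (b + x • v + ∑ j, (tg M i j : ℂ) • e j) = z i • v + l i - ∑ j, (tg M i j : ℂ) • e j := by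
          rw [add_smul]; abel
        rw [h3]; exact hzl i
      rw [← ENNReal.ofReal_natCast]
      exact ENNReal.ofReal_le_ofReal h2
  have hstepC : (M : ENNReal) ^ k * MeasureTheory.volume (Tc ∩ ball z₀ (R + 2)) ≤
      ∑ i : Fin k → Fin M, MeasureTheory.volume (ball z₀ (R + 2 + M') ∩ {x | x + z i ∈ Tc}) := by
    have h1 : ∀ i : Fin k → Fin M, MeasureTheory.volume (Tc ∩ ball z₀ (R + 2)) ≤ MeasureTheory.volume (ball z₀ (R + 2 + M') ∩ {x | x + z i ∈ Tc}) := by
      intro i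
      rw [← MeasureTheory.measure_preimage_add_right MeasureTheory.volume (z i) (Tc ∩ ball z₀ (R + 2))]
      refine MeasureTheory.measure_mono fun x hx => ⟨?_, hx.1⟩
      have h2 := hx.2
      rw [mem_ball, dist_eq_norm] at h2 ⊢
      have h3 : x - z₀ = (x + z i - z₀) - z i := by ring
      rw [h3]
      refine (norm_sub_le _ _).trans_lt ?_
      linarith [hzM i]
    calc (M : ENNReal) ^ k * MeasureTheory.volume (Tc ∩ ball z₀ (R + 2)) = ∑ _i : Fin k → Fin M, MeasureTheory.volume (Tc ∩ ball z₀ (R + 2)) := by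
          rw [Finset.sum_const, Finset.card_univ, Fintype.card_fun, Fintype.card_fin, Fintype.card_fin, nsmul_eq_mul]
          push_cast; rfl
      _ ≤ _ := Finset.sum_le_sum fun i _ => h1 i
  -- real numbers
  have hvol : ∀ (w : ℂ) (r : ℝ), 0 ≤ r → MeasureTheory.volume (ball w r) = ENNReal.ofReal (r ^ 2 * Real.pi) := by
    intro w r hr
    rw [Complex.volume_ball, ENNReal.ofReal_mul (by positivity), ENNReal.ofReal_pow hr]
    congr 1
    rw [← NNReal.coe_real_pi, ENNReal.ofReal_coe_nnreal]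
  have hRpos : 0 ≤ R := by linarith
  have hfinA : MeasureTheory.volume (Tc ∩ ball z₀ (R + 2)) ≠ ⊤ := ((MeasureTheory.measure_mono Set.inter_subset_right).trans_lt MeasureTheory.measure_ball_lt_top).ne
  obtain ⟨A, hA0, hAeq⟩ : ∃ A : ℝ, 0 ≤ A ∧ MeasureTheory.volume (Tc ∩ ball z₀ (R + 2)) = ENNReal.ofReal A :=
    ⟨_, ENNReal.toReal_nonneg, (ENNReal.ofReal_toReal hfinA).symm⟩
  have hMr : (0 : ℝ) < M := by exact_mod_cast hM
  have hA1 : (M : ℝ) ^ k * A ≤ δ' * M ^ k * ((R + 2 + M') ^ 2 * Real.pi) := by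
    have h1 := hstepC.trans hstepB
    rw [hAeq, hvol _ _ (by positivity), ← ENNReal.ofReal_mul (by positivity), ← ENNReal.ofReal_natCast, ← ENNReal.ofReal_pow (by positivity),
      ← ENNReal.ofReal_mul (by positivity)] at h1
    exact (ENNReal.ofReal_le_ofReal_iff (by positivity)).mp h1
  have hA2 : A ≤ δ' * ((R + 2 + M') ^ 2 * Real.pi) := by
    have h1 : (M : ℝ) ^ k * A ≤ (M : ℝ) ^ k * (δ' * ((R + 2 + M') ^ 2 * Real.pi)) := by linarith
    exact le_of_mul_le_mul_left h1 (by positivity)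
  have hA3 : (H.card : ℝ) * (s ^ 2 * Real.pi) ≤ n₀ * A := by
    have h1 := hstepA
    rw [Finset.sum_congr rfl fun w _ => hvol w s hs.le, Finset.sum_const, nsmul_eq_mul, hAeq, ← ENNReal.ofReal_natCast, ← ENNReal.ofReal_natCast,
      ← ENNReal.ofReal_mul (by positivity), ← ENNReal.ofReal_mul (by positivity)] at h1
    exact (ENNReal.ofReal_le_ofReal_iff (by positivity)).mp h1
  have hpi := Real.pi_pos
  have hn0 : (0 : ℝ) ≤ n₀ := by positivity
  have h4 : (R + 2 + M') ^ 2 ≤ 4 * R ^ 2 := by nlinarith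
  have h5 : (H.card : ℝ) * (s ^ 2 * Real.pi) ≤ n₀ * (δ' * (4 * R ^ 2 * Real.pi)) := by
    refine hA3.trans (mul_le_mul_of_nonneg_left (hA2.trans (mul_le_mul_of_nonneg_left (mul_le_mul_of_nonneg_right h4 hpi.le) hδ'0.le)) hn0)
  have h6 : n₀ * (δ' * (4 * R ^ 2 * Real.pi)) ≤ (δ * R ^ 2) * (s ^ 2 * Real.pi) := by
    have h7 : 4 * (n₀ : ℝ) * δ' ≤ δ * s ^ 2 := by
      rw [hδ', mul_div_assoc', div_le_iff₀ (by positivity)]
      nlinarith [mul_pos hδ (pow_pos hs 2)]
    calc n₀ * (δ' * (4 * R ^ 2 * Real.pi)) = (4 * n₀ * δ') * (R ^ 2 * Real.pi) := by ring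
      _ ≤ (δ * s ^ 2) * (R ^ 2 * Real.pi) := mul_le_mul_of_nonneg_right h7 (by positivity)
      _ = _ := by ring
  exact le_of_mul_le_mul_right (h5.trans h6) (by positivity)

end Pool.Agent.TN
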