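import Pool.Agent.TN.Quo
import Pool.Agent.TN.Rare
import Pool.Agent.H36.BP.MaxP
import Pool.Agent.H36.BP.SubB

/-!
# TN Liou: Liouville's theorem for vertical fields

`max_ball`: `P z exp (-κ'' ‖z‖²)` has a maximum on `closedBall 0 R₁`; if it is attained at an interior point with `P > 0` then it has `Sub _ z₀ (κ₁ - κ'')` there (`Sub.mul`, and `Sub.exp_sq` with `t z = z`),
contradiction to `Sub.not_isLocalMax`; so it is at most the value on the boundary.  (`TH/Liou.lean` has the version on `ℂ`.)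

`exists_E`: let `H` be the finite set of the hits in `closedBall 0 R`, `0 ∉ H`, `E z = ∏_{t ∈ H} (z - t) / (2 R)`; `‖E z‖ ≤ 1` for `‖z‖ ≤ R`.  Lower bound of `‖E 0‖` for `R = 2^j R₀` (`R₀` of `rare` for `δ`): let
`N(ρ)` be the number of the hits in `closedBall 0 ρ`, `R_j = 2^j R₀`, `L_j = ∑_{t ∈ H, ‖t‖ ≤ R_j} log (R_j / ‖t‖) ≥ 0`; then `L_{j+1} ≤ L_j + log 2 (N(R_j) + N(R_{j+1})) ≤ L_j + log 2 δ (R_j² + R_{j+1}²)`, so
`L_j ≤ L_0 + 2 log 2 δ R_j²` and `log (1 / ‖E 0‖) = L_j + log 2 N(R_j) ≤ L_0 + 3 log 2 δ R_j²`.  (One can also do the induction directly with the products.)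

`liouville`: `κ = κ₁ / (16 m)`, `κ'' = κ₁ / 2`, `δ` with `3 log 2 m N₀ δ ≤ κ₁ / 8`.  Let `F ∈ G v b`, `‖ξ z‖ ≤ C exp (κ ‖z‖²)`.  By translation (`G_trans`, also of the field; `exp (κ ‖z + a‖²) ≤ exp (2 κ ‖z‖² + 2 κ ‖a‖²)`)
and continuity (`hit_iso`: the points which are not hits are dense; `ξ z = 0` iff `h z = 0` for the `h` of `Field.hol`, which is continuous) it is enough to show `ξ 0 = 0` if `F 0` is not a hit.  Let `P` be the function of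
`exists_P` for `E` (with the hits in `closedBall 0 R_j`) and `R = R_j`.  For `‖z‖ = R - 2`: `P z ≤ C₁ (C exp (2 κ R²))^m`, so by `max_ball` `P 0 ≤ C₁ (C exp (2 κ R²))^m exp (-κ'' (R - 2)²)`, and `(‖E 0‖^N₀ ‖ξ 0‖)^m ≤ C₁ P 0`: for
`j → ∞` this gives `ξ 0 = 0`.
-/

set_option autoImplicit false

open Topology Filter Metric

namespace Pool.Agent.TN

open Pool.Agent.H36.BP (EN fs wd Sub)
open Pool.Agent.H14.PP (IsCone CurveAt Tan)
open Pool.Agent.H62.EF (MN pr)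
open Pool.Agent.H5.BD (BC evp)
open Pool.Agent.AD (Vd Chart Charts TorusMapV DiscreteSub)
open Pool.Agent.AD.BD (Atlas LC Good qc)

variable {N k : ℕ} {X : Set (EN N)}

theorem max_ball {P : ℂ → ℝ} {κ₁ κ' R R₁ M : ℝ} (h0 : ∀ z, 0 ≤ P z) (hc : ContinuousOn P (ball 0 R)) (hs : ∀ z ∈ ball (0 : ℂ) R, 0 < P z → Sub P z κ₁) (hκ : κ' < κ₁)
    (hR₁ : 0 ≤ R₁) (hR : R₁ < R) (hM : ∀ z : ℂ, ‖z‖ = R₁ → P z ≤ M) (z : ℂ) (hz : ‖z‖ ≤ R₁) : P z ≤ M * Real.exp (κ' * (‖z‖ ^ 2 - R₁ ^ 2)) := by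
  have hM0 : 0 ≤ M := (h0 (R₁ : ℂ)).trans (hM _ (by rw [Complex.norm_real, Real.norm_of_nonneg hR₁]))
  have hcb : closedBall (0 : ℂ) R₁ ⊆ ball 0 R := closedBall_subset_ball hR
  have hQc : ContinuousOn (fun z : ℂ => P z * Real.exp (-κ' * ‖z‖ ^ 2)) (closedBall 0 R₁) :=
    (hc.mono hcb).mul (Real.continuous_exp.comp (continuous_const.mul (continuous_norm.pow 2))).continuousOn
  have hsub : ∀ z ∈ ball (0 : ℂ) R₁, 0 < P z * Real.exp (-κ' * ‖z‖ ^ 2) → ∃ c, 0 < c ∧ Sub (fun z : ℂ => P z * Real.exp (-κ' * ‖z‖ ^ 2)) z c := by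
    intro z₀ hz₀ hp
    have hP0 : 0 < P z₀ := pos_of_mul_pos_left hp (Real.exp_pos _).le
    have hS := (hs z₀ (hcb (ball_subset_closedBall hz₀)) hP0).mul (Pool.Agent.H36.BP.Sub.exp_sq (t := fun z => z) (z₀ := z₀) analyticAt_id (-κ'))
    refine ⟨_, ?_, hS⟩
    have hd : deriv (fun z : ℂ => z) z₀ = 1 := deriv_id z₀
    rw [hd, norm_one]
    linarith
  have hmax := Pool.Agent.H36.BP.max_principle (isCompact_closedBall (0 : ℂ) R₁) isOpen_ball ball_subset_closedBall (u := fun z : ℂ => P z * Real.exp (-κ' * ‖z‖ ^ 2))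
    hQc.upperSemicontinuousOn hsub (A := M * Real.exp (-κ' * R₁ ^ 2)) (mul_nonneg hM0 (Real.exp_pos _).le) (by
      rintro w ⟨hw, hw'⟩
      rw [mem_closedBall_zero_iff] at hw
      rw [mem_ball_zero_iff, not_lt] at hw'
      have hwe : ‖w‖ = R₁ := le_antisymm hw hw'
      change P w * Real.exp (-κ' * ‖w‖ ^ 2) ≤ _
      rw [hwe]
      exact mul_le_mul_of_nonneg_right (hM w hwe) (Real.exp_pos _).le) z (mem_closedBall_zero_iff.mpr hz)
  have h1 : P z = P z * Real.exp (-κ' * ‖z‖ ^ 2) * Real.exp (κ' * ‖z‖ ^ 2) := by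
    rw [mul_assoc, ← Real.exp_add, show -κ' * ‖z‖ ^ 2 + κ' * ‖z‖ ^ 2 = 0 by ring, Real.exp_zero, mul_one]
  have h2 : M * Real.exp (κ' * (‖z‖ ^ 2 - R₁ ^ 2)) = M * Real.exp (-κ' * R₁ ^ 2) * Real.exp (κ' * ‖z‖ ^ 2) := by
    rw [mul_assoc, ← Real.exp_add]
    congr 2
    ring
  rw [h1, h2]
  exact mul_le_mul_of_nonneg_right hmax (Real.exp_pos _).le

open Classical in
/-- the products over the points of a discrete set in the discs of radius `2 ^ j * R₀` -/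
theorem Liou_prod {A : Set ℂ} {δ R₀ : ℝ} (hR₀ : 0 < R₀) (h0 : (0 : ℂ) ∉ A)
    (hA : ∀ R, R₀ ≤ R → {z | ‖z‖ ≤ R ∧ z ∈ A}.Finite ∧ ({z | ‖z‖ ≤ R ∧ z ∈ A}.ncard : ℝ) ≤ δ * R ^ 2) :
    ∃ c : ℝ, 0 < c ∧ ∀ j : ℕ, ∃ E : ℂ → ℂ, Differentiable ℂ E ∧ (∀ z ∈ A, ‖z‖ ≤ 2 ^ j * R₀ → E z = 0) ∧ (∀ z, ‖z‖ ≤ 2 ^ j * R₀ → ‖E z‖ ≤ 1) ∧
      c * Real.exp (-(3 * (δ * (2 ^ j * R₀) ^ 2))) ≤ ‖E 0‖ := by
  have hR : ∀ j : ℕ, R₀ ≤ 2 ^ j * R₀ := fun j => le_mul_of_one_le_left hR₀.le (one_le_pow₀ (by norm_num))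
  have hRp : ∀ j : ℕ, (0 : ℝ) < 2 ^ j * R₀ := fun j => by positivity
  obtain ⟨H, hH⟩ : ∃ H : ℕ → Finset ℂ, ∀ j, H j = (hA (2 ^ j * R₀) (hR j)).1.toFinset := ⟨_, fun _ => rfl⟩
  have hmem : ∀ j t, t ∈ H j ↔ ‖t‖ ≤ 2 ^ j * R₀ ∧ t ∈ A := fun j t => by
    rw [hH, Set.Finite.mem_toFinset]
    rfl
  have hcard : ∀ j, ((H j).card : ℝ) ≤ δ * (2 ^ j * R₀) ^ 2 := fun j => by
    rw [hH, ← Set.ncard_eq_toFinset_card _ (hA (2 ^ j * R₀) (hR j)).1]
    exact (hA (2 ^ j * R₀) (hR j)).2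
  have hpos : ∀ j, ∀ t ∈ H j, 0 < ‖t‖ := fun j t ht => norm_pos_iff.mpr fun h => h0 (h ▸ ((hmem j t).mp ht).2)
  have he1 : Real.exp (-1) ≤ 1 / 2 := by
    rw [Real.exp_neg, one_div]
    exact inv_anti₀ (by norm_num) (by have := Real.add_one_le_exp (1 : ℝ); linarith)
  have hep : (0 : ℝ) < Real.exp (-1) := Real.exp_pos _
  have hecard : ∀ n : ℕ, Real.exp (-1) ^ n = Real.exp (-(n : ℝ)) := fun n => by
    rw [← Real.exp_nat_mul]
    congr 1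
    ring
  obtain ⟨a, ha⟩ : ∃ a : ℕ → ℝ, ∀ j, a j = ∏ t ∈ H j, (‖t‖ / (2 ^ j * R₀)) := ⟨_, fun _ => rfl⟩
  have hapos : ∀ j, 0 < a j := fun j => by
    rw [ha]
    exact Finset.prod_pos fun t ht => div_pos (hpos j t ht) (hRp j)
  -- the half of the radius
  have hhalf : ∀ j, a j * Real.exp (-((H j).card : ℝ)) ≤ ∏ t ∈ H j, (‖t‖ / (2 * (2 ^ j * R₀))) := fun j => by
    rw [ha, ← hecard, ← Finset.prod_const, ← Finset.prod_mul_distrib]
    refine Finset.prod_le_prod (fun t ht => ?_) fun t ht => ?_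
    · have := hpos j t ht
      have := hRp j
      positivity
    · have h1 : ‖t‖ / (2 * (2 ^ j * R₀)) = ‖t‖ / (2 ^ j * R₀) * (1 / 2) := by
        field_simp
      rw [h1]
      have := hpos j t ht
      have := hRp j
      exact mul_le_mul_of_nonneg_left he1 (by positivity)
  have hsub : ∀ j, H j ⊆ H (j + 1) := fun j t ht => by
    rw [hmem] at ht ⊢
    refine ⟨ht.1.trans ?_, ht.2⟩
    rw [pow_succ]
    have := hRp j
    nlinarith
  have hstep : ∀ j, a j * Real.exp (-((H (j + 1)).card : ℝ)) ≤ a (j + 1) := fun j => by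
    have h1 : a j = ∏ t ∈ H (j + 1), (if t ∈ H j then ‖t‖ / (2 ^ j * R₀) else 1) := by
      rw [Finset.prod_ite_mem, Finset.inter_eq_right.mpr (hsub j), ha]
    rw [h1, ha (j + 1), ← hecard, ← Finset.prod_const, ← Finset.prod_mul_distrib]
    refine Finset.prod_le_prod (fun t ht => ?_) fun t ht => ?_
    · split_ifs
      · have := hRp j
        positivity
      · positivity
    · have hp := hpos (j + 1) t ht
      have hr := hRp j
      split_ifs with h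
      · have h1 : ‖t‖ / (2 ^ (j + 1) * R₀) = ‖t‖ / (2 ^ j * R₀) * (1 / 2) := by
          rw [pow_succ]
          field_simp
        rw [h1]
        exact mul_le_mul_of_nonneg_left he1 (by positivity)
      · rw [one_mul]
        refine he1.trans ?_
        have h2 : 2 ^ j * R₀ < ‖t‖ := by
          by_contra h3
          exact h ((hmem j t).mpr ⟨not_lt.mp h3, ((hmem _ t).mp ht).2⟩)
        rw [div_le_div_iff₀ (by norm_num) (hRp (j + 1)), pow_succ]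
        linarith
  have hlow : ∀ j, a 0 * Real.exp (-(2 * (δ * (2 ^ j * R₀) ^ 2))) ≤ a j := by
    intro j
    induction j with
    | zero =>
      refine mul_le_of_le_one_right (hapos 0).le (Real.exp_le_one_iff.mpr ?_)
      have h1 := hcard 0
      have h2 : (0 : ℝ) ≤ ((H 0).card : ℝ) := Nat.cast_nonneg _
      linarith
    | succ j ih =>
      refine le_trans ?_ (hstep j)
      refine le_trans ?_ (mul_le_mul_of_nonneg_right ih (Real.exp_pos _).le)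
      rw [mul_assoc, ← Real.exp_add]
      refine mul_le_mul_of_nonneg_left (Real.exp_le_exp.mpr ?_) (hapos 0).le
      have h1 := hcard (j + 1)
      have h2 : (0 : ℝ) ≤ ((H j).card : ℝ) := Nat.cast_nonneg _
      have h3 := hcard j
      have h4 : (2 ^ (j + 1) * R₀) ^ 2 = 4 * (2 ^ j * R₀) ^ 2 := by
        rw [pow_succ]
        ring
      rw [h4] at h1 ⊢
      nlinarith
  refine ⟨a 0, hapos 0, fun j => ⟨fun z => ∏ t ∈ H j, ((z - t) / ((2 * (2 ^ j * R₀) : ℝ) : ℂ)), ?_, ?_, ?_, ?_⟩⟩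
  · fun_prop
  · intro z hz hzR
    refine Finset.prod_eq_zero ((hmem j z).mpr ⟨hzR, hz⟩) ?_
    rw [sub_self, zero_div]
  · intro z hz
    rw [norm_prod]
    refine Finset.prod_le_one (fun t _ => norm_nonneg _) fun t ht => ?_
    have hr := hRp j
    rw [norm_div, Complex.norm_real, Real.norm_of_nonneg (by positivity), div_le_one (by positivity)]
    have h1 := norm_sub_le z t
    have h2 := ((hmem j t).mp ht).1
    linarith
  · rw [norm_prod]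
    have h1 : ∏ t ∈ H j, ‖(0 - t) / ((2 * (2 ^ j * R₀) : ℝ) : ℂ)‖ = ∏ t ∈ H j, (‖t‖ / (2 * (2 ^ j * R₀))) := by
      refine Finset.prod_congr rfl fun t _ => ?_
      have hr := hRp j
      rw [norm_div, Complex.norm_real, Real.norm_of_nonneg (by positivity), zero_sub, norm_neg]
    rw [h1]
    refine le_trans ?_ (hhalf j)
    refine le_trans ?_ (mul_le_mul_of_nonneg_right (hlow j) (Real.exp_pos _).le)
    rw [mul_assoc, ← Real.exp_add]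
    refine mul_le_mul_of_nonneg_left (Real.exp_le_exp.mpr ?_) (hapos 0).le
    have h2 := hcard j
    linarith

theorem Setting.Liou_zero (S : Setting k X) {v : Vd (k + 1)} (hD : S.Dir v) : ∃ κ : ℝ, 0 < κ ∧ ∀ b, ∀ F ∈ S.G v b, ∀ ξ : ℂ → Vd (k + 2), S.Field F ξ → ¬ S.Hit (F 0) →
    (∃ C : ℝ, ∀ z, ‖ξ z‖ ≤ C * Real.exp (κ * ‖z‖ ^ 2)) → ξ 0 = 0 := by
  obtain ⟨κ₁, C₁, N₀, hκ₁, hC₁, hP⟩ := S.exists_P hD
  have hm1 : (1 : ℝ) ≤ (S.m : ℝ) := by exact_mod_cast S.m_pos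
  have hN0 : (0 : ℝ) ≤ (N₀ : ℝ) := Nat.cast_nonneg _
  obtain ⟨δ, hδdef⟩ : ∃ δ : ℝ, δ = κ₁ / (48 * (N₀ * S.m + 1)) := ⟨_, rfl⟩
  have hδ : 0 < δ := by rw [hδdef]; positivity
  obtain ⟨R₀, hR₀, hrare⟩ := S.rare hD hδ
  refine ⟨κ₁ / (8 * S.m), by positivity, ?_⟩
  rintro b F hF ξ hξ hhit ⟨C, hC⟩
  have hC0 : 0 ≤ C := by
    have h1 := (norm_nonneg _).trans (hC 0)
    exact nonneg_of_mul_nonneg_left h1 (Real.exp_pos _)
  obtain ⟨c, hc, hE⟩ := Liou_prod (A := {z | S.Hit (F z)}) (δ := δ) hR₀ hhit (fun R hR => by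
    have h1 := hrare b F hF 0 R hR
    simp only [sub_zero] at h1
    exact h1)
  -- the estimate at the origin
  have hest : ∀ j : ℕ, 2 < 2 ^ j * R₀ → (‖ξ 0‖) ^ S.m ≤
      C₁ * (C₁ * C ^ S.m) / (c ^ N₀) ^ S.m * Real.exp (2 * κ₁) * Real.exp (-(κ₁ / 16) * (2 ^ j * R₀) ^ 2) := by
    intro j hj
    obtain ⟨E, hEd, hEz, hE1, hE0⟩ := hE j
    obtain ⟨R, hR⟩ : ∃ R : ℝ, R = 2 ^ j * R₀ := ⟨_, rfl⟩
    rw [← hR] at hj hEz hE1 hE0 ⊢
    obtain ⟨P, hP0, hPc, hPs, hPu, hPl⟩ := hP b F hF ξ hξ E R hEd fun z hz hh => hEz z hh (mem_ball_zero_iff.mp hz).le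
    have hu : ∀ z : ℂ, ‖z‖ = R - 2 → P z ≤ C₁ * (C * Real.exp (κ₁ / (8 * S.m) * R ^ 2)) ^ S.m := by
      intro z hz
      refine hPu z _ (by rw [hz]; linarith) fun w hw => ?_
      have hw' : ‖w‖ ≤ R := by
        have h1 : ‖w‖ ≤ ‖w - z‖ + ‖z‖ := by
          have := norm_add_le (w - z) z
          rwa [sub_add_cancel] at this
        rw [hz] at h1
        linarith
      have h2 : ‖E w‖ ^ N₀ ≤ 1 := pow_le_one₀ (norm_nonneg _) (hE1 w hw')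
      have h3 : ‖ξ w‖ ≤ C * Real.exp (κ₁ / (8 * S.m) * R ^ 2) := by
        refine (hC w).trans (mul_le_mul_of_nonneg_left (Real.exp_le_exp.mpr ?_) hC0)
        have h4 := norm_nonneg w
        gcongr
      calc ‖E w‖ ^ N₀ * ‖ξ w‖ ≤ 1 * ‖ξ w‖ := mul_le_mul_of_nonneg_right h2 (norm_nonneg _)
        _ = ‖ξ w‖ := one_mul _
        _ ≤ _ := h3
    have h1 := max_ball (κ' := κ₁ / 2) hP0 hPc hPs (by linarith) (R₁ := R - 2) (by linarith) (by linarith) hu 0 (by rw [norm_zero]; linarith)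
    have h2 := hPl 0 (mem_ball_self (by linarith))
    have h3 : (c ^ N₀) ^ S.m * Real.exp (-(κ₁ / 16) * R ^ 2) * ‖ξ 0‖ ^ S.m ≤ (‖E 0‖ ^ N₀ * ‖ξ 0‖) ^ S.m := by
      rw [mul_pow]
      refine mul_le_mul_of_nonneg_right ?_ (by positivity)
      have h4 : (c * Real.exp (-(3 * (δ * R ^ 2)))) ^ (N₀ * S.m) ≤ ‖E 0‖ ^ (N₀ * S.m) := pow_le_pow_left₀ (by positivity) hE0 _
      rw [← pow_mul, ← pow_mul]
      refine le_trans ?_ h4
      rw [mul_pow]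
      refine mul_le_mul_of_nonneg_left ?_ (by positivity)
      rw [← Real.exp_nat_mul]
      refine Real.exp_le_exp.mpr ?_
      push_cast
      have h5 : 3 * δ * (N₀ * S.m) ≤ κ₁ / 16 := by
        rw [hδdef, mul_div_assoc', div_mul_eq_mul_div, div_le_div_iff₀ (by positivity) (by norm_num)]
        nlinarith
      nlinarith [sq_nonneg R]
    have h4 : C₁ * P 0 ≤ C₁ * (C₁ * (C ^ S.m * Real.exp (κ₁ / 8 * R ^ 2)) * (Real.exp (2 * κ₁) * Real.exp (-(κ₁ / 4) * R ^ 2))) := by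
      refine mul_le_mul_of_nonneg_left (h1.trans ?_) hC₁.le
      rw [mul_pow, ← Real.exp_nat_mul]
      have h5 : ((S.m : ℕ) : ℝ) * (κ₁ / (8 * S.m) * R ^ 2) = κ₁ / 8 * R ^ 2 := by
        field_simp
      rw [h5]
      refine mul_le_mul_of_nonneg_left ?_ (by positivity)
      rw [← Real.exp_add]
      refine Real.exp_le_exp.mpr ?_
      rw [norm_zero]
      nlinarith [sq_nonneg (R - 4)]
    have h5 := h3.trans (h2.trans h4)
    have hcp : 0 < (c ^ N₀) ^ S.m := by positivity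
    have hx : Real.exp (-(κ₁ / 16) * R ^ 2) * Real.exp (κ₁ / 16 * R ^ 2) = 1 := by
      rw [← Real.exp_add, show -(κ₁ / 16) * R ^ 2 + κ₁ / 16 * R ^ 2 = 0 by ring, Real.exp_zero]
    have hy : Real.exp (κ₁ / 8 * R ^ 2) * Real.exp (-(κ₁ / 4) * R ^ 2) * Real.exp (κ₁ / 16 * R ^ 2) = Real.exp (-(κ₁ / 16) * R ^ 2) := by
      rw [← Real.exp_add, ← Real.exp_add]
      congr 1
      ring
    have hx2 : Real.exp (κ₁ / 16 * R ^ 2) ≥ 0 := (Real.exp_pos _).le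
    have h6 := mul_le_mul_of_nonneg_right h5 hx2
    rw [mul_comm (_ / _) (Real.exp (2 * κ₁)), mul_assoc, mul_comm (_ / _), mul_div_assoc', mul_div_assoc', le_div_iff₀ hcp]
    calc ‖ξ 0‖ ^ S.m * (c ^ N₀) ^ S.m = (c ^ N₀) ^ S.m * Real.exp (-(κ₁ / 16) * R ^ 2) * ‖ξ 0‖ ^ S.m * Real.exp (κ₁ / 16 * R ^ 2) := by
          rw [show (c ^ N₀) ^ S.m * Real.exp (-(κ₁ / 16) * R ^ 2) * ‖ξ 0‖ ^ S.m * Real.exp (κ₁ / 16 * R ^ 2) =
            ‖ξ 0‖ ^ S.m * (c ^ N₀) ^ S.m * (Real.exp (-(κ₁ / 16) * R ^ 2) * Real.exp (κ₁ / 16 * R ^ 2)) by ring, hx, mul_one]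
      _ ≤ _ := h6
      _ = C₁ * (C₁ * C ^ S.m) * Real.exp (2 * κ₁) * (Real.exp (κ₁ / 8 * R ^ 2) * Real.exp (-(κ₁ / 4) * R ^ 2) * Real.exp (κ₁ / 16 * R ^ 2)) := by ring
      _ = C₁ * (C₁ * C ^ S.m) * Real.exp (2 * κ₁) * Real.exp (-(κ₁ / 16) * R ^ 2) := by rw [hy]
      _ = _ := by ring
  -- the limit
  have hlim1 : Tendsto (fun j : ℕ => (2 : ℝ) ^ j * R₀) atTop atTop := (tendsto_pow_atTop_atTop_of_one_lt (by norm_num)).atTop_mul_const hR₀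
  have hlim2 : Tendsto (fun j : ℕ => C₁ * (C₁ * C ^ S.m) / (c ^ N₀) ^ S.m * Real.exp (2 * κ₁) * Real.exp (-(κ₁ / 16) * ((2 : ℝ) ^ j * R₀) ^ 2)) atTop
      (𝓝 (C₁ * (C₁ * C ^ S.m) / (c ^ N₀) ^ S.m * Real.exp (2 * κ₁) * 0)) := by
    refine Tendsto.const_mul _ (Real.tendsto_exp_atBot.comp ?_)
    refine Tendsto.const_mul_atTop_of_neg (by linarith) ?_
    exact (tendsto_pow_atTop (by norm_num)).comp hlim1
  rw [mul_zero] at hlim2
  have h7 : ‖ξ 0‖ ^ S.m ≤ 0 := ge_of_tendsto hlim2 ((hlim1.eventually_gt_atTop 2).mono fun j hj => hest j hj)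
  have h8 : ‖ξ 0‖ ^ S.m = 0 := le_antisymm h7 (by positivity)
  exact norm_eq_zero.mp (pow_eq_zero_iff (Nat.one_le_iff_ne_zero.mp S.m_pos) |>.mp h8)

theorem Setting.liouville (S : Setting k X) {v : Vd (k + 1)} (hD : S.Dir v) : ∃ κ : ℝ, 0 < κ ∧ ∀ b, ∀ F ∈ S.G v b, ∀ ξ : ℂ → Vd (k + 2), S.Field F ξ →
    (∃ C : ℝ, ∀ z, ‖ξ z‖ ≤ C * Real.exp (κ * ‖z‖ ^ 2)) → ∀ z, ξ z = 0 := by
  obtain ⟨κ, hκ, h0⟩ := S.Liou_zero hD
  refine ⟨κ / 2, by positivity, ?_⟩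
  rintro b F hF ξ hξ ⟨C, hC⟩
  have hC0 : 0 ≤ C := by
    have h1 := (norm_nonneg _).trans (hC 0)
    exact nonneg_of_mul_nonneg_left h1 (Real.exp_pos _)
  -- the points which are not hits
  have hnh : ∀ a, ¬ S.Hit (F a) → ξ a = 0 := by
    intro a ha
    have h1 := h0 (b + a • v) (fun z => F (z + a)) (S.G_trans hF a) (fun z => ξ (z + a)) ?_ (by rwa [zero_add]) ⟨C * Real.exp (κ * ‖a‖ ^ 2), fun z => ?_⟩
    · simpa only [zero_add] using h1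
    · refine ⟨fun z₀ => ?_, fun z => hξ.ver (z + a)⟩
      obtain ⟨r, h, hr, hh, hg⟩ := hξ.hol (z₀ + a)
      refine ⟨r, fun z => h (z + a), hr, ?_, fun z hz => hg (z + a) ?_⟩
      · refine hh.comp (by fun_prop) fun z hz => ?_
        rw [mem_ball, dist_add_right]
        exact hz
      · rw [mem_ball, dist_add_right]
        exact hz
    · refine (hC (z + a)).trans ?_
      rw [mul_assoc, ← Real.exp_add]
      refine mul_le_mul_of_nonneg_left (Real.exp_le_exp.mpr ?_) hC0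
      have h2 := norm_add_le z a
      have h3 : ‖z + a‖ ^ 2 ≤ (‖z‖ + ‖a‖) ^ 2 := pow_le_pow_left₀ (norm_nonneg _) h2 2
      nlinarith [sq_nonneg (‖z‖ - ‖a‖)]
  intro z₀
  obtain ⟨r, h, hr, hh, hg⟩ := hξ.hol z₀
  have hc : ContinuousAt h z₀ := (hh.differentiableAt (ball_mem_nhds z₀ hr)).continuousAt
  have h1 : h =ᶠ[𝓝 z₀] fun _ => 0 := by
    refine (hc.eventuallyEq_nhds_iff_eventuallyEq_nhdsNE continuousAt_const).mp ?_
    have hb : ∀ᶠ z in 𝓝 z₀, z ∈ ball z₀ r := ball_mem_nhds z₀ hr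
    filter_upwards [S.hit_iso hD hF z₀, hb.filter_mono nhdsWithin_le_nhds] with z hz hzr
    rw [← (hg z hzr).2, hnh z hz, map_zero]
  have h2 := (hg z₀ (mem_ball_self hr)).2
  rw [h1.self_of_nhds, S.T_self (hF.2.1 z₀) (S.good_ix (hF.2.1 z₀)).2.1] at h2
  exact h2

end Pool.Agent.TN
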