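import Pool.Agent.TN.Path

/-!
# TN LipT: the motion is Lipschitz; there are no hits

* `lip_pair`, `path_lip`: port of `TH/LipT.lean`.
* `lift_dir`: the first part of the proof of `no_hit` in `TH/LipT.lean`: for a reachable `e` there is a vector `s` with `dβ s = e`.
* `no_hit`: let `e` be the basis of `Dir`.  `v` is in the image of `fderiv (β i) (q i (F z))` (`der_beta`), and the `e j` by `lift_dir`, so it is onto: `kap ≠ 0` (`kap_ne_iff`).
-/

set_option autoImplicit false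

open Topology Filter Metric

namespace Pool.Agent.TN

open Pool.Agent.H36.BP (EN fs wd Sub)
open Pool.Agent.H14.PP (IsCone CurveAt Tan)
open Pool.Agent.H62.EF (MN pr)
open Pool.Agent.H5.BD (BC evp)
open Pool.Agent.AD (Vd Chart Charts TorusMapV DiscreteSub)
open Pool.Agent.AD.BD (Atlas LC Good qc)

variable {N k : ℕ} {X : Set (EN N)}

namespace Setting

variable (S : Setting k X)

theorem lip_pair {v : Vd (k + 1)} (hD : S.Dir v) : ∃ ε₁ K : ℝ, 0 < ε₁ ∧ 0 < K ∧ ∀ b b', ∀ F ∈ S.G v b, ∀ G ∈ S.G v b', ∀ l ∈ S.Λ, (∀ z, pd F G z ≤ ε₁) →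
    ∀ z, pd F G z ≤ K * ‖b' - b - l‖ := by
  obtain ⟨κ, ρ, ε₁, ε₂, hκ, -, hε₁, hε₂, hmax⟩ := S.pair_max hD
  obtain ⟨C, δ, hC, hδ, hdsp⟩ := S.dsp_pd
  refine ⟨min ε₁ δ, 2 * C / ε₂, lt_min hε₁ hδ, by positivity, ?_⟩
  intro b b' F hF G hG l hl hpd z
  have h1 : ∀ z, pd F G z ≤ ε₁ := fun z => (hpd z).trans (min_le_left _ _)
  have h2 : ∀ z, pd F G z ≤ δ := fun z => (hpd z).trans (min_le_right _ _)
  have h3 := fun z => hdsp F G hF.2.1 hG.2.1 z (h2 z)
  have hbdd : BddAbove (Set.range fun z => ‖S.dsp F G z‖) := by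
    refine ⟨C * ε₁, ?_⟩
    rintro _ ⟨z, rfl⟩
    exact (h3 z).1.trans (mul_le_mul_of_nonneg_left (h1 z) (by linarith))
  set s : ℝ := ⨆ z, ‖S.dsp F G z‖ with hs
  have hle : ∀ z, ‖S.dsp F G z‖ ≤ s := fun z => le_ciSup hbdd z
  have hs0 : 0 ≤ s := (norm_nonneg _).trans (hle 0)
  have hw : 0 ≤ ‖b' - b - l‖ := norm_nonneg _
  have hsle : s ≤ 2 * ‖b' - b - l‖ / ε₂ := by
    by_contra hcon
    have h4 : 2 * ‖b' - b - l‖ / ε₂ < s := not_le.1 hcon
    have hspos : 0 < s := lt_of_le_of_lt (by positivity) h4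
    obtain ⟨z₁, hz₁⟩ := exists_lt_of_lt_ciSup (show s / 2 < ⨆ z, ‖S.dsp F G z‖ by rw [← hs]; linarith)
    have h5 : S.dsp F G z₁ = 0 := by
      refine hmax b b' F hF G hG z₁ 0 l hl (fun z _ => h1 z) (fun z _ => ?_) (fun z _ => ?_)
      · rw [zero_mul, Complex.exp_zero, norm_one, mul_one]
        have h6 : 1 ≤ Real.exp (κ * ‖z - z₁‖ ^ 2) := Real.one_le_exp (by positivity)
        have h7 := hle z
        have h8 : 0 ≤ ‖S.dsp F G z₁‖ := norm_nonneg _
        nlinarith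
      · rw [zero_mul, Complex.exp_zero, norm_one, mul_one]
        rw [div_lt_iff₀ hε₂] at h4
        nlinarith
    rw [h5, norm_zero] at hz₁
    linarith
  calc pd F G z ≤ C * ‖S.dsp F G z‖ := (h3 z).2
    _ ≤ C * (2 * ‖b' - b - l‖ / ε₂) := mul_le_mul_of_nonneg_left ((hle z).trans hsle) (by linarith)
    _ = _ := by ring

theorem path_lip {v : Vd (k + 1)} (hD : S.Dir v) {e : Vd (k + 1)} (he : S.Reach v e) :
    ∃ η K : ℝ, 0 < η ∧ 0 < K ∧ ∀ b, ∀ F ∈ S.G v b, ∀ t : ℝ, |t| < η → ∃ G ∈ S.G v (b + (t : ℂ) • e), ∀ z, pd F G z ≤ K * |t| := by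
  obtain ⟨ε₁, K, hε₁, hK, hlip⟩ := S.lip_pair hD
  obtain ⟨η, hη, hpath⟩ := S.path hD he hε₁
  refine ⟨η, K * (‖e‖ + 1), hη, by positivity, ?_⟩
  intro b F hF t ht
  obtain ⟨G, hG, hpd⟩ := hpath b F hF t ht
  refine ⟨G, hG, fun z => ?_⟩
  have h1 := hlip b _ F hF G hG 0 S.Λ.zero_mem hpd z
  have h2 : b + (t : ℂ) • e - b - 0 = (t : ℂ) • e := by
    rw [sub_zero, add_sub_cancel_left]
  rw [h2, norm_smul, Complex.norm_real, Real.norm_eq_abs] at h1
  refine h1.trans ?_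
  have h3 : 0 ≤ |t| := abs_nonneg t
  have h4 : 0 ≤ K * |t| := by positivity
  nlinarith

theorem lift_dir {v : Vd (k + 1)} (hD : S.Dir v) {e : Vd (k + 1)} (he : S.Reach v e) {b : Vd (k + 1)} {F : ℂ → EN N} (hF : F ∈ S.G v b) (z : ℂ) :
    ∃ s, fderiv ℂ (S.β (S.ix (F z))) (S.q (S.ix (F z)) (F z)) s = e := by
  obtain ⟨η, K, hη, hK, hpath⟩ := S.path_lip hD he
  obtain ⟨C, δ, hC, hδ, hdsp⟩ := S.dsp_pd
  set t : ℕ → ℝ := fun n => η / ((n : ℝ) + 2) with ht
  have htpos : ∀ n, 0 < t n := fun n => by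
    rw [ht]
    positivity
  have htlt : ∀ n, |t n| < η := fun n => by
    rw [abs_of_pos (htpos n), ht]
    have h0 : (0 : ℝ) ≤ n := Nat.cast_nonneg n
    show η / ((n : ℝ) + 2) < η
    rw [div_lt_iff₀ (by linarith)]
    nlinarith
  have htt : Tendsto t atTop (𝓝 0) := by
    rw [ht]
    exact tendsto_const_nhds.div_atTop (tendsto_atTop_add_const_right _ _ tendsto_natCast_atTop_atTop)
  choose G hG hGpd using fun n => hpath b F hF (t n) (htlt n)
  set i : Fin S.A.n := S.ix (F z) with hi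
  set p : Vd (k + 2) := S.q i (F z) with hp
  have hgF : Good (S.A.χ i) (F z) := S.A.good (F z) (hF.2.1 z) (F z) (hF.2.1 z) (by rw [dist_self]; exact S.A.δ_pos.le)
  have hpb : p ∈ ball (0 : Vd (k + 2)) 2 := by
    rw [mem_ball_zero_iff]
    exact lt_of_le_of_lt hgF.2.2 (by norm_num)
  set d : ℕ → Vd (k + 2) := fun n => S.dsp F (G n) z with hd
  have hpdn : ∀ n, pd F (G n) z ≤ K * t n := fun n => by
    have := hGpd n z
    rwa [abs_of_pos (htpos n)] at this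
  have hKt : Tendsto (fun n => K * t n) atTop (𝓝 0) := by
    have := htt.const_mul K
    rwa [mul_zero] at this
  have hgood : ∀ᶠ n in atTop, Good (S.A.χ i) (G n z) := by
    filter_upwards [hKt.eventually_le_const S.A.δ_pos] with n hn
    exact S.A.good (F z) (hF.2.1 z) (G n z) ((hG n).2.1 z) ((hpdn n).trans hn)
  have hdle : ∀ᶠ n in atTop, ‖d n‖ ≤ C * K * t n := by
    filter_upwards [hKt.eventually_le_const hδ] with n hn
    have h1 := (hdsp F (G n) hF.2.1 (hG n).2.1 z ((hpdn n).trans hn)).1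
    calc ‖d n‖ ≤ C * pd F (G n) z := h1
      _ ≤ C * (K * t n) := mul_le_mul_of_nonneg_left (hpdn n) (by linarith)
      _ = _ := by ring
  have hd0 : Tendsto d atTop (𝓝 0) := by
    refine squeeze_zero_norm' hdle ?_
    have := htt.const_mul (C * K)
    rwa [mul_zero] at this
  have hpd : ∀ n, p + d n = S.q i (G n z) := fun n => by
    rw [hd, hp]
    show S.q i (F z) + (S.q (S.ix (F z)) (G n z) - S.q (S.ix (F z)) (F z)) = _
    rw [← hi]
    abel
  have hβ := S.β_an i p hpb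
  obtain ⟨δ₂, hδ₂, hdisc⟩ := S.disc
  -- the difference of the values
  have hlam : ∀ᶠ n in atTop, S.β i (p + d n) - S.β i p - (t n : ℂ) • e ∈ S.Λ := by
    filter_upwards [hgood] with n hn
    have h1 := S.β_eq i (G n z) hn.1 hn.2.1
    have h2 := S.β_eq i (F z) hgF.1 hgF.2.1
    have h3 := hF.2.2 z
    have h4 := (hG n).2.2 z
    have h5 := S.Λ.add_mem (S.Λ.sub_mem h2 h1) (S.Λ.sub_mem h4 h3)
    rw [hpd n]
    have h6 : S.u (F z) - S.β i ((S.A.χ i).q (F z)) - (S.u (G n z) - S.β i ((S.A.χ i).q (G n z))) +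
        (S.u (G n z) - (b + (t n : ℂ) • e + z • v) - (S.u (F z) - (b + z • v))) =
        S.β i (S.q i (G n z)) - S.β i p - (t n : ℂ) • e := by
      show S.u (F z) - S.β i (S.q i (F z)) - (S.u (G n z) - S.β i (S.q i (G n z))) +
        (S.u (G n z) - (b + (t n : ℂ) • e + z • v) - (S.u (F z) - (b + z • v))) =
        S.β i (S.q i (G n z)) - S.β i (S.q i (F z)) - (t n : ℂ) • e
      abel
    rwa [h6] at h5
  have hlim : Tendsto (fun n => S.β i (p + d n) - S.β i p - (t n : ℂ) • e) atTop (𝓝 0) := by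
    have h1 : Tendsto (fun n => p + d n) atTop (𝓝 p) := by
      have := hd0.const_add p
      rwa [add_zero] at this
    have h2 : Tendsto (fun n => S.β i (p + d n)) atTop (𝓝 (S.β i p)) := hβ.continuousAt.tendsto.comp h1
    have h3 : Tendsto (fun n => (t n : ℂ) • e) atTop (𝓝 ((0 : ℂ) • e)) := by
      refine Tendsto.smul_const ?_ e
      have h4 := (Complex.continuous_ofReal.tendsto (0 : ℝ)).comp htt
      rw [Complex.ofReal_zero] at h4
      exact h4
    have h5 := (h2.sub_const (S.β i p)).sub h3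
    rwa [sub_self, zero_smul, sub_zero] at h5
  have hzero : ∀ᶠ n in atTop, S.β i (p + d n) - S.β i p = (t n : ℂ) • e := by
    have h1 : ∀ᶠ n in atTop, ‖S.β i (p + d n) - S.β i p - (t n : ℂ) • e‖ < δ₂ := by
      have h2 := hlim.norm
      rw [norm_zero] at h2
      exact h2.eventually_lt_const hδ₂
    filter_upwards [h1, hlam] with n h2 h3
    exact sub_eq_zero.1 (hdisc _ h3 h2)
  -- the limit of the difference quotients
  set 𝒰 : Ultrafilter ℕ := Ultrafilter.of atTop with h𝒰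
  have hle𝒰 : (𝒰 : Filter ℕ) ≤ atTop := Ultrafilter.of_le atTop
  have hc0 : ∀ n, ((t n : ℝ) : ℂ) ≠ 0 := fun n => by exact_mod_cast (htpos n).ne'
  have hbnd : ∀ᶠ n in (𝒰 : Filter ℕ), ((t n : ℂ))⁻¹ • d n ∈ closedBall (0 : Vd (k + 2)) (C * K) := by
    refine hle𝒰 ?_
    filter_upwards [hdle] with n hn
    rw [mem_closedBall_zero_iff, norm_smul, norm_inv, Complex.norm_real, Real.norm_of_nonneg (htpos n).le,
      inv_mul_le_iff₀ (htpos n)]
    linarith
  obtain ⟨s₀, -, hs₀⟩ := (isCompact_closedBall (0 : Vd (k + 2)) (C * K)).ultrafilter_le_nhds (𝒰.map fun n => ((t n : ℂ))⁻¹ • d n)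
    (by rw [Ultrafilter.coe_map, le_principal_iff]; exact hbnd)
  have hs₀' : Tendsto (fun n => ((t n : ℂ))⁻¹ • d n) 𝒰 (𝓝 s₀) := hs₀
  have hfd : HasFDerivAt (S.β i) (fderiv ℂ (S.β i) p) p := hβ.differentiableAt.hasFDerivAt
  have h7 := (hasFDerivWithinAt_univ.2 hfd).lim (l := (𝒰 : Filter ℕ)) (c := fun n => ((t n : ℂ))⁻¹) (d := d) (v := s₀)
    (hd0.mono_left hle𝒰) (Eventually.of_forall fun n => Set.mem_univ _) hs₀'
  have h8 : Tendsto (fun n => ((t n : ℂ))⁻¹ • (S.β i (p + d n) - S.β i p)) 𝒰 (𝓝 e) := by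
    refine (tendsto_congr' (hle𝒰 ?_)).2 tendsto_const_nhds
    filter_upwards [hzero] with n hn
    rw [hn, smul_smul, inv_mul_cancel₀ (hc0 n), one_smul]
  have h9 : fderiv ℂ (S.β i) p s₀ = e := tendsto_nhds_unique h7 h8
  exact ⟨s₀, h9⟩

theorem no_hit {v : Vd (k + 1)} (hD : S.Dir v) {b : Vd (k + 1)} {F : ℂ → EN N} (hF : F ∈ S.G v b) (z : ℂ) : ¬ S.Hit (F z) := by
  intro hhit
  obtain ⟨e, hli, he⟩ := hD.basis
  have hgF : Good (S.A.χ (S.ix (F z))) (F z) := S.A.good (F z) (hF.2.1 z) (F z) (hF.2.1 z) (by rw [dist_self]; exact S.A.δ_pos.le)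
  have hsurj : Function.Surjective (fderiv ℂ (S.β (S.ix (F z))) (S.q (S.ix (F z)) (F z))) := by
    have hcard : Fintype.card (Fin (k + 1)) = Module.finrank ℂ (Vd (k + 1)) := by
      simp [Vd]
    have hspan : Submodule.span ℂ (Set.range (Fin.cons v e : Fin (k + 1) → Vd (k + 1))) = ⊤ := hli.span_eq_top_of_card_eq_finrank' hcard
    have hle : Submodule.span ℂ (Set.range (Fin.cons v e : Fin (k + 1) → Vd (k + 1))) ≤
        LinearMap.range (fderiv ℂ (S.β (S.ix (F z))) (S.q (S.ix (F z)) (F z)) : Vd (k + 2) →ₗ[ℂ] Vd (k + 1)) := by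
      rw [Submodule.span_le]
      rintro _ ⟨j, rfl⟩
      refine Fin.cases ?_ (fun j => ?_) j
      · rw [Fin.cons_zero]
        exact ⟨_, S.der_beta hF hgF.2.1⟩
      · rw [Fin.cons_succ]
        obtain ⟨s, hs⟩ := S.lift_dir hD (he j) hF z
        exact ⟨s, hs⟩
    rw [hspan, top_le_iff, LinearMap.range_eq_top] at hle
    exact hle
  exact (kap_ne_iff _).2 hsurj hhit

end Setting

end Pool.Agent.TN
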