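import Pool.Agent.TN.FFa
import Pool.Agent.TN.KK
import Pool.Agent.H36.BP.MaxP
import Pool.Agent.TN.NoXE

/-!
# TN NoX: two maps of `ℂ^(k+1)` do not cross, for `k ≥ 1`

Port of `TH/NoX*.lean`, with two changes.

* The length: `𝒩 = kk i (p) * ‖c‖ ^ m`, where `P = c • kap i p` (`exists_smul_kap`: `dβ P = 0`, and `dβ` is onto at the points of the sheets because `β i (qm i (Ψ y)) = const + y`, so `kap ≠ 0`); in another chart `c` is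
  multiplied by `det T` (`kap_trans`), so `𝒩` does not depend on the chart.  (Or keep the determinant of `P` and the `k + 1` partial derivatives.)
* The zero set: `y'` is any vector which is independent of the direction `y` (exists because `k ≥ 1`); everything happens in the plane `s y' + t y`.
-/

set_option autoImplicit false

open Topology Filter Metric

namespace Pool.Agent.TN

open Pool.Agent.H36.BP (EN fs wd Sub)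
open Pool.Agent.H14.PP (IsCone CurveAt Tan)
open Pool.Agent.H62.EF (MN pr)
open Pool.Agent.H5.BD (BC evp)
open Pool.Agent.AD (Vd Chart Charts TorusMapV DiscreteSub)
open Pool.Agent.AD.BD (Atlas LC Good qc)

variable {N k : ℕ} {X : Set (EN N)}

theorem Setting.no_cross (S : Setting k X) (hk : 1 ≤ k) {b : Vd (k + 1)} {Ψ Ψ' : Vd (k + 1) → MN N} (h : Ψ ∈ S.FF b) (h' : Ψ' ∈ S.FF b) {w : Vd (k + 1)} (hw : Ψ w = Ψ' w) :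
    Ψ = Ψ' := by
  classical
  by_contra hne
  -- the minimal order of contact
  have hex : ∃ m : ℕ, ∃ (b : Vd (k + 1)) (Ψ Ψ' : Vd (k + 1) → MN N) (w : Vd (k + 1)) (i : Fin S.A.n) (y : Vd (k + 1)),
      Ψ ∈ S.FF b ∧ Ψ' ∈ S.FF b ∧ Ψ w = Ψ' w ∧ S.GoodM i (Ψ w) ∧ ‖y‖ = 1 ∧ S.jet i Ψ Ψ' y m w ≠ 0 := by
    obtain ⟨i, y, m, hi, hy, hm⟩ := Setting.exists_jet h h' hw hne
    exact ⟨m, b, Ψ, Ψ', w, i, y, h, h', hw, hi, hy, hm⟩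
  set m := Nat.find hex with hmdef
  have hlow : ∀ (b : Vd (k + 1)) (Ψ Ψ' : Vd (k + 1) → MN N) (w : Vd (k + 1)) (i : Fin S.A.n) (y : Vd (k + 1)), Ψ ∈ S.FF b → Ψ' ∈ S.FF b → Ψ w = Ψ' w → S.GoodM i (Ψ w) → ‖y‖ = 1 →
      ∀ j < m, S.jet i Ψ Ψ' y j w = 0 := by
    intro b Ψ Ψ' w i y h h' hw hi hy j hj
    by_contra hcon
    exact Nat.find_min hex hj ⟨b, Ψ, Ψ', w, i, y, h, h', hw, hi, hy, hcon⟩
  obtain ⟨b₁, Ψ₁, Ψ₁', w₁, i₁, y₁, h₁, h₁', hw₁, hi₁, hy₁, hj₁⟩ := Nat.find_spec hex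
  have hm1 : 1 ≤ m := by
    rcases Nat.eq_zero_or_pos m with h0 | h0
    · exfalso
      apply hj₁
      rw [← hmdef, h0]
      unfold Setting.jet
      rw [iteratedDeriv_zero, zero_smul, add_zero, hw₁, sub_self]
    · exact h0
  -- the values of the length
  set V : Set ℝ := {r | ∃ (b : Vd (k + 1)) (Ψ Ψ' : Vd (k + 1) → MN N) (w : Vd (k + 1)) (i : Fin S.A.n) (y : Vd (k + 1)),
    Ψ ∈ S.FF b ∧ Ψ' ∈ S.FF b ∧ Ψ w = Ψ' w ∧ S.GoodM i (Ψ w) ∧ ‖y‖ = 1 ∧ S.nn i Ψ Ψ' y m w = r} with hV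
  have hpos : 0 < S.nn i₁ Ψ₁ Ψ₁' y₁ m w₁ := by
    have h1 : S.cc i₁ Ψ₁ Ψ₁' y₁ m w₁ ≠ 0 := Setting.cc_ne h₁ h₁' hw₁ hi₁ (hlow b₁ Ψ₁ Ψ₁' w₁ i₁ y₁ h₁ h₁' hw₁ hi₁ hy₁) hj₁
    have h2 := S.kk_pos i₁ (Setting.qm_trans hi₁.inM hi₁.inM).1
    unfold Setting.nn
    have h3 : 0 < ‖S.cc i₁ Ψ₁ Ψ₁' y₁ m w₁‖ := norm_pos_iff.2 h1
    positivity
  have hmem₁ : S.nn i₁ Ψ₁ Ψ₁' y₁ m w₁ ∈ V := ⟨b₁, Ψ₁, Ψ₁', w₁, i₁, y₁, h₁, h₁', hw₁, hi₁, hy₁, rfl⟩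
  -- limits of values
  have hlimit : ∀ u : ℕ → ℝ, (∀ n, u n ∈ V) → ∃ (b : Vd (k + 1)) (Ψ Ψ' : Vd (k + 1) → MN N) (w : Vd (k + 1)) (i : Fin S.A.n) (y : Vd (k + 1)),
      Ψ ∈ S.FF b ∧ Ψ' ∈ S.FF b ∧ Ψ w = Ψ' w ∧ S.GoodM i (Ψ w) ∧ ‖y‖ = 1 ∧ Tendsto u (hyperfilter ℕ : Filter ℕ) (𝓝 (S.nn i Ψ Ψ' y m w)) := by
    intro u hu
    choose b Ψ Ψ' w i y a1 a2 a3 a4 a5 a6 using hu
    obtain ⟨b₀, Φ, Φ', i₀, y₀, e1, e2, e3, e4, e5, e6⟩ := S.nn_limit (hyperfilter ℕ) a1 a2 a3 a4 a5 m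
    refine ⟨b₀, Φ, Φ', 0, i₀, y₀, e1, e2, e3, e4, e5, e6.congr fun n => a6 n⟩
  have hbdd : BddAbove V := by
    by_contra hcon
    rw [not_bddAbove_iff] at hcon
    choose u hu hu' using fun n : ℕ => hcon n
    obtain ⟨b₀, Φ, Φ', w₀, i₀, y₀, -, -, -, -, -, e6⟩ := hlimit u hu
    have h1 : Tendsto u (hyperfilter ℕ : Filter ℕ) atTop := by
      refine tendsto_atTop_mono (fun n => (hu' n).le) ?_
      exact tendsto_natCast_atTop_atTop.mono_left (Nat.hyperfilter_le_atTop)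
    exact not_tendsto_nhds_of_tendsto_atTop h1 _ e6
  obtain ⟨u, -, hu2, hu3⟩ := exists_seq_tendsto_sSup ⟨_, hmem₁⟩ hbdd
  obtain ⟨b₀, Φ, Φ', w₀, i₀, y₀, e1, e2, e3, e4, e5, e6⟩ := hlimit u hu3
  have hsup : S.nn i₀ Φ Φ' y₀ m w₀ = sSup V := tendsto_nhds_unique e6 (hu2.mono_left Nat.hyperfilter_le_atTop)
  have hge : ∀ r ∈ V, r ≤ S.nn i₀ Φ Φ' y₀ m w₀ := fun r hr => by
    rw [hsup]
    exact le_csSup hbdd hr
  have hpos₀ : 0 < S.nn i₀ Φ Φ' y₀ m w₀ := hpos.trans_le (hge _ hmem₁)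
  have hc : S.cc i₀ Φ Φ' y₀ m w₀ ≠ 0 := by
    intro h0
    unfold Setting.nn at hpos₀
    rw [h0, norm_zero, zero_pow (Nat.one_le_iff_ne_zero.1 S.m_pos), mul_zero] at hpos₀
    exact lt_irrefl _ hpos₀
  -- charts at the neighbouring points
  have hnear := (Setting.FF_inM e1 e4.inM).2
  have hchart : ∀ᶠ z in 𝓝 w₀, Φ z = Φ' z → (∀ j < m, S.jet i₀ Φ Φ' y₀ j z = 0) ∧ S.nn i₀ Φ Φ' y₀ m z ≤ S.nn i₀ Φ Φ' y₀ m w₀ := by
    filter_upwards [hnear] with z hz hzeq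
    obtain ⟨k, hk⟩ := Setting.exists_goodM e1 z
    have h1 := hlow b₀ Φ Φ' z k y₀ e1 e2 hzeq hk e5
    obtain ⟨h2, -, h3⟩ := Setting.nn_trans e1 e2 hzeq hk.inM hz h1
    refine ⟨h2, ?_⟩
    rw [← h3]
    exact hge _ ⟨b₀, Φ, Φ', z, k, y₀, e1, e2, hzeq, hk, e5, rfl⟩
  refine Setting.no_max hk e1 e2 e3 e4 hm1 ?_ hc ?_
  · filter_upwards [hchart] with z hz hzeq
    exact (hz hzeq).1
  · filter_upwards [hchart] with z hz hzeq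
    exact (hz hzeq).2

end Pool.Agent.TN
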