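import Pool.Agent.TN.FFa
import Pool.Agent.TN.KK
import Pool.Agent.H14.NX.Curve
import Pool.Agent.H36.BP.MaxP

/-!
# TN NoXD: the length of the contact of two maps of `ℂ²`, no local maximum

* `InM i P`: the point `P` of the projective space is in the domain of the chart `i`.
* `jet i Ψ Ψ' y j w`: the derivative of order `j` of the difference of `Ψ'` and `Ψ` in the chart `i`, at `w`, in the direction `y`.
* `cc`: the determinant of the jet of order `m` and the two derivatives of `Ψ`; `nn`: the length.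
* `nn_trans`: the length does not depend on the chart.
* `no_max`: the length has no local maximum at a point where it is not zero.
-/

set_option autoImplicit false

open Topology Filter Metric

namespace Pool.Agent.TN

open Pool.Agent.H36.BP (EN fs wd Sub)
open Pool.Agent.H14.PP (IsCone CurveAt Tan)
open Pool.Agent.H62.EF (MN pr)
open Pool.Agent.H5.BD (BC evp)
open Pool.Agent.AD (Vd Chart Charts TorusMapV DiscreteSub)
open Pool.Agent.AD.BD (Atlas LC Good qc)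

variable {N k : ℕ} {X : Set (EN N)}

/-- leading coefficients -/
private theorem NoXD_lead {E : Type*} [NormedAddCommGroup E] [NormedSpace ℂ E] [CompleteSpace E] {f : ℂ → E} (hf : AnalyticAt ℂ f 0) {m : ℕ} {c : E}
    (hlim : Tendsto (fun t : ℂ => (t ^ m)⁻¹ • f t) (𝓝[≠] 0) (𝓝 c)) :
    (∀ j < m, iteratedDeriv j f 0 = 0) ∧ iteratedDeriv m f 0 = (m.factorial : ℂ) • c := by
  have key : ∀ k, (∀ j < k, iteratedDeriv j f 0 = 0) → Tendsto (fun t : ℂ => (t ^ k)⁻¹ • f t) (𝓝[≠] 0) (𝓝 (((k.factorial : ℂ)⁻¹) • iteratedDeriv k f 0)) := by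
    intro k hk
    obtain ⟨R, hR, hT⟩ := hf.exists_eventuallyEq_sum_add_pow_mul (k + 1)
    have h1 : ContinuousAt (fun t : ℂ => ((k.factorial : ℂ)⁻¹) • iteratedDeriv k f 0 + t • R t) 0 := by
      have := hR.continuousAt
      fun_prop
    have h2 := h1.tendsto
    simp only [zero_smul, add_zero] at h2
    refine (h2.mono_left nhdsWithin_le_nhds).congr' ?_
    filter_upwards [nhdsWithin_le_nhds hT, self_mem_nhdsWithin] with t ht ht0
    have ht0' : t ≠ 0 := ht0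
    rw [ht, Finset.sum_range_succ, Finset.sum_eq_zero (fun i hi => by rw [hk i (Finset.mem_range.1 hi), smul_zero]), zero_add, smul_add, smul_smul, smul_smul, pow_succ,
      div_eq_mul_inv, ← mul_assoc, inv_mul_cancel₀ (pow_ne_zero _ ht0'), one_mul, ← mul_assoc, inv_mul_cancel₀ (pow_ne_zero _ ht0'), one_mul]
  have hz : ∀ k, k ≤ m → ∀ j < k, iteratedDeriv j f 0 = 0 := by
    intro k
    induction k with
    | zero => exact fun _ j hj => absurd hj (by omega)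
    | succ k ih =>
      intro hk j hj
      rcases Nat.lt_succ_iff_lt_or_eq.1 hj with h | h
      · exact ih (by omega) j h
      · subst h
        have h1 := key j (ih (by omega))
        have h2 : Tendsto (fun t : ℂ => (t ^ j)⁻¹ • f t) (𝓝[≠] 0) (𝓝 ((0 : ℂ) • c)) := by
          have h3 : Tendsto (fun t : ℂ => t ^ (m - j)) (𝓝[≠] 0) (𝓝 0) := by
            have h4 : Tendsto (fun t : ℂ => t ^ (m - j)) (𝓝 0) (𝓝 (0 ^ (m - j))) := (continuous_pow (m - j)).tendsto 0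
            rw [zero_pow (by omega)] at h4
            exact h4.mono_left nhdsWithin_le_nhds
          refine (h3.smul hlim).congr' ?_
          filter_upwards [self_mem_nhdsWithin] with t ht0
          have ht0' : t ≠ 0 := ht0
          rw [smul_smul]
          congr 1
          have h5 : t ^ m = t ^ (m - j) * t ^ j := by
            rw [← pow_add]
            congr 1
            omega
          rw [h5, mul_inv, ← mul_assoc, mul_inv_cancel₀ (pow_ne_zero _ ht0'), one_mul]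
        have h3 := tendsto_nhds_unique h1 h2
        rw [zero_smul, smul_eq_zero] at h3
        rcases h3 with h4 | h4
        · exact absurd h4 (inv_ne_zero (by exact_mod_cast j.factorial_ne_zero))
        · exact h4
  have hj := hz m le_rfl
  refine ⟨hj, ?_⟩
  have h1 := tendsto_nhds_unique (key m hj) hlim
  rw [← h1, smul_smul, mul_inv_cancel₀ (by exact_mod_cast m.factorial_ne_zero), one_smul]

/-- jets and changes of coordinates -/
theorem NoX_jet_trans {E F : Type*} [NormedAddCommGroup E] [NormedSpace ℂ E] [CompleteSpace E] [NormedAddCommGroup F] [NormedSpace ℂ F] [CompleteSpace F]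
    {τ : E → F} {p p' : ℂ → E} (hp : AnalyticAt ℂ p 0) (hp' : AnalyticAt ℂ p' 0) (h0 : p 0 = p' 0) (hτ : AnalyticAt ℂ τ (p 0))
    {m : ℕ} (hj : ∀ j < m, iteratedDeriv j (fun t => p' t - p t) 0 = 0) :
    (∀ j < m, iteratedDeriv j (fun t => τ (p' t) - τ (p t)) 0 = 0) ∧
      iteratedDeriv m (fun t => τ (p' t) - τ (p t)) 0 = fderiv ℂ τ (p 0) (iteratedDeriv m (fun t => p' t - p t) 0) := by
  set A := fderiv ℂ τ (p 0) with hA
  set P : E := iteratedDeriv m (fun t => p' t - p t) 0 with hP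
  have hδan : AnalyticAt ℂ (fun t => p' t - p t) 0 := hp'.sub hp
  have hfan : AnalyticAt ℂ (fun t => τ (p' t) - τ (p t)) 0 :=
    (AnalyticAt.fun_comp (g := τ) (f := p') (by rw [← h0]; exact hτ) hp').sub (AnalyticAt.fun_comp (g := τ) (f := p) hτ hp)
  obtain ⟨R, hR, hT⟩ := hδan.exists_eventuallyEq_sum_add_pow_mul (m + 1)
  have hT' : ∀ᶠ t in 𝓝 (0 : ℂ), p' t - p t = t ^ m • (((m.factorial : ℂ)⁻¹) • P + t • R t) := by
    filter_upwards [hT] with t ht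
    rw [ht, Finset.sum_range_succ, Finset.sum_eq_zero (fun i hi => by rw [hj i (Finset.mem_range.1 hi), smul_zero]), zero_add, smul_add, smul_smul, smul_smul, pow_succ,
      div_eq_mul_inv]
  have hlim : Tendsto (fun t : ℂ => ((m.factorial : ℂ)⁻¹) • P + t • R t) (𝓝[≠] 0) (𝓝 (((m.factorial : ℂ)⁻¹) • P)) := by
    have h1 : ContinuousAt (fun t : ℂ => ((m.factorial : ℂ)⁻¹) • P + t • R t) 0 := by
      have := hR.continuousAt
      fun_prop
    have h2 := h1.tendsto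
    simp only [zero_smul, add_zero] at h2
    exact h2.mono_left nhdsWithin_le_nhds
  have hpp : Tendsto (fun t : ℂ => (p' t, p t)) (𝓝 0) (𝓝 (p 0, p 0)) := by
    have h1 := hp'.continuousAt.tendsto.prodMk_nhds hp.continuousAt.tendsto
    rwa [← h0] at h1
  have hs : HasStrictFDerivAt τ A (p 0) := hτ.hasStrictFDerivAt
  -- the difference is of smaller order
  have hsmall : Tendsto (fun t : ℂ => (t ^ m)⁻¹ • (τ (p' t) - τ (p t)) - A (((m.factorial : ℂ)⁻¹) • P + t • R t)) (𝓝[≠] 0) (𝓝 0) := by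
    rw [tendsto_zero_iff_norm_tendsto_zero, Metric.tendsto_nhds]
    intro ε hε
    have hbd : ∀ᶠ t in 𝓝[≠] (0 : ℂ), ‖((m.factorial : ℂ)⁻¹) • P + t • R t‖ < ‖((m.factorial : ℂ)⁻¹) • P‖ + 1 := hlim.norm.eventually_lt_const (by linarith)
    have h1 := hpp.eventually (hs.isLittleO.bound (c := ε / (2 * (‖((m.factorial : ℂ)⁻¹) • P‖ + 1))) (by positivity))
    filter_upwards [hbd, nhdsWithin_le_nhds h1, nhdsWithin_le_nhds hT', self_mem_nhdsWithin] with t ht1 ht2 ht3 ht4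
    have ht5 : t ≠ 0 := ht4
    rw [ht3] at ht2
    rw [Real.dist_eq, sub_zero, abs_of_nonneg (norm_nonneg _)]
    set Q := ((m.factorial : ℂ)⁻¹) • P + t • R t with hQ
    have h6 : (t ^ m)⁻¹ • (τ (p' t) - τ (p t)) - A Q = (t ^ m)⁻¹ • (τ (p' t) - τ (p t) - A (t ^ m • Q)) := by
      rw [smul_sub ((t ^ m)⁻¹) (τ (p' t) - τ (p t)) (A (t ^ m • Q)), map_smul, smul_smul, inv_mul_cancel₀ (pow_ne_zero _ ht5), one_smul]
    have h7 : 0 < ‖t ^ m‖ := norm_pos_iff.2 (pow_ne_zero _ ht5)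
    rw [h6, norm_smul, norm_inv, inv_mul_lt_iff₀ h7]
    refine ht2.trans_lt ?_
    rw [norm_smul (t ^ m) Q]
    have h8 : ‖t ^ m‖ * ‖Q‖ < ‖t ^ m‖ * (2 * (‖((m.factorial : ℂ)⁻¹) • P‖ + 1)) := by
      apply mul_lt_mul_of_pos_left _ h7
      have := norm_nonneg (((m.factorial : ℂ)⁻¹) • P)
      linarith
    calc ε / (2 * (‖((m.factorial : ℂ)⁻¹) • P‖ + 1)) * (‖t ^ m‖ * ‖Q‖) < ε / (2 * (‖((m.factorial : ℂ)⁻¹) • P‖ + 1)) * (‖t ^ m‖ * (2 * (‖((m.factorial : ℂ)⁻¹) • P‖ + 1))) := by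
          apply mul_lt_mul_of_pos_left h8
          positivity
      _ = ‖t ^ m‖ * ε := by
        field_simp
  have hlim2 : Tendsto (fun t : ℂ => (t ^ m)⁻¹ • (τ (p' t) - τ (p t))) (𝓝[≠] 0) (𝓝 (A (((m.factorial : ℂ)⁻¹) • P))) := by
    have h1 := hsmall.add ((A.continuous.tendsto _).comp hlim)
    rw [zero_add] at h1
    refine h1.congr fun t => ?_
    simp
  obtain ⟨h1, h2⟩ := NoXD_lead hfan hlim2
  refine ⟨h1, ?_⟩
  rw [h2, map_smul, smul_smul, mul_inv_cancel₀ (by exact_mod_cast m.factorial_ne_zero), one_smul]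

namespace Setting

variable (S : Setting k X)

/-- the point `P` is in the domain of the chart `i` -/
def InM (i : Fin S.A.n) (P : MN N) : Prop := ∃ x ∈ X, pr x = P ∧ x ∈ (S.A.χ i).U

variable {S}

theorem GoodM.inM {i : Fin S.A.n} {P : MN N} (h : S.GoodM i P) : S.InM i P := by
  obtain ⟨x, hx, hP, hg⟩ := h
  exact ⟨x, hx, hP, hg.2.1⟩

theorem exists_goodM {b : Vd (k + 1)} {Ψ : Vd (k + 1) → MN N} (h : Ψ ∈ S.FF b) (w : Vd (k + 1)) : ∃ i, S.GoodM i (Ψ w) := by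
  obtain ⟨φ, hφ, hev⟩ := h w
  have h1 := hev.self_of_nhds
  exact ⟨S.ix (φ w), φ w, h1.1, h1.2.1.symm, S.good_ix h1.1⟩

/-- two lifts of the same point -/
theorem mem_U_of_pr {x y : EN N} (hx : x ∈ X) (hy : y ∈ X) (h : pr x = pr y) {i : Fin S.A.n} (hi : y ∈ (S.A.χ i).U) : x ∈ (S.A.χ i).U := by
  have hx0 : x ≠ 0 := fun h0 => S.cone.zero_notMem (h0 ▸ hx)
  have hy0 : y ≠ 0 := fun h0 => S.cone.zero_notMem (h0 ▸ hy)
  obtain ⟨c, hc, hxy⟩ := (Pool.Agent.H62.EF.pr_eq_iff hx0 hy0).1 h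
  rw [hxy]
  exact (S.A.χ i).smul_U y hi c hc

theorem qm_inj {i : Fin S.A.n} {P Q : MN N} (hP : S.InM i P) (hQ : S.InM i Q) (h : S.qm i P = S.qm i Q) : P = Q := by
  obtain ⟨x, hx, hxP, hxU⟩ := hP
  obtain ⟨y, hy, hyQ, hyU⟩ := hQ
  rw [← hxP, ← hyQ, S.qm_pr hx hxU, S.qm_pr hy hyU] at h
  obtain ⟨-, c, hc, h1⟩ := (S.A.χ i).surj x hx hxU
  obtain ⟨-, c', hc', h2⟩ := (S.A.χ i).surj y hy hyU
  have h' : (S.A.χ i).q x = (S.A.χ i).q y := h
  rw [← hxP, ← hyQ, h1, h2, h', Pool.Agent.H62.EF.pr_smul _ hc, Pool.Agent.H62.EF.pr_smul _ hc']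

/-- the change of charts -/
theorem qm_trans {i j : Fin S.A.n} {P : MN N} (hi : S.InM i P) (hj : S.InM j P) :
    S.qm i P ∈ ball (0 : Vd (k + 2)) 2 ∧ (S.A.χ i).σ (S.qm i P) ∈ (S.A.χ j).U ∧ (S.A.χ j).q ((S.A.χ i).σ (S.qm i P)) = S.qm j P := by
  obtain ⟨x, hx, hxP, hxU⟩ := hi
  obtain ⟨y, hy, hyP, hyU⟩ := hj
  have hxj : x ∈ (S.A.χ j).U := mem_U_of_pr hx hy (hxP.trans hyP.symm) hyU
  have h1 : S.qm i P = S.q i x := by rw [← hxP, S.qm_pr hx hxU]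
  have h2 : S.qm j P = S.q j x := by rw [← hxP, S.qm_pr hx hxj]
  obtain ⟨hb, c, hc, h3⟩ := (S.A.χ i).surj x hx hxU
  have h4 : (S.A.χ i).σ (S.q i x) = c⁻¹ • x := by
    have h5 : (S.A.χ i).σ (S.q i x) = c⁻¹ • (c • (S.A.χ i).σ ((S.A.χ i).q x)) := by
      rw [smul_smul, inv_mul_cancel₀ hc, one_smul]
      rfl
    rw [h5, ← h3]
  rw [h1, h2, h4]
  exact ⟨hb, (S.A.χ j).smul_U x hxj _ (inv_ne_zero hc), (S.A.χ j).q_smul x hxj _ (inv_ne_zero hc)⟩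

/-- `FF_an` for the whole domain of the chart -/
theorem FF_inM {b : Vd (k + 1)} {Ψ : Vd (k + 1) → MN N} (h : Ψ ∈ S.FF b) {w : Vd (k + 1)} {i : Fin S.A.n} (hi : S.InM i (Ψ w)) :
    AnalyticAt ℂ (fun y => S.qm i (Ψ y)) w ∧ ∀ᶠ y in 𝓝 w, S.InM i (Ψ y) := by
  obtain ⟨φ, hφ, hev⟩ := h w
  obtain ⟨x, hx, hxP, hxU⟩ := hi
  have h1 := hev.self_of_nhds
  have hφU : φ w ∈ (S.A.χ i).U := mem_U_of_pr h1.1 hx (h1.2.1.symm.trans hxP.symm) hxU
  have hUev : ∀ᶠ y in 𝓝 w, φ y ∈ (S.A.χ i).U := hφ.continuousAt.eventually ((S.A.χ i).isOpen_U.mem_nhds hφU)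
  refine ⟨?_, ?_⟩
  · have h2 : AnalyticAt ℂ (fun y => (S.A.χ i).q (φ y)) w := AnalyticAt.fun_comp (g := (S.A.χ i).q) (f := φ) ((S.A.χ i).q_an _ hφU) hφ
    refine h2.congr ?_
    filter_upwards [hUev, hev] with y hy hy'
    rw [hy'.2.1, S.qm_pr hy'.1 hy]
    rfl
  · filter_upwards [hUev, hev] with y hy hy'
    exact ⟨φ y, hy'.1, hy'.2.1.symm, hy⟩

variable (S)

/-- the derivative of order `j` of the difference of `Ψ'` and `Ψ` in the chart `i` at the point `w` in the direction `y` -/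
noncomputable def jet (i : Fin S.A.n) (Ψ Ψ' : Vd (k + 1) → MN N) (y : Vd (k + 1)) (j : ℕ) (w : Vd (k + 1)) : Vd (k + 2) :=
  iteratedDeriv j (fun t : ℂ => S.qm i (Ψ' (w + t • y)) - S.qm i (Ψ (w + t • y))) 0

/-- the `k + 2` vectors -/
noncomputable def tri (i : Fin S.A.n) (Ψ Ψ' : Vd (k + 1) → MN N) (y : Vd (k + 1)) (m : ℕ) (w : Vd (k + 1)) : Fin (k + 2) → Vd (k + 2) :=
  Fin.cons (S.jet i Ψ Ψ' y m w) fun a : Fin (k + 1) => fderiv ℂ (fun z => S.qm i (Ψ z)) w (Pi.single a 1)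

/-- the determinant of the jet of order `m` and the derivatives of `Ψ` -/
noncomputable def cc (i : Fin S.A.n) (Ψ Ψ' : Vd (k + 1) → MN N) (y : Vd (k + 1)) (m : ℕ) (w : Vd (k + 1)) : ℂ := (Matrix.of (S.tri i Ψ Ψ' y m w)).det

/-- the length of the contact -/
noncomputable def nn (i : Fin S.A.n) (Ψ Ψ' : Vd (k + 1) → MN N) (y : Vd (k + 1)) (m : ℕ) (w : Vd (k + 1)) : ℝ := S.kk i (S.qm i (Ψ w)) * ‖S.cc i Ψ Ψ' y m w‖ ^ S.m

variable {S}

theorem line_tendsto (w y : Vd (k + 1)) : Tendsto (fun t : ℂ => w + t • y) (𝓝 0) (𝓝 w) := by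
  have h4 : Continuous fun t : ℂ => w + t • y := by fun_prop
  have h5 := h4.tendsto 0
  simpa using h5

theorem line_an {E : Type*} [NormedAddCommGroup E] [NormedSpace ℂ E] {f : Vd (k + 1) → E} {w : Vd (k + 1)} (hf : AnalyticAt ℂ f w) (y : Vd (k + 1)) :
    AnalyticAt ℂ (fun t : ℂ => f (w + t • y)) 0 :=
  AnalyticAt.fun_comp (g := f) (f := fun t : ℂ => w + t • y) (by simpa using hf) (by fun_prop)

theorem jet_an {b : Vd (k + 1)} {Ψ Ψ' : Vd (k + 1) → MN N} (h : Ψ ∈ S.FF b) (h' : Ψ' ∈ S.FF b) {w : Vd (k + 1)} {i : Fin S.A.n} (hi : S.InM i (Ψ w)) (hi' : S.InM i (Ψ' w)) (y : Vd (k + 1)) (j : ℕ) :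
    AnalyticAt ℂ (fun w => S.jet i Ψ Ψ' y j w) w :=
  Pool.Agent.H14.NX.analyticAt_jet (f := fun z => S.qm i (Ψ' z) - S.qm i (Ψ z)) ((FF_inM h' hi').1.sub (FF_inM h hi).1) y j

theorem cc_an {b : Vd (k + 1)} {Ψ Ψ' : Vd (k + 1) → MN N} (h : Ψ ∈ S.FF b) (h' : Ψ' ∈ S.FF b) {w : Vd (k + 1)} {i : Fin S.A.n} (hi : S.InM i (Ψ w)) (hi' : S.InM i (Ψ' w)) (y : Vd (k + 1)) (m : ℕ) :
    AnalyticAt ℂ (fun w => S.cc i Ψ Ψ' y m w) w := by
  have h1 := jet_an h h' hi hi' y m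
  have h2 : ∀ v : Vd (k + 1), AnalyticAt ℂ (fun w => fderiv ℂ (fun z => S.qm i (Ψ z)) w v) w := fun v =>
    ((ContinuousLinearMap.apply ℂ (Vd (k + 2)) v).analyticAt (fderiv ℂ (fun z => S.qm i (Ψ z)) w)).comp (FF_inM h hi).1.fderiv
  have h3 : ∀ a c, AnalyticAt ℂ (fun w => S.tri i Ψ Ψ' y m w a c) w := by
    intro a c
    have hproj : ∀ {f : Vd (k + 1) → Vd (k + 2)}, AnalyticAt ℂ f w → AnalyticAt ℂ (fun w => f w c) w := fun {f} hf =>
      ((ContinuousLinearMap.proj c : (Fin (k + 2) → ℂ) →L[ℂ] ℂ).analyticAt (f w)).comp hf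
    refine Fin.cases ?_ (fun a => ?_) a
    · exact hproj h1
    · exact hproj (h2 (Pi.single a 1))
  unfold cc
  simp only [Matrix.det_apply, Matrix.of_apply]
  refine Finset.analyticAt_fun_sum _ fun s _ => ?_
  have h4 : (fun w => Equiv.Perm.sign s • ∏ a, S.tri i Ψ Ψ' y m w (s a) a) = fun w => ((Equiv.Perm.sign s : ℤ) : ℂ) * ∏ a, S.tri i Ψ Ψ' y m w (s a) a := by
    funext w
    rw [Units.smul_def, zsmul_eq_mul]
  rw [h4]
  exact analyticAt_const.mul (Finset.analyticAt_fun_prod _ fun a _ => h3 (s a) a)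

/-- the length does not depend on the chart -/
theorem nn_trans {b : Vd (k + 1)} {Ψ Ψ' : Vd (k + 1) → MN N} (h : Ψ ∈ S.FF b) (h' : Ψ' ∈ S.FF b) {w : Vd (k + 1)} (hw : Ψ w = Ψ' w) {i j : Fin S.A.n} (hi : S.InM i (Ψ w)) (hj : S.InM j (Ψ w))
    {y : Vd (k + 1)} {m : ℕ} (hjet : ∀ k < m, S.jet i Ψ Ψ' y k w = 0) :
    (∀ k < m, S.jet j Ψ Ψ' y k w = 0) ∧ S.jet j Ψ Ψ' y m w = fderiv ℂ (fun p => (S.A.χ j).q ((S.A.χ i).σ p)) (S.qm i (Ψ w)) (S.jet i Ψ Ψ' y m w) ∧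
      S.nn i Ψ Ψ' y m w = S.nn j Ψ Ψ' y m w := by
  have hi' : S.InM i (Ψ' w) := hw ▸ hi
  have hj' : S.InM j (Ψ' w) := hw ▸ hj
  obtain ⟨a1, e1⟩ := FF_inM h hi
  obtain ⟨a2, e2⟩ := FF_inM h hj
  obtain ⟨a1', e1'⟩ := FF_inM h' hi'
  obtain ⟨a2', e2'⟩ := FF_inM h' hj'
  set τ : Vd (k + 2) → Vd (k + 2) := fun p => (S.A.χ j).q ((S.A.χ i).σ p) with hτ
  obtain ⟨hb, hU, -⟩ := qm_trans hi hj
  have hτan : AnalyticAt ℂ τ (S.qm i (Ψ w)) := AnalyticAt.comp (g := (S.A.χ j).q) (f := (S.A.χ i).σ) ((S.A.χ j).q_an _ hU) ((S.A.χ i).σ_an _ hb)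
  have hΨ : ∀ᶠ z in 𝓝 w, S.qm j (Ψ z) = τ (S.qm i (Ψ z)) := by
    filter_upwards [e1, e2] with z h1 h2
    exact (qm_trans h1 h2).2.2.symm
  have hΨ' : ∀ᶠ z in 𝓝 w, S.qm j (Ψ' z) = τ (S.qm i (Ψ' z)) := by
    filter_upwards [e1', e2'] with z h1 h2
    exact (qm_trans h1 h2).2.2.symm
  have hcongr : ∀ k, S.jet j Ψ Ψ' y k w = iteratedDeriv k (fun t : ℂ => τ (S.qm i (Ψ' (w + t • y))) - τ (S.qm i (Ψ (w + t • y)))) 0 := by
    intro k
    refine Filter.EventuallyEq.iteratedDeriv_eq k ?_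
    filter_upwards [(line_tendsto w y).eventually hΨ, (line_tendsto w y).eventually hΨ'] with t h1 h2
    rw [h1, h2]
  have hjt := NoX_jet_trans (τ := τ) (p := fun t : ℂ => S.qm i (Ψ (w + t • y))) (p' := fun t : ℂ => S.qm i (Ψ' (w + t • y))) (m := m) (line_an a1 y) (line_an a1' y)
    (by simp [hw]) (by simpa using hτan) hjet
  have hpz : S.qm i (Ψ (w + (0 : ℂ) • y)) = S.qm i (Ψ w) := by
    rw [zero_smul, add_zero]
  have hm : S.jet j Ψ Ψ' y m w = fderiv ℂ τ (S.qm i (Ψ w)) (S.jet i Ψ Ψ' y m w) := by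
    rw [hcongr m, hjt.2]
    simp only [hpz]
    rfl
  refine ⟨fun k hk => by rw [hcongr k]; exact hjt.1 k hk, hm, ?_⟩
  -- the derivatives
  have hder : ∀ v, fderiv ℂ (fun z => S.qm j (Ψ z)) w v = fderiv ℂ τ (S.qm i (Ψ w)) (fderiv ℂ (fun z => S.qm i (Ψ z)) w v) := by
    intro v
    have h1 : HasFDerivAt (fun z => τ (S.qm i (Ψ z))) ((fderiv ℂ τ (S.qm i (Ψ w))).comp (fderiv ℂ (fun z => S.qm i (Ψ z)) w)) w :=
      HasFDerivAt.comp (g := τ) (f := fun z => S.qm i (Ψ z)) w hτan.differentiableAt.hasFDerivAt a1.differentiableAt.hasFDerivAt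
    have h2 := h1.congr_of_eventuallyEq hΨ
    rw [h2.fderiv]
    rfl
  have htri : S.tri j Ψ Ψ' y m w = (fderiv ℂ τ (S.qm i (Ψ w)) : Vd (k + 2) →ₗ[ℂ] Vd (k + 2)) ∘ S.tri i Ψ Ψ' y m w := by
    funext a
    refine Fin.cases ?_ (fun a => ?_) a
    · exact hm
    · exact hder _
  have hcc : S.cc j Ψ Ψ' y m w = LinearMap.det (fderiv ℂ τ (S.qm i (Ψ w)) : Vd (k + 2) →ₗ[ℂ] Vd (k + 2)) * S.cc i Ψ Ψ' y m w := by
    have h1 := (Pi.basisFun ℂ (Fin (k + 2))).det_comp (fderiv ℂ τ (S.qm i (Ψ w)) : Vd (k + 2) →ₗ[ℂ] Vd (k + 2)) (S.tri i Ψ Ψ' y m w)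
    rw [← htri, Pi.basisFun_det_apply, Pi.basisFun_det_apply] at h1
    exact h1
  obtain ⟨x, hx, hxP, hxU⟩ := hi
  have hxj : x ∈ (S.A.χ j).U := by
    obtain ⟨y, hy, hyP, hyU⟩ := hj
    exact mem_U_of_pr hx hy (hxP.trans hyP.symm) hyU
  have hq : S.qm i (Ψ w) = S.q i x := by rw [← hxP, S.qm_pr hx hxU]
  have hq' : S.qm j (Ψ w) = S.q j x := by rw [← hxP, S.qm_pr hx hxj]
  have hkk := S.kk_trans hx hxU hxj
  have hT : S.T i j x = fderiv ℂ τ (S.qm i (Ψ w)) := by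
    rw [hq]
    rfl
  unfold nn
  rw [hcc, norm_mul, mul_pow, hq, hq', hkk, hT, hq]
  ring

/-- the length of the contact has no local maximum -/
theorem no_max (hk : 1 ≤ k) {b : Vd (k + 1)} {Ψ Ψ' : Vd (k + 1) → MN N} (h : Ψ ∈ S.FF b) (h' : Ψ' ∈ S.FF b) {w₀ : Vd (k + 1)} (hw : Ψ w₀ = Ψ' w₀) {i : Fin S.A.n} (hi : S.GoodM i (Ψ w₀))
    {y : Vd (k + 1)} {m : ℕ} (hm : 1 ≤ m) (h0 : ∀ᶠ w in 𝓝 w₀, Ψ w = Ψ' w → ∀ j < m, S.jet i Ψ Ψ' y j w = 0) (hc : S.cc i Ψ Ψ' y m w₀ ≠ 0)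
    (hmax : ∀ᶠ w in 𝓝 w₀, Ψ w = Ψ' w → S.nn i Ψ Ψ' y m w ≤ S.nn i Ψ Ψ' y m w₀) : False := by
  have hiM := hi.inM
  have hiM' : S.InM i (Ψ' w₀) := hw ▸ hiM
  have hi' : S.GoodM i (Ψ' w₀) := hw ▸ hi
  obtain ⟨a1, e1⟩ := FF_inM h hiM
  obtain ⟨a1', e1'⟩ := FF_inM h' hiM'
  have hβ := (S.FF_an h hi).2
  have hβ' := (S.FF_an h' hi').2
  rw [← hw] at hβ'
  have hjm : S.jet i Ψ Ψ' y m w₀ ≠ 0 := by
    intro hz
    apply hc
    unfold cc
    refine Matrix.det_eq_zero_of_row_eq_zero 0 fun l => ?_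
    show S.jet i Ψ Ψ' y m w₀ l = 0
    rw [hz]
    rfl
  have hb : S.qm i (Ψ w₀) ∈ ball (0 : Vd (k + 2)) 2 := (qm_trans hiM hiM).1
  obtain ⟨γ, hγ, hγ0, hγd, hγz⟩ := Pool.Agent.H14.NX.exists_curve (n := k + 1) (by omega) (β := S.β i) (p := fun w => S.qm i (Ψ w)) (p' := fun w => S.qm i (Ψ' w)) (w₀ := w₀) a1 a1' (by rw [hw]) (S.β_an i _ hb) hβ hβ' hm (by
      filter_upwards [h0, e1, e1'] with w h1 h2 h3 h4
      exact h1 (qm_inj h2 h3 h4)) hjm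
  have hγt : Tendsto γ (𝓝 0) (𝓝 w₀) := by
    have := hγ.continuousAt.tendsto
    rwa [hγ0] at this
  have hγeq : ∀ᶠ s in 𝓝 (0 : ℂ), Ψ (γ s) = Ψ' (γ s) := by
    filter_upwards [hγz, hγt.eventually e1, hγt.eventually e1'] with s h1 h2 h3
    exact qm_inj h2 h3 h1
  have hpan : AnalyticAt ℂ (fun s => S.qm i (Ψ (γ s))) 0 := AnalyticAt.fun_comp (g := fun z => S.qm i (Ψ z)) (f := γ) (by rw [hγ0]; exact a1) hγ
  have hcan : AnalyticAt ℂ (fun s => S.cc i Ψ Ψ' y m (γ s)) 0 :=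
    AnalyticAt.fun_comp (g := fun z => S.cc i Ψ Ψ' y m z) (f := γ) (by rw [hγ0]; exact cc_an h h' hiM hiM' y m) hγ
  have hnorm : ‖S.qm i (Ψ (γ 0))‖ ≤ 1 / 2 := by
    rw [hγ0]
    obtain ⟨x, hx, hxP, hg⟩ := hi
    rw [← hxP, S.qm_pr hx hg.2.1]
    exact hg.2.2
  obtain ⟨κ, hκ, hsub⟩ := S.kk_sub
  have hSub := hsub i (fun s => S.qm i (Ψ (γ s))) (fun s => S.cc i Ψ Ψ' y m (γ s)) 0 hpan hnorm hcan (by rw [hγ0]; exact hc)
  -- the derivative of the point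
  have hpd : deriv (fun s => S.qm i (Ψ (γ s))) 0 ≠ 0 := by
    intro hz
    apply hγd
    have hβan : AnalyticAt ℂ (S.β i) (S.qm i (Ψ (γ 0))) := by
      rw [hγ0]
      exact S.β_an i _ hb
    have h1 : HasDerivAt (fun s => S.β i (S.qm i (Ψ (γ s)))) (fderiv ℂ (S.β i) (S.qm i (Ψ (γ 0))) (deriv (fun s => S.qm i (Ψ (γ s))) 0)) 0 :=
      hβan.differentiableAt.hasFDerivAt.comp_hasDerivAt (0 : ℂ) hpan.differentiableAt.hasDerivAt
    rw [hz, map_zero] at h1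
    have h2 : HasDerivAt (fun s => S.β i (S.qm i (Ψ w₀)) + (γ s - w₀)) (deriv γ 0) 0 := (hγ.differentiableAt.hasDerivAt.sub_const w₀).const_add _
    have h3 : (fun s => S.β i (S.qm i (Ψ (γ s)))) =ᶠ[𝓝 0] fun s => S.β i (S.qm i (Ψ w₀)) + (γ s - w₀) := by
      filter_upwards [hγt.eventually hβ] with s hs
      exact hs
    exact (h2.congr_of_eventuallyEq h3).unique h1
  refine hSub.not_isLocalMax (by positivity) ?_
  filter_upwards [hγeq, hγt.eventually hmax] with s h1 h2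
  have h3 := h2 h1
  unfold nn at h3
  rw [hγ0]
  exact h3

end Setting

end Pool.Agent.TN
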