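import Pool.Agent.AD.Defs
import Pool.Agent.H22.HF.SardC
import Pool.Agent.H62.BU.Inv

/-!
# TN SardR: the critical values of a holomorphic map on real slices

Induction on `p` (the proof below: `f = (f 0, f')`; for almost all `t'` all the points of `{f' = c' + t'}` are regular for `f'`; the critical points of `f` on this fibre are critical for the
restriction of `f 0`, which has countably many critical values; Fubini).  Sketch of another proof:  `p = 0`: every linear map to `Vd 0` is onto, the set is empty.  Step `p + 1`: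

(1) the points with `fderiv ℂ f x = 0`: each component `f_j` has countably many critical values (`H22.HF` SardC: `countable_crit`), so `f` has countably many values on this set; and a countable set of `t` is a null set
(`p + 1 ≥ 1`).

(2) the points with `fderiv ℂ f x ≠ 0`: some component has `fderiv ℂ f_j x ≠ 0`, and by the inverse function theorem there is a local analytic parametrisation `φ` of a neighbourhood of `x`, by `(s, w) ∈ ℂ × Vd (d - 1)` near
`(f_j x, w₀)`, with `f_j (φ (s, w)) = s`.  By Lindelöf it is enough to consider one such neighbourhood, and even a compact part `B = φ (compact ball)` of it (`σ`-compact).  For `s = c_j + t_j` the points of `B` with `f_j = s` are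
the `φ (s, w)`, and `f` is critical at `φ (s, w)` iff `g_s w = (f_i (φ (s, w)))_{i ≠ j}` is critical at `w` (the derivative of `f ∘ φ` has the row `(1, 0)`).  So the slice `{t' | (t_j, t') ∈ bad}` is a null set by induction, for each
`t_j`.  The bad set of `B` is compact (image of a compact set), so measurable, and Fubini gives the result (`MeasureTheory.volume_preserving_piFinSuccAbove`, `MeasureTheory.Measure.measure_prod_null`).
-/

set_option autoImplicit false

open Topology Filter Metric MeasureTheory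

namespace Pool.Agent.TN

open Pool.Agent.AD (Vd)
open Pool.Agent.H62.BU (local_inverse)

/-- surjectivity of the derivative is an open condition -/
private theorem sardR_open {a m : ℕ} {f : Vd a → Vd m} {x₀ : Vd a} (hf : AnalyticAt ℂ f x₀) (h : Function.Surjective (fderiv ℂ f x₀)) :
    ∀ᶠ x in 𝓝 x₀, Function.Surjective (fderiv ℂ f x) := by
  obtain ⟨g, hg⟩ := LinearMap.exists_rightInverse_of_surjective (fderiv ℂ f x₀ : Vd a →ₗ[ℂ] Vd m) (LinearMap.range_eq_top.2 h)
  obtain ⟨R, hR⟩ : ∃ R : Vd m →L[ℂ] Vd a, ∀ y, R y = g y := ⟨LinearMap.toContinuousLinearMap g, fun _ => rfl⟩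
  have h1 : (fderiv ℂ f x₀).comp R = 1 := by
    ext1 y
    have := LinearMap.congr_fun hg y
    show fderiv ℂ f x₀ (R y) = y
    rw [hR]
    exact this
  have h2 : ContinuousAt (fun x => (fderiv ℂ f x).comp R) x₀ := by
    have h3 : ContinuousAt (fderiv ℂ f) x₀ := hf.fderiv.continuousAt
    exact h3.clm_comp continuousAt_const
  have h4 : ∀ᶠ x in 𝓝 x₀, IsUnit ((fderiv ℂ f x).comp R : Vd m →L[ℂ] Vd m) := by
    have h5 : IsOpen {T : Vd m →L[ℂ] Vd m | IsUnit T} := Units.isOpen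
    refine h2.eventually (h5.mem_nhds ?_)
    show IsUnit ((fderiv ℂ f x₀).comp R)
    rw [h1]
    exact isUnit_one
  filter_upwards [h4] with x hx y
  obtain ⟨T, hT⟩ := hx
  refine ⟨R ((T⁻¹ : (Vd m →L[ℂ] Vd m)ˣ).val y), ?_⟩
  have h6 : (T.val * (T⁻¹).val) y = y := by
    rw [Units.mul_inv]
    rfl
  rw [hT] at h6
  exact h6

/-- the critical values of the first coordinate on a regular fibre of the others -/
private theorem sardR_fibre {a m : ℕ} {f : Vd a → Vd m} {f₀ : Vd a → ℂ} {x₀ : Vd a} (hf : AnalyticAt ℂ f x₀) (hf₀ : AnalyticAt ℂ f₀ x₀)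
    (h : Function.Surjective (fderiv ℂ f x₀)) :
    ∃ V ∈ 𝓝 x₀, (f₀ '' {x | x ∈ V ∧ f x = f x₀ ∧ ∀ k, fderiv ℂ f x k = 0 → fderiv ℂ f₀ x k = 0}).Countable := by
  obtain ⟨g, hg⟩ := LinearMap.exists_rightInverse_of_surjective (fderiv ℂ f x₀ : Vd a →ₗ[ℂ] Vd m) (LinearMap.range_eq_top.2 h)
  obtain ⟨R, hR⟩ : ∃ R : Vd m →L[ℂ] Vd a, ∀ y, R y = g y := ⟨LinearMap.toContinuousLinearMap g, fun _ => rfl⟩
  obtain ⟨L, hL⟩ : ∃ L : Vd a →L[ℂ] Vd m, L = fderiv ℂ f x₀ := ⟨_, rfl⟩
  have hLR : ∀ y, L (R y) = y := fun y => by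
    rw [hR, hL]
    exact LinearMap.congr_fun hg y
  obtain ⟨Θ, hΘ⟩ : ∃ Θ : Vd a → Vd a, ∀ y, Θ y = R (f y - f x₀) + ((y - x₀) - R (L (y - x₀))) := ⟨_, fun _ => rfl⟩
  have hΘd : HasFDerivAt Θ (ContinuousLinearMap.id ℂ (Vd a)) x₀ := by
    have h1 : HasFDerivAt (fun y => R (f y - f x₀)) (R.comp L) x₀ := by
      rw [hL]
      exact R.hasFDerivAt.comp x₀ (hf.differentiableAt.hasFDerivAt.sub_const _)
    have h2 : HasFDerivAt (fun y => (y - x₀) - R (L (y - x₀))) (ContinuousLinearMap.id ℂ (Vd a) - R.comp L) x₀ := by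
      have h3 : HasFDerivAt (fun y : Vd a => y - x₀) (ContinuousLinearMap.id ℂ (Vd a)) x₀ := (hasFDerivAt_id x₀).sub_const _
      have h4 : HasFDerivAt (fun y : Vd a => R (L (y - x₀))) ((R.comp L).comp (ContinuousLinearMap.id ℂ (Vd a))) x₀ :=
        (R.comp L).hasFDerivAt.comp x₀ h3
      exact h3.sub h4
    have h5 := h1.add h2
    have h6 : Θ = fun y => R (f y - f x₀) + ((y - x₀) - R (L (y - x₀))) := funext hΘ
    rw [h6]
    refine h5.congr_fderiv ?_
    ext1 v
    simp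
  have hΘa : AnalyticAt ℂ Θ x₀ := by
    have h6 : Θ = fun y => R (f y - f x₀) + ((y - x₀) - R (L (y - x₀))) := funext hΘ
    rw [h6]
    have h7 : AnalyticAt ℂ (fun y : Vd a => y - x₀) x₀ := analyticAt_id.sub analyticAt_const
    exact ((R.analyticAt _).comp (hf.sub analyticAt_const)).add (h7.sub (((R.comp L).analyticAt _).comp h7))
  have hΘ0 : Θ x₀ = 0 := by rw [hΘ]; simp
  obtain ⟨ψ, hψa, hψ1, hψ2, -⟩ := local_inverse hΘa (fun v hv => by rw [hΘd.fderiv] at hv; exact hv)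
  rw [hΘ0] at hψa hψ2
  obtain ⟨d, hd⟩ : ∃ d, d = Module.finrank ℂ (LinearMap.ker (L : Vd a →ₗ[ℂ] Vd m)) := ⟨_, rfl⟩
  obtain ⟨ι, hι1, hι2⟩ : ∃ ι : Vd d →L[ℂ] Vd a, (∀ w, L (ι w) = 0) ∧ ∀ v, L v = 0 → ∃ w, ι w = v := by
    subst hd
    let e := (Module.finBasis ℂ (LinearMap.ker (L : Vd a →ₗ[ℂ] Vd m))).equivFun
    refine ⟨LinearMap.toContinuousLinearMap ((LinearMap.ker (L : Vd a →ₗ[ℂ] Vd m)).subtype.comp (e.symm : _ →ₗ[ℂ] _)), fun w => ?_, fun v hv => ?_⟩
    · exact (e.symm w).2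
    · refine ⟨e ⟨v, hv⟩, ?_⟩
      show ((e.symm (e ⟨v, hv⟩) : LinearMap.ker (L : Vd a →ₗ[ℂ] Vd m)) : Vd a) = v
      rw [e.symm_apply_apply]
  obtain ⟨F, hF⟩ : ∃ F : Vd d → ℂ, ∀ w, F w = f₀ (ψ (ι w)) := ⟨_, fun _ => rfl⟩
  have hcount := Pool.Agent.H22.HF.countable_crit (isOpen_analyticAt ℂ F) (fun w hw => hw)
  have hc : ContinuousAt Θ x₀ := hΘa.continuousAt
  have e1 : ∀ᶠ y in 𝓝 x₀, AnalyticAt ℂ ψ (Θ y) := by
    have := hψa.eventually_analyticAt
    rw [← hΘ0] at this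
    exact hc.eventually this
  have e2 : ∀ᶠ y in 𝓝 x₀, ∀ᶠ κ in 𝓝 (Θ y), Θ (ψ κ) = κ := by
    have := hψ2.eventually_nhds
    rw [← hΘ0] at this
    exact hc.eventually this
  refine ⟨{y | ψ (Θ y) = y ∧ AnalyticAt ℂ ψ (Θ y) ∧ (∀ᶠ κ in 𝓝 (Θ y), Θ (ψ κ) = κ) ∧ AnalyticAt ℂ f y ∧ AnalyticAt ℂ f₀ y}, ?_, hcount.mono ?_⟩
  · filter_upwards [hψ1, e1, e2, hf.eventually_analyticAt, hf₀.eventually_analyticAt] with y h1 h2 h3 h4 h5
    exact ⟨h1, h2, h3, h4, h5⟩
  · rintro _ ⟨y, ⟨⟨hy1, hy2, hy3, hy4, hy5⟩, hyf, hyk⟩, rfl⟩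
    have h1 : L (Θ y) = 0 := by
      rw [hΘ, hyf, sub_self, map_zero, zero_add, map_sub, hLR, sub_self]
    obtain ⟨w, hw⟩ := hι2 _ h1
    have h2 : ψ (ι w) = y := by rw [hw, hy1]
    have h3 : AnalyticAt ℂ (fun w => ψ (ι w)) w := by
      refine AnalyticAt.comp (g := ψ) (f := ι) ?_ (ι.analyticAt w)
      rw [hw]
      exact hy2
    have h4 : AnalyticAt ℂ F w := by
      have h5 : AnalyticAt ℂ (fun w => f₀ (ψ (ι w))) w := by
        refine AnalyticAt.comp (g := f₀) (f := fun w => ψ (ι w)) ?_ h3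
        show AnalyticAt ℂ f₀ (ψ (ι w))
        rw [h2]
        exact hy5
      exact h5.congr (Eventually.of_forall fun w => (hF w).symm)
    have h5 : ∀ᶠ w' in 𝓝 w, f (ψ (ι w')) = f x₀ := by
      have h6 : ∀ᶠ w' in 𝓝 w, Θ (ψ (ι w')) = ι w' := by
        have := (ι.continuous.tendsto w)
        rw [hw] at this
        exact this.eventually hy3
      filter_upwards [h6] with w' h7
      have h8 := congrArg L h7
      rw [hι1, hΘ, map_add, hLR, map_sub, hLR, sub_self, add_zero] at h8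
      exact sub_eq_zero.1 h8
    have h6 : ∀ v, fderiv ℂ f y (fderiv ℂ (fun w => ψ (ι w)) w v) = 0 := by
      intro v
      have h7 : HasFDerivAt f (fderiv ℂ f y) (ψ (ι w)) := by
        rw [h2]
        exact hy4.differentiableAt.hasFDerivAt
      have h8 := HasFDerivAt.comp (g := f) (f := fun w => ψ (ι w)) w h7 h3.differentiableAt.hasFDerivAt
      have h9 : HasFDerivAt (fun w => f (ψ (ι w))) (0 : Vd d →L[ℂ] Vd m) w :=
        (hasFDerivAt_const (f x₀) w).congr_of_eventuallyEq h5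
      have h10 := h8.unique h9
      have := congrArg (fun T => T v) h10
      exact this
    refine ⟨w, ⟨h4, ?_⟩, ?_⟩
    · have h7 : F = fun w => f₀ (ψ (ι w)) := funext hF
      have h8 : HasFDerivAt f₀ (fderiv ℂ f₀ y) (ψ (ι w)) := by
        rw [h2]
        exact hy5.differentiableAt.hasFDerivAt
      have h9 := HasFDerivAt.comp (g := f₀) (f := fun w => ψ (ι w)) w h8 h3.differentiableAt.hasFDerivAt
      rw [h7]
      refine Eq.trans h9.fderiv ?_
      ext1 v
      exact hyk _ (h6 v)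
    · rw [hF, h2]

/-- a countable number of neighbourhoods suffices -/
private theorem sardR_lindelof {E F : Type*} [TopologicalSpace E] [SecondCountableTopology E] {f : E → F} {s : Set E}
    (h : ∀ x ∈ s, ∃ V ∈ 𝓝 x, (f '' (s ∩ V)).Countable) : (f '' s).Countable := by
  choose! V hV hc using h
  obtain ⟨c, hcs, hcc, hcov⟩ := TopologicalSpace.countable_cover_nhdsWithin (s := s) (f := V) fun x hx => mem_nhdsWithin_of_mem_nhds (hV x hx)
  refine Set.Countable.mono ?_ (hcc.biUnion fun x hx => hc x (hcs hx))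
  rintro _ ⟨y, hy, rfl⟩
  obtain ⟨x, hx, hyx⟩ := Set.mem_iUnion₂.1 (hcov hy)
  exact Set.mem_iUnion₂.2 ⟨x, hx, ⟨y, ⟨hy, hyx⟩, rfl⟩⟩

/-- the compact pieces -/
private theorem sardR_isCompact {a m : ℕ} {f : Vd a → Vd m} {K : Set (Vd a)} (hK : IsCompact K) (hf : ∀ x ∈ K, AnalyticAt ℂ f x) :
    IsCompact {x | x ∈ K ∧ ¬ Function.Surjective (fderiv ℂ f x)} := by
  refine hK.of_isClosed_subset ?_ (fun x hx => hx.1)
  rw [← isOpen_compl_iff, isOpen_iff_mem_nhds]
  intro x hx
  by_cases hxK : x ∈ K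
  · have h1 : Function.Surjective (fderiv ℂ f x) := by
      by_contra h2
      exact hx ⟨hxK, h2⟩
    filter_upwards [sardR_open (hf x hxK) h1] with y hy h2
    exact h2.2 hy
  · filter_upwards [hK.isClosed.isOpen_compl.mem_nhds hxK] with y hy h2
    exact hy h2.1

private theorem sardR_compact {a : ℕ} (m : ℕ) : ∀ {f : Vd a → Vd m} {K : Set (Vd a)} (c : Vd m), IsCompact K → (∀ x ∈ K, AnalyticAt ℂ f x) →
    volume {t : Fin m → ℝ | ∃ x, (x ∈ K ∧ ¬ Function.Surjective (fderiv ℂ f x)) ∧ ∀ j, f x j = c j + (t j : ℂ)} = 0 := by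
  induction m with
  | zero =>
    intro f K c _ _
    have h1 : {t : Fin 0 → ℝ | ∃ x, (x ∈ K ∧ ¬ Function.Surjective (fderiv ℂ f x)) ∧ ∀ j, f x j = c j + (t j : ℂ)} = ∅ := by
      ext t
      simp only [Set.mem_ofPred_eq, Set.mem_empty_iff_false, iff_false]
      rintro ⟨x, ⟨_, hx⟩, _⟩
      exact hx fun y => ⟨0, Subsingleton.elim _ _⟩
    rw [h1, measure_empty]
  | succ m ih =>
    intro f K c hK hf
    obtain ⟨D, hD⟩ : ∃ D, D = {x | x ∈ K ∧ ¬ Function.Surjective (fderiv ℂ f x)} := ⟨_, rfl⟩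
    have hDc : IsCompact D := by rw [hD]; exact sardR_isCompact hK hf
    have hfD : IsCompact (f '' D) := hDc.image_of_continuousOn fun x hx => by
      rw [hD] at hx
      exact (hf x hx.1).continuousAt.continuousWithinAt
    obtain ⟨S, hS⟩ : ∃ S, S = {t : Fin (m + 1) → ℝ | ∃ x, (x ∈ K ∧ ¬ Function.Surjective (fderiv ℂ f x)) ∧ ∀ j, f x j = c j + (t j : ℂ)} := ⟨_, rfl⟩
    have hSD : S = (fun (t : Fin (m + 1) → ℝ) j => c j + (t j : ℂ)) ⁻¹' (f '' D) := by
      rw [hS, hD]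
      ext t
      constructor
      · rintro ⟨x, hx, hxt⟩
        exact ⟨x, hx, funext hxt⟩
      · rintro ⟨x, hx, hxt⟩
        exact ⟨x, hx, fun j => congrFun hxt j⟩
    have hSc : IsClosed S := by
      rw [hSD]
      refine hfD.isClosed.preimage ?_
      exact continuous_pi fun j => continuous_const.add (Complex.continuous_ofReal.comp (continuous_apply j))
    have hmeas : MeasurableSet S := hSc.measurableSet
    rw [← hS]
    obtain ⟨T, hT⟩ : ∃ T : Vd (m + 1) →L[ℂ] Vd m, ∀ y j, T y j = y j.succ :=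
      ⟨ContinuousLinearMap.pi fun j => ContinuousLinearMap.proj j.succ, fun _ _ => rfl⟩
    have hf' : ∀ x ∈ K, AnalyticAt ℂ (fun x => T (f x)) x := fun x hx => (T.analyticAt _).comp (hf x hx)
    have hf0 : ∀ x ∈ K, AnalyticAt ℂ (fun x => f x 0) x := fun x hx =>
      ((ContinuousLinearMap.proj (R := ℂ) (φ := fun _ : Fin (m + 1) => ℂ) 0).analyticAt _).comp (hf x hx)
    have hih := ih (T c) hK hf'
    have hsec : ∀ y : Vd m, y ∉ (fun x => T (f x)) '' {x | x ∈ K ∧ ¬ Function.Surjective (fderiv ℂ (fun x => T (f x)) x)} →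
        ((fun x => f x 0) '' {x | x ∈ D ∧ T (f x) = y}).Countable := by
      intro y hc
      refine sardR_lindelof ?_
      rintro x₀ ⟨hx₀, hxc⟩
      have hx₀' := hx₀
      rw [hD] at hx₀'
      have hs : Function.Surjective (fderiv ℂ (fun x => T (f x)) x₀) := by
        by_contra h1
        exact hc ⟨x₀, ⟨hx₀'.1, h1⟩, hxc⟩
      obtain ⟨V, hV, hVc⟩ := sardR_fibre (hf' x₀ hx₀'.1) (hf0 x₀ hx₀'.1) hs
      refine ⟨V, hV, hVc.mono (Set.image_mono ?_)⟩
      rintro x ⟨⟨hxD, hxT⟩, hxV⟩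
      rw [hD] at hxD
      refine ⟨hxV, hxT.trans hxc.symm, fun k hk => ?_⟩
      by_contra hne
      apply hxD.2
      have hxs : Function.Surjective (fderiv ℂ (fun x => T (f x)) x) := by
        by_contra h1
        exact hc ⟨x, ⟨hxD.1, h1⟩, hxT⟩
      have hd := (hf x hxD.1).differentiableAt.hasFDerivAt
      have h1 : ∀ v j, fderiv ℂ (fun x => T (f x)) x v j = fderiv ℂ f x v j.succ := by
        intro v j
        have h2 : HasFDerivAt (fun x => T (f x)) (T.comp (fderiv ℂ f x)) x := T.hasFDerivAt.comp x hd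
        rw [h2.fderiv, ContinuousLinearMap.comp_apply, hT]
      have h2 : ∀ v, fderiv ℂ (fun x => f x 0) x v = fderiv ℂ f x v 0 := by
        intro v
        have h3 := (hasFDerivAt_pi'.1 hd 0).fderiv
        rw [h3]
        rfl
      intro y
      obtain ⟨v, hv⟩ := hxs (T y)
      obtain ⟨α, hα⟩ : ∃ α : ℂ, α = (y 0 - fderiv ℂ f x v 0) / fderiv ℂ f x k 0 := ⟨_, rfl⟩
      rw [h2] at hne
      refine ⟨v + α • k, ?_⟩
      funext j
      rw [map_add, map_smul]
      refine Fin.cases ?_ (fun i => ?_) j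
      · show fderiv ℂ f x v 0 + α * fderiv ℂ f x k 0 = y 0
        rw [hα, div_mul_cancel₀ _ hne]
        ring
      · show fderiv ℂ f x v i.succ + α * fderiv ℂ f x k i.succ = y i.succ
        have h4 := congrFun hv i
        have h5 := congrFun hk i
        rw [h1, hT] at h4
        rw [h1] at h5
        rw [h4, h5]
        simp
    have hmp := volume_preserving_piFinSuccAbove (fun _ : Fin (m + 1) => ℝ) 0
    obtain ⟨e, he⟩ : ∃ e, e = MeasurableEquiv.piFinSuccAbove (fun _ : Fin (m + 1) => ℝ) 0 := ⟨_, rfl⟩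
    rw [← he] at hmp
    have hv1 : volume S = volume (e.symm ⁻¹' S) := by
      have h1 := hmp.measure_preimage_equiv (e.symm ⁻¹' S)
      rw [← h1]
      congr 1
      ext y
      simp
    have hv2 : volume (e.symm ⁻¹' S) = volume (Prod.swap ⁻¹' (e.symm ⁻¹' S) : Set ((Fin m → ℝ) × ℝ)) := by
      have h1 := (Measure.measurePreserving_swap (μ := (volume : Measure (Fin m → ℝ))) (ν := (volume : Measure ℝ))).measure_preimage
        (e.symm.measurable hmeas).nullMeasurableSet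
      exact h1.symm
    rw [hv1, hv2]
    refine Measure.measure_prod_null_of_ae_null (measurable_swap (e.symm.measurable hmeas)) ?_
    have h3 : ∀ᵐ t' : Fin m → ℝ, t' ∉ {t : Fin m → ℝ | ∃ x, (x ∈ K ∧ ¬ Function.Surjective (fderiv ℂ (fun x => T (f x)) x)) ∧ ∀ j, T (f x) j = T c j + (t j : ℂ)} :=
      measure_eq_zero_iff_ae_notMem.1 hih
    filter_upwards [h3] with t' ht'
    have h5 : (fun j => T c j + (t' j : ℂ)) ∉ (fun x => T (f x)) '' {x | x ∈ K ∧ ¬ Function.Surjective (fderiv ℂ (fun x => T (f x)) x)} := by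
      rintro ⟨x, hx, hxe⟩
      exact ht' ⟨x, hx, fun j => congrFun hxe j⟩
    have h6 := hsec _ h5
    have h7 : ((fun τ : ℝ => c 0 + (τ : ℂ)) ⁻¹' ((fun x => f x 0) '' {x | x ∈ D ∧ T (f x) = fun j => T c j + (t' j : ℂ)})).Countable := by
      refine h6.preimage ?_
      intro τ τ' h
      exact Complex.ofReal_injective (add_left_cancel h)
    refine (h7.mono ?_).measure_zero _
    intro τ hτ
    have h8 : e.symm (τ, t') ∈ S := hτ
    have h9 : ∀ j, e.symm (τ, t') j = Fin.cons (α := fun _ => ℝ) τ t' j := by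
      intro j
      rw [he]
      show Fin.insertNth (α := fun _ => ℝ) 0 τ t' j = _
      rw [Fin.insertNth_zero']
    rw [hS] at h8
    obtain ⟨x, hx, hxt⟩ := h8
    have hxD : x ∈ D := by
      rw [hD]
      exact hx
    refine ⟨x, ⟨hxD, ?_⟩, ?_⟩
    · funext j
      rw [hT, hT, hxt, h9]
      rfl
    · show f x 0 = c 0 + (τ : ℂ)
      rw [hxt, h9]
      rfl

/-- the critical values of `f` on the real slice `c + ℝ^p` are a null set -/
theorem slice_sard {d p : ℕ} {f : Vd d → Vd p} {U : Set (Vd d)} (hU : IsOpen U) (hf : ∀ x ∈ U, AnalyticAt ℂ f x) (c : Vd p) :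
    MeasureTheory.volume {t : Fin p → ℝ | ∃ x ∈ U, ¬ Function.Surjective (fderiv ℂ f x) ∧ ∀ j, f x j = c j + (t j : ℂ)} = 0 := by
  have h1 : ∀ x ∈ U, ∃ r : ℝ, 0 < r ∧ closedBall x r ⊆ U := fun x hx => by
    obtain ⟨r, hr, hs⟩ := Metric.isOpen_iff.1 hU x hx
    exact ⟨r / 2, half_pos hr, (closedBall_subset_ball (half_lt_self hr)).trans hs⟩
  choose! r hr hrU using h1
  obtain ⟨s, hsU, hsc, hcov⟩ := TopologicalSpace.countable_cover_nhdsWithin (s := U) (f := fun x => closedBall x (r x))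
    fun x hx => mem_nhdsWithin_of_mem_nhds (closedBall_mem_nhds x (hr x hx))
  refine measure_mono_null ?_ ((measure_biUnion_null_iff hsc).2 fun y (hy : y ∈ s) =>
    sardR_compact p c (isCompact_closedBall y (r y)) fun x hx => hf x (hrU y (hsU hy) hx))
  rintro t ⟨x, hxU, hx, hxt⟩
  obtain ⟨y, hy, hxy⟩ := Set.mem_iUnion₂.1 (hcov hxU)
  exact Set.mem_iUnion₂.2 ⟨y, hy, x, ⟨hxy, hx⟩, hxt⟩

end Pool.Agent.TN
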