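import Pool.Agent.TN.KK
import Pool.Agent.TN.SardR

/-!
# TN NullH: over the real slices the hits are a null set

Let `π : Vd (k + 1) → Vd k` be the linear map `co v e z τ ↦ τ` (`Fin.cons v e` is a basis).  Let `F ∈ G v y` with `y = b + co v e s t`, `S.Hit (F 0)`, `x = F 0`, `i = ix x`, `p = q i x ∈ ball 0 2`.  Then `π ∘ fderiv (β i) p` is not
onto: otherwise, as `v` is in the image of `fderiv (β i) p` (`der_beta`) and `π v = 0`, `fderiv (β i) p` would be onto, so `kap ≠ 0` (`kap_ne_iff`).  `u x - y ∈ Λ` (`z = 0` in the definition of `G`) and `u x - β i p ∈ Λ`, so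
`β i p = y + l`, `π (β i p) = t + π (b + l)`, with `l ∈ Λ`.  So the set is contained in the union over the finitely many `i` and the countably many `l ∈ Λ` of the sets of `slice_sard` for `f = π ∘ β i` on `ball 0 2` and
`c = π (b + l)`.
-/

set_option autoImplicit false

open Topology Filter Metric

namespace Pool.Agent.TN

open Pool.Agent.H36.BP (EN fs wd Sub)
open Pool.Agent.H14.PP (IsCone CurveAt Tan)
open Pool.Agent.H62.EF (MN pr)
open Pool.Agent.H5.BD (BC evp)
open Pool.Agent.AD (Vd Chart Charts TorusMapV DiscreteSub)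
open Pool.Agent.AD.BD (Atlas LC Good qc)

variable {N k : ℕ} {X : Set (EN N)}

/-- the projection `co v e z τ ↦ τ` -/
private theorem NullH_proj {v : Vd (k + 1)} {e : Fin k → Vd (k + 1)} (he : LinearIndependent ℂ (Fin.cons v e : Fin (k + 1) → Vd (k + 1))) :
    ∃ π : Vd (k + 1) →L[ℂ] Vd k, (∀ z τ, π (co v e z τ) = τ) ∧ ∀ w, π w = 0 → ∃ a : ℂ, w = a • v := by
  classical
  let B : Module.Basis (Fin (k + 1)) ℂ (Vd (k + 1)) := basisOfLinearIndependentOfCardEqFinrank he (by simp [Vd])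
  have hB : ∀ j, B j = (Fin.cons v e : Fin (k + 1) → Vd (k + 1)) j := fun j => by simp [B]
  have hB0 : B 0 = v := by rw [hB, Fin.cons_zero]
  have hBs : ∀ j : Fin k, B j.succ = e j := fun j => by rw [hB, Fin.cons_succ]
  let π₀ : Vd (k + 1) →ₗ[ℂ] Vd k := LinearMap.pi fun j => B.coord j.succ
  have hπ : ∀ w j, π₀ w j = B.repr w j.succ := fun w j => rfl
  refine ⟨LinearMap.toContinuousLinearMap π₀, fun z τ => ?_, fun w hw => ?_⟩
  · show π₀ (co v e z τ) = τ
    funext j
    unfold co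
    rw [map_add, map_smul, map_sum]
    simp only [map_smul]
    rw [Pi.add_apply, Pi.smul_apply, Finset.sum_apply]
    simp only [Pi.smul_apply, hπ]
    rw [← hB0, B.repr_self]
    have h1 : ∀ i : Fin k, B.repr (e i) j.succ = if i = j then 1 else 0 := fun i => by
      rw [← hBs, B.repr_self, Finsupp.single_apply]
      simp [Fin.succ_inj]
    simp only [h1]
    rw [Finsupp.single_apply, if_neg (Fin.succ_ne_zero j).symm]
    simp
  · have h1 : ∀ j : Fin k, B.repr w j.succ = 0 := fun j => by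
      have h2 : π₀ w = 0 := hw
      rw [← hπ, h2]
      rfl
    refine ⟨B.repr w 0, ?_⟩
    conv_lhs => rw [← B.sum_repr w, Fin.sum_univ_succ]
    simp only [h1, zero_smul, Finset.sum_const_zero, add_zero, hB0]

private theorem NullH_countable {g : ℕ} {Λ : AddSubgroup (Vd g)} (hΛ : DiscreteSub Λ) : (Λ : Set (Vd g)).Countable := by
  obtain ⟨δ, hδ, hd⟩ := hΛ
  refine Set.PairwiseDisjoint.countable_of_isOpen (s := fun l : Vd g => ball l (δ / 2)) ?_ (fun l _ => isOpen_ball) (fun l _ => ⟨l, mem_ball_self (half_pos hδ)⟩)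
  intro l hl l' hl' hne
  refine Set.disjoint_left.2 fun y hy hy' => hne ?_
  have h1 : ‖l - l'‖ < δ := by
    rw [← dist_eq_norm]
    have h2 := mem_ball.1 hy
    have h3 := mem_ball.1 hy'
    rw [dist_comm] at h2
    linarith [dist_triangle l y l']
  exact sub_eq_zero.1 (hd _ (Λ.sub_mem hl hl') h1)

theorem Setting.null_hits (S : Setting k X) {v : Vd (k + 1)} {e : Fin k → Vd (k + 1)} (he : LinearIndependent ℂ (Fin.cons v e : Fin (k + 1) → Vd (k + 1))) (b : Vd (k + 1)) :
    MeasureTheory.volume {t : Fin k → ℝ | ∃ s : ℂ, ∃ F ∈ S.G v (b + co v e s fun j => (t j : ℂ)), S.Hit (F 0)} = 0 := by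
  obtain ⟨π, hπ, hπ0⟩ := NullH_proj he
  have hπv : π v = 0 := by
    have h1 := hπ 1 0
    unfold co at h1
    simpa using h1
  refine MeasureTheory.measure_mono_null (t := ⋃ i : Fin S.A.n, ⋃ l ∈ (S.Λ : Set (Vd (k + 1))),
    {t : Fin k → ℝ | ∃ p ∈ ball (0 : Vd (k + 2)) 2, ¬ Function.Surjective (fderiv ℂ (fun p => π (S.β i p)) p) ∧ ∀ j, π (S.β i p) j = π (b + l) j + (t j : ℂ)}) ?_ ?_
  · rintro t ⟨s, F, hF, hH⟩
    have hG := hF
    obtain ⟨hd, hX, hu⟩ := hG
    obtain ⟨i, hi⟩ : ∃ i, i = S.ix (F 0) := ⟨_, rfl⟩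
    have hgood : Good (S.A.χ i) (F 0) := by rw [hi]; exact S.good_ix (hX 0)
    have hU : F 0 ∈ (S.A.χ i).U := hgood.2.1
    have hp : S.q i (F 0) ∈ ball (0 : Vd (k + 2)) 2 := ((S.A.χ i).surj (F 0) (hX 0) hU).1
    have hβu := S.β_eq i (F 0) (hX 0) hU
    have hu0 := hu 0
    rw [zero_smul, add_zero] at hu0
    obtain ⟨l, hl⟩ : ∃ l, l = S.β i (S.q i (F 0)) - (b + co v e s fun j => (t j : ℂ)) := ⟨_, rfl⟩
    have hlm : l ∈ S.Λ := by
      have h1 := S.Λ.sub_mem hu0 hβu
      rw [hl]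
      have h2 : S.u (F 0) - (b + co v e s fun j => (t j : ℂ)) - (S.u (F 0) - S.β i ((S.A.χ i).q (F 0))) = S.β i (S.q i (F 0)) - (b + co v e s fun j => (t j : ℂ)) := by
        unfold q
        abel
      rwa [h2] at h1
    refine Set.mem_iUnion.2 ⟨i, Set.mem_iUnion₂.2 ⟨l, hlm, S.q i (F 0), hp, ?_, fun j => ?_⟩⟩
    · intro hs
      have hβan : AnalyticAt ℂ (S.β i) (S.q i (F 0)) := S.β_an i _ hp
      have h1 : fderiv ℂ (fun p => π (S.β i p)) (S.q i (F 0)) = π.comp (fderiv ℂ (S.β i) (S.q i (F 0))) :=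
        (π.hasFDerivAt.comp (S.q i (F 0)) hβan.differentiableAt.hasFDerivAt).fderiv
      rw [h1] at hs
      have h2 : Function.Surjective (fderiv ℂ (S.β i) (S.q i (F 0))) := by
        intro w
        obtain ⟨y, hy⟩ := hs (π w)
        have h3 : π (w - fderiv ℂ (S.β i) (S.q i (F 0)) y) = 0 := by
          rw [map_sub, sub_eq_zero]
          exact hy.symm
        obtain ⟨a, ha⟩ := hπ0 _ h3
        refine ⟨y + a • deriv (fun w => S.q i (F w)) 0, ?_⟩
        rw [map_add, map_smul, S.der_beta hF hU, ← ha]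
        abel
      have h4 : S.kap i (S.q i (F 0)) ≠ 0 := (kap_ne_iff _).2 h2
      refine h4 ?_
      have h5 : S.kap (S.ix (F 0)) (S.q (S.ix (F 0)) (F 0)) = 0 := hH
      rwa [← hi] at h5
    · have h1 : S.β i (S.q i (F 0)) = b + l + co v e s fun j => (t j : ℂ) := by
        rw [hl]
        abel
      rw [h1, map_add, hπ, Pi.add_apply]
  · refine MeasureTheory.measure_iUnion_null fun i => (MeasureTheory.measure_biUnion_null_iff (NullH_countable S.disc)).2 fun l _ => ?_
    refine slice_sard (f := fun p => π (S.β i p)) isOpen_ball (fun p hp => ?_) (π (b + l))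
    exact (π.analyticAt _).comp (S.β_an i p hp)

end Pool.Agent.TN
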