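import Pool.Agent.TN.NullH

/-!
# TN Order: the minors along the curves

Write `θ F z₀ z = S.kap i (S.q i (F z))`, `i = S.ix (F z₀)`, a holomorphic function of `z ∈ ball z₀ r₀` (`LC.good`), bounded by a constant `B` uniformly.

* `reach_sum`: if all the `e j` are reachable then also the real combinations (the closure of `ℂ v + Λ` is a group).
* `hit_iso`: otherwise the holomorphic function `θ` vanishes near `z₀` (identity theorem), and the set of the `z` such that all points near `z` are hits is open and closed, so all the `F z` are hits.  Let `e` be the basis of `Dir`; for every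
  `t : Fin k → ℝ` there are `z n`, `l n ∈ Λ` with `z n v + l n → ∑ t_j e_j`; the translates `F (· + z n) ∈ G v (b + z n v + l n)` have a limit `H ∈ G v (b + ∑ t_j e_j)` (`exists_limit_of`), and `H 0` is a hit (in a chart `i` good at
  `H 0`: `kap i (q i (F (z n))) = 0` tends to `kap i (q i (H 0))`).  So the set of `null_hits` (with `s = 0`) is everything, contradiction (`volume univ ≠ 0` on `Fin k → ℝ`).
* `exists_lower`, `exists_order`: as in `TH/Order.lean`.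
-/

set_option autoImplicit false

open Topology Filter Metric

namespace Pool.Agent.TN

open Pool.Agent.H36.BP (EN fs wd Sub)
open Pool.Agent.H14.PP (IsCone CurveAt Tan)
open Pool.Agent.H62.EF (MN pr)
open Pool.Agent.H5.BD (BC evp)
open Pool.Agent.AD (Vd Chart Charts TorusMapV DiscreteSub)
open Pool.Agent.AD.BD (Atlas LC Good qc)

variable {N k : ℕ} {X : Set (EN N)}

/-- a sequence of indices is constant along an ultrafilter -/
private theorem Order_const {n : ℕ} (𝒰 : Ultrafilter ℕ) (i : ℕ → Fin n) : ∃ j, ∀ᶠ m in (𝒰 : Filter ℕ), i m = j := by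
  obtain ⟨j, hj⟩ := Ultrafilter.eq_pure_of_finite (𝒰.map i)
  refine ⟨j, ?_⟩
  have h1 : ({j} : Set (Fin n)) ∈ 𝒰.map i := by
    rw [hj]
    exact Set.mem_singleton j
  exact h1

/-- the good part of a chart is closed -/
private theorem Order_good_limit (hX : IsCone X) {χ : Chart (k + 2) X} {𝒰 : Ultrafilter ℕ} {x : ℕ → EN N} {y : EN N} (hy : y ∈ X)
    (hx : ∀ᶠ n in (𝒰 : Filter ℕ), Good χ (x n)) (h : Tendsto (fun n => pr (x n)) 𝒰 (𝓝 (pr y))) : Good χ y := by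
  have h1 : ∀ᶠ n in (𝒰 : Filter ℕ), χ.q (x n) ∈ closedBall (0 : Vd (k + 2)) (1 / 2) ∧ pr (χ.σ (χ.q (x n))) = pr (x n) := by
    filter_upwards [hx] with n hn
    obtain ⟨-, c, hc, h2⟩ := χ.surj (x n) hn.1 hn.2.1
    refine ⟨by rw [mem_closedBall_zero_iff]; exact hn.2.2, ?_⟩
    conv_rhs => rw [h2, Pool.Agent.H62.EF.pr_smul _ hc]
  have h2 : ((𝒰.map fun n => χ.q (x n) : Ultrafilter (Vd (k + 2))) : Filter (Vd (k + 2))) ≤ 𝓟 (closedBall (0 : Vd (k + 2)) (1 / 2)) := by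
    rw [Ultrafilter.coe_map, le_principal_iff, mem_map]
    filter_upwards [h1] with n hn
    exact hn.1
  obtain ⟨q, hq, hq2⟩ := (isCompact_closedBall (0 : Vd (k + 2)) (1 / 2)).ultrafilter_le_nhds _ h2
  have hq3 : Tendsto (fun n => χ.q (x n)) 𝒰 (𝓝 q) := hq2
  rw [mem_closedBall_zero_iff] at hq
  have hqb : q ∈ ball (0 : Vd (k + 2)) 2 := by
    rw [mem_ball_zero_iff]
    linarith
  obtain ⟨hσX, hU, hq4⟩ := χ.σ_mem q hqb
  have hne : χ.σ q ≠ 0 := fun h0 => hX.zero_notMem (h0 ▸ hσX)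
  have hy0 : y ≠ 0 := fun h0 => hX.zero_notMem (h0 ▸ hy)
  have h3 : Tendsto (fun n => pr (χ.σ (χ.q (x n)))) 𝒰 (𝓝 (pr (χ.σ q))) :=
    (Pool.Agent.H62.EF.continuousAt_pr hne).tendsto.comp ((χ.σ_an q hqb).continuousAt.tendsto.comp hq3)
  have h4 : Tendsto (fun n => pr (x n)) 𝒰 (𝓝 (pr (χ.σ q))) := by
    refine h3.congr' ?_
    filter_upwards [h1] with n hn
    exact hn.2
  obtain ⟨c, hc, h5⟩ := (Pool.Agent.H62.EF.pr_eq_iff hy0 hne).1 (tendsto_nhds_unique h h4)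
  refine ⟨hy, h5 ▸ χ.smul_U _ hU c hc, ?_⟩
  rw [h5, χ.q_smul _ hU c hc, hq4]
  exact hq

/-- an entire curve is nowhere constant on the zeros of a nontrivial holomorphic function: finitely many zeros in a compact set -/
private theorem Order_finite {f : ℂ → Prop} {K : Set ℂ} (hK : IsCompact K) (h : ∀ z ∈ K, ∀ᶠ w in 𝓝[≠] z, ¬ f w) : {z ∈ K | f z}.Finite := by
  by_contra hinf
  obtain ⟨a, ha, hacc⟩ := Set.Infinite.exists_accPt_of_subset_isCompact hinf hK (Set.sep_subset _ _)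
  rw [accPt_iff_frequently_nhdsNE] at hacc
  exact hacc ((h a ha).mono fun w hw hw2 => hw hw2.2)

/-- a radius which avoids a finite set -/
private theorem Order_radius {Z : Set ℂ} (hZ : Z.Finite) {a b : ℝ} (hab : a < b) : ∃ s ∈ Set.Icc a b, ∀ z ∈ Z, ‖z‖ ≠ s := by
  have h1 : ((fun z : ℂ => ‖z‖) '' Z).Finite := hZ.image _
  obtain ⟨s, hs, hs2⟩ := (Set.Icc_infinite hab).exists_notMem_finite h1
  exact ⟨s, hs, fun z hz h => hs2 ⟨z, hz, h⟩⟩

namespace Setting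

variable (S : Setting k X)

theorem reach_sum {v : Vd (k + 1)} {e : Fin k → Vd (k + 1)} (he : ∀ j, S.Reach v (e j)) (t : Fin k → ℝ) : S.Reach v (∑ j, (t j : ℂ) • e j) := by
  intro s ε hε
  have hk : (0 : ℝ) < (k : ℝ) + 1 := by positivity
  choose z l hl h using fun j => he j (s * t j) (ε / ((k : ℝ) + 1)) (by positivity)
  refine ⟨∑ j, z j, ∑ j, l j, S.Λ.sum_mem fun j _ => hl j, ?_⟩
  have h1 : (∑ j, z j) • v + ∑ j, l j - (s : ℂ) • ∑ j, (t j : ℂ) • e j = ∑ j, (z j • v + l j - ((s * t j : ℝ) : ℂ) • e j) := by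
    rw [Finset.sum_sub_distrib, Finset.sum_add_distrib, Finset.sum_smul, Finset.smul_sum]
    congr 1
    refine Finset.sum_congr rfl fun j _ => ?_
    rw [smul_smul]
    push_cast
    rfl
  rw [h1]
  calc ‖∑ j, (z j • v + l j - ((s * t j : ℝ) : ℂ) • e j)‖ ≤ ∑ j, ‖z j • v + l j - ((s * t j : ℝ) : ℂ) • e j‖ := norm_sum_le _ _
    _ ≤ ∑ _j : Fin k, ε / ((k : ℝ) + 1) := Finset.sum_le_sum fun j _ => (h j).le
    _ = (k : ℝ) * (ε / ((k : ℝ) + 1)) := by rw [Finset.sum_const, Finset.card_univ, Fintype.card_fin, nsmul_eq_mul]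
    _ < ε := by
      rw [← mul_div_assoc, div_lt_iff₀ hk]
      nlinarith

/-- near every point of the line the hits are isolated or everything is a hit -/
private theorem Order_alt {v b : Vd (k + 1)} {F : ℂ → EN N} (hF : F ∈ S.G v b) (z₁ : ℂ) : (∀ᶠ z in 𝓝 z₁, S.Hit (F z)) ∨ ∀ᶠ z in 𝓝[≠] z₁, ¬ S.Hit (F z) := by
  have hg := S.good_ix (hF.2.1 z₁)
  have hq : S.q (S.ix (F z₁)) (F z₁) ∈ ball (0 : Vd (k + 2)) 2 := by
    rw [mem_ball_zero_iff]
    have := hg.2.2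
    show ‖(S.A.χ (S.ix (F z₁))).q (F z₁)‖ < 2
    linarith
  have han : AnalyticAt ℂ (fun z => S.kap (S.ix (F z₁)) (S.q (S.ix (F z₁)) (F z))) z₁ :=
    AnalyticAt.comp (g := S.kap (S.ix (F z₁))) (f := fun z => S.q (S.ix (F z₁)) (F z)) (S.kap_an _ hq)
      (S.q_an ⟨hF.1.analyticAt z₁, Eventually.of_forall hF.2.1⟩ hg.2.1)
  have hU : ∀ᶠ z in 𝓝 z₁, F z ∈ (S.A.χ (S.ix (F z₁))).U := (hF.1.continuous.tendsto z₁).eventually ((S.A.χ (S.ix (F z₁))).isOpen_U.mem_nhds hg.2.1)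
  rcases han.eventually_eq_zero_or_eventually_ne_zero with h | h
  · left
    filter_upwards [h, hU] with z h1 h2
    exact (S.hit_of_kap (hF.2.1 z) h2).1 h1
  · right
    filter_upwards [h, mem_nhdsWithin_of_mem_nhds hU] with z h1 h2 h3
    exact h1 ((S.hit_of_kap (hF.2.1 z) h2).2 h3)

/-- if the hits are not isolated then everything is a hit -/
private theorem Order_all {v b : Vd (k + 1)} {F : ℂ → EN N} (hF : F ∈ S.G v b) {z₀ : ℂ} (h0 : ∀ᶠ z in 𝓝 z₀, S.Hit (F z)) (z : ℂ) : S.Hit (F z) := by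
  have hop : IsOpen {z₁ : ℂ | ∀ᶠ z in 𝓝 z₁, S.Hit (F z)} := isOpen_iff_mem_nhds.2 fun z₁ hz₁ => eventually_eventually_nhds.2 hz₁
  have hcl : IsClosed {z₁ : ℂ | ∀ᶠ z in 𝓝 z₁, S.Hit (F z)} := by
    rw [← isOpen_compl_iff, isOpen_iff_mem_nhds]
    intro z₁ hz₁
    have h1 : ∀ᶠ z in 𝓝[≠] z₁, ¬ S.Hit (F z) := (S.Order_alt hF z₁).resolve_left hz₁
    rw [eventually_nhdsWithin_iff] at h1
    rw [← eventually_eventually_nhds] at h1
    filter_upwards [h1] with z₂ h2 h3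
    by_cases h4 : z₂ = z₁
    · exact hz₁ (h4 ▸ h3)
    · have h5 : ∀ᶠ z in 𝓝 z₂, z ≠ z₁ := isOpen_ne.mem_nhds h4
      obtain ⟨w, ⟨h6, h7⟩, h8⟩ := ((h2.and h5).and h3).exists
      exact h6 h7 h8
  have huniv := IsClopen.eq_univ ⟨hcl, hop⟩ ⟨z₀, h0⟩
  have h1 : z ∈ {z₁ : ℂ | ∀ᶠ z in 𝓝 z₁, S.Hit (F z)} := huniv ▸ Set.mem_univ z
  exact h1.self_of_nhds

/-- the hits are isolated -/
theorem hit_iso {v : Vd (k + 1)} (hD : S.Dir v) {b : Vd (k + 1)} {F : ℂ → EN N} (hF : F ∈ S.G v b) (z₀ : ℂ) : ∀ᶠ z in 𝓝[≠] z₀, ¬ S.Hit (F z) := by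
  rcases S.Order_alt hF z₀ with h0 | h0
  swap
  · exact h0
  exfalso
  have hall := S.Order_all hF h0
  obtain ⟨e, hli, hre⟩ := hD.basis
  have hset : {t : Fin k → ℝ | ∃ s : ℂ, ∃ F ∈ S.G v (b + co v e s fun j => (t j : ℂ)), S.Hit (F 0)} = Set.univ := by
    rw [Set.eq_univ_iff_forall]
    intro t
    have hw := S.reach_sum hre t
    choose z l hl h using fun n : ℕ => hw 1 (1 / ((n : ℝ) + 1)) (by positivity)
    have hG : ∀ n, (fun y => F (y + z n)) ∈ S.G v (b + z n • v + l n) := fun n => by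
      rw [S.G_lat v (b + z n • v) (hl n)]
      exact S.G_trans hF (z n)
    have hlim : Tendsto (fun n => b + z n • v + l n) (hyperfilter ℕ) (𝓝 (b + ∑ j, (t j : ℂ) • e j)) := by
      have h1 : Tendsto (fun n : ℕ => 1 / ((n : ℝ) + 1)) (hyperfilter ℕ) (𝓝 0) := tendsto_one_div_add_atTop_nhds_zero_nat.mono_left Nat.hyperfilter_le_atTop
      have h2 : Tendsto (fun n => z n • v + l n - ∑ j, (t j : ℂ) • e j) (hyperfilter ℕ) (𝓝 0) := by
        refine squeeze_zero_norm (fun n => ?_) h1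
        have := (h n).le
        rwa [Complex.ofReal_one, one_smul] at this
      have h3 := h2.const_add (b + ∑ j, (t j : ℂ) • e j)
      rw [add_zero] at h3
      refine h3.congr fun n => ?_
      abel
    obtain ⟨H, hH, hconv⟩ := S.exists_limit_of hD.ne (hyperfilter ℕ) _ _ hlim (fun n y => F (y + z n)) (Eventually.of_forall hG)
    refine ⟨0, H, ?_, ?_⟩
    · unfold co
      rw [zero_smul, zero_add]
      exact hH
    · have hg := S.good_ix (hH.2.1 0)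
      obtain ⟨r, hr, h1, -, h3⟩ := hconv.chart 0 _ hg
      have hq : S.q (S.ix (H 0)) (H 0) ∈ ball (0 : Vd (k + 2)) 2 := by
        rw [mem_ball_zero_iff]
        have := hg.2.2
        show ‖(S.A.χ (S.ix (H 0))).q (H 0)‖ < 2
        linarith
      have h4 : Tendsto (fun n => S.q (S.ix (H 0)) (F (0 + z n))) (hyperfilter ℕ) (𝓝 (S.q (S.ix (H 0)) (H 0))) := h3.tendsto_at (mem_ball_self hr)
      have h5 : Tendsto (fun n => S.kap (S.ix (H 0)) (S.q (S.ix (H 0)) (F (0 + z n)))) (hyperfilter ℕ) (𝓝 (S.kap (S.ix (H 0)) (S.q (S.ix (H 0)) (H 0)))) :=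
        (S.kap_an _ hq).continuousAt.tendsto.comp h4
      have h6 : Tendsto (fun n => S.kap (S.ix (H 0)) (S.q (S.ix (H 0)) (F (0 + z n)))) (hyperfilter ℕ) (𝓝 0) := by
        refine tendsto_const_nhds.congr' ?_
        filter_upwards [h1] with n hn
        exact ((S.hit_of_kap (hF.2.1 _) (hn 0 (mem_ball_self hr))).2 (hall _)).symm
      exact (S.hit_of_kap (hH.2.1 0) hg.2.1).1 (tendsto_nhds_unique h5 h6)
  have h1 := S.null_hits hli b
  rw [hset] at h1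
  exact (isOpen_univ.measure_pos MeasureTheory.volume Set.univ_nonempty).ne' h1

/-- the form is bounded -/
private theorem Order_kap_bdd : ∃ B : ℝ, 0 < B ∧ ∀ i p, ‖p‖ ≤ 1 / 2 → ‖S.kap i p‖ ≤ B := by
  have h1 : ∀ i, ∃ B : ℝ, ∀ p ∈ closedBall (0 : Vd (k + 2)) (1 / 2), ‖S.kap i p‖ ≤ B := fun i =>
    (isCompact_closedBall (0 : Vd (k + 2)) (1 / 2)).exists_bound_of_continuousOn fun p hp =>
      (S.kap_an i (by rw [mem_closedBall_zero_iff] at hp; rw [mem_ball_zero_iff]; linarith)).continuousAt.continuousWithinAt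
  choose B hB using h1
  refine ⟨1 + ∑ i, |B i|, by positivity, fun i p hp => (hB i p (by rwa [mem_closedBall_zero_iff])).trans ?_⟩
  have h2 : |B i| ≤ ∑ i, |B i| := Finset.single_le_sum (f := fun i => |B i|) (fun i _ => abs_nonneg _) (Finset.mem_univ i)
  linarith [le_abs_self (B i)]

theorem exists_lower {v : Vd (k + 1)} (hD : S.Dir v) {c L r₀ c₁ K : ℝ} (h : S.Dat v c L r₀ c₁ K) {s : ℝ} (hs : 0 < s) (hs' : s ≤ r₀ / 2) :
    ∃ c₂ : ℝ, 0 < c₂ ∧ ∀ b, ∀ F ∈ S.G v b, ∀ z₀, ∃ s' ∈ Set.Icc (s / 2) s, ∀ z, ‖z - z₀‖ = s' → c₂ ≤ ‖S.kap (S.ix (F z₀)) (S.q (S.ix (F z₀)) (F z))‖ := by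
  by_contra hcon
  push Not at hcon
  have hn : ∀ n : ℕ, ∃ b, ∃ F ∈ S.G v b, ∃ z₀, ∀ s' ∈ Set.Icc (s / 2) s, ∃ z, ‖z - z₀‖ = s' ∧
      ‖S.kap (S.ix (F z₀)) (S.q (S.ix (F z₀)) (F z))‖ < 1 / ((n : ℝ) + 1) := fun n => hcon _ (by positivity)
  choose b F hF z₀ hz using hn
  set G : ℕ → ℂ → EN N := fun n z => F n (z + z₀ n) with hG
  have hGm : ∀ n, G n ∈ S.G v (b n + z₀ n • v) := fun n => S.G_trans (hF n) (z₀ n)
  have hr₀ := h.lc.r₀_pos
  obtain ⟨b₀, l, H, -, -, hH, hconv⟩ := S.exists_limit hD.ne (hyperfilter ℕ) _ G (Eventually.of_forall hGm)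
  obtain ⟨j, hj⟩ := Order_const (hyperfilter ℕ) fun n => S.ix (G n 0)
  -- the points of the disc are in the chart `j`
  have hgG : ∀ᶠ n in (hyperfilter ℕ : Filter ℕ), ∀ z ∈ ball (0 : ℂ) r₀, Good (S.A.χ j) (G n z) := by
    filter_upwards [hj] with n hn z hzb
    rw [← hn]
    exact h.lc.good (G n) (h.sub _ (hGm n)) (G n 0) ((hGm n).2.1 0) 0 (by rw [dist_self]; have := S.A.δ_pos; positivity) z hzb
  have hpt : ∀ z, Tendsto (fun n => pr (G n z)) (hyperfilter ℕ) (𝓝 (pr (H z))) := by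
    intro z
    rw [Metric.tendsto_nhds]
    intro ε hε
    filter_upwards [hconv.unif ‖z‖ (ε / 2) (half_pos hε)] with n hn
    have := hn z le_rfl
    unfold pd at this
    linarith
  have hgH : ∀ z ∈ ball (0 : ℂ) r₀, Good (S.A.χ j) (H z) := fun z hzb =>
    Order_good_limit S.cone (hH.2.1 z) (hgG.mono fun n hn => hn z hzb) (hpt z)
  -- the radius
  have hsub : closedBall (0 : ℂ) s ⊆ ball (0 : ℂ) r₀ := closedBall_subset_ball (by linarith)
  obtain ⟨s', hs1, hs2⟩ := Order_radius (Order_finite (isCompact_closedBall (0 : ℂ) s) fun z _ => S.hit_iso hD hH z) (half_lt_self hs)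
  choose w hw1 hw2 using fun n => hz n s' hs1
  have hwb : ∀ n, w n - z₀ n ∈ sphere (0 : ℂ) s' := fun n => by rw [mem_sphere_zero_iff_norm]; exact hw1 n
  have h2 : (((hyperfilter ℕ).map fun n => w n - z₀ n : Ultrafilter ℂ) : Filter ℂ) ≤ 𝓟 (sphere (0 : ℂ) s') := by
    rw [Ultrafilter.coe_map, le_principal_iff, mem_map]
    exact Eventually.of_forall hwb
  obtain ⟨a, ha, ha2⟩ := (isCompact_sphere (0 : ℂ) s').ultrafilter_le_nhds _ h2
  have ha3 : Tendsto (fun n => w n - z₀ n) (hyperfilter ℕ) (𝓝 a) := ha2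
  rw [mem_sphere_zero_iff_norm] at ha
  have hacb : a ∈ closedBall (0 : ℂ) s := by
    rw [mem_closedBall_zero_iff, ha]
    exact hs1.2
  have hab : a ∈ ball (0 : ℂ) r₀ := hsub hacb
  have hga := hgH a hab
  have hnohit : ¬ S.Hit (H a) := fun hh => hs2 a ⟨hacb, hh⟩ ha
  obtain ⟨r, hr, -, hrH, hr2⟩ := hconv.chart a j hga
  have hqa : S.q j (H a) ∈ ball (0 : Vd (k + 2)) 2 := by
    rw [mem_ball_zero_iff]
    have := hga.2.2
    show ‖(S.A.χ j).q (H a)‖ < 2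
    linarith
  have hcont : ContinuousAt (fun z => S.q j (H z)) a := (S.q_an ⟨hH.1.analyticAt a, Eventually.of_forall hH.2.1⟩ hga.2.1).continuousAt
  have h3 : Tendsto (fun n => S.q j (G n (w n - z₀ n))) (hyperfilter ℕ) (𝓝 (S.q j (H a))) := by
    refine tendsto_comp_of_locally_uniform_limit (F := fun n z => S.q j (G n z)) (f := fun z => S.q j (H z)) hcont ha3 fun u hu => ?_
    obtain ⟨t, ht, ht2⟩ := hr2 u hu a (mem_ball_self hr)
    exact ⟨t, by rwa [isOpen_ball.nhdsWithin_eq (mem_ball_self hr)] at ht, ht2⟩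
  have h4 : Tendsto (fun n => ‖S.kap j (S.q j (G n (w n - z₀ n)))‖) (hyperfilter ℕ) (𝓝 ‖S.kap j (S.q j (H a))‖) :=
    ((S.kap_an j hqa).continuousAt.tendsto.comp h3).norm
  have h5 : Tendsto (fun n => ‖S.kap j (S.q j (G n (w n - z₀ n)))‖) (hyperfilter ℕ) (𝓝 0) := by
    refine squeeze_zero' (g := fun n : ℕ => 1 / ((n : ℝ) + 1)) (Eventually.of_forall fun n => norm_nonneg _) ?_ ?_
    · filter_upwards [hj] with n hn
      have h6 := (hw2 n).le
      have h7 : G n (w n - z₀ n) = F n (w n) := by simp [hG]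
      have h8 : G n 0 = F n (z₀ n) := by simp [hG]
      rw [h7, ← hn, h8]
      exact h6
    · exact tendsto_one_div_add_atTop_nhds_zero_nat.mono_left (Nat.hyperfilter_le_atTop)
  have h6 := tendsto_nhds_unique h4 h5
  exact hnohit ((S.hit_of_kap (hH.2.1 a) hga.2.1).1 (norm_eq_zero.1 h6))

theorem exists_order {v : Vd (k + 1)} (hD : S.Dir v) : ∃ N₀ : ℕ, ∀ b, ∀ F ∈ S.G v b, ∀ z₀, ∃ (m : ℕ) (g : ℂ → Vd (k + 2)), m ≤ N₀ ∧ AnalyticAt ℂ g z₀ ∧ g z₀ ≠ 0 ∧
    ∀ᶠ z in 𝓝 z₀, S.kap (S.ix (F z₀)) (S.q (S.ix (F z₀)) (F z)) = (z - z₀) ^ m • g z := by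
  obtain ⟨c, L, r₀, c₁, K, h⟩ := S.exists_dat hD.ne
  have hr₀ := h.lc.r₀_pos
  obtain ⟨c₂, hc₂, hlow⟩ := S.exists_lower hD h (s := r₀ / 4) (by positivity) (by linarith)
  obtain ⟨B, hB, hBb⟩ := S.Order_kap_bdd
  obtain ⟨N₀, hN₀⟩ := exists_pow_lt_of_lt_one (show 0 < c₂ / B by positivity) (show (1 / 2 : ℝ) < 1 by norm_num)
  refine ⟨N₀, fun b F hF z₀ => ?_⟩
  set i := S.ix (F z₀) with hi
  set θ : ℂ → Vd (k + 2) := fun z => S.kap i (S.q i (F z)) with hθ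
  have hgood : ∀ z ∈ ball z₀ r₀, Good (S.A.χ i) (F z) := fun z hzb =>
    h.lc.good F (h.sub b hF) (F z₀) (hF.2.1 z₀) z₀ (by rw [dist_self]; have := S.A.δ_pos; positivity) z hzb
  have hqb : ∀ z ∈ ball z₀ r₀, S.q i (F z) ∈ ball (0 : Vd (k + 2)) 2 := by
    intro z hzb
    rw [mem_ball_zero_iff]
    have := (hgood z hzb).2.2
    show ‖(S.A.χ i).q (F z)‖ < 2
    linarith
  have hθan : ∀ z ∈ ball z₀ r₀, AnalyticAt ℂ θ z := fun z hzb =>
    AnalyticAt.comp (g := S.kap i) (f := fun z => S.q i (F z)) (S.kap_an i (hqb z hzb)) (S.q_an ⟨hF.1.analyticAt z, Eventually.of_forall hF.2.1⟩ (hgood z hzb).2.1)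
  have hθB : ∀ z ∈ ball z₀ r₀, ‖θ z‖ ≤ B := fun z hzb => hBb i _ (hgood z hzb).2.2
  have hz₀ : z₀ ∈ ball z₀ r₀ := mem_ball_self hr₀
  have hne : ¬ ∀ᶠ z in 𝓝 z₀, θ z = 0 := by
    intro h0
    have h1 : ∀ᶠ z in 𝓝[≠] z₀, False := by
      filter_upwards [mem_nhdsWithin_of_mem_nhds h0, S.hit_iso hD hF z₀, mem_nhdsWithin_of_mem_nhds (ball_mem_nhds z₀ hr₀)] with z h1 h2 h3
      exact h2 ((S.hit_of_kap (hF.2.1 z) (hgood z h3).2.1).1 h1)
    exact h1.exists.choose_spec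
  obtain ⟨m, g, hg, hg0, hgθ⟩ := (hθan z₀ hz₀).exists_eventuallyEq_pow_smul_nonzero_iff.2 hne
  refine ⟨m, g, ?_, hg, hg0, hgθ⟩
  by_contra hk
  push Not at hk
  -- the quotient
  classical
  set f : ℂ → Vd (k + 2) := Function.update (fun z => ((z - z₀) ^ m)⁻¹ • θ z) z₀ (g z₀) with hf
  have hfne : ∀ z, z ≠ z₀ → f z = ((z - z₀) ^ m)⁻¹ • θ z := fun z hz => by rw [hf, Function.update_of_ne hz]
  have hfg : ∀ᶠ z in 𝓝 z₀, f z = g z := by
    filter_upwards [hgθ] with z hz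
    rcases eq_or_ne z z₀ with rfl | hzz
    · rw [hf, Function.update_self]
    · rw [hfne z hzz, hz, smul_smul, inv_mul_cancel₀ (pow_ne_zero m (sub_ne_zero.2 hzz)), one_smul]
  have hfd : ∀ z ∈ ball z₀ r₀, DifferentiableAt ℂ f z := by
    intro z hzb
    rcases eq_or_ne z z₀ with rfl | hzz
    · exact hg.differentiableAt.congr_of_eventuallyEq hfg
    · have h0 : DifferentiableAt ℂ (fun z : ℂ => (z - z₀) ^ m) z := by fun_prop
      have h1 : DifferentiableAt ℂ (fun z => ((z - z₀) ^ m)⁻¹ • θ z) z :=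
        (h0.inv (pow_ne_zero m (sub_ne_zero.2 hzz))).smul (hθan z hzb).differentiableAt
      refine h1.congr_of_eventuallyEq ?_
      filter_upwards [isOpen_ne.mem_nhds hzz] with y hy
      exact hfne y hy
  set ρ : ℝ := r₀ / 2 with hρ
  have hρ0 : 0 < ρ := by positivity
  have hsub : closedBall z₀ ρ ⊆ ball z₀ r₀ := closedBall_subset_ball (by rw [hρ]; linarith)
  have hmax : ∀ z ∈ closedBall z₀ ρ, ‖f z‖ ≤ B / ρ ^ m := by
    intro z hzb
    have h1 : DiffContOnCl ℂ f (ball z₀ ρ) := by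
      refine DifferentiableOn.diffContOnCl fun y hy => ?_
      rw [closure_ball z₀ hρ0.ne'] at hy
      exact (hfd y (hsub hy)).differentiableWithinAt
    refine Complex.norm_le_of_forall_mem_frontier_norm_le isBounded_ball h1 (fun y hy => ?_) (by rwa [closure_ball z₀ hρ0.ne'])
    rw [frontier_ball z₀ hρ0.ne', mem_sphere, dist_eq_norm] at hy
    have hyz : y ≠ z₀ := by
      rintro rfl
      rw [sub_self, norm_zero] at hy
      exact hρ0.ne hy
    rw [hfne y hyz, norm_smul, norm_inv, norm_pow, hy, inv_mul_eq_div]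
    refine div_le_div_of_nonneg_right (hθB y (hsub ?_)) (by positivity)
    rw [mem_closedBall, dist_eq_norm, hy]
  obtain ⟨s', hs1, hs2⟩ := hlow b F hF z₀
  have hs0 : 0 < s' := lt_of_lt_of_le (by positivity) hs1.1
  set z : ℂ := z₀ + (s' : ℂ) with hz
  have hzn : ‖z - z₀‖ = s' := by
    rw [hz, add_sub_cancel_left, Complex.norm_real, Real.norm_of_nonneg hs0.le]
  have hzz : z ≠ z₀ := by
    intro h0
    rw [h0, sub_self, norm_zero] at hzn
    exact hs0.ne hzn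
  have h1 : c₂ ≤ ‖θ z‖ := hs2 z hzn
  have hzc : z ∈ closedBall z₀ ρ := by
    rw [mem_closedBall, dist_eq_norm, hzn, hρ]
    have := hs1.2
    linarith
  have h2 := hmax z hzc
  rw [hfne z hzz, norm_smul, norm_inv, norm_pow, hzn, inv_mul_eq_div, div_le_div_iff₀ (by positivity) (by positivity)] at h2
  have h3 : s' ^ m ≤ (ρ * (1 / 2)) ^ m := pow_le_pow_left₀ hs0.le (by rw [hρ]; have := hs1.2; linarith) m
  have h4 : c₂ * ρ ^ m ≤ B * (ρ ^ m * (1 / 2) ^ m) := by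
    calc c₂ * ρ ^ m ≤ ‖θ z‖ * ρ ^ m := mul_le_mul_of_nonneg_right h1 (by positivity)
      _ ≤ B * s' ^ m := h2
      _ ≤ B * (ρ * (1 / 2)) ^ m := mul_le_mul_of_nonneg_left h3 hB.le
      _ = B * (ρ ^ m * (1 / 2) ^ m) := by rw [mul_pow]
  have h5 : c₂ ≤ B * (1 / 2) ^ m := by
    have hρm : 0 < ρ ^ m := by positivity
    refine le_of_mul_le_mul_right ?_ hρm
    calc c₂ * ρ ^ m ≤ B * (ρ ^ m * (1 / 2) ^ m) := h4
      _ = B * (1 / 2) ^ m * ρ ^ m := by ring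
  have h6 : (1 / 2 : ℝ) ^ m ≤ (1 / 2) ^ N₀ := pow_le_pow_of_le_one (by norm_num) (by norm_num) hk.le
  have h7 : B * (1 / 2) ^ N₀ < c₂ := by
    rw [lt_div_iff₀ hB] at hN₀
    linarith
  have h8 : B * (1 / 2 : ℝ) ^ m ≤ B * (1 / 2) ^ N₀ := mul_le_mul_of_nonneg_left h6 hB.le
  linarith

end Setting

end Pool.Agent.TN
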