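import Pool.Agent.TN.App

/-!
# TN Pair: pairs of curves

Let `F ∈ G v b`, `G ∈ G v b'`, `w = b' - b - l`, `l ∈ Λ`, and `pd F G ≤ ε₁` on `ball z₁ ρ`, `ε₁` small.

* `dsp_le`, `le_dsp`: `pd F G z ≤ δ` implies `Good (χ (ix (F z))) (G z)`, and `Atlas.dist_le`, `Atlas.le_dist`.
* `dsp_hol`: for `z ∈ ball z₀ r` (`r ≤ r₀`, `L r` and `ε₁` small against `δ`) put `h z = q i₀ (G z) - q i₀ (F z)`, `i₀ = ix (F z₀)`: `Atlas.trans` gives
  `‖T (ix (F z)) i₀ (F z) (dsp z) - h z‖ ≤ C ‖dsp z‖²`.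
* `dsp_ver`: `β i (q i (G z)) - β i (q i (F z)) - w ∈ Λ` is small if `ε₁` and `‖w‖` are small, so `0`; Taylor: `‖dβ (dsp z) - w‖ ≤ C ‖dsp z‖²` (`C` uniform: second derivatives of `β i`
  on the compact convex set `closedBall 0 1`; see `AD/BD/AtlB`: `CAtlB_second`).
* `pair_max`: apply `approx` to `ξ z = exp (a (z - z₁)) / (2 ‖dsp z₁‖) • dsp z`: error `≤ C ‖dsp z‖ ‖ξ z‖ ≤ C² ε₁ exp (κ ρ²) ≤ ε`, and `‖dβ (ξ z)‖ ≤` this `+ ε₂ / 2`.
  (The hypothesis on `w` implies that `‖w‖ ≤ ε₂ ‖dsp z₁‖` is small.)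
-/

set_option autoImplicit false

open Topology Filter Metric

namespace Pool.Agent.TN

open Pool.Agent.H36.BP (EN fs wd Sub)
open Pool.Agent.H14.PP (IsCone CurveAt Tan)
open Pool.Agent.H62.EF (MN pr)
open Pool.Agent.H5.BD (BC evp)
open Pool.Agent.AD (Vd Chart Charts TorusMapV DiscreteSub)
open Pool.Agent.AD.BD (Atlas LC Good qc)

variable {N k : ℕ} {X : Set (EN N)}

/-- second order bound for an analytic map on a ball, first order bound on the half of its radius -/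
private theorem Pair_beta {β : Vd (k + 2) → Vd (k + 1)} (h : ∀ p ∈ ball (0 : Vd (k + 2)) 2, AnalyticAt ℂ β p) :
    ∃ B : ℝ, 1 ≤ B ∧ (∀ p ∈ closedBall (0 : Vd (k + 2)) 1, ∀ p' ∈ closedBall (0 : Vd (k + 2)) 1, ‖β p' - β p‖ ≤ B * ‖p' - p‖) ∧
      ∀ p ∈ closedBall (0 : Vd (k + 2)) 1, ∀ p' ∈ closedBall (0 : Vd (k + 2)) 1, ‖β p' - β p - fderiv ℂ β p (p' - p)‖ ≤ B * ‖p' - p‖ ^ 2 := by
  have hsub : closedBall (0 : Vd (k + 2)) 1 ⊆ ball (0 : Vd (k + 2)) 2 := closedBall_subset_ball (by norm_num)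
  have hcv : Convex ℝ (closedBall (0 : Vd (k + 2)) 1) := convex_closedBall _ _
  have hcp : IsCompact (closedBall (0 : Vd (k + 2)) 1) := isCompact_closedBall _ _
  have hc1 : ContinuousOn (fun p => ‖fderiv ℂ β p‖) (closedBall (0 : Vd (k + 2)) 1) := fun p hp =>
    (h p (hsub hp)).fderiv.continuousAt.norm.continuousWithinAt
  obtain ⟨B₁, hB₁⟩ := hcp.exists_bound_of_continuousOn hc1
  have hc2 : ContinuousOn (fun p => ‖fderiv ℂ (fderiv ℂ β) p‖) (closedBall (0 : Vd (k + 2)) 1) := fun p hp =>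
    (h p (hsub hp)).fderiv.fderiv.continuousAt.norm.continuousWithinAt
  obtain ⟨B₂, hB₂⟩ := hcp.exists_bound_of_continuousOn hc2
  have h1 : ∀ p ∈ closedBall (0 : Vd (k + 2)) 1, ‖fderiv ℂ β p‖ ≤ |B₁| := fun p hp => by
    have := hB₁ p hp
    rw [norm_norm] at this
    exact this.trans (le_abs_self _)
  have h2 : ∀ p ∈ closedBall (0 : Vd (k + 2)) 1, ‖fderiv ℂ (fderiv ℂ β) p‖ ≤ |B₂| := fun p hp => by
    have := hB₂ p hp
    rw [Real.norm_eq_abs] at this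
    exact ((le_abs_self _).trans this).trans (le_abs_self _)
  refine ⟨1 + |B₁| + |B₂|, by linarith [abs_nonneg B₁, abs_nonneg B₂], fun p hp p' hp' => ?_, fun p hp p' hp' => ?_⟩
  · have h3 := hcv.norm_image_sub_le_of_norm_fderiv_le (𝕜 := ℂ) (f := β) (C := |B₁|) (fun y hy => (h y (hsub hy)).differentiableAt) h1 hp hp'
    refine h3.trans (mul_le_mul_of_nonneg_right ?_ (norm_nonneg _))
    linarith [abs_nonneg B₂]
  · have hseg : segment ℝ p p' ⊆ closedBall (0 : Vd (k + 2)) 1 := hcv.segment_subset hp hp'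
    have h3 : ∀ z ∈ segment ℝ p p', HasFDerivWithinAt β (fderiv ℂ β z) (segment ℝ p p') z := fun z hz =>
      (h z (hsub (hseg hz))).differentiableAt.hasFDerivAt.hasFDerivWithinAt
    have h4 : ∀ z ∈ segment ℝ p p', ‖fderiv ℂ β z - fderiv ℂ β p‖ ≤ |B₂| * ‖p' - p‖ := by
      intro z hz
      have h5 := hcv.norm_image_sub_le_of_norm_fderiv_le (𝕜 := ℂ) (f := fderiv ℂ β) (C := |B₂|)
        (fun y hy => (h y (hsub hy)).fderiv.differentiableAt) h2 hp (hseg hz)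
      exact h5.trans (mul_le_mul_of_nonneg_left (norm_sub_le_of_mem_segment hz) (abs_nonneg _))
    have h5 := Convex.norm_image_sub_le_of_norm_hasFDerivWithin_le' h3 h4 (convex_segment p p') (left_mem_segment ℝ p p')
      (right_mem_segment ℝ p p')
    calc ‖β p' - β p - fderiv ℂ β p (p' - p)‖ ≤ |B₂| * ‖p' - p‖ * ‖p' - p‖ := h5
      _ = |B₂| * ‖p' - p‖ ^ 2 := by ring
      _ ≤ (1 + |B₁| + |B₂|) * ‖p' - p‖ ^ 2 := mul_le_mul_of_nonneg_right (by linarith [abs_nonneg B₁]) (by positivity)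

/-- uniform bounds for finitely many maps -/
private theorem Pair_betas (S : Setting k X) : ∃ B : ℝ, 1 ≤ B ∧ ∀ i,
    (∀ p ∈ closedBall (0 : Vd (k + 2)) 1, ∀ p' ∈ closedBall (0 : Vd (k + 2)) 1, ‖S.β i p' - S.β i p‖ ≤ B * ‖p' - p‖) ∧
      ∀ p ∈ closedBall (0 : Vd (k + 2)) 1, ∀ p' ∈ closedBall (0 : Vd (k + 2)) 1, ‖S.β i p' - S.β i p - fderiv ℂ (S.β i) p (p' - p)‖ ≤ B * ‖p' - p‖ ^ 2 := by
  choose B hB h1 h2 using fun i => Pair_beta (S.β_an i)
  have hle : ∀ i, B i ≤ ∑ i, B i := fun i => Finset.single_le_sum (f := B) (fun i _ => zero_le_one.trans (hB i)) (Finset.mem_univ i)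
  have h0 : 0 ≤ ∑ i, B i := Finset.sum_nonneg fun i _ => zero_le_one.trans (hB i)
  refine ⟨1 + ∑ i, B i, by linarith, fun i => ⟨fun p hp p' hp' => ?_, fun p hp p' hp' => ?_⟩⟩
  · exact (h1 i p hp p' hp').trans (mul_le_mul_of_nonneg_right (by linarith [hle i]) (norm_nonneg _))
  · exact (h2 i p hp p' hp').trans (mul_le_mul_of_nonneg_right (by linarith [hle i]) (by positivity))

namespace Setting

variable (S : Setting k X)

private theorem Pair_goodF {F : ℂ → EN N} (hF : ∀ z, F z ∈ X) (z : ℂ) : Good (S.A.χ (S.ix (F z))) (F z) :=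
  S.A.good _ (hF z) _ (hF z) (by rw [dist_self]; exact S.A.δ_pos.le)

private theorem Pair_goodG {F G : ℂ → EN N} (hF : ∀ z, F z ∈ X) (hG : ∀ z, G z ∈ X) {z : ℂ} (h : pd F G z ≤ S.A.δ) : Good (S.A.χ (S.ix (F z))) (G z) :=
  S.A.good _ (hF z) _ (hG z) h

theorem dsp_pd : ∃ C δ : ℝ, 1 ≤ C ∧ 0 < δ ∧ ∀ F G : ℂ → EN N, (∀ z, F z ∈ X) → (∀ z, G z ∈ X) → ∀ z, pd F G z ≤ δ →
    ‖S.dsp F G z‖ ≤ C * pd F G z ∧ pd F G z ≤ C * ‖S.dsp F G z‖ := by
  refine ⟨S.A.C, S.A.δ, S.A.one_le, S.A.δ_pos, fun F G hF hG z hz => ?_⟩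
  have h1 := S.Pair_goodF hF z
  have h2 := S.Pair_goodG hF hG hz
  constructor
  · have h3 := S.A.le_dist _ _ _ h2 h1
    rw [dist_comm] at h3
    exact h3
  · have h3 := S.A.dist_le _ _ _ h1 h2
    rw [norm_sub_rev] at h3
    exact h3

theorem pair_max {v : Vd (k + 1)} (hD : S.Dir v) : ∃ κ ρ ε₁ ε₂ : ℝ, 0 < κ ∧ 0 < ρ ∧ 0 < ε₁ ∧ 0 < ε₂ ∧ ∀ b b' : Vd (k + 1), ∀ F ∈ S.G v b, ∀ G ∈ S.G v b', ∀ (z₁ a : ℂ),
    ∀ l ∈ S.Λ, (∀ z ∈ ball z₁ ρ, pd F G z ≤ ε₁) → (∀ z ∈ ball z₁ ρ, ‖S.dsp F G z‖ * ‖Complex.exp (a * (z - z₁))‖ ≤ 2 * ‖S.dsp F G z₁‖ * Real.exp (κ * ‖z - z₁‖ ^ 2)) →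
      (∀ z ∈ ball z₁ ρ, ‖b' - b - l‖ * ‖Complex.exp (a * (z - z₁))‖ ≤ ε₂ * ‖S.dsp F G z₁‖) → S.dsp F G z₁ = 0 := by
  obtain ⟨c, L, r₀, c₁, K, hd⟩ := S.exists_dat hD.ne
  obtain ⟨κ, ρ, ε, hκ, hρ, hε, happ⟩ := S.approx hD hd hd.lc.r₀_pos le_rfl
  obtain ⟨B, hB, hβ⟩ := Pair_betas S
  obtain ⟨η, hη, hΛ⟩ := S.disc
  set C := S.A.C with hC
  have hC1 : 1 ≤ C := S.A.one_le
  have hC0 : 0 < C := zero_lt_one.trans_le hC1
  have hB0 : 0 < B := zero_lt_one.trans_le hB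
  set E := Real.exp (κ * ρ ^ 2) with hE
  have hE0 : 0 < E := Real.exp_pos _
  -- the size of the discs and the distances
  set ε₁ : ℝ := min (min (S.A.δ / 2) (ε / (2 * (C * C * E) + 1))) (min (ε / (2 * (B * C * E) + 1)) (η / (2 * ((B + ε) * C) + 1))) with hε₁
  have hε₁0 : 0 < ε₁ := by
    have h1 := S.A.δ_pos
    have h2 : 0 < C * C * E := by positivity
    have h3 : 0 < B * C * E := by positivity
    have h4 : 0 < (B + ε) * C := by positivity
    apply lt_min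
    · apply lt_min
      · linarith
      · positivity
    · apply lt_min
      · positivity
      · positivity
  have he1 : ε₁ ≤ S.A.δ / 2 := (min_le_left _ _).trans (min_le_left _ _)
  have he2 : C * C * E * ε₁ ≤ ε := by
    have h0 : 0 < C * C * E := by positivity
    have h1 : ε₁ ≤ ε / (2 * (C * C * E) + 1) := (min_le_left _ _).trans (min_le_right _ _)
    rw [le_div_iff₀ (by positivity)] at h1
    nlinarith
  have he3 : B * C * E * ε₁ ≤ ε / 2 := by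
    have h0 : 0 < B * C * E := by positivity
    have h1 : ε₁ ≤ ε / (2 * (B * C * E) + 1) := (min_le_right _ _).trans (min_le_left _ _)
    rw [le_div_iff₀ (by positivity)] at h1
    nlinarith
  have he4 : (B + ε) * C * ε₁ < η := by
    have h0 : 0 < (B + ε) * C := by positivity
    have h1 : ε₁ ≤ η / (2 * ((B + ε) * C) + 1) := (min_le_right _ _).trans (min_le_right _ _)
    rw [le_div_iff₀ (by positivity)] at h1
    nlinarith
  refine ⟨κ, ρ, ε₁, ε, hκ, hρ, hε₁0, hε, fun b b' F hF G hG z₁ a l hl hpd hgr hw => ?_⟩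
  by_contra hne
  have hd1 : 0 < ‖S.dsp F G z₁‖ := norm_pos_iff.2 hne
  set d₁ := ‖S.dsp F G z₁‖ with hd₁
  have hFX := hF.2.1
  have hGX := hG.2.1
  have hFB : F ∈ BC X c L := hd.sub _ hF
  have hGB : G ∈ BC X c L := hd.sub _ hG
  have hgF : ∀ z, Good (S.A.χ (S.ix (F z))) (F z) := S.Pair_goodF hFX
  have hgG : ∀ z ∈ ball z₁ ρ, Good (S.A.χ (S.ix (F z))) (G z) := fun z hz => S.Pair_goodG hFX hGX ((hpd z hz).trans (by linarith [S.A.δ_pos]))
  have hdsp : ∀ z ∈ ball z₁ ρ, ‖S.dsp F G z‖ ≤ C * ε₁ := fun z hz => by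
    have h3 := S.A.le_dist _ _ _ (hgG z hz) (hgF z)
    rw [dist_comm] at h3
    exact h3.trans (mul_le_mul_of_nonneg_left (hpd z hz) hC0.le)
  -- the field
  set ξ : ℂ → Vd (k + 2) := fun z => (Complex.exp (a * (z - z₁)) / (2 * d₁ : ℝ)) • S.dsp F G z with hξ
  have hcn : ∀ z : ℂ, ‖Complex.exp (a * (z - z₁)) / (2 * d₁ : ℝ)‖ = ‖Complex.exp (a * (z - z₁))‖ / (2 * d₁) := fun z => by
    rw [norm_div, Complex.norm_real, Real.norm_of_nonneg (by positivity)]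
  have hξn : ∀ z, ‖ξ z‖ = ‖Complex.exp (a * (z - z₁))‖ / (2 * d₁) * ‖S.dsp F G z‖ := fun z => by
    rw [hξ]
    simp only
    rw [norm_smul, hcn]
  have hgrow : ∀ z ∈ ball z₁ ρ, ‖ξ z‖ ≤ Real.exp (κ * ‖z - z₁‖ ^ 2) := fun z hz => by
    rw [hξn, div_mul_eq_mul_div, div_le_iff₀ (by positivity)]
    have := hgr z hz
    nlinarith
  have hle : ∀ z ∈ ball z₁ ρ, Real.exp (κ * ‖z - z₁‖ ^ 2) ≤ E := fun z hz => by
    rw [hE]
    apply Real.exp_le_exp.2
    apply mul_le_mul_of_nonneg_left _ hκ.le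
    have h1 : ‖z - z₁‖ < ρ := by rw [← dist_eq_norm]; exact hz
    exact pow_le_pow_left₀ (norm_nonneg _) h1.le 2
  have hξE : ∀ z ∈ ball z₁ ρ, ‖ξ z‖ ≤ E := fun z hz => (hgrow z hz).trans (hle z hz)
  have hAF : S.AField F ξ (ball z₁ ρ) r₀ ε := by
    refine ⟨fun z₀ hz₀ => ?_, fun z hz => ?_⟩
    · have hgF₀ : ∀ w ∈ ball z₀ r₀, Good (S.A.χ (S.ix (F z₀))) (F w) :=
        hd.lc.good F hFB (F z₀) (hFX z₀) z₀ (by rw [dist_self]; linarith [S.A.δ_pos])
      have hgG₀ : ∀ w ∈ ball z₀ r₀, Good (S.A.χ (S.ix (F z₀))) (G w) :=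
        hd.lc.good G hGB (F z₀) (hFX z₀) z₀ ((hpd z₀ hz₀).trans he1)
      refine ⟨fun z => (Complex.exp (a * (z - z₁)) / (2 * d₁ : ℝ)) • (qc S.A (S.ix (F z₀)) G z - qc S.A (S.ix (F z₀)) F z), ?_, ?_⟩
      · intro z hz
        have h1 : DifferentiableAt ℂ (qc S.A (S.ix (F z₀)) G) z := (hd.lc.an G hGB _ z (hgG₀ z hz)).differentiableAt
        have h2 : DifferentiableAt ℂ (qc S.A (S.ix (F z₀)) F) z := (hd.lc.an F hFB _ z (hgF₀ z hz)).differentiableAt
        have h3 : DifferentiableAt ℂ (fun z : ℂ => Complex.exp (a * (z - z₁)) / (2 * d₁ : ℝ)) z := by fun_prop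
        exact (h3.smul (h1.sub h2)).differentiableWithinAt
      · rintro z ⟨hz, hz'⟩
        have h1 := S.A.trans (S.ix (F z)) (S.ix (F z₀)) (F z) (G z) (hgF z) (hgF₀ z hz) (hgG z hz') (hgG₀ z hz)
        have h2 : S.T (S.ix (F z)) (S.ix (F z₀)) (F z) (ξ z) -
            (Complex.exp (a * (z - z₁)) / (2 * d₁ : ℝ)) • (qc S.A (S.ix (F z₀)) G z - qc S.A (S.ix (F z₀)) F z) =
            -((Complex.exp (a * (z - z₁)) / (2 * d₁ : ℝ)) • ((S.A.χ (S.ix (F z₀))).q (G z) - (S.A.χ (S.ix (F z₀))).q (F z) -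
              fderiv ℂ (fun p => (S.A.χ (S.ix (F z₀))).q ((S.A.χ (S.ix (F z))).σ p)) ((S.A.χ (S.ix (F z))).q (F z))
                ((S.A.χ (S.ix (F z))).q (G z) - (S.A.χ (S.ix (F z))).q (F z)))) := by
          rw [hξ]
          simp only
          rw [map_smul, ← smul_sub, ← smul_neg, neg_sub]
          rfl
        rw [h2, norm_neg, norm_smul, hcn]
        have h3 : (S.A.χ (S.ix (F z))).q (G z) - (S.A.χ (S.ix (F z))).q (F z) = S.dsp F G z := rfl
        rw [h3] at h1 ⊢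
        have h4 := hξE z hz'
        have h5 := hdsp z hz'
        have h6 := hξn z
        have h7 : 0 ≤ ‖Complex.exp (a * (z - z₁))‖ / (2 * d₁) := by positivity
        calc ‖Complex.exp (a * (z - z₁))‖ / (2 * d₁) * _ ≤ ‖Complex.exp (a * (z - z₁))‖ / (2 * d₁) * (C * ‖S.dsp F G z‖ ^ 2) :=
              mul_le_mul_of_nonneg_left h1 h7
          _ = C * ‖S.dsp F G z‖ * ‖ξ z‖ := by rw [h6]; ring
          _ ≤ C * (C * ε₁) * E := by
              apply mul_le_mul (mul_le_mul_of_nonneg_left h5 hC0.le) h4 (norm_nonneg _) (by positivity)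
          _ = C * C * E * ε₁ := by ring
          _ ≤ ε := he2
    · have hFz := hgF z
      have hGz := hgG z hz
      set i := S.ix (F z) with hi
      have hmF : S.q i (F z) ∈ closedBall (0 : Vd (k + 2)) 1 := mem_closedBall_zero_iff.2 (hFz.2.2.trans (by norm_num))
      have hmG : S.q i (G z) ∈ closedBall (0 : Vd (k + 2)) 1 := mem_closedBall_zero_iff.2 (hGz.2.2.trans (by norm_num))
      have h1 := (hβ i).1 _ hmF _ hmG
      have h2 := (hβ i).2 _ hmF _ hmG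
      have h3 : S.q i (G z) - S.q i (F z) = S.dsp F G z := rfl
      rw [h3] at h1 h2
      -- the difference is in the lattice
      have h4 : S.β i (S.q i (G z)) - S.β i (S.q i (F z)) - (b' - b - l) ∈ S.Λ := by
        have e1 := S.β_eq i (F z) (hFX z) hFz.2.1
        have e2 := S.β_eq i (G z) (hGX z) hGz.2.1
        have e3 := hF.2.2 z
        have e4 := hG.2.2 z
        have e5 := S.Λ.add_mem (S.Λ.sub_mem (S.Λ.add_mem (S.Λ.sub_mem e4 e2) e1) e3) hl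
        convert e5 using 1
        show S.β i ((S.A.χ i).q (G z)) - S.β i ((S.A.χ i).q (F z)) - (b' - b - l) = _
        abel
      have hz₁ : z₁ ∈ ball z₁ ρ := mem_ball_self hρ
      have hw1 : ‖b' - b - l‖ ≤ ε * d₁ := by
        have := hw z₁ hz₁
        rw [sub_self, mul_zero, Complex.exp_zero, norm_one, mul_one] at this
        exact this
      have h5 : ‖S.β i (S.q i (G z)) - S.β i (S.q i (F z)) - (b' - b - l)‖ < η := by
        have h6 := hdsp z hz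
        have h7 : d₁ ≤ C * ε₁ := hdsp z₁ hz₁
        calc ‖S.β i (S.q i (G z)) - S.β i (S.q i (F z)) - (b' - b - l)‖ ≤ ‖S.β i (S.q i (G z)) - S.β i (S.q i (F z))‖ + ‖b' - b - l‖ := norm_sub_le _ _
          _ ≤ B * (C * ε₁) + ε * (C * ε₁) := by
              apply add_le_add
              · exact h1.trans (mul_le_mul_of_nonneg_left h6 hB0.le)
              · exact hw1.trans (mul_le_mul_of_nonneg_left h7 hε.le)
          _ = (B + ε) * C * ε₁ := by ring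
          _ < η := he4
      have h6 : S.β i (S.q i (G z)) - S.β i (S.q i (F z)) = b' - b - l := sub_eq_zero.1 (hΛ _ h4 h5)
      rw [h6] at h2
      have h7 : ‖fderiv ℂ (S.β i) (S.q i (F z)) (S.dsp F G z)‖ ≤ ‖b' - b - l‖ + B * ‖S.dsp F G z‖ ^ 2 := by
        have h8 := norm_sub_norm_le (fderiv ℂ (S.β i) (S.q i (F z)) (S.dsp F G z)) (b' - b - l)
        rw [norm_sub_rev (fderiv ℂ (S.β i) (S.q i (F z)) (S.dsp F G z)) (b' - b - l)] at h8
        linarith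
      have h8 : fderiv ℂ (S.β i) (S.q i (F z)) (ξ z) = (Complex.exp (a * (z - z₁)) / (2 * d₁ : ℝ)) • fderiv ℂ (S.β i) (S.q i (F z)) (S.dsp F G z) := by
        rw [hξ]
        simp only
        rw [map_smul]
      rw [h8, norm_smul, hcn]
      have h9 := hξE z hz
      have h10 := hdsp z hz
      have h11 := hξn z
      have h12 := hw z hz
      have h13 : 0 ≤ ‖Complex.exp (a * (z - z₁))‖ / (2 * d₁) := by positivity
      calc ‖Complex.exp (a * (z - z₁))‖ / (2 * d₁) * ‖fderiv ℂ (S.β i) (S.q i (F z)) (S.dsp F G z)‖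
          ≤ ‖Complex.exp (a * (z - z₁))‖ / (2 * d₁) * (‖b' - b - l‖ + B * ‖S.dsp F G z‖ ^ 2) := mul_le_mul_of_nonneg_left h7 h13
        _ = ‖b' - b - l‖ * ‖Complex.exp (a * (z - z₁))‖ / (2 * d₁) + B * ‖S.dsp F G z‖ * ‖ξ z‖ := by rw [h11]; ring
        _ ≤ ε / 2 + B * (C * ε₁) * E := by
            apply add_le_add
            · rw [div_le_iff₀ (by positivity)]
              linarith
            · apply mul_le_mul (mul_le_mul_of_nonneg_left h10 hB0.le) h9 (norm_nonneg _) (by positivity)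
        _ = ε / 2 + B * C * E * ε₁ := by ring
        _ ≤ ε := by linarith
  have hfin := happ b F hF ξ z₁ hAF hgrow
  rw [hξn, sub_self, mul_zero, Complex.exp_zero, norm_one] at hfin
  have : 1 / (2 * d₁) * d₁ = 1 / 2 := by field_simp
  rw [this] at hfin
  norm_num at hfin

end Setting

end Pool.Agent.TN
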