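import Pool.Agent.TN.Order

/-!
# TN Quo: the function of a vertical field

Compare `TH/Quo.lean` (there with a cross product).  `F ∈ G v b`, `ξ` a vertical field along `F`, `E` an entire function which vanishes at the hits in `ball 0 R`, `N₀` of `exists_order`.  For a centre `z₀ ∈ ball 0 R` put
`i = ix (F z₀)`, `h z = T (ix (F z)) i (F z) (ξ z)` (holomorphic near every point of `ball z₀ r₀`: `Field.hol`, `T_comp`, `T_an`), `θ z = kap i (q i (F z))`.  `dβ (h) = 0` (`T_beta`), so `h` is a multiple of `θ` where `θ ≠ 0`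
(`exists_smul_kap`).

`exists_g`: there is `g` holomorphic on `ball z₀ r₀ ∩ ball 0 R` with `E z ^ N₀ • h z = g z • θ z`: unique where `θ ≠ 0`; near a hit `z₁`: `θ = (z - z₁)^m • θ₁`, `θ₁ z₁ ≠ 0`, `m ≤ N₀`
and `E z₁ = 0`, so `E ^ N₀ = (z - z₁)^m • e`, and `h` is a holomorphic multiple of `θ₁` (`h l / θ₁ l` with `θ₁ z₁ l ≠ 0`; the identity holds off `z₁`, so by continuity at `z₁`).

Transformation: in another chart `j`: `h' = M h`, `M θ = det M • θ'` with `M = T i j (F z)` (`kap_trans`), so `g' = det M • g`.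

`P z` is defined with the centre `z`: `P z = kk i (q i (F z)) * ‖g z‖ ^ m`, `i = ix (F z)`.  By `kk_trans`, near `z₀`: `P z = kk i₀ (q i₀ (F z)) * ‖g_{z₀} z‖ ^ m` (note `kk i = |det T i j|^m kk j`
and `g_j = det T i j g_i`: so the product is invariant).  So `P` is continuous, and `kk_sub` with `‖(q i F)'‖ ≥ c₁` (`LC.der_ge`) gives `Sub P z (κ₀ c₁²)` if `P z > 0`.

Upper bound: by the maximum principle for `g_{z₀}` on the disc of radius `s' ∈ [s/2, s]`, `s ≤ 1`, of `exists_lower`: `‖g_{z₀} z₀‖ ≤ sup_{circle} ‖E‖^N₀ ‖h‖ / c₂`, `‖h‖ ≤ C ‖ξ‖` (`T_bound`).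

Lower bound, at `z` with the centre `z`: `h z = ξ z` (`T_self`), `‖E z‖ ^ N₀ ‖ξ z‖ = ‖g z‖ ‖θ z‖ ≤ B ‖g z‖`, and `kk i` is bounded below on `closedBall 0 (1/2)` (`kk_cont`, `kk_pos`, compactness).
-/

set_option autoImplicit false

open Topology Filter Metric

namespace Pool.Agent.TN

open Pool.Agent.H36.BP (EN fs wd Sub)
open Pool.Agent.H14.PP (IsCone CurveAt Tan)
open Pool.Agent.H62.EF (MN pr)
open Pool.Agent.H5.BD (BC evp)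
open Pool.Agent.AD (Vd Chart Charts TorusMapV DiscreteSub)
open Pool.Agent.AD.BD (Atlas LC Good qc)

variable {N k : ℕ} {X : Set (EN N)}

section basics

theorem Quo_clm {f : ℂ → Vd (k + 2) →L[ℂ] Vd (k + 2)} {g : ℂ → Vd (k + 2)} {z : ℂ} (hf : AnalyticAt ℂ f z) (hg : AnalyticAt ℂ g z) :
    AnalyticAt ℂ (fun w => f w (g w)) z :=
  AnalyticAt.comp ((ContinuousLinearMap.id ℂ (Vd (k + 2) →L[ℂ] Vd (k + 2))).analyticAt_bilinear _) (hf.prod hg)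

theorem Quo_curve (S : Setting k X) {v b : Vd (k + 1)} {F : ℂ → EN N} (hF : F ∈ S.G v b) (z : ℂ) : CurveAt X F z :=
  ⟨hF.1.analyticAt z, Eventually.of_forall hF.2.1⟩

theorem Quo_nhds (S : Setting k X) {v b : Vd (k + 1)} {F : ℂ → EN N} (hF : F ∈ S.G v b) {z : ℂ} {i : Fin S.A.n} (hi : F z ∈ (S.A.χ i).U) :
    ∀ᶠ w in 𝓝 z, F w ∈ (S.A.χ i).U :=
  hF.1.continuous.continuousAt.eventually ((S.A.χ i).isOpen_U.mem_nhds hi)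

theorem Quo_good (S : Setting k X) {v b : Vd (k + 1)} {F : ℂ → EN N} (hF : F ∈ S.G v b) (z : ℂ) : F z ∈ (S.A.χ (S.ix (F z))).U :=
  (S.good_ix (hF.2.1 z)).2.1

theorem Quo_ball (S : Setting k X) {v b : Vd (k + 1)} {F : ℂ → EN N} (hF : F ∈ S.G v b) {z : ℂ} {i : Fin S.A.n} (hi : F z ∈ (S.A.χ i).U) :
    S.q i (F z) ∈ ball (0 : Vd (k + 2)) 2 := ((S.A.χ i).surj _ (hF.2.1 z) hi).1

/-- the vector field in the chart `i` -/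
noncomputable def Quo_h (S : Setting k X) (F : ℂ → EN N) (ξ : ℂ → Vd (k + 2)) (i : Fin S.A.n) (z : ℂ) : Vd (k + 2) := S.T (S.ix (F z)) i (F z) (ξ z)

/-- the minors in the chart `i` -/
noncomputable def Quo_θ (S : Setting k X) (F : ℂ → EN N) (i : Fin S.A.n) (z : ℂ) : Vd (k + 2) := S.kap i (S.q i (F z))

theorem Quo_h_an (S : Setting k X) {v b : Vd (k + 1)} {F : ℂ → EN N} (hF : F ∈ S.G v b) {ξ : ℂ → Vd (k + 2)} (hξ : S.Field F ξ) {z₀ : ℂ} {i : Fin S.A.n}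
    (hi : F z₀ ∈ (S.A.χ i).U) : AnalyticAt ℂ (Quo_h S F ξ i) z₀ := by
  obtain ⟨r, h, hr, hh, hg⟩ := hξ.hol z₀
  have hj' : F z₀ ∈ (S.A.χ (S.ix (F z₀))).U := Quo_good S hF z₀
  have hT := S.T_an (Quo_curve S hF z₀) hj' hi
  have hha : AnalyticAt ℂ h z₀ := hh.analyticAt (ball_mem_nhds z₀ hr)
  refine (Quo_clm hT hha).congr ?_
  filter_upwards [ball_mem_nhds z₀ hr, Quo_nhds S hF hi, Quo_nhds S hF hj'] with z hz hzi hzj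
  rw [← (hg z hz).2]
  exact S.T_comp (hF.2.1 z) (Quo_good S hF z) hzj hzi (ξ z)

theorem Quo_θ_an (S : Setting k X) {v b : Vd (k + 1)} {F : ℂ → EN N} (hF : F ∈ S.G v b) {z₀ : ℂ} {i : Fin S.A.n}
    (hi : F z₀ ∈ (S.A.χ i).U) : AnalyticAt ℂ (Quo_θ S F i) z₀ :=
  AnalyticAt.comp (g := S.kap i) (f := fun w => S.q i (F w)) (S.kap_an i (Quo_ball S hF hi)) (S.q_an (Quo_curve S hF z₀) hi)

/-- the field is a multiple of the minors where they do not vanish -/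
theorem Quo_h_mul (S : Setting k X) {v b : Vd (k + 1)} {F : ℂ → EN N} (hF : F ∈ S.G v b) {ξ : ℂ → Vd (k + 2)} (hξ : S.Field F ξ) {z : ℂ} {i : Fin S.A.n}
    (hi : F z ∈ (S.A.χ i).U) (h0 : Quo_θ S F i z ≠ 0) : ∃ c : ℂ, Quo_h S F ξ i z = c • Quo_θ S F i z := by
  refine exists_smul_kap (L := fderiv ℂ (S.β i) (S.q i (F z))) h0 ?_
  rw [Quo_h, S.T_beta (hF.2.1 z) (Quo_good S hF z) hi, hξ.ver z]

theorem Quo_det_an {f : ℂ → Vd (k + 2) →L[ℂ] Vd (k + 2)} {z : ℂ} (hf : AnalyticAt ℂ f z) :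
    AnalyticAt ℂ (fun w => LinearMap.det (f w : Vd (k + 2) →ₗ[ℂ] Vd (k + 2))) z := by
  have h1 : ∀ a b, AnalyticAt ℂ (fun w => f w (Pi.single a 1) b) z := fun a b =>
    analyticAt_pi_iff.mp (Quo_clm hf analyticAt_const) b
  have h2 : (fun w => LinearMap.det (f w : Vd (k + 2) →ₗ[ℂ] Vd (k + 2))) = fun w =>
      ∑ σ : Equiv.Perm (Fin (k + 2)), ((Equiv.Perm.sign σ : ℤ) : ℂ) * ∏ i, f w (Pi.single i 1) (σ i) := by
    funext w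
    rw [← LinearMap.det_toMatrix', Matrix.det_apply']
    simp only [LinearMap.toMatrix'_apply, ContinuousLinearMap.coe_coe]
  rw [h2]
  refine Finset.analyticAt_fun_sum _ fun σ _ => analyticAt_const.mul (Finset.analyticAt_fun_prod _ fun i _ => h1 _ _)

theorem Quo_transport (S : Setting k X) {v b : Vd (k + 1)} {F : ℂ → EN N} (hF : F ∈ S.G v b) {ξ : ℂ → Vd (k + 2)} {z : ℂ} {i j : Fin S.A.n}
    (hi : F z ∈ (S.A.χ i).U) (hj : F z ∈ (S.A.χ j).U) (e : ℂ → ℂ) {a : ℂ} (ha : e z • Quo_h S F ξ i z = a • Quo_θ S F i z) :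
    e z • Quo_h S F ξ j z = (LinearMap.det (S.T i j (F z) : Vd (k + 2) →ₗ[ℂ] Vd (k + 2)) * a) • Quo_θ S F j z := by
  have h2 : S.T i j (F z) (Quo_h S F ξ i z) = Quo_h S F ξ j z := S.T_comp (hF.2.1 z) (Quo_good S hF z) hi hj (ξ z)
  have h3 : S.T i j (F z) (Quo_θ S F i z) = LinearMap.det (S.T i j (F z) : Vd (k + 2) →ₗ[ℂ] Vd (k + 2)) • Quo_θ S F j z := S.kap_trans (hF.2.1 z) hi hj
  rw [← h2, ← map_smul, ha, map_smul, h3, smul_smul, mul_comm]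

end basics

/-- the data -/
structure Quo_D (S : Setting k X) (v b : Vd (k + 1)) (F : ℂ → EN N) (ξ : ℂ → Vd (k + 2)) (E : ℂ → ℂ) (N₀ : ℕ) (R : ℝ) : Prop where
  dir : S.Dir v
  hF : F ∈ S.G v b
  field : S.Field F ξ
  hE : Differentiable ℂ E
  hit : ∀ z ∈ ball (0 : ℂ) R, S.Hit (F z) → E z = 0
  ord : ∀ z₀, ∃ (m : ℕ) (g : ℂ → Vd (k + 2)), m ≤ N₀ ∧ AnalyticAt ℂ g z₀ ∧ g z₀ ≠ 0 ∧
    ∀ᶠ z in 𝓝 z₀, S.kap (S.ix (F z₀)) (S.q (S.ix (F z₀)) (F z)) = (z - z₀) ^ m • g z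

/-- a local quotient -/
def Quo_Rep (S : Setting k X) (F : ℂ → EN N) (ξ : ℂ → Vd (k + 2)) (e : ℂ → ℂ) (i : Fin S.A.n) (g : ℂ → ℂ) (z : ℂ) : Prop :=
  AnalyticAt ℂ g z ∧ ∀ᶠ w in 𝓝 z, e w • Quo_h S F ξ i w = g w • Quo_θ S F i w

section rep

variable {S : Setting k X} {v b : Vd (k + 1)} {F : ℂ → EN N} {ξ : ℂ → Vd (k + 2)} {E : ℂ → ℂ} {N₀ : ℕ} {R : ℝ}

theorem Quo_E (D : Quo_D S v b F ξ E N₀ R) {z₀ : ℂ} (hz₀ : z₀ ∈ ball (0 : ℂ) R) {m : ℕ} {g : ℂ → Vd (k + 2)} (hm : m ≤ N₀)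
    (hg : ∀ᶠ z in 𝓝 z₀, S.kap (S.ix (F z₀)) (S.q (S.ix (F z₀)) (F z)) = (z - z₀) ^ m • g z) :
    ∃ e₁ : ℂ → ℂ, AnalyticAt ℂ e₁ z₀ ∧ ∀ᶠ z in 𝓝 z₀, E z ^ N₀ = (z - z₀) ^ m * e₁ z := by
  rcases Nat.eq_zero_or_pos m with rfl | hk0
  · exact ⟨fun z => E z ^ N₀, (D.hE.analyticAt z₀).pow N₀, Eventually.of_forall fun z => by simp⟩
  · have h0 := hg.self_of_nhds
    rw [sub_self, zero_pow hk0.ne', zero_smul] at h0
    have hE0 : E z₀ = 0 := D.hit z₀ hz₀ ((S.hit_of_kap (D.hF.2.1 z₀) (Quo_good S D.hF z₀)).mp h0)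
    have hEa := D.hE.analyticAt z₀
    have h1 : ((1 : ℕ) : ℕ∞) ≤ analyticOrderAt E z₀ := by
      rw [Nat.cast_one, Order.one_le_iff_ne_zero]
      exact hEa.analyticOrderAt_ne_zero.mpr hE0
    obtain ⟨E₁, hE₁, hE₁'⟩ := (natCast_le_analyticOrderAt hEa).mp h1
    refine ⟨fun z => (z - z₀) ^ (N₀ - m) * E₁ z ^ N₀, ((analyticAt_id.sub analyticAt_const).pow _).mul (hE₁.pow _), ?_⟩
    filter_upwards [hE₁'] with z hz
    rw [hz, pow_one, smul_eq_mul, mul_pow, ← mul_assoc, ← pow_add, Nat.add_sub_cancel' hm]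

theorem Quo_rep_ix (D : Quo_D S v b F ξ E N₀ R) {z₀ : ℂ} (hz₀ : z₀ ∈ ball (0 : ℂ) R) :
    ∃ g, Quo_Rep S F ξ (fun z => E z ^ N₀) (S.ix (F z₀)) g z₀ := by
  obtain ⟨m, g₁, hm, hg₁, hg₁0, hg₁'⟩ := D.ord z₀
  obtain ⟨e₁, he₁, he₁'⟩ := Quo_E D hz₀ hm hg₁'
  have hi := Quo_good S D.hF z₀
  obtain ⟨l, hl⟩ := Function.ne_iff.mp hg₁0
  simp only [Pi.zero_apply] at hl
  have hha := Quo_h_an S D.hF D.field hi
  have hgl : AnalyticAt ℂ (fun z => g₁ z l) z₀ := analyticAt_pi_iff.mp hg₁ l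
  have hcl : AnalyticAt ℂ (fun z => Quo_h S F ξ (S.ix (F z₀)) z l) z₀ := analyticAt_pi_iff.mp hha l
  have hg : AnalyticAt ℂ (fun z => e₁ z * (Quo_h S F ξ (S.ix (F z₀)) z l / g₁ z l)) z₀ := he₁.mul (hcl.div hgl hl)
  refine ⟨_, hg, ?_⟩
  have hcont : ContinuousAt (fun z => (e₁ z * (Quo_h S F ξ (S.ix (F z₀)) z l / g₁ z l)) • Quo_θ S F (S.ix (F z₀)) z) z₀ :=
    hg.continuousAt.smul (Quo_θ_an S D.hF hi).continuousAt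
  have hcont' : ContinuousAt (fun z => E z ^ N₀ • Quo_h S F ξ (S.ix (F z₀)) z) z₀ :=
    ((D.hE.analyticAt z₀).pow N₀).continuousAt.smul hha.continuousAt
  refine (hcont'.eventuallyEq_nhds_iff_eventuallyEq_nhdsNE hcont).mp ?_
  have hne : ∀ᶠ z in 𝓝 z₀, g₁ z l ≠ 0 := hgl.continuousAt.eventually_ne hl
  have hz₁ : ∀ᶠ z in 𝓝[≠] z₀, z ≠ z₀ := eventually_mem_nhdsWithin
  filter_upwards [hz₁, hg₁'.filter_mono nhdsWithin_le_nhds, he₁'.filter_mono nhdsWithin_le_nhds, hne.filter_mono nhdsWithin_le_nhds,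
    (Quo_nhds S D.hF hi).filter_mono nhdsWithin_le_nhds] with z hz hg1 he1 hgz hzi
  have hzk : (z - z₀) ^ m ≠ 0 := pow_ne_zero _ (sub_ne_zero.mpr hz)
  have hθ : Quo_θ S F (S.ix (F z₀)) z = (z - z₀) ^ m • g₁ z := hg1
  have hθ0 : Quo_θ S F (S.ix (F z₀)) z ≠ 0 := by
    rw [hθ]
    refine smul_ne_zero hzk fun h => hgz ?_
    rw [h, Pi.zero_apply]
  obtain ⟨c, hc⟩ := Quo_h_mul S D.hF D.field hzi hθ0
  rw [hθ] at hc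
  ext a
  rw [hθ]
  simp only [Pi.smul_apply, smul_eq_mul]
  rw [he1, hc]
  simp only [Pi.smul_apply, smul_eq_mul]
  field_simp

theorem Quo_rep (D : Quo_D S v b F ξ E N₀ R) {z₀ : ℂ} (hz₀ : z₀ ∈ ball (0 : ℂ) R) {i : Fin S.A.n} (hi : F z₀ ∈ (S.A.χ i).U) :
    ∃ g, Quo_Rep S F ξ (fun z => E z ^ N₀) i g z₀ := by
  obtain ⟨g, hg, hg'⟩ := Quo_rep_ix D hz₀
  have hj := Quo_good S D.hF z₀
  refine ⟨fun z => LinearMap.det (S.T (S.ix (F z₀)) i (F z) : Vd (k + 2) →ₗ[ℂ] Vd (k + 2)) * g z,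
    (Quo_det_an (S.T_an (Quo_curve S D.hF z₀) hj hi)).mul hg, ?_⟩
  filter_upwards [hg', Quo_nhds S D.hF hi, Quo_nhds S D.hF hj] with z hz hzi hzj
  exact Quo_transport S D.hF hzj hzi (fun z => E z ^ N₀) hz

theorem Quo_θ_ne (D : Quo_D S v b F ξ E N₀ R) {z₀ : ℂ} {i : Fin S.A.n} (hi : F z₀ ∈ (S.A.χ i).U) : ∀ᶠ z in 𝓝[≠] z₀, Quo_θ S F i z ≠ 0 := by
  filter_upwards [S.hit_iso D.dir D.hF z₀, (Quo_nhds S D.hF hi).filter_mono nhdsWithin_le_nhds] with z hz hzi h0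
  exact hz ((S.hit_of_kap (D.hF.2.1 z) hzi).mp h0)

theorem Quo_unique (D : Quo_D S v b F ξ E N₀ R) {z₀ : ℂ} {i : Fin S.A.n} (hi : F z₀ ∈ (S.A.χ i).U) {g g' : ℂ → ℂ}
    (h : Quo_Rep S F ξ (fun z => E z ^ N₀) i g z₀) (h' : Quo_Rep S F ξ (fun z => E z ^ N₀) i g' z₀) : g z₀ = g' z₀ := by
  have h1 : g =ᶠ[𝓝 z₀] g' := by
    refine (h.1.continuousAt.eventuallyEq_nhds_iff_eventuallyEq_nhdsNE h'.1.continuousAt).mp ?_
    filter_upwards [Quo_θ_ne D hi, h.2.filter_mono nhdsWithin_le_nhds, h'.2.filter_mono nhdsWithin_le_nhds] with z hz h2 h3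
    exact smul_left_injective ℂ hz (h2.symm.trans h3)
  exact h1.self_of_nhds

theorem Quo_Rep.eventually {e : ℂ → ℂ} {z₀ : ℂ} {i : Fin S.A.n} {g : ℂ → ℂ} (h : Quo_Rep S F ξ e i g z₀) : ∀ᶠ z in 𝓝 z₀, Quo_Rep S F ξ e i g z := by
  filter_upwards [h.1.eventually_analyticAt, h.2.eventually_nhds] with z h1 h2
  exact ⟨h1, h2⟩

open Classical in
/-- the quotient in the chart `i` -/
noncomputable def Quo_g (S : Setting k X) (F : ℂ → EN N) (ξ : ℂ → Vd (k + 2)) (e : ℂ → ℂ) (i : Fin S.A.n) (z : ℂ) : ℂ :=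
  if h : ∃ g, Quo_Rep S F ξ e i g z then h.choose z else 0

theorem Quo_g_eq (D : Quo_D S v b F ξ E N₀ R) {z₀ : ℂ} {i : Fin S.A.n} (hi : F z₀ ∈ (S.A.χ i).U) {g : ℂ → ℂ}
    (h : Quo_Rep S F ξ (fun z => E z ^ N₀) i g z₀) : Quo_g S F ξ (fun z => E z ^ N₀) i z₀ = g z₀ := by
  have hex : ∃ g, Quo_Rep S F ξ (fun z => E z ^ N₀) i g z₀ := ⟨g, h⟩
  rw [Quo_g, dif_pos hex]
  exact Quo_unique D hi hex.choose_spec h

theorem Quo_g_ev (D : Quo_D S v b F ξ E N₀ R) {z₀ : ℂ} {i : Fin S.A.n} (hi : F z₀ ∈ (S.A.χ i).U) {g : ℂ → ℂ}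
    (h : Quo_Rep S F ξ (fun z => E z ^ N₀) i g z₀) : ∀ᶠ z in 𝓝 z₀, Quo_g S F ξ (fun z => E z ^ N₀) i z = g z := by
  filter_upwards [h.eventually, Quo_nhds S D.hF hi] with z h1 h2
  exact Quo_g_eq D h2 h1

theorem Quo_g_rep (D : Quo_D S v b F ξ E N₀ R) {z₀ : ℂ} (hz₀ : z₀ ∈ ball (0 : ℂ) R) {i : Fin S.A.n} (hi : F z₀ ∈ (S.A.χ i).U) :
    Quo_Rep S F ξ (fun z => E z ^ N₀) i (Quo_g S F ξ (fun z => E z ^ N₀) i) z₀ := by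
  obtain ⟨g, hg⟩ := Quo_rep D hz₀ hi
  have h1 := Quo_g_ev D hi hg
  refine ⟨hg.1.congr (h1.mono fun z hz => hz.symm), ?_⟩
  filter_upwards [h1, hg.2] with z hz1 hz2
  rw [hz1, hz2]

/-- the function `P` -/
noncomputable def Quo_P (S : Setting k X) (F : ℂ → EN N) (ξ : ℂ → Vd (k + 2)) (e : ℂ → ℂ) (z : ℂ) : ℝ :=
  S.kk (S.ix (F z)) (S.q (S.ix (F z)) (F z)) * ‖Quo_g S F ξ e (S.ix (F z)) z‖ ^ S.m

theorem Quo_P_eq (D : Quo_D S v b F ξ E N₀ R) {z : ℂ} (hz : z ∈ ball (0 : ℂ) R) {j : Fin S.A.n} (hj : F z ∈ (S.A.χ j).U) :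
    Quo_P S F ξ (fun z => E z ^ N₀) z = S.kk j (S.q j (F z)) * ‖Quo_g S F ξ (fun z => E z ^ N₀) j z‖ ^ S.m := by
  have hi := Quo_good S D.hF z
  have h1 := Quo_g_rep D hz hi
  have h2 : Quo_Rep S F ξ (fun z => E z ^ N₀) j (fun w => LinearMap.det (S.T (S.ix (F z)) j (F w) : Vd (k + 2) →ₗ[ℂ] Vd (k + 2)) *
      Quo_g S F ξ (fun z => E z ^ N₀) (S.ix (F z)) w) z := by
    refine ⟨(Quo_det_an (S.T_an (Quo_curve S D.hF z) hi hj)).mul h1.1, ?_⟩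
    filter_upwards [h1.2, Quo_nhds S D.hF hj, Quo_nhds S D.hF hi] with w hw hwj hwi
    exact Quo_transport S D.hF hwi hwj (fun z => E z ^ N₀) hw
  have h3 := Quo_g_eq D hj h2
  rw [h3, Quo_P, S.kk_trans (D.hF.2.1 z) hi hj, norm_mul, mul_pow]
  ring

end rep

section final

variable {S : Setting k X} {v b : Vd (k + 1)} {F : ℂ → EN N} {ξ : ℂ → Vd (k + 2)} {E : ℂ → ℂ} {N₀ : ℕ} {R : ℝ}

theorem Quo_kk_nonneg (S : Setting k X) (i : Fin S.A.n) (p : Vd (k + 2)) : 0 ≤ S.kk i p :=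
  mul_nonneg (Finset.sum_nonneg fun _ _ => norm_nonneg _) (norm_nonneg _)

theorem Quo_P_nonneg (e : ℂ → ℂ) (z : ℂ) : 0 ≤ Quo_P S F ξ e z := mul_nonneg (Quo_kk_nonneg S _ _) (by positivity)

theorem Quo_P_local (D : Quo_D S v b F ξ E N₀ R) {z₀ : ℂ} (hz₀ : z₀ ∈ ball (0 : ℂ) R) : ∀ᶠ z in 𝓝 z₀, S.kk (S.ix (F z₀)) (S.q (S.ix (F z₀)) (F z)) *
    ‖Quo_g S F ξ (fun z => E z ^ N₀) (S.ix (F z₀)) z‖ ^ S.m = Quo_P S F ξ (fun z => E z ^ N₀) z := by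
  filter_upwards [Quo_nhds S D.hF (Quo_good S D.hF z₀), isOpen_ball.mem_nhds hz₀] with z hz hzR
  exact (Quo_P_eq D hzR hz).symm

theorem Quo_P_cont (D : Quo_D S v b F ξ E N₀ R) : ContinuousOn (Quo_P S F ξ (fun z => E z ^ N₀)) (ball 0 R) := by
  intro z₀ hz₀
  refine ContinuousAt.continuousWithinAt ?_
  have hi := Quo_good S D.hF z₀
  have h1 : ContinuousAt (fun z => S.q (S.ix (F z₀)) (F z)) z₀ := (S.q_an (Quo_curve S D.hF z₀) hi).continuousAt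
  have h2 : ContinuousAt (fun z => S.kk (S.ix (F z₀)) (S.q (S.ix (F z₀)) (F z))) z₀ := (S.kk_cont (S.ix (F z₀)) (Quo_ball S D.hF hi)).comp_of_eq h1 rfl
  have h3 : ContinuousAt (fun z => ‖Quo_g S F ξ (fun z => E z ^ N₀) (S.ix (F z₀)) z‖ ^ S.m) z₀ := ((Quo_g_rep D hz₀ hi).1.continuousAt.norm).pow _
  exact (h2.mul h3).congr (Quo_P_local D hz₀)

theorem Quo_P_sub (D : Quo_D S v b F ξ E N₀ R) {c L r₀ c₁ K κ₀ : ℝ} (hdat : S.Dat v c L r₀ c₁ K) (hκ₀ : 0 < κ₀)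
    (hsub : ∀ (i : Fin S.A.n) (p : ℂ → Vd (k + 2)) (c : ℂ → ℂ) (z₀ : ℂ), AnalyticAt ℂ p z₀ → ‖p z₀‖ ≤ 1 / 2 → AnalyticAt ℂ c z₀ → c z₀ ≠ 0 →
    Sub (fun z => S.kk i (p z) * ‖c z‖ ^ S.m) z₀ (κ₀ * ‖deriv p z₀‖ ^ 2)) {z₀ : ℂ} (hz₀ : z₀ ∈ ball (0 : ℂ) R)
    (h0 : 0 < Quo_P S F ξ (fun z => E z ^ N₀) z₀) : Sub (Quo_P S F ξ (fun z => E z ^ N₀)) z₀ (κ₀ * c₁ ^ 2) := by
  have hi := Quo_good S D.hF z₀
  have hg : Quo_g S F ξ (fun z => E z ^ N₀) (S.ix (F z₀)) z₀ ≠ 0 := by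
    intro h1
    rw [Quo_P, h1, norm_zero, zero_pow (Nat.one_le_iff_ne_zero.mp S.m_pos), mul_zero] at h0
    exact lt_irrefl _ h0
  have h1 := hsub (S.ix (F z₀)) (fun z => S.q (S.ix (F z₀)) (F z)) _ z₀ (S.q_an (Quo_curve S D.hF z₀) hi) (S.good_ix (D.hF.2.1 z₀)).2.2 (Quo_g_rep D hz₀ hi).1 hg
  have h2 := h1.congr (Quo_P_local D hz₀)
  refine h2.anti ?_
  have h3 : c₁ ≤ ‖deriv (fun z => S.q (S.ix (F z₀)) (F z)) z₀‖ := hdat.lc.der_ge F (hdat.sub b D.hF) (S.ix (F z₀)) z₀ (S.good_ix (D.hF.2.1 z₀))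
  have h4 := hdat.lc.c₁_pos
  gcongr

theorem Quo_kk_bound (S : Setting k X) : ∃ B : ℝ, 0 ≤ B ∧ ∀ i (p : Vd (k + 2)), ‖p‖ ≤ 1 / 2 → S.kk i p ≤ B := by
  have h1 : ∀ i, ∃ B : ℝ, ∀ p ∈ closedBall (0 : Vd (k + 2)) (1 / 2), ‖S.kk i p‖ ≤ B := fun i => by
    refine (isCompact_closedBall (0 : Vd (k + 2)) (1 / 2)).exists_bound_of_continuousOn fun p hp => (S.kk_cont i ?_).continuousWithinAt
    rw [mem_ball_zero_iff]
    rw [mem_closedBall_zero_iff] at hp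
    linarith
  choose B hB using h1
  refine ⟨∑ i, |B i|, Finset.sum_nonneg fun i _ => abs_nonneg _, fun i p hp => ?_⟩
  calc S.kk i p ≤ ‖S.kk i p‖ := Real.le_norm_self _
    _ ≤ B i := hB i p (mem_closedBall_zero_iff.mpr hp)
    _ ≤ |B i| := le_abs_self _
    _ ≤ ∑ i, |B i| := Finset.single_le_sum (f := fun i => |B i|) (fun i _ => abs_nonneg _) (Finset.mem_univ i)

/-- the minors are bounded by a multiple of the `m`-th root of `kk` -/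
theorem Quo_kap_kk (S : Setting k X) : ∃ B : ℝ, 0 ≤ B ∧ ∀ i (p : Vd (k + 2)), ‖p‖ ≤ 1 / 2 → ‖S.kap i p‖ ^ S.m ≤ B * S.kk i p := by
  have h1 : ∀ i, ∃ B : ℝ, ∀ p ∈ closedBall (0 : Vd (k + 2)) (1 / 2), ‖‖S.kap i p‖ ^ S.m / S.kk i p‖ ≤ B := fun i => by
    refine (isCompact_closedBall (0 : Vd (k + 2)) (1 / 2)).exists_bound_of_continuousOn fun p hp => ContinuousAt.continuousWithinAt ?_
    have hp2 : p ∈ ball (0 : Vd (k + 2)) 2 := by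
      rw [mem_ball_zero_iff]
      rw [mem_closedBall_zero_iff] at hp
      linarith
    exact ((S.kap_an i hp2).continuousAt.norm.pow _).div (S.kk_cont i hp2) (S.kk_pos i hp2).ne'
  choose B hB using h1
  refine ⟨∑ i, |B i|, Finset.sum_nonneg fun i _ => abs_nonneg _, fun i p hp => ?_⟩
  have hp2 : p ∈ ball (0 : Vd (k + 2)) 2 := by
    rw [mem_ball_zero_iff]
    linarith
  have h2 : ‖S.kap i p‖ ^ S.m / S.kk i p ≤ ∑ i, |B i| :=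
    calc ‖S.kap i p‖ ^ S.m / S.kk i p ≤ ‖‖S.kap i p‖ ^ S.m / S.kk i p‖ := Real.le_norm_self _
      _ ≤ B i := hB i p (mem_closedBall_zero_iff.mpr hp)
      _ ≤ |B i| := le_abs_self _
      _ ≤ ∑ i, |B i| := Finset.single_le_sum (f := fun i => |B i|) (fun i _ => abs_nonneg _) (Finset.mem_univ i)
  exact (div_le_iff₀ (S.kk_pos i hp2)).mp h2

theorem Quo_g_bound (D : Quo_D S v b F ξ E N₀ R) {c L r₀ c₁ K : ℝ} (hdat : S.Dat v c L r₀ c₁ K) {CT c₂ s' M : ℝ} (hCT : 1 ≤ CT)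
    (hT : ∀ i j x, Good (S.A.χ i) x → Good (S.A.χ j) x → ‖S.T i j x‖ ≤ CT) (hc₂ : 0 < c₂) {z₀ : ℂ} (hz₀ : ‖z₀‖ + 1 < R)
    (hM : ∀ w, ‖w - z₀‖ ≤ 1 → ‖E w‖ ^ N₀ * ‖ξ w‖ ≤ M) (hs0 : 0 < s') (hs1 : s' ≤ 1) (hs2 : s' < r₀)
    (hlow : ∀ z, ‖z - z₀‖ = s' → c₂ ≤ ‖S.kap (S.ix (F z₀)) (S.q (S.ix (F z₀)) (F z))‖) :
    ‖Quo_g S F ξ (fun z => E z ^ N₀) (S.ix (F z₀)) z₀‖ ≤ CT * M / c₂ := by
  have hBC := hdat.sub b D.hF
  have hgood : ∀ z ∈ ball z₀ r₀, Good (S.A.χ (S.ix (F z₀))) (F z) := fun z hz =>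
    hdat.lc.good F hBC (F z₀) (D.hF.2.1 z₀) z₀ (by rw [dist_self]; have := S.A.δ_pos; positivity) z hz
  have hR : ∀ z, ‖z - z₀‖ ≤ 1 → z ∈ ball (0 : ℂ) R := fun z hz => by
    rw [mem_ball_zero_iff]
    calc ‖z‖ = ‖z₀ + (z - z₀)‖ := by ring_nf
      _ ≤ ‖z₀‖ + ‖z - z₀‖ := norm_add_le _ _
      _ < R := by linarith
  have hd : DiffContOnCl ℂ (Quo_g S F ξ (fun z => E z ^ N₀) (S.ix (F z₀))) (ball z₀ s') := by
    apply DifferentiableOn.diffContOnCl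
    intro z hz
    rw [closure_ball _ hs0.ne'] at hz
    have hz1 : z ∈ ball z₀ r₀ := closedBall_subset_ball hs2 hz
    have hz2 : ‖z - z₀‖ ≤ 1 := by
      rw [mem_closedBall_iff_norm] at hz
      exact hz.trans hs1
    exact (Quo_g_rep D (hR z hz2) (hgood z hz1).2.1).1.differentiableAt.differentiableWithinAt
  refine Complex.norm_le_of_forall_mem_frontier_norm_le (isBounded_ball) hd ?_ (subset_closure (mem_ball_self hs0))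
  intro z hz
  rw [frontier_ball _ hs0.ne', mem_sphere_iff_norm] at hz
  have hzb : z ∈ ball z₀ r₀ := by rw [mem_ball_iff_norm, hz]; exact hs2
  have hzg := hgood z hzb
  have hz1 : ‖z - z₀‖ ≤ 1 := by rw [hz]; exact hs1
  have h1 := (Quo_g_rep D (hR z hz1) hzg.2.1).2.self_of_nhds
  have h2 : ‖E z‖ ^ N₀ * ‖Quo_h S F ξ (S.ix (F z₀)) z‖ = ‖Quo_g S F ξ (fun z => E z ^ N₀) (S.ix (F z₀)) z‖ * ‖Quo_θ S F (S.ix (F z₀)) z‖ := by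
    rw [← norm_smul, ← h1, norm_smul, norm_pow]
  have h3 : ‖Quo_g S F ξ (fun z => E z ^ N₀) (S.ix (F z₀)) z‖ * c₂ ≤ ‖E z‖ ^ N₀ * ‖Quo_h S F ξ (S.ix (F z₀)) z‖ := by
    rw [h2]
    exact mul_le_mul_of_nonneg_left (hlow z hz) (norm_nonneg _)
  have hh : ‖Quo_h S F ξ (S.ix (F z₀)) z‖ ≤ CT * ‖ξ z‖ :=
    calc ‖Quo_h S F ξ (S.ix (F z₀)) z‖ ≤ ‖S.T (S.ix (F z)) (S.ix (F z₀)) (F z)‖ * ‖ξ z‖ := ContinuousLinearMap.le_opNorm _ _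
      _ ≤ CT * ‖ξ z‖ := mul_le_mul_of_nonneg_right (hT _ _ _ (S.good_ix (D.hF.2.1 z)) hzg) (norm_nonneg _)
  rw [le_div_iff₀ hc₂]
  calc ‖Quo_g S F ξ (fun z => E z ^ N₀) (S.ix (F z₀)) z‖ * c₂ ≤ ‖E z‖ ^ N₀ * ‖Quo_h S F ξ (S.ix (F z₀)) z‖ := h3
    _ ≤ ‖E z‖ ^ N₀ * (CT * ‖ξ z‖) := mul_le_mul_of_nonneg_left hh (by positivity)
    _ = CT * (‖E z‖ ^ N₀ * ‖ξ z‖) := by ring
    _ ≤ CT * M := mul_le_mul_of_nonneg_left (hM z hz1) (by linarith)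

end final

theorem Setting.exists_P (S : Setting k X) {v : Vd (k + 1)} (hD : S.Dir v) : ∃ (κ₁ C₁ : ℝ) (N₀ : ℕ), 0 < κ₁ ∧ 0 < C₁ ∧ ∀ b, ∀ F ∈ S.G v b, ∀ ξ : ℂ → Vd (k + 2), S.Field F ξ →
    ∀ (E : ℂ → ℂ) (R : ℝ), Differentiable ℂ E → (∀ z ∈ ball (0 : ℂ) R, S.Hit (F z) → E z = 0) →
    ∃ P : ℂ → ℝ, (∀ z, 0 ≤ P z) ∧ ContinuousOn P (ball 0 R) ∧ (∀ z ∈ ball (0 : ℂ) R, 0 < P z → Sub P z κ₁) ∧
      (∀ (z : ℂ) (M : ℝ), ‖z‖ + 1 < R → (∀ w, ‖w - z‖ ≤ 1 → ‖E w‖ ^ N₀ * ‖ξ w‖ ≤ M) → P z ≤ C₁ * M ^ S.m) ∧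
      ∀ z ∈ ball (0 : ℂ) R, (‖E z‖ ^ N₀ * ‖ξ z‖) ^ S.m ≤ C₁ * P z := by
  obtain ⟨c, L, r₀, c₁, K, hdat⟩ := S.exists_dat hD.ne
  obtain ⟨κ₀, hκ₀, hsub⟩ := S.kk_sub
  obtain ⟨N₀, hN₀⟩ := S.exists_order hD
  have hc₁ := hdat.lc.c₁_pos
  obtain ⟨CT, hCT, hT⟩ := S.T_bound
  obtain ⟨Bk, hBk0, hBk⟩ := Quo_kk_bound S
  obtain ⟨Bt, hBt0, hBt⟩ := Quo_kap_kk S
  have hr₀ := hdat.lc.r₀_pos
  have hs : 0 < min 1 (r₀ / 2) := lt_min one_pos (by positivity)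
  obtain ⟨c₂, hc₂, hlow⟩ := S.exists_lower hD hdat hs (min_le_right _ _)
  have hA : 0 ≤ Bk * (CT / c₂) ^ S.m := by positivity
  refine ⟨κ₀ * c₁ ^ 2, Bk * (CT / c₂) ^ S.m + Bt + 1, N₀, by positivity, by positivity, ?_⟩
  intro b F hF ξ hξ E R hE hhit
  have D : Quo_D S v b F ξ E N₀ R := ⟨hD, hF, hξ, hE, hhit, hN₀ b F hF⟩
  refine ⟨Quo_P S F ξ (fun z => E z ^ N₀), Quo_P_nonneg _, Quo_P_cont D, fun z hz => Quo_P_sub D hdat hκ₀ hsub hz, fun z₀ M hz₀ hM => ?_, fun z hz => ?_⟩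
  · obtain ⟨s', hs', hlow'⟩ := hlow b F hF z₀
    have hs'0 : 0 < s' := lt_of_lt_of_le (by positivity) hs'.1
    have hs'1 : s' ≤ 1 := hs'.2.trans (min_le_left _ _)
    have hs'2 : s' < r₀ := lt_of_le_of_lt (hs'.2.trans (min_le_right _ _)) (by linarith)
    have hg := Quo_g_bound D hdat hCT hT hc₂ hz₀ hM hs'0 hs'1 hs'2 hlow'
    have hM0 : 0 ≤ M := le_trans (by positivity) (hM z₀ (by rw [sub_self, norm_zero]; exact zero_le_one))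
    have hMm : 0 ≤ M ^ S.m := by positivity
    calc Quo_P S F ξ (fun z => E z ^ N₀) z₀ ≤ Bk * (CT * M / c₂) ^ S.m :=
          mul_le_mul (hBk _ _ (S.good_ix (hF.2.1 z₀)).2.2) (pow_le_pow_left₀ (norm_nonneg _) hg _) (by positivity) hBk0
      _ = Bk * (CT / c₂) ^ S.m * M ^ S.m := by
          rw [mul_div_right_comm, mul_pow, mul_assoc]
      _ ≤ (Bk * (CT / c₂) ^ S.m + Bt + 1) * M ^ S.m := mul_le_mul_of_nonneg_right (by linarith) hMm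
  · have hi := Quo_good S hF z
    have h1 := (Quo_g_rep D hz hi).2.self_of_nhds
    have h2 : Quo_h S F ξ (S.ix (F z)) z = ξ z := by rw [Quo_h, S.T_self (hF.2.1 z) hi]
    have h3 : ‖E z‖ ^ N₀ * ‖ξ z‖ = ‖Quo_g S F ξ (fun z => E z ^ N₀) (S.ix (F z)) z‖ * ‖Quo_θ S F (S.ix (F z)) z‖ := by
      rw [← norm_smul, ← h1, norm_smul, norm_pow, h2]
    have h4 : ‖Quo_θ S F (S.ix (F z)) z‖ ^ S.m ≤ Bt * S.kk (S.ix (F z)) (S.q (S.ix (F z)) (F z)) := hBt _ _ (S.good_ix (hF.2.1 z)).2.2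
    have hP0 : 0 ≤ Quo_P S F ξ (fun z => E z ^ N₀) z := Quo_P_nonneg _ z
    calc (‖E z‖ ^ N₀ * ‖ξ z‖) ^ S.m = ‖Quo_g S F ξ (fun z => E z ^ N₀) (S.ix (F z)) z‖ ^ S.m * ‖Quo_θ S F (S.ix (F z)) z‖ ^ S.m := by rw [h3, mul_pow]
      _ ≤ ‖Quo_g S F ξ (fun z => E z ^ N₀) (S.ix (F z)) z‖ ^ S.m * (Bt * S.kk (S.ix (F z)) (S.q (S.ix (F z)) (F z))) :=
          mul_le_mul_of_nonneg_left h4 (by positivity)
      _ = Bt * Quo_P S F ξ (fun z => E z ^ N₀) z := by rw [Quo_P]; ring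
      _ ≤ (Bk * (CT / c₂) ^ S.m + Bt + 1) * Quo_P S F ξ (fun z => E z ^ N₀) z := mul_le_mul_of_nonneg_right (by linarith) hP0

end Pool.Agent.TN
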