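import Pool.Agent.TN.Defs

/-!
# TN RDir: for `k = 1` (tori of dimension two) a direction which is not elliptic satisfies `Dir`

Port of `TH/RDir.lean` (`exists_real`).  `om v w = v 0 * w 1 - v 1 * w 0`; `Fin.cons v e` is linearly independent iff `om v (e 0) ≠ 0`.
-/

set_option autoImplicit false

open Topology Filter Metric

namespace Pool.Agent.TN

open Pool.Agent.H36.BP (EN fs wd Sub)
open Pool.Agent.AD (Vd Chart Charts TorusMapV DiscreteSub)

variable {N : ℕ} {X : Set (EN N)}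

/-- the determinant of two vectors of the plane -/
private def RDir_om (v w : Vd 2) : ℂ := v 0 * w 1 - v 1 * w 0

private theorem RDir_om_sub (v a b : Vd 2) : RDir_om v (a - b) = RDir_om v a - RDir_om v b := by
  simp only [RDir_om, Pi.sub_apply]
  ring

private theorem RDir_om_smul (v a : Vd 2) (c : ℂ) : RDir_om v (c • a) = c * RDir_om v a := by
  simp only [RDir_om, Pi.smul_apply, smul_eq_mul]
  ring

private theorem RDir_om_zsmul (v a : Vd 2) (k : ℤ) : RDir_om v (k • a) = (k : ℂ) * RDir_om v a := by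
  simp only [RDir_om, Pi.smul_apply, zsmul_eq_mul]
  ring

private theorem RDir_om_self (v : Vd 2) (z : ℂ) : RDir_om v (z • v) = 0 := by
  simp only [RDir_om, Pi.smul_apply, smul_eq_mul]
  ring

private theorem RDir_om_norm (v w : Vd 2) : ‖RDir_om v w‖ ≤ 2 * ‖v‖ * ‖w‖ := by
  have h0 : ‖v 0‖ ≤ ‖v‖ := norm_le_pi_norm v 0
  have h1 : ‖v 1‖ ≤ ‖v‖ := norm_le_pi_norm v 1
  have g0 : ‖w 0‖ ≤ ‖w‖ := norm_le_pi_norm w 0
  have g1 : ‖w 1‖ ≤ ‖w‖ := norm_le_pi_norm w 1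
  have a1 : ‖v 0 * w 1‖ ≤ ‖v‖ * ‖w‖ := by
    rw [norm_mul]
    exact mul_le_mul h0 g1 (norm_nonneg _) (norm_nonneg _)
  have a2 : ‖v 1 * w 0‖ ≤ ‖v‖ * ‖w‖ := by
    rw [norm_mul]
    exact mul_le_mul h1 g0 (norm_nonneg _) (norm_nonneg _)
  have := norm_sub_le (v 0 * w 1) (v 1 * w 0)
  unfold RDir_om
  linarith

/-- a vector with determinant one, and the decomposition -/
private theorem RDir_dual {v : Vd 2} (hv : v ≠ 0) :
    ∃ w₁ : Vd 2, RDir_om v w₁ = 1 ∧ ∀ w : Vd 2, ∃ z : ℂ, w = z • v + RDir_om v w • w₁ := by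
  by_cases h0 : v 0 = 0
  · have h1 : v 1 ≠ 0 := by
      intro h1
      apply hv
      funext i
      fin_cases i
      · exact h0
      · exact h1
    refine ⟨![-(v 1)⁻¹, 0], ?_, fun w => ⟨w 1 / v 1, ?_⟩⟩
    · simp [RDir_om, h0, h1]
    · funext i
      fin_cases i
      · simp [RDir_om, h0]
        field_simp
      · simp [RDir_om, h0]
        field_simp
  · refine ⟨![0, (v 0)⁻¹], ?_, fun w => ⟨w 0 / v 0, ?_⟩⟩
    · simp [RDir_om, h0]
    · funext i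
      fin_cases i
      · simp [RDir_om]
        field_simp
      · simp [RDir_om]
        field_simp
        ring

/-- if the values of `RDir_om v` on the lattice are not small, there are multiples of `v` in the lattice near every direction -/
private theorem RDir_dir {Λ : AddSubgroup (Vd 2)} {v : Vd 2} (hv : v ≠ 0) {C : ℝ}
    (hC : ∀ b : Vd 2, ∃ l ∈ Λ, ‖b - l‖ ≤ C) {ε : ℝ} (hε : 0 < ε)
    (hneg : ∀ l ∈ Λ, RDir_om v l = 0 ∨ ε ≤ ‖RDir_om v l‖) (ζ : ℂ) (R : ℝ) :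
    ∃ x : ℝ, R ≤ x ∧ ∃ ω : ℂ, ω • v ∈ Λ ∧ ‖(x : ℂ) * ζ - ω‖ ≤ 2 * C / ‖v‖ := by
  have hvn : 0 < ‖v‖ := norm_pos_iff.mpr hv
  obtain ⟨w₁, -, hdec⟩ := RDir_dual hv
  choose l hl hlC using fun n : ℕ => hC (((n : ℂ) * ζ) • v)
  have hbd : ∀ n, RDir_om v (l n) ∈ closedBall (0 : ℂ) (2 * ‖v‖ * C) := by
    intro n
    rw [mem_closedBall_zero_iff]
    have h1 : RDir_om v (l n) = - RDir_om v (((n : ℂ) * ζ) • v - l n) := by
      rw [RDir_om_sub, RDir_om_self]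
      ring
    rw [h1, norm_neg]
    calc ‖RDir_om v (((n : ℂ) * ζ) • v - l n)‖ ≤ 2 * ‖v‖ * ‖((n : ℂ) * ζ) • v - l n‖ := RDir_om_norm _ _
      _ ≤ 2 * ‖v‖ * C := mul_le_mul_of_nonneg_left (hlC n) (by positivity)
  obtain ⟨a, -, φ, hφ, hlim⟩ := tendsto_subseq_of_bounded isBounded_closedBall hbd
  have hcau := hlim.cauchySeq
  rw [Metric.cauchySeq_iff'] at hcau
  obtain ⟨M, hM⟩ := hcau ε hε
  obtain ⟨n, hn⟩ := exists_nat_ge (max (M : ℝ) (R + (φ M : ℝ)))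
  have hnM : M ≤ n := by
    have : (M : ℝ) ≤ n := le_trans (le_max_left _ _) hn
    exact_mod_cast this
  have hnR : R + (φ M : ℝ) ≤ (φ n : ℝ) := by
    have h1 : R + (φ M : ℝ) ≤ n := le_trans (le_max_right _ _) hn
    have h2 : (n : ℝ) ≤ φ n := by exact_mod_cast hφ.le_apply
    linarith
  have hz : RDir_om v (l (φ n) - l (φ M)) = 0 := by
    rcases hneg _ (Λ.sub_mem (hl (φ n)) (hl (φ M))) with h | h
    · exact h
    · exfalso
      have h2 := hM n hnM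
      rw [dist_eq_norm] at h2
      simp only [Function.comp_apply] at h2
      rw [← RDir_om_sub] at h2
      linarith
  obtain ⟨ω, hω⟩ := hdec (l (φ n) - l (φ M))
  rw [hz, zero_smul, add_zero] at hω
  refine ⟨(φ n : ℝ) - φ M, by linarith, ω, ?_, ?_⟩
  · rw [← hω]
    exact Λ.sub_mem (hl (φ n)) (hl (φ M))
  · have h1 : ((((φ n : ℝ) - φ M : ℝ) : ℂ) * ζ - ω) • v
        = (((φ n : ℂ) * ζ) • v - l (φ n)) - (((φ M : ℂ) * ζ) • v - l (φ M)) := by
      rw [sub_smul, ← hω]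
      push_cast
      rw [sub_mul, sub_smul]
      abel
    have h2 : ‖((((φ n : ℝ) - φ M : ℝ) : ℂ) * ζ - ω) • v‖ ≤ 2 * C := by
      rw [h1]
      refine (norm_sub_le _ _).trans ?_
      have := hlC (φ n)
      have := hlC (φ M)
      linarith
    rw [norm_smul] at h2
    rwa [le_div_iff₀ hvn]

/-- the values of `RDir_om v` on the lattice accumulate at `0` -/
private theorem RDir_small {Λ : AddSubgroup (Vd 2)} {v : Vd 2} (hv : v ≠ 0) {C : ℝ}
    (hC : ∀ b : Vd 2, ∃ l ∈ Λ, ‖b - l‖ ≤ C)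
    (hne : ∀ ω₁ ω₂ : ℂ, LinearIndependent ℝ ![ω₁, ω₂] → ω₁ • v ∈ Λ → ω₂ • v ∉ Λ) {ε : ℝ}
    (hε : 0 < ε) : ∃ l ∈ Λ, 0 < ‖RDir_om v l‖ ∧ ‖RDir_om v l‖ < ε := by
  by_contra hcon
  push Not at hcon
  have hneg : ∀ l ∈ Λ, RDir_om v l = 0 ∨ ε ≤ ‖RDir_om v l‖ := by
    intro l hl
    by_cases h : RDir_om v l = 0
    · exact Or.inl h
    · exact Or.inr (hcon l hl (norm_pos_iff.mpr h))
  have hvn : 0 < ‖v‖ := norm_pos_iff.mpr hv
  have hC0 : 0 ≤ C := by
    obtain ⟨l, -, h⟩ := hC 0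
    exact le_trans (norm_nonneg _) h
  obtain ⟨x, hx, ω₁, h1, h1'⟩ := RDir_dir hv hC hε hneg 1 (2 * (2 * C / ‖v‖) + 1)
  obtain ⟨y, hy, ω₂, h2, h2'⟩ := RDir_dir hv hC hε hneg Complex.I (2 * (2 * C / ‖v‖) + 1)
  have hK : 0 ≤ 2 * C / ‖v‖ := by positivity
  generalize 2 * C / ‖v‖ = K at hx hy h1' h2' hK
  refine hne ω₁ ω₂ ?_ h1 h2
  have a1 : |x - ω₁.re| ≤ K := by
    have := (Complex.abs_re_le_norm ((x : ℂ) * 1 - ω₁)).trans h1'
    simpa using this
  have a2 : |ω₁.im| ≤ K := by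
    have := (Complex.abs_im_le_norm ((x : ℂ) * 1 - ω₁)).trans h1'
    simpa using this
  have a3 : |ω₂.re| ≤ K := by
    have := (Complex.abs_re_le_norm ((y : ℂ) * Complex.I - ω₂)).trans h2'
    simpa using this
  have a4 : |y - ω₂.im| ≤ K := by
    have := (Complex.abs_im_le_norm ((y : ℂ) * Complex.I - ω₂)).trans h2'
    simpa using this
  rw [abs_le] at a1 a2 a3 a4
  have hdet : 0 < ω₁.re * ω₂.im - ω₁.im * ω₂.re := by
    have b1 : K + 1 ≤ ω₁.re := by linarith [a1.2]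
    have b2 : K + 1 ≤ ω₂.im := by linarith [a4.2]
    have b3 : (K + 1) * (K + 1) ≤ ω₁.re * ω₂.im := mul_le_mul b1 b2 (by linarith) (by linarith)
    have b4 : |ω₁.im * ω₂.re| ≤ K * K := by
      rw [abs_mul]
      exact mul_le_mul (abs_le.mpr a2) (abs_le.mpr a3) (abs_nonneg _) hK
    have b5 := (abs_le.mp b4).2
    nlinarith
  rw [LinearIndependent.pair_iff]
  intro s t hst
  have c1 : s * ω₁.re + t * ω₂.re = 0 := by
    have := congrArg Complex.re hst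
    simpa using this
  have c2 : s * ω₁.im + t * ω₂.im = 0 := by
    have := congrArg Complex.im hst
    simpa using this
  have d1 : s * (ω₁.re * ω₂.im - ω₁.im * ω₂.re) = 0 := by linear_combination ω₂.im * c1 - ω₂.re * c2
  have d2 : t * (ω₁.re * ω₂.im - ω₁.im * ω₂.re) = 0 := by linear_combination ω₁.re * c2 - ω₁.im * c1
  constructor
  · rcases mul_eq_zero.mp d1 with h | h
    · exact h
    · exact absurd h hdet.ne'
  · rcases mul_eq_zero.mp d2 with h | h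
    · exact h
    · exact absurd h hdet.ne'

private theorem RDir_exists_real (S : Setting 1 X) {v : Vd 2} (hD : v ≠ 0)
    (hne : ∀ ω₁ ω₂ : ℂ, LinearIndependent ℝ ![ω₁, ω₂] → ω₁ • v ∈ S.Λ → ω₂ • v ∉ S.Λ) :
    ∃ e : Vd 2, RDir_om v e ≠ 0 ∧ ∀ (t : ℝ) (ε : ℝ), 0 < ε → ∃ z : ℂ, ∃ l ∈ S.Λ, ‖z • v + l - (t : ℂ) • e‖ < ε := by
  obtain ⟨C, hC⟩ := S.cpt
  obtain ⟨w₁, hw₁, hdec⟩ := RDir_dual hD
  have hsm : ∀ n : ℕ, ∃ l ∈ S.Λ, 0 < ‖RDir_om v l‖ ∧ ‖RDir_om v l‖ < 1 / ((n : ℝ) + 1) := fun n =>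
    RDir_small hD hC hne (by positivity)
  choose l hl hl0 hl1 using hsm
  have hsph : ∀ n, RDir_om v (l n) / (‖RDir_om v (l n)‖ : ℂ) ∈ sphere (0 : ℂ) 1 := by
    intro n
    rw [mem_sphere_zero_iff_norm, norm_div, Complex.norm_real, norm_norm]
    exact div_self (hl0 n).ne'
  obtain ⟨θ, hθ, φ, hφ, hlim⟩ := (isCompact_sphere (0 : ℂ) 1).tendsto_subseq hsph
  rw [mem_sphere_zero_iff_norm] at hθ
  have hθ0 : θ ≠ 0 := by
    intro h
    rw [h, norm_zero] at hθ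
    exact zero_ne_one hθ
  have hw1n : 0 < ‖w₁‖ := by
    rw [norm_pos_iff]
    rintro rfl
    rw [show RDir_om v (0 : Vd 2) = 0 by simp [RDir_om]] at hw₁
    exact zero_ne_one hw₁
  refine ⟨θ • w₁, ?_, ?_⟩
  · rw [RDir_om_smul, hw₁, mul_one]
    exact hθ0
  · intro t ε hε
    -- a small number
    set δ : ℝ := ε / ‖w₁‖ / 2 with hδ
    have hδ0 : 0 < δ := by positivity
    have e1 : ∀ᶠ n in atTop, dist (RDir_om v (l (φ n)) / (‖RDir_om v (l (φ n))‖ : ℂ)) θ < δ / (|t| + 1) :=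
      (Metric.tendsto_nhds.mp hlim) _ (by positivity)
    have e2 : ∀ᶠ n : ℕ in atTop, 1 / ((n : ℝ) + 1) < δ := by
      have := tendsto_one_div_add_atTop_nhds_zero_nat (𝕜 := ℝ)
      exact this.eventually (gt_mem_nhds hδ0)
    obtain ⟨n, hn1, hn2⟩ := (e1.and e2).exists
    have hh : ‖RDir_om v (l (φ n))‖ < δ := by
      refine (hl1 (φ n)).trans_le (le_trans ?_ hn2.le)
      apply one_div_le_one_div_of_le (by positivity)
      have : (n : ℝ) ≤ φ n := by exact_mod_cast hφ.le_apply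
      linarith
    have hh0 := hl0 (φ n)
    rw [dist_eq_norm] at hn1
    generalize hL : l (φ n) = L at *
    have hLΛ : L ∈ S.Λ := by
      rw [← hL]
      exact hl (φ n)
    generalize hh' : RDir_om v L = h at *
    set k : ℤ := ⌊t / ‖h‖⌋ with hk
    have hk1 : |(k : ℝ) * ‖h‖ - t| ≤ ‖h‖ := by
      have f1 : (k : ℝ) ≤ t / ‖h‖ := Int.floor_le _
      have f2 : t / ‖h‖ < k + 1 := Int.lt_floor_add_one _
      rw [le_div_iff₀ hh0] at f1
      rw [div_lt_iff₀ hh0] at f2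
      rw [abs_le]
      constructor <;> nlinarith
    have hsmall : ‖(k : ℂ) * h - (t : ℂ) * θ‖ < ε / ‖w₁‖ := by
      have g1 : (k : ℂ) * h - (t : ℂ) * θ
          = (((k : ℝ) * ‖h‖ - t : ℝ) : ℂ) * (h / (‖h‖ : ℂ)) + (t : ℂ) * (h / (‖h‖ : ℂ) - θ) := by
        have : (‖h‖ : ℂ) ≠ 0 := by
          exact_mod_cast hh0.ne'
        push_cast
        field_simp
        ring
      have g2 : ‖h / (‖h‖ : ℂ)‖ = 1 := by
        rw [norm_div, Complex.norm_real, norm_norm]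
        exact div_self hh0.ne'
      have g3 : ‖(t : ℂ) * (h / (‖h‖ : ℂ) - θ)‖ ≤ δ := by
        rw [norm_mul, Complex.norm_real, Real.norm_eq_abs]
        have : |t| * ‖h / (‖h‖ : ℂ) - θ‖ ≤ |t| * (δ / (|t| + 1)) :=
          mul_le_mul_of_nonneg_left hn1.le (abs_nonneg _)
        refine this.trans ?_
        rw [mul_div_assoc', div_le_iff₀ (by positivity)]
        nlinarith [abs_nonneg t]
      have g4 : ‖(((k : ℝ) * ‖h‖ - t : ℝ) : ℂ) * (h / (‖h‖ : ℂ))‖ < δ := by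
        rw [norm_mul, g2, mul_one, Complex.norm_real, Real.norm_eq_abs]
        exact hk1.trans_lt hh
      rw [g1]
      have : ε / ‖w₁‖ = δ + δ := by
        rw [hδ]
        ring
      rw [this]
      exact (norm_add_le _ _).trans_lt (by linarith)
    obtain ⟨z, hz⟩ := hdec (k • L - (t : ℂ) • θ • w₁)
    refine ⟨-z, k • L, S.Λ.zsmul_mem hLΛ k, ?_⟩
    have hom : RDir_om v (k • L - (t : ℂ) • θ • w₁) = (k : ℂ) * h - (t : ℂ) * θ := by
      rw [RDir_om_sub, RDir_om_zsmul, RDir_om_smul, RDir_om_smul, hw₁, hh', mul_one]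
    rw [hom] at hz
    have hfin : -z • v + k • L - (t : ℂ) • θ • w₁ = ((k : ℂ) * h - (t : ℂ) * θ) • w₁ := by
      rw [add_sub_assoc, hz, neg_smul]
      abel
    rw [hfin, norm_smul]
    rwa [lt_div_iff₀ hw1n] at hsmall

theorem Setting.dir_of_nonell (S : Setting 1 X) {v : Vd 2} (hv : v ≠ 0) (hne : ∀ ω₁ ω₂ : ℂ, LinearIndependent ℝ ![ω₁, ω₂] → ω₁ • v ∈ S.Λ → ω₂ • v ∉ S.Λ) : S.Dir v := by
  obtain ⟨e, he, hr⟩ := RDir_exists_real S hv hne
  refine ⟨hv, fun _ => e, ?_, fun _ => hr⟩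
  rw [linearIndependent_finCons]
  have he0 : e ≠ 0 := by
    rintro rfl
    exact he (by simp [RDir_om])
  refine ⟨?_, ?_⟩
  · rw [linearIndependent_unique_iff]
    exact he0
  · intro hmem
    rw [Set.range_const, Submodule.mem_span_singleton] at hmem
    obtain ⟨a, rfl⟩ := hmem
    apply he
    simp only [RDir_om, Pi.smul_apply, smul_eq_mul]
    ring

end Pool.Agent.TN
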